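import Mathlib

/-!
# Maximality of `log |F|`

`F` holomorphic on an open subset of `ℂ^w` with values in `ℂ^w`, without zeros, `p` holomorphic: the
maximum of `|p| / |F|` over a compact set is attained on its frontier.
-/

namespace Pool.Agent.Lib.MP_209724_lc.GS

open Filter Topology Metric Set
open scoped ComplexConjugate InnerProductSpace

/-- `ℂ^w` with the Euclidean norm -/
abbrev Ew (w : ℕ) : Type := EuclideanSpace ℂ (Fin w)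

theorem exists_dir {w : ℕ} (L : Ew w →L[ℂ] Ew w) {c : Ew w} (hc : c ≠ 0) :
    ∃ a : Ew w, a ≠ 0 ∧ ∃ μ : ℂ, L a = μ • c := by
  by_cases hL : Function.Injective L
  · have hs : Function.Surjective (L : Ew w →ₗ[ℂ] Ew w) :=
      LinearMap.injective_iff_surjective.1 hL
    obtain ⟨a, ha⟩ := hs c
    refine ⟨a, ?_, 1, by rw [one_smul]; exact ha⟩
    rintro rfl
    apply hc
    rw [← ha, map_zero]
  · have h1 : ¬ ∀ a, L a = 0 → a = 0 := fun h => hL ((injective_iff_map_eq_zero L).2 h)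
    push Not at h1
    obtain ⟨a, ha, ha0⟩ := h1
    exact ⟨a, ha0, 0, by rw [ha, zero_smul]⟩

/-- a function vanishing to second order -/
theorem second_order {E : Type} [NormedAddCommGroup E] [NormedSpace ℂ E] [CompleteSpace E]
    {f : ℂ → E} (hf : AnalyticAt ℂ f 0) (h0 : f 0 = 0) (h1 : deriv f 0 = 0) :
    ∃ C : ℝ, 0 ≤ C ∧ ∀ᶠ z in 𝓝 (0 : ℂ), ‖f z‖ ≤ C * ‖z‖ ^ 2 := by
  obtain ⟨q, hq⟩ := hf
  have h2 := hq.isBigO_sub_partialSum_pow 2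
  have h3 : ∀ z, q.partialSum 2 z = 0 := by
    intro z
    simp only [FormalMultilinearSeries.partialSum, Finset.sum_range_succ, Finset.sum_range_zero,
      zero_add]
    have e0 : q 0 (fun _ => z) = f 0 := by
      rw [← hq.coeff_zero (fun _ => z)]
    have e1 : q 1 (fun _ => z) = 0 := by
      have h4 : q 1 (fun _ => z) = z • q 1 (fun _ => (1 : ℂ)) := by
        have := (q 1).map_smul_univ (fun _ => z) (fun _ => (1 : ℂ))
        simp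
      rw [h4, ← hq.deriv, h1, smul_zero]
    rw [e0, e1, h0, add_zero]
  simp only [zero_add, h3, sub_zero] at h2
  obtain ⟨C, hC, h4⟩ := h2.exists_nonneg
  refine ⟨C, hC, ?_⟩
  filter_upwards [h4.bound] with z hz
  simpa using hz

/-- the local part: an interior maximum is impossible -/
theorem no_local_max {w : ℕ} {D : Set (Ew w)} (hD : IsOpen D) {F : Ew w → Ew w}
    {p : Ew w → ℂ} (hF : DifferentiableOn ℂ F D) (hp : DifferentiableOn ℂ p D) {x : Ew w}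
    (hx : x ∈ D) (hc : F x ≠ 0) (hpx : p x ≠ 0) {ε : ℝ} (hε : 0 < ε) :
    ¬ ∀ᶠ y in 𝓝 x, ‖p y‖ * Real.exp (ε * ‖y‖ ^ 2) * ‖F x‖ ≤
      ‖p x‖ * Real.exp (ε * ‖x‖ ^ 2) * ‖F y‖ := by
  intro hmax
  set c : Ew w := F x with hcdef
  obtain ⟨a, ha, μ, hμ⟩ := exists_dir (fderiv ℂ F x) hc
  have hc2 : (0 : ℝ) < ‖c‖ ^ 2 := by positivity
  -- the line
  set ℓ : ℂ → Ew w := fun z => x + z • a with hℓ
  have hℓc : Continuous ℓ := by fun_prop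
  have hℓd : Differentiable ℂ ℓ := by fun_prop
  have hℓ0 : ℓ 0 = x := by simp [hℓ]
  have hℓD : ℓ ⁻¹' D ∈ 𝓝 (0 : ℂ) := hℓc.continuousAt.preimage_mem_nhds (by
    rw [hℓ0]; exact hD.mem_nhds hx)
  have hopen : IsOpen (ℓ ⁻¹' D) := hD.preimage hℓc
  have hG : AnalyticAt ℂ (fun z => F (ℓ z)) 0 :=
    (hF.comp hℓd.differentiableOn fun z hz => hz).analyticAt hℓD
  have hP : AnalyticAt ℂ (fun z => p (ℓ z)) 0 :=
    (hp.comp hℓd.differentiableOn fun z hz => hz).analyticAt hℓD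
  have hG' : HasDerivAt (fun z => F (ℓ z)) (μ • c) 0 := by
    have h1 : HasFDerivAt F (fderiv ℂ F x) (ℓ 0) := by
      rw [hℓ0]; exact (hF.differentiableAt (hD.mem_nhds hx)).hasFDerivAt
    have h2 : HasDerivAt ℓ a 0 := by
      have := ((hasDerivAt_id (0 : ℂ)).smul_const a).const_add x
      simpa [hℓ] using this
    have h3 := h1.comp_hasDerivAt (0 : ℂ) h2
    rw [hμ] at h3
    exact h3
  -- component along `c`
  set F1 : ℂ → ℂ := fun z => innerSL ℂ c (F (ℓ z)) with hF1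
  have hF1a : AnalyticAt ℂ F1 0 := (innerSL ℂ c).analyticAt _ |>.comp hG
  have hF10 : F1 0 = ((‖c‖ ^ 2 : ℝ) : ℂ) := by
    simp only [hF1, hℓ0, ← hcdef, innerSL_apply_apply]
    rw [inner_self_eq_norm_sq_to_K]
    simp
  have hF1' : HasDerivAt F1 (μ * ((‖c‖ ^ 2 : ℝ) : ℂ)) 0 := by
    have h1 := (innerSL ℂ c).hasFDerivAt.comp_hasDerivAt (0 : ℂ) hG'
    have h2 : (innerSL ℂ c) (μ • c) = μ * ((‖c‖ ^ 2 : ℝ) : ℂ) := by
      rw [map_smul, innerSL_apply_apply, inner_self_eq_norm_sq_to_K]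
      simp
    rw [h2] at h1
    exact h1
  -- the orthogonal component
  set Gp : ℂ → Ew w := fun z => F (ℓ z) - (F1 z / ((‖c‖ ^ 2 : ℝ) : ℂ)) • c with hGp
  have hc2' : ((‖c‖ ^ 2 : ℝ) : ℂ) ≠ 0 := by exact_mod_cast hc2.ne'
  have hGpa : AnalyticAt ℂ Gp 0 :=
    hG.sub ((hF1a.div_const).smul analyticAt_const)
  have hGp0 : Gp 0 = 0 := by
    simp only [hGp, hF10, div_self hc2', one_smul, hℓ0, ← hcdef, sub_self]
  have hGp' : deriv Gp 0 = 0 := by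
    have h1 := hG'.sub ((hF1'.div_const ((‖c‖ ^ 2 : ℝ) : ℂ)).smul_const c)
    have h2 : μ • c - (μ * ((‖c‖ ^ 2 : ℝ) : ℂ) / ((‖c‖ ^ 2 : ℝ) : ℂ)) • c = 0 := by
      rw [mul_div_cancel_right₀ _ hc2', sub_self]
    rw [h2] at h1
    exact h1.deriv
  obtain ⟨C, hC, hGpC⟩ := second_order hGpa hGp0 hGp'
  -- orthogonality
  have horth : ∀ z, ‖F (ℓ z)‖ ^ 2 = ‖F1 z‖ ^ 2 / ‖c‖ ^ 2 + ‖Gp z‖ ^ 2 := by
    intro z
    have h1 : F (ℓ z) = (F1 z / ((‖c‖ ^ 2 : ℝ) : ℂ)) • c + Gp z := by simp [hGp]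
    have h2 : ⟪(F1 z / ((‖c‖ ^ 2 : ℝ) : ℂ)) • c, Gp z⟫_ℂ = 0 := by
      rw [inner_smul_left]
      have : ⟪c, Gp z⟫_ℂ = 0 := by
        simp only [hGp, inner_sub_right, inner_smul_right, inner_self_eq_norm_sq_to_K]
        have e : F1 z = ⟪c, F (ℓ z)⟫_ℂ := by simp [hF1]
        rw [e]
        have e2 : (RCLike.ofReal ‖c‖ : ℂ) ^ 2 = ((‖c‖ ^ 2 : ℝ) : ℂ) := by
          simp
        rw [e2, div_mul_cancel₀ _ hc2', sub_self]
      rw [this, mul_zero]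
    have h3 := norm_add_sq_eq_norm_sq_add_norm_sq_of_inner_eq_zero _ _ h2
    rw [← h1] at h3
    have h4 : ‖(F1 z / ((‖c‖ ^ 2 : ℝ) : ℂ)) • c‖ = ‖F1 z‖ / ‖c‖ := by
      rw [norm_smul, norm_div, Complex.norm_real, Real.norm_of_nonneg hc2.le]
      have : ‖c‖ ≠ 0 := norm_ne_zero_iff.2 hc
      field_simp
    rw [h4] at h3
    rw [sq, h3]
    ring
  -- the auxiliary holomorphic function
  set g : ℂ → ℂ := fun z => p (ℓ z) * Complex.exp (2 * ε * ⟪x, a⟫_ℂ * z) / F1 z with hg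
  have hga : AnalyticAt ℂ g 0 := by
    refine (hP.mul ?_).div hF1a ?_
    · exact (analyticAt_const.mul analyticAt_id).cexp
    · rw [hF10]; exact hc2'
  have hg0 : ‖g 0‖ = ‖p x‖ / ‖c‖ ^ 2 := by
    simp only [hg, hF10, hℓ0, mul_zero, Complex.exp_zero, mul_one, norm_div, Complex.norm_real,
      Real.norm_of_nonneg hc2.le]
  have hg0' : 0 < ‖g 0‖ := by rw [hg0]; positivity
  -- estimates near 0
  have hnear1 : ∀ᶠ z in 𝓝 (0 : ℂ), ‖c‖ ^ 2 / 2 ≤ ‖F1 z‖ := by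
    have h1 : Tendsto (fun z => ‖F1 z‖) (𝓝 0) (𝓝 (‖c‖ ^ 2)) := by
      have := hF1a.continuousAt.norm
      have e : ‖F1 0‖ = ‖c‖ ^ 2 := by
        rw [hF10, Complex.norm_real, Real.norm_of_nonneg hc2.le]
      rw [ContinuousAt, e] at this
      exact this
    exact h1.eventually (le_mem_nhds (by linarith))
  have hnear2 : ∀ᶠ z in 𝓝 (0 : ℂ), ‖p (ℓ z)‖ * Real.exp (ε * ‖ℓ z‖ ^ 2) * ‖c‖ ≤
      ‖p x‖ * Real.exp (ε * ‖x‖ ^ 2) * ‖F (ℓ z)‖ := by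
    have h1 : Tendsto ℓ (𝓝 0) (𝓝 x) := by
      have := hℓc.continuousAt (x := (0 : ℂ))
      rw [ContinuousAt, hℓ0] at this
      exact this
    exact h1.eventually hmax
  have hnorm : ∀ z, ‖ℓ z‖ ^ 2 = ‖x‖ ^ 2 + 2 * (⟪x, a⟫_ℂ * z).re + ‖z‖ ^ 2 * ‖a‖ ^ 2 := by
    intro z
    have h1 := norm_add_sq (𝕜 := ℂ) x (z • a)
    rw [inner_smul_right, norm_smul, mul_pow] at h1
    simp only [hℓ]
    rw [h1]
    have : RCLike.re (z * ⟪x, a⟫_ℂ) = (⟪x, a⟫_ℂ * z).re := by rw [mul_comm]; rfl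
    rw [this]
  set κ : ℝ := 2 * ε * ‖a‖ ^ 2 with hκ
  have hκ0 : 0 < κ := by positivity
  set C' : ℝ := 4 * C ^ 2 / ‖c‖ ^ 2 with hC'
  have hC'0 : 0 ≤ C' := by positivity
  have hkey : ∀ᶠ z in 𝓝 (0 : ℂ), ‖g z‖ ^ 2 ≤
      ‖g 0‖ ^ 2 * Real.exp (C' * (‖z‖ ^ 2) ^ 2 - κ * ‖z‖ ^ 2) := by
    filter_upwards [hnear1, hnear2, hGpC] with z h1 h2 h3
    have hF1pos : 0 < ‖F1 z‖ := lt_of_lt_of_le (by positivity) h1
    have e1 : ‖g z‖ ^ 2 = ‖p (ℓ z)‖ ^ 2 * Real.exp (2 * ε * (2 * (⟪x, a⟫_ℂ * z).re)) /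
        ‖F1 z‖ ^ 2 := by
      simp only [hg, norm_div, norm_mul, Complex.norm_exp, div_pow, mul_pow]
      congr 2
      rw [← Real.exp_nat_mul]
      congr 1
      have : (2 * (ε : ℂ) * ⟪x, a⟫_ℂ * z) = ((2 * ε : ℝ) : ℂ) * (⟪x, a⟫_ℂ * z) := by
        push_cast; ring
      rw [this, Complex.re_ofReal_mul]
      push_cast; ring
    have e2 : (‖p (ℓ z)‖ * Real.exp (ε * ‖ℓ z‖ ^ 2) * ‖c‖) ^ 2 ≤
        (‖p x‖ * Real.exp (ε * ‖x‖ ^ 2) * ‖F (ℓ z)‖) ^ 2 :=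
      pow_le_pow_left₀ (by positivity) h2 2
    rw [mul_pow, mul_pow, mul_pow, mul_pow, ← Real.exp_nat_mul, ← Real.exp_nat_mul] at e2
    have e3 : ‖F (ℓ z)‖ ^ 2 ≤ ‖F1 z‖ ^ 2 / ‖c‖ ^ 2 * Real.exp (C' * (‖z‖ ^ 2) ^ 2) := by
      rw [horth z]
      have h4 : ‖Gp z‖ ^ 2 ≤ C ^ 2 * (‖z‖ ^ 2) ^ 2 := by
        calc ‖Gp z‖ ^ 2 ≤ (C * ‖z‖ ^ 2) ^ 2 := pow_le_pow_left₀ (norm_nonneg _) h3 2
          _ = _ := by ring
      have h5 : ‖c‖ ^ 2 / 4 ≤ ‖F1 z‖ ^ 2 / ‖c‖ ^ 2 := by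
        rw [le_div_iff₀ hc2]
        calc ‖c‖ ^ 2 / 4 * ‖c‖ ^ 2 = (‖c‖ ^ 2 / 2) ^ 2 := by ring
          _ ≤ ‖F1 z‖ ^ 2 := pow_le_pow_left₀ (by positivity) h1 2
      have h6 : C ^ 2 * (‖z‖ ^ 2) ^ 2 ≤ ‖F1 z‖ ^ 2 / ‖c‖ ^ 2 * (C' * (‖z‖ ^ 2) ^ 2) := by
        have h7 : C ^ 2 * (‖z‖ ^ 2) ^ 2 = ‖c‖ ^ 2 / 4 * (C' * (‖z‖ ^ 2) ^ 2) := by
          rw [hC']; field_simp
        rw [h7]
        exact mul_le_mul_of_nonneg_right h5 (by positivity)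
      have h8 : 1 + C' * (‖z‖ ^ 2) ^ 2 ≤ Real.exp (C' * (‖z‖ ^ 2) ^ 2) := by
        rw [add_comm]; exact Real.add_one_le_exp _
      calc ‖F1 z‖ ^ 2 / ‖c‖ ^ 2 + ‖Gp z‖ ^ 2
          ≤ ‖F1 z‖ ^ 2 / ‖c‖ ^ 2 * (1 + C' * (‖z‖ ^ 2) ^ 2) := by linarith
        _ ≤ _ := mul_le_mul_of_nonneg_left h8 (by positivity)
    have e4 : ‖p (ℓ z)‖ ^ 2 * Real.exp (2 * ε * ‖ℓ z‖ ^ 2) * ‖c‖ ^ 2 ≤
        ‖p x‖ ^ 2 * Real.exp (2 * ε * ‖x‖ ^ 2) *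
          (‖F1 z‖ ^ 2 / ‖c‖ ^ 2 * Real.exp (C' * (‖z‖ ^ 2) ^ 2)) := by
      have e5 : ((2 : ℕ) : ℝ) * (ε * ‖ℓ z‖ ^ 2) = 2 * ε * ‖ℓ z‖ ^ 2 := by push_cast; ring
      have e6 : ((2 : ℕ) : ℝ) * (ε * ‖x‖ ^ 2) = 2 * ε * ‖x‖ ^ 2 := by push_cast; ring
      rw [e5, e6] at e2
      refine e2.trans ?_
      exact mul_le_mul_of_nonneg_left e3 (by positivity)
    have e7 : Real.exp (2 * ε * ‖ℓ z‖ ^ 2) = Real.exp (2 * ε * ‖x‖ ^ 2) *
        Real.exp (2 * ε * (2 * (⟪x, a⟫_ℂ * z).re)) * Real.exp (κ * ‖z‖ ^ 2) := by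
      rw [← Real.exp_add, ← Real.exp_add, hnorm z]
      congr 1
      rw [hκ]; ring
    rw [e7] at e4
    have hX := Real.exp_pos (2 * ε * ‖x‖ ^ 2)
    have e8 : ‖p (ℓ z)‖ ^ 2 * Real.exp (2 * ε * (2 * (⟪x, a⟫_ℂ * z).re)) *
        Real.exp (κ * ‖z‖ ^ 2) * ‖c‖ ^ 2 ≤
        ‖p x‖ ^ 2 * (‖F1 z‖ ^ 2 / ‖c‖ ^ 2 * Real.exp (C' * (‖z‖ ^ 2) ^ 2)) := by
      refine le_of_mul_le_mul_left ?_ hX
      calc _ = _ := by ring
        _ ≤ _ := e4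
        _ = _ := by ring
    rw [e1, hg0, div_pow, Real.exp_sub, div_le_iff₀ (by positivity)]
    have hE := Real.exp_pos (κ * ‖z‖ ^ 2)
    refine le_of_mul_le_mul_right ?_ (show 0 < Real.exp (κ * ‖z‖ ^ 2) * ‖c‖ ^ 2 by positivity)
    calc ‖p (ℓ z)‖ ^ 2 * Real.exp (2 * ε * (2 * (⟪x, a⟫_ℂ * z).re)) *
          (Real.exp (κ * ‖z‖ ^ 2) * ‖c‖ ^ 2)
        = ‖p (ℓ z)‖ ^ 2 * Real.exp (2 * ε * (2 * (⟪x, a⟫_ℂ * z).re)) *
          Real.exp (κ * ‖z‖ ^ 2) * ‖c‖ ^ 2 := by ring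
      _ ≤ ‖p x‖ ^ 2 * (‖F1 z‖ ^ 2 / ‖c‖ ^ 2 * Real.exp (C' * (‖z‖ ^ 2) ^ 2)) := e8
      _ = _ := by field_simp
  -- strict inequality near 0
  have hstrict : ∀ᶠ z in 𝓝[≠] (0 : ℂ), ‖g z‖ < ‖g 0‖ := by
    have h1 : ∀ᶠ z in 𝓝 (0 : ℂ), C' * ‖z‖ ^ 2 < κ := by
      have : Tendsto (fun z : ℂ => C' * ‖z‖ ^ 2) (𝓝 0) (𝓝 (C' * ‖(0 : ℂ)‖ ^ 2)) := by
        apply Continuous.tendsto; fun_prop
      rw [norm_zero] at this
      refine this.eventually (gt_mem_nhds ?_)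
      simpa using hκ0
    filter_upwards [nhdsWithin_le_nhds hkey, nhdsWithin_le_nhds h1, self_mem_nhdsWithin]
      with z h2 h3 h4
    have hz : 0 < ‖z‖ := norm_pos_iff.2 h4
    have h5 : Real.exp (C' * (‖z‖ ^ 2) ^ 2 - κ * ‖z‖ ^ 2) < 1 := by
      rw [Real.exp_lt_one_iff]
      have : C' * (‖z‖ ^ 2) ^ 2 - κ * ‖z‖ ^ 2 = (C' * ‖z‖ ^ 2 - κ) * ‖z‖ ^ 2 := by ring
      rw [this]
      exact mul_neg_of_neg_of_pos (by linarith) (by positivity)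
    have h6 : ‖g z‖ ^ 2 < ‖g 0‖ ^ 2 := by
      refine lt_of_le_of_lt h2 ?_
      have : ‖g 0‖ ^ 2 * Real.exp (C' * (‖z‖ ^ 2) ^ 2 - κ * ‖z‖ ^ 2) < ‖g 0‖ ^ 2 * 1 :=
        mul_lt_mul_of_pos_left h5 (by positivity)
      linarith
    exact lt_of_pow_lt_pow_left₀ 2 (norm_nonneg _) h6
  have hlm : IsLocalMax (fun z => ‖g z‖) 0 := by
    have h1 : ∀ᶠ z in 𝓝 (0 : ℂ), z ≠ 0 → ‖g z‖ < ‖g 0‖ := by
      rwa [eventually_nhdsWithin_iff] at hstrict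
    filter_upwards [h1] with z hz
    by_cases h : z = 0
    · rw [h]
    · exact (hz h).le
  have hev := Complex.norm_eventually_eq_of_isLocalMax
    (hga.eventually_analyticAt.mono fun z hz => hz.differentiableAt) hlm
  have h2 : ∀ᶠ z in 𝓝[≠] (0 : ℂ), False := by
    filter_upwards [hstrict, nhdsWithin_le_nhds hev] with z h3 h4
    rw [h4] at h3
    exact lt_irrefl _ h3
  exact (inferInstance : (𝓝[≠] (0 : ℂ)).NeBot).ne (by simpa using h2)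

theorem frontier_nonempty_of_compact {w : ℕ} (hw : w ≠ 0) {K : Set (Ew w)} (hK : IsCompact K)
    (hne : K.Nonempty) : (frontier K).Nonempty := by
  have : Nonempty (Fin w) := ⟨⟨0, Nat.pos_of_ne_zero hw⟩⟩
  have : Nontrivial (Ew w) := inferInstance
  by_contra h
  rw [Set.not_nonempty_iff_eq_empty] at h
  have h1 : IsClopen K := by rw [isClopen_iff_frontier_eq_empty]; exact h
  rcases isClopen_iff.1 h1 with h2 | h2
  · exact hne.ne_empty h2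
  · rw [h2] at hK
    have : NormedSpace ℝ (Ew w) := NormedSpace.restrictScalars ℝ ℂ (Ew w)
    have : NoncompactSpace (Ew w) := NormedSpace.noncompactSpace ℂ (Ew w)
    exact noncompact_univ (Ew w) hK

/-- **Maximality.**  `|p| / |F|` attains its maximum on the frontier. -/
theorem maximality {w : ℕ} {D : Set (Ew w)} (hD : IsOpen D) {K : Set (Ew w)} (hK : IsCompact K)
    (hKD : K ⊆ D) {F : Ew w → Ew w} {p : Ew w → ℂ} (hF : DifferentiableOn ℂ F D)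
    (hp : DifferentiableOn ℂ p D) (hF0 : ∀ x ∈ K, F x ≠ 0) {x0 : Ew w} (hx0 : x0 ∈ K) :
    ∃ x ∈ frontier K, ‖p x0‖ * ‖F x‖ ≤ ‖p x‖ * ‖F x0‖ := by
  have hw : w ≠ 0 := by
    rintro rfl
    exact hF0 x0 hx0 (Subsingleton.elim _ _)
  have hfr : (frontier K).Nonempty := frontier_nonempty_of_compact hw hK ⟨x0, hx0⟩
  have hFx0 : 0 < ‖F x0‖ := norm_pos_iff.2 (hF0 x0 hx0)
  by_cases hpx0 : p x0 = 0
  · obtain ⟨x, hx⟩ := hfr
    exact ⟨x, hx, by rw [hpx0, norm_zero, zero_mul]; positivity⟩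
  have hpx0' : 0 < ‖p x0‖ := norm_pos_iff.2 hpx0
  have hFK : ContinuousOn F K := (hF.continuousOn).mono hKD
  have hpK : ContinuousOn p K := (hp.continuousOn).mono hKD
  -- the maximum for positive `ε`
  have hstep : ∀ ε : ℝ, 0 < ε → ∃ x ∈ frontier K,
      ‖p x0‖ * Real.exp (ε * ‖x0‖ ^ 2) * ‖F x‖ ≤ ‖p x‖ * Real.exp (ε * ‖x‖ ^ 2) * ‖F x0‖ := by
    intro ε hε
    have hcont : ContinuousOn (fun x => ‖p x‖ * Real.exp (ε * ‖x‖ ^ 2) / ‖F x‖) K := by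
      refine ((hpK.norm).mul ?_).div hFK.norm fun x hx => norm_ne_zero_iff.2 (hF0 x hx)
      exact (Continuous.continuousOn (by fun_prop))
    obtain ⟨x, hx, hmax⟩ := hK.exists_isMaxOn ⟨x0, hx0⟩ hcont
    have hmul : ∀ y ∈ K, ‖p y‖ * Real.exp (ε * ‖y‖ ^ 2) * ‖F x‖ ≤
        ‖p x‖ * Real.exp (ε * ‖x‖ ^ 2) * ‖F y‖ := by
      intro y hy
      have h1 := hmax hy
      simp only [Set.mem_ofPred_eq] at h1
      rwa [div_le_div_iff₀ (norm_pos_iff.2 (hF0 y hy)) (norm_pos_iff.2 (hF0 x hx))] at h1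
    refine ⟨x, ?_, hmul x0 hx0⟩
    have hpx : p x ≠ 0 := by
      intro h0
      have h1 := hmul x0 hx0
      rw [h0, norm_zero, zero_mul, zero_mul] at h1
      have h2 : 0 < ‖p x0‖ * Real.exp (ε * ‖x0‖ ^ 2) * ‖F x‖ := by
        have := norm_pos_iff.2 (hF0 x hx)
        positivity
      linarith
    have hnot : x ∉ interior K := by
      intro hint
      refine no_local_max hD hF hp (hKD hx) (hF0 x hx) hpx hε ?_
      filter_upwards [mem_interior_iff_mem_nhds.1 hint] with y hy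
      exact hmul y hy
    exact ⟨subset_closure hx, hnot⟩
  -- the limit
  by_contra hcon
  push Not at hcon
  have hKc : IsClosed K := hK.isClosed
  have hfrK : frontier K ⊆ K := hKc.frontier_subset
  have hfrc : IsCompact (frontier K) := hK.of_isClosed_subset isClosed_frontier hfrK
  have hcont : ContinuousOn (fun x => ‖p x‖ * ‖F x0‖ / (‖p x0‖ * ‖F x‖)) (frontier K) := by
    refine (((hpK.mono hfrK).norm).mul continuousOn_const).div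
      (continuousOn_const.mul (hFK.mono hfrK).norm) fun x hx => ?_
    exact (mul_pos hpx0' (norm_pos_iff.2 (hF0 x (hfrK hx)))).ne'
  obtain ⟨m, hm, hmax⟩ := hfrc.exists_isMaxOn hfr hcont
  set M : ℝ := ‖p m‖ * ‖F x0‖ / (‖p x0‖ * ‖F m‖) with hM
  have hM0 : 0 ≤ M := by positivity
  have hM1 : M < 1 := by
    rw [hM, div_lt_one (mul_pos hpx0' (norm_pos_iff.2 (hF0 m (hfrK hm))))]
    exact hcon m hm
  obtain ⟨R, hR⟩ := hK.isBounded.exists_norm_le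
  have hR0 : 0 ≤ R := (norm_nonneg _).trans (hR x0 hx0)
  have htend : Tendsto (fun ε : ℝ => Real.exp (ε * R ^ 2) * M) (𝓝[>] 0) (𝓝 M) := by
    have h1 : Tendsto (fun ε : ℝ => Real.exp (ε * R ^ 2) * M) (𝓝 0)
        (𝓝 (Real.exp (0 * R ^ 2) * M)) := by
      apply Continuous.tendsto
      fun_prop
    rw [zero_mul, Real.exp_zero, one_mul] at h1
    exact h1.mono_left nhdsWithin_le_nhds
  obtain ⟨ε, hε1, hε⟩ := ((htend.eventually (gt_mem_nhds hM1)).and self_mem_nhdsWithin).exists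
  have hε0 : 0 < ε := hε
  obtain ⟨x, hx, hle⟩ := hstep ε hε0
  have hFx : 0 < ‖F x‖ := norm_pos_iff.2 (hF0 x (hfrK hx))
  have h1 : ‖p x‖ * ‖F x0‖ ≤ M * (‖p x0‖ * ‖F x‖) := by
    have h2 := hmax hx
    simp only [Set.mem_ofPred_eq] at h2
    rwa [div_le_iff₀ (by positivity)] at h2
  have h3 : Real.exp (ε * ‖x‖ ^ 2) ≤ Real.exp (ε * R ^ 2) := by
    apply Real.exp_le_exp.2
    exact mul_le_mul_of_nonneg_left (pow_le_pow_left₀ (norm_nonneg _) (hR x (hfrK hx)) 2) hε0.le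
  have h4 : 1 ≤ Real.exp (ε * ‖x0‖ ^ 2) := Real.one_le_exp (by positivity)
  have h5 : ‖p x0‖ * ‖F x‖ ≤ ‖p x0‖ * Real.exp (ε * ‖x0‖ ^ 2) * ‖F x‖ := by
    have : ‖p x0‖ * Real.exp (ε * ‖x0‖ ^ 2) * ‖F x‖ =
      (‖p x0‖ * ‖F x‖) * Real.exp (ε * ‖x0‖ ^ 2) := by ring
    rw [this]
    exact le_mul_of_one_le_right (by positivity) h4
  have h6 : ‖p x‖ * Real.exp (ε * ‖x‖ ^ 2) * ‖F x0‖ ≤
      (Real.exp (ε * R ^ 2) * M) * (‖p x0‖ * ‖F x‖) := by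
    calc ‖p x‖ * Real.exp (ε * ‖x‖ ^ 2) * ‖F x0‖
        = (‖p x‖ * ‖F x0‖) * Real.exp (ε * ‖x‖ ^ 2) := by ring
      _ ≤ (M * (‖p x0‖ * ‖F x‖)) * Real.exp (ε * R ^ 2) := by gcongr
      _ = _ := by ring
  have h7 : 0 < ‖p x0‖ * ‖F x‖ := by positivity
  have h8 : (Real.exp (ε * R ^ 2) * M) * (‖p x0‖ * ‖F x‖) < 1 * (‖p x0‖ * ‖F x‖) :=
    mul_lt_mul_of_pos_right hε1 h7
  linarith

end Pool.Agent.Lib.MP_209724_lc.GS
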