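import Mathlib
import Pool.Agent.Lib.MP_209724_lc.GS.Max

/-!
# Rings of functions closed under the partial derivatives

Definitions. `DRing n S`: a ring `S` of holomorphic functions on `ℂ^n` with its partial derivatives;
`IsRow`: gradients with coefficients in `S`; `IsCurve`: a holomorphic curve along which all but one
of the functions `φ a` are constant; the ring of exponential polynomials with constant coefficients
(`expRing`) and the ring of polynomials (`polyRing`).
-/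

namespace Pool.Agent.Lib.MP_209724_lc.GS

open Filter Topology Metric Set

/-- A ring of functions on `ℂ^n` with its partial derivatives. -/
structure DRing (n : ℕ) (S : Type) [CommRing S] [Algebra ℂ S] where
  /-- evaluation at a point -/
  ev : Ew n → S →ₐ[ℂ] ℂ
  /-- partial derivatives -/
  D : Fin n → S → S
  hasDeriv : ∀ (F : S) (ξ : Ew n), HasFDerivAt (fun ξ => ev ξ F)
    (∑ k, ev ξ (D k F) • (EuclideanSpace.proj k : Ew n →L[ℂ] ℂ)) ξ

variable {n : ℕ} {S : Type} [CommRing S] [Algebra ℂ S]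

/-- `R` is the gradient of `φ`. -/
def IsRow (𝒟 : DRing n S) (φ : Ew n → ℂ) (R : Fin n → S) : Prop :=
  ∀ ξ, HasFDerivAt φ (∑ k, 𝒟.ev ξ (R k) • (EuclideanSpace.proj k : Ew n →L[ℂ] ℂ)) ξ

theorem isRow_ev (𝒟 : DRing n S) (F : S) :
    IsRow 𝒟 (fun ξ => 𝒟.ev ξ F) (fun k => 𝒟.D k F) := 𝒟.hasDeriv F

theorem isRow_const (𝒟 : DRing n S) (μ : Fin n → ℂ) :
    IsRow 𝒟 (fun ξ => ∑ k, μ k * ξ k) (fun k => algebraMap ℂ S (μ k)) := by
  intro ξ
  have h : (fun ξ : Ew n => ∑ k, μ k * ξ k) =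
      fun ξ => (∑ k, μ k • (EuclideanSpace.proj k : Ew n →L[ℂ] ℂ)) ξ := by
    funext ξ
    simp
  rw [h]
  simp only [AlgHom.commutes, Algebra.algebraMap_self, RingHom.id_apply]
  exact ContinuousLinearMap.hasFDerivAt _

theorem IsRow.continuous {𝒟 : DRing n S} {φ : Ew n → ℂ} {R : Fin n → S} (h : IsRow 𝒟 φ R) :
    Continuous φ :=
  continuous_iff_continuousAt.2 fun ξ => (h ξ).continuousAt

theorem DRing.continuous_ev (𝒟 : DRing n S) (F : S) : Continuous fun ξ => 𝒟.ev ξ F :=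
  (isRow_ev 𝒟 F).continuous

/-- A holomorphic curve through `ξ₀` along which all the functions `φ a`, `a ≠ a₀`, are constant. -/
structure IsCurve (𝒟 : DRing n S) (φ : Fin n → Ew n → ℂ) (R : Matrix (Fin n) (Fin n) S)
    (ξ₀ : Ew n) (a₀ : Fin n) (γ : ℂ → Ew n) (r : ℝ) : Prop where
  pos : 0 < r
  diff : DifferentiableOn ℂ γ (ball 0 r)
  zero : γ 0 = ξ₀
  det : ∀ z ∈ ball (0 : ℂ) r, 𝒟.ev (γ z) R.det ≠ 0
  val : ∀ z ∈ ball (0 : ℂ) r, ∀ a, φ a (γ z) = φ a ξ₀ + if a = a₀ then z else 0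
  deriv : ∀ z ∈ ball (0 : ℂ) r, ∀ (ψ : Ew n → ℂ) (ρ : Fin n → S), IsRow 𝒟 ψ ρ →
    HasDerivAt (fun z => ψ (γ z)) (𝒟.ev (γ z) (R.updateRow a₀ ρ).det / 𝒟.ev (γ z) R.det) z

theorem IsCurve.ne {𝒟 : DRing n S} {φ : Fin n → Ew n → ℂ} {R : Matrix (Fin n) (Fin n) S}
    {ξ₀ : Ew n} {a₀ : Fin n} {γ : ℂ → Ew n} {r : ℝ} (h : IsCurve 𝒟 φ R ξ₀ a₀ γ r) {z : ℂ}
    (hz : z ∈ ball (0 : ℂ) r) (hz0 : z ≠ 0) : γ z ≠ ξ₀ := by
  intro h0
  have h1 := h.val z hz a₀
  rw [h0, if_pos rfl] at h1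
  exact hz0 (by simpa using h1)

/-- common zeros of an ideal -/
def DRing.zeros (𝒟 : DRing n S) (I : Ideal S) : Set (Ew n) := {ξ | ∀ F ∈ I, 𝒟.ev ξ F = 0}

/-- the ideal of the elements vanishing on a set -/
def DRing.van (𝒟 : DRing n S) (E : Set (Ew n)) : Ideal S where
  carrier := {F | ∀ ξ ∈ E, 𝒟.ev ξ F = 0}
  add_mem' := fun {a b} ha hb ξ hξ => by rw [map_add, ha ξ hξ, hb ξ hξ, add_zero]
  zero_mem' := fun ξ _ => map_zero _
  smul_mem' := fun c x hx ξ hξ => by rw [smul_eq_mul, map_mul, hx ξ hξ, mul_zero]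

theorem DRing.mem_van (𝒟 : DRing n S) (E : Set (Ew n)) (F : S) :
    F ∈ 𝒟.van E ↔ ∀ ξ ∈ E, 𝒟.ev ξ F = 0 := Iff.rfl

/-- chain rule for polynomials -/
theorem hasFDerivAt_aeval {E ι : Type} [Fintype ι] [NormedAddCommGroup E] [NormedSpace ℂ E]
    (y : ι → E → ℂ) (y' : ι → E →L[ℂ] ℂ) (ξ : E) (hy : ∀ j, HasFDerivAt (y j) (y' j) ξ)
    (F : MvPolynomial ι ℂ) :
    HasFDerivAt (fun ξ => MvPolynomial.aeval (fun j => y j ξ) F)
      (∑ j, MvPolynomial.aeval (fun j => y j ξ) (MvPolynomial.pderiv j F) • y' j) ξ := by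
  classical
  induction F using MvPolynomial.induction_on with
  | C a =>
    have h1 : (fun ξ => MvPolynomial.aeval (fun j => y j ξ) (MvPolynomial.C a)) =
        fun _ : E => a := by
      funext ξ
      simp
    rw [h1]
    refine (hasFDerivAt_const a ξ).congr_fderiv ?_
    ext v
    simp
  | add p q hp hq =>
    have h1 : (fun ξ => MvPolynomial.aeval (fun j => y j ξ) (p + q)) =
        fun ξ => MvPolynomial.aeval (fun j => y j ξ) p +
          MvPolynomial.aeval (fun j => y j ξ) q := by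
      funext ξ
      rw [map_add]
    rw [h1]
    refine (hp.fun_add hq).congr_fderiv ?_
    ext v
    simp [add_mul, Finset.sum_add_distrib]
  | mul_X p i hp =>
    have h1 : (fun ξ => MvPolynomial.aeval (fun j => y j ξ) (p * MvPolynomial.X i)) =
        fun ξ => MvPolynomial.aeval (fun j => y j ξ) p * y i ξ := by
      funext ξ
      rw [map_mul, MvPolynomial.aeval_X]
    rw [h1]
    refine (hp.fun_mul (hy i)).congr_fderiv ?_
    ext v
    have h2 : ∀ x : ι, MvPolynomial.aeval (fun j => y j ξ)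
        (MvPolynomial.pderiv x (MvPolynomial.X i : MvPolynomial ι ℂ)) =
          if x = i then (1 : ℂ) else 0 := by
      intro x
      by_cases h : x = i
      · subst h; simp
      · rw [MvPolynomial.pderiv_X_of_ne (Ne.symm h), map_zero, if_neg h]
    have h3 : ∀ x : ι, MvPolynomial.aeval (fun j => y j ξ)
        (MvPolynomial.pderiv x (p * MvPolynomial.X i)) =
        MvPolynomial.aeval (fun j => y j ξ) (MvPolynomial.pderiv x p) * y i ξ +
          MvPolynomial.aeval (fun j => y j ξ) p * if x = i then (1 : ℂ) else 0 := by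
      intro x
      rw [MvPolynomial.pderiv_mul, map_add, map_mul, map_mul, MvPolynomial.aeval_X, h2]
    simp only [h3, add_apply, smul_apply, sum_apply, smul_eq_mul, add_mul,
      Finset.sum_add_distrib, mul_ite, mul_one, mul_zero, ite_mul, zero_mul, Finset.sum_ite_eq',
      Finset.mem_univ, if_true]
    rw [Finset.mul_sum, add_comm]
    congr 1
    exact Finset.sum_congr rfl fun j _ => by ring

theorem clm_eq_sum {w : ℕ} (ℓ : Ew w →L[ℂ] ℂ) :
    ℓ = ∑ k, ℓ (EuclideanSpace.single k 1) • (EuclideanSpace.proj k : Ew w →L[ℂ] ℂ) := by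
  classical
  ext v
  have hv : v = ∑ k, v k • EuclideanSpace.single k (1 : ℂ) := by
    ext i
    simp [Finset.sum_apply, Pi.single_apply]
  conv_lhs => rw [hv]
  rw [map_sum, sum_apply]
  refine Finset.sum_congr rfl fun j _ => ?_
  rw [map_smul, smul_apply, smul_eq_mul, smul_eq_mul, mul_comm]
  rfl

/-- The exponential polynomials `F(c_j exp(ℓ_j ξ))` with constant coefficients. -/
noncomputable def expRing {ι : Type} [Fintype ι] {w : ℕ} (ℓ : ι → Ew w →L[ℂ] ℂ) (c : ι → ℂ) :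
    DRing w (MvPolynomial ι ℂ) where
  ev ξ := MvPolynomial.aeval (fun j => c j * Complex.exp (ℓ j ξ))
  D k F := ∑ j, MvPolynomial.C (ℓ j (EuclideanSpace.single k 1)) * MvPolynomial.X j *
    MvPolynomial.pderiv j F
  hasDeriv F ξ := by
    have h1 : ∀ j, HasFDerivAt (fun ξ => c j * Complex.exp (ℓ j ξ))
        ((c j * Complex.exp (ℓ j ξ)) • ℓ j) ξ := by
      intro j
      have h2 := ((ℓ j).hasFDerivAt (x := ξ)).cexp.const_mul (c j)
      refine h2.congr_fderiv ?_
      rw [smul_smul]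
    refine (hasFDerivAt_aeval (fun j ξ => c j * Complex.exp (ℓ j ξ)) _ ξ h1 F).congr_fderiv ?_
    have h3 : ∀ j, (c j * Complex.exp (ℓ j ξ)) • ℓ j = ∑ k,
        ((c j * Complex.exp (ℓ j ξ)) * ℓ j (EuclideanSpace.single k 1)) •
          (EuclideanSpace.proj k : Ew w →L[ℂ] ℂ) := by
      intro j
      have h4 : ∀ a : ℂ, a • ℓ j = ∑ k, (a * ℓ j (EuclideanSpace.single k 1)) •
          (EuclideanSpace.proj k : Ew w →L[ℂ] ℂ) := by
        intro a
        conv_lhs => rw [clm_eq_sum (ℓ j)]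
        rw [Finset.smul_sum]
        simp only [smul_smul]
      exact h4 _
    simp only [h3, Finset.smul_sum, smul_smul]
    rw [Finset.sum_comm]
    refine Finset.sum_congr rfl fun k _ => ?_
    rw [← Finset.sum_smul]
    congr 1
    rw [map_sum]
    refine Finset.sum_congr rfl fun j _ => ?_
    rw [map_mul, map_mul, MvPolynomial.aeval_C, MvPolynomial.aeval_X]
    simp only [Algebra.algebraMap_self, RingHom.id_apply]
    ring

/-- The ring of polynomials. -/
noncomputable def polyRing (n : ℕ) : DRing n (MvPolynomial (Fin n) ℂ) where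
  ev z := MvPolynomial.aeval (fun i => z i)
  D k := MvPolynomial.pderiv k
  hasDeriv F z :=
    hasFDerivAt_aeval (fun i (z : Ew n) => z i) (fun i => EuclideanSpace.proj i) z
      (fun i => (EuclideanSpace.proj i : Ew n →L[ℂ] ℂ).hasFDerivAt) F

end Pool.Agent.Lib.MP_209724_lc.GS
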