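import Mathlib
import Pool.Agent.Lib.MP_209724_lc.GS.Ring
import Pool.Agent.Lib.MP_209724_lc.MV.Branch
import Pool.Agent.Lib.MP_209724_lc.GS.Max

section

/-!
# Curves along which all but one of `n` functions are constant
-/

namespace Pool.Agent.Lib.MP_209724_lc.GS

open Filter Topology Metric Set

variable {n : ℕ} {S : Type} [CommRing S] [Algebra ℂ S]

/-- the map `Φ` -/
private noncomputable def cvF (φ : Fin n → Ew n → ℂ) (ξ : Ew n) : Ew n :=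
  WithLp.toLp 2 fun a => φ a ξ

/-- the numerical matrix -/
private noncomputable def cvM (𝒟 : DRing n S) (R : Matrix (Fin n) (Fin n) S) (ξ : Ew n) :
    Matrix (Fin n) (Fin n) ℂ := R.map (𝒟.ev ξ)

/-- the derivative of `Φ` -/
private noncomputable def cvL (𝒟 : DRing n S) (R : Matrix (Fin n) (Fin n) S) (ξ : Ew n) :
    Ew n →L[ℂ] Ew n :=
  ((EuclideanSpace.equiv (Fin n) ℂ).symm : (Fin n → ℂ) →L[ℂ] Ew n).comp
    (ContinuousLinearMap.pi fun a =>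
      ∑ k, 𝒟.ev ξ (R a k) • (EuclideanSpace.proj k : Ew n →L[ℂ] ℂ))

private theorem cvL_apply (𝒟 : DRing n S) (R : Matrix (Fin n) (Fin n) S) (ξ v : Ew n)
    (a : Fin n) : cvL 𝒟 R ξ v a = (Matrix.mulVec (cvM 𝒟 R ξ) (fun k => v k)) a := by
  have h1 : cvL 𝒟 R ξ v a =
      (∑ k, 𝒟.ev ξ (R a k) • (EuclideanSpace.proj k : Ew n →L[ℂ] ℂ)) v := rfl
  rw [h1, sum_apply]
  rfl

private theorem cvM_det (𝒟 : DRing n S) (R : Matrix (Fin n) (Fin n) S) (ξ : Ew n) :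
    (cvM 𝒟 R ξ).det = 𝒟.ev ξ R.det := by
  rw [AlgHom.map_det]
  rfl

private theorem cv_strict (𝒟 : DRing n S) (φ : Fin n → Ew n → ℂ) (R : Matrix (Fin n) (Fin n) S)
    (hR : ∀ a, IsRow 𝒟 (φ a) (R a)) (ξ : Ew n) :
    HasStrictFDerivAt (cvF φ) (cvL 𝒟 R ξ) ξ := by
  rw [hasStrictFDerivAt_euclidean]
  intro a
  have h1 : ContDiff ℂ 1 (φ a) := by
    rw [contDiff_one_iff_fderiv]
    refine ⟨fun x => (hR a x).differentiableAt, ?_⟩
    have h2 : fderiv ℂ (φ a) = fun x => ∑ k, 𝒟.ev x (R a k) •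
        (EuclideanSpace.proj k : Ew n →L[ℂ] ℂ) := by
      funext x
      exact (hR a x).fderiv
    rw [h2]
    refine continuous_finsetSum _ fun k _ => ?_
    exact (𝒟.continuous_ev (R a k)).smul continuous_const
  exact h1.contDiffAt.hasStrictFDerivAt' (hR a ξ) one_ne_zero

private theorem cv_equiv (𝒟 : DRing n S) (R : Matrix (Fin n) (Fin n) S) (ξ : Ew n)
    (hδ : 𝒟.ev ξ R.det ≠ 0) :
    ∃ L : Ew n ≃L[ℂ] Ew n, (L : Ew n →L[ℂ] Ew n) = cvL 𝒟 R ξ := by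
  have hinj : Function.Injective (cvL 𝒟 R ξ : Ew n →ₗ[ℂ] Ew n) := by
    rw [injective_iff_map_eq_zero]
    intro v hv
    have h1 : Matrix.mulVec (cvM 𝒟 R ξ) (fun k => v k) = 0 := by
      funext a
      rw [← cvL_apply]
      have h2 : cvL 𝒟 R ξ v = 0 := hv
      rw [h2]
      rfl
    have h3 := Matrix.eq_zero_of_mulVec_eq_zero (by rw [cvM_det]; exact hδ) h1
    ext k
    exact congrFun h3 k
  refine ⟨(LinearEquiv.ofInjectiveEndo _ hinj).toContinuousLinearEquiv, ?_⟩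
  ext v : 1
  rfl

private theorem cv_cramer (M : Matrix (Fin n) (Fin n) ℂ) (a₀ : Fin n) (v ρ : Fin n → ℂ)
    (hv : M.mulVec v = Pi.single a₀ 1) (hM : M.det ≠ 0) :
    ∑ k, ρ k * v k = (M.updateRow a₀ ρ).det / M.det := by
  rw [eq_div_iff hM, ← Matrix.cramer_transpose_apply, Matrix.cramer_eq_adjugate_mulVec,
    ← Matrix.adjugate_transpose]
  have h1 : M.det • v = M.adjugate.mulVec (Pi.single a₀ 1) := by
    rw [← hv, Matrix.mulVec_mulVec, Matrix.adjugate_mul, Matrix.smul_mulVec, Matrix.one_mulVec]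
  rw [Matrix.mulVec_single_one] at h1
  have h2 : ∀ k, M.det * v k = M.adjugate k a₀ := fun k => congrFun h1 k
  rw [Finset.sum_mul]
  simp only [Matrix.mulVec, dotProduct, Matrix.transpose_apply]
  refine Finset.sum_congr rfl fun k _ => ?_
  rw [← h2 k]
  ring

/-- **Existence of curves.** `Φ = (φ_a)_a : ℂ^n → ℂ^n` is `C¹` with Jacobian matrix `ev ξ (R a k)`
(rows `a`), invertible at `ξ₀` since its determinant is `ev ξ₀ R.det` (`map_det`). Use the inverse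
function theorem (`ContDiffAt.toOpenPartialHomeomorph` / `ContDiffAt.to_localInverse`, with
`ContDiff ℂ 1` from the continuity of `ξ ↦ ev ξ (R a k)`, `DRing.continuous_ev`), and put
`γ z := Φ⁻¹(Φ ξ₀ + z • e_{a₀})` on a small ball. Then `φ a (γ z) = φ a ξ₀ + [a = a₀] z`; by
differentiating, the vector `v = γ'(z)` satisfies `∑ k, ev (γ z) (R a k) * v k = [a = a₀]`, so by
Cramer's rule (`adjugate`: with `M = ev (γ z) (R · ·)`, `M *ᵥ v = Pi.single a₀ 1` gives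
`det M • v = M.adjugate *ᵥ Pi.single a₀ 1`, and
`∑ k, ρ k * M.adjugate k a₀ = det (M.updateRow a₀ ρ)`, cf. `Matrix.cramer_transpose_apply`,
`Matrix.cramer_eq_adjugate_mulVec`, `Matrix.adjugate_transpose`)
`∑ k, ev (γ z) (ρ k) * v k = det (updateRow M a₀ (ev ρ)) / det M`, which is the derivative of
`ψ ∘ γ` if `ρ` is the gradient of `ψ`. Shrink the ball so that `γ` stays in the `ε`-ball and
`ev (γ z) R.det ≠ 0`. -/
theorem exists_curve (𝒟 : DRing n S) (φ : Fin n → Ew n → ℂ) (R : Matrix (Fin n) (Fin n) S)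
    (hR : ∀ a, IsRow 𝒟 (φ a) (R a)) (ξ₀ : Ew n) (hδ : 𝒟.ev ξ₀ R.det ≠ 0) (a₀ : Fin n) {ε : ℝ}
    (hε : 0 < ε) :
    ∃ (γ : ℂ → Ew n) (r : ℝ), IsCurve 𝒟 φ R ξ₀ a₀ γ r ∧
      ∀ z ∈ ball (0 : ℂ) r, ‖γ z - ξ₀‖ < ε := by
  obtain ⟨L₀, hL₀⟩ := cv_equiv 𝒟 R ξ₀ hδ
  have hs : HasStrictFDerivAt (cvF φ) (L₀ : Ew n →L[ℂ] Ew n) ξ₀ := by
    rw [hL₀]; exact cv_strict 𝒟 φ R hR ξ₀
  set e := hs.toOpenPartialHomeomorph (cvF φ) with he
  have hcoe : ∀ x, e x = cvF φ x := fun x => rfl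
  have hsrc : ξ₀ ∈ e.source := hs.mem_toOpenPartialHomeomorph_source
  have htgt : cvF φ ξ₀ ∈ e.target := hs.image_mem_toOpenPartialHomeomorph_target
  set p : ℂ → Ew n := fun z => cvF φ ξ₀ + z • EuclideanSpace.single a₀ (1 : ℂ) with hp
  have hpc : Continuous p := by fun_prop
  have hp0 : p 0 = cvF φ ξ₀ := by simp [hp]
  have hpd : ∀ z, HasDerivAt p (EuclideanSpace.single a₀ (1 : ℂ)) z := by
    intro z
    have := ((hasDerivAt_id z).smul_const (EuclideanSpace.single a₀ (1 : ℂ))).const_add (cvF φ ξ₀)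
    simpa [hp] using this
  set γ : ℂ → Ew n := fun z => e.symm (p z) with hγ
  have hγ0 : γ 0 = ξ₀ := by
    simp only [hγ, hp0]
    rw [← hcoe]
    exact e.left_inv hsrc
  have hsymm : ContinuousAt e.symm (p 0) := by
    rw [hp0]
    exact e.continuousAt_symm htgt
  have hγc : ContinuousAt γ 0 := ContinuousAt.comp (f := p) hsymm hpc.continuousAt
  have h1 : ∀ᶠ z in 𝓝 (0 : ℂ), p z ∈ e.target := by
    refine hpc.continuousAt.eventually_mem ?_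
    rw [hp0]
    exact e.open_target.mem_nhds htgt
  have h2 : ∀ᶠ z in 𝓝 (0 : ℂ), γ z ∈ ball ξ₀ ε := by
    refine hγc.eventually_mem ?_
    rw [hγ0]
    exact ball_mem_nhds _ hε
  have h3 : ∀ᶠ z in 𝓝 (0 : ℂ), 𝒟.ev (γ z) R.det ≠ 0 := by
    have h4 : ContinuousAt (fun z => 𝒟.ev (γ z) R.det) 0 :=
      ContinuousAt.comp (f := γ) (g := fun ξ => 𝒟.ev ξ R.det)
        (𝒟.continuous_ev R.det).continuousAt hγc
    refine h4.eventually_ne ?_
    rw [hγ0]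
    exact hδ
  obtain ⟨r, hr, hball⟩ := Metric.mem_nhds_iff.1 (h1.and (h2.and h3))
  have hval : ∀ z ∈ ball (0 : ℂ) r, cvF φ (γ z) = p z := by
    intro z hz
    exact e.right_inv (hball hz).1
  have hder : ∀ z ∈ ball (0 : ℂ) r, ∃ v : Ew n, HasDerivAt γ v z ∧
      (cvM 𝒟 R (γ z)).mulVec (fun k => v k) = Pi.single a₀ 1 := by
    intro z hz
    obtain ⟨L, hL⟩ := cv_equiv 𝒟 R (γ z) (hball hz).2.2
    have hf : HasFDerivAt e (L : Ew n →L[ℂ] Ew n) (e.symm (p z)) := by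
      rw [hL]
      exact (cv_strict 𝒟 φ R hR (γ z)).hasFDerivAt
    have h5 := e.hasFDerivAt_symm (hball hz).1 hf
    have h6 : HasDerivAt γ (L.symm (EuclideanSpace.single a₀ (1 : ℂ))) z :=
      HasFDerivAt.comp_hasDerivAt (l := e.symm) (f := p) z h5 (hpd z)
    refine ⟨_, h6, ?_⟩
    funext a
    rw [← cvL_apply, ← hL]
    have h7 : (L : Ew n →L[ℂ] Ew n) (L.symm (EuclideanSpace.single a₀ (1 : ℂ))) =
        EuclideanSpace.single a₀ (1 : ℂ) := L.apply_symm_apply _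
    rw [h7]
    rfl
  refine ⟨γ, r, ⟨hr, ?_, hγ0, fun z hz => (hball hz).2.2, ?_, ?_⟩, ?_⟩
  · intro z hz
    obtain ⟨v, hv, _⟩ := hder z hz
    exact hv.differentiableAt.differentiableWithinAt
  · intro z hz a
    have h5 : cvF φ (γ z) a = p z a := by rw [hval z hz]
    have h6 : cvF φ (γ z) a = φ a (γ z) := rfl
    have h7 : p z a = φ a ξ₀ + z * (EuclideanSpace.single a₀ (1 : ℂ) : Ew n) a := rfl
    rw [← h6, h5, h7]
    congr 1
    by_cases h : a = a₀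
    · subst h
      rw [if_pos rfl]
      simp
    · rw [if_neg h]
      simp [h]
  · intro z hz ψ ρ hψ
    obtain ⟨v, hv, hv2⟩ := hder z hz
    have h5 := HasFDerivAt.comp_hasDerivAt (l := ψ) (f := γ) z (hψ (γ z)) hv
    have h6 : (∑ k, 𝒟.ev (γ z) (ρ k) • (EuclideanSpace.proj k : Ew n →L[ℂ] ℂ)) v =
        𝒟.ev (γ z) (R.updateRow a₀ ρ).det / 𝒟.ev (γ z) R.det := by
      have h7 := cv_cramer (cvM 𝒟 R (γ z)) a₀ (fun k => v k) (fun k => 𝒟.ev (γ z) (ρ k)) hv2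
        (by rw [cvM_det]; exact (hball hz).2.2)
      have h8 : (cvM 𝒟 R (γ z)).updateRow a₀ (fun k => 𝒟.ev (γ z) (ρ k)) =
          (R.updateRow a₀ ρ).map (𝒟.ev (γ z)) := by
        rw [Matrix.map_updateRow]
        rfl
      rw [cvM_det, h8] at h7
      rw [AlgHom.map_det, sum_apply]
      exact h7
    rw [h6] at h5
    exact h5
  · intro z hz
    have := (hball hz).2.1
    rwa [mem_ball, dist_eq_norm] at this

/-- By the inverse function theorem `Φ = (φ_a)_a` is injective near `ξ₀`. -/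
theorem locally_injective (𝒟 : DRing n S) (φ : Fin n → Ew n → ℂ) (R : Matrix (Fin n) (Fin n) S)
    (hR : ∀ a, IsRow 𝒟 (φ a) (R a)) (ξ₀ : Ew n) (hδ : 𝒟.ev ξ₀ R.det ≠ 0) :
    ∃ U ∈ 𝓝 ξ₀, ∀ ξ ∈ U, (∀ a, φ a ξ = φ a ξ₀) → ξ = ξ₀ := by
  obtain ⟨L₀, hL₀⟩ := cv_equiv 𝒟 R ξ₀ hδ
  have hs : HasStrictFDerivAt (cvF φ) (L₀ : Ew n →L[ℂ] Ew n) ξ₀ := by
    rw [hL₀]; exact cv_strict 𝒟 φ R hR ξ₀
  set e := hs.toOpenPartialHomeomorph (cvF φ) with he
  have hsrc : ξ₀ ∈ e.source := hs.mem_toOpenPartialHomeomorph_source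
  refine ⟨e.source, e.open_source.mem_nhds hsrc, fun ξ hξ h => e.injOn hξ hsrc ?_⟩
  have h1 : cvF φ ξ = cvF φ ξ₀ := by
    ext a
    exact h a
  exact h1

end Pool.Agent.Lib.MP_209724_lc.GS
end

section

/-!
# The data of the analytic core
-/

namespace Pool.Agent.Lib.MP_209724_lc.GS

open Filter Topology Metric Set MvPolynomial

/-- The exponentials `exp(R_ν u_{ν,j}(t))`. -/
noncomputable def yv {w : ℕ} {ι : Type} (R : ℕ → ℝ) (u : ℕ → ι → Ew w → ℂ) (ν : ℕ) (t : Ew w) :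
    ι → ℂ := fun j => Complex.exp (R ν * u ν j t)

/-- The exponentials, normalised to supremum norm `1`. -/
noncomputable def yh {w : ℕ} {ι : Type} [Fintype ι] (R : ℕ → ℝ) (u : ℕ → ι → Ew w → ℂ) (ν : ℕ)
    (t : Ew w) : ι → ℂ := ((‖yv R u ν t‖⁻¹ : ℝ) : ℂ) • yv R u ν t

/-- The data of the analytic core: `R_ν → ∞`; `u_{ν,j} → U_j` holomorphic on `ball t₀ ρ ⊆ ℂ^w`;
functions `G_{ν,i}(t,y)`, `i = 1..w`, holomorphic, homogeneous in `y ∈ ℂ^ι` of degree `dg i`,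
converging to the polynomials `P_i(t)(y)`; a closed set `𝒳` containing all the vectors occurring;
nondegeneracy `nd` of the limit systems. -/
structure CoreData {w : ℕ} {ι : Type} [Fintype ι] (t₀ : Ew w) (ρ : ℝ) (dg : Fin w → ℕ)
    (𝒳 : Set (ι → ℂ)) (R : ℕ → ℝ) (u : ℕ → ι → Ew w → ℂ) (U : ι → Ew w → ℂ)
    (G : ℕ → Fin w → Ew w → (ι → ℂ) → ℂ) (P : Ew w → Fin w → MvPolynomial ι ℂ) : Prop where
  ρpos : 0 < ρ
  dpos : ∀ i, 0 < dg i
  Rpos : ∀ ν, 0 < R ν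
  Rlim : Tendsto R atTop atTop
  udiff : ∀ ν j, DifferentiableOn ℂ (u ν j) (ball t₀ ρ)
  Udiff : ∀ j, DifferentiableOn ℂ (U j) (ball t₀ ρ)
  ulim : ∀ ε : ℝ, 0 < ε → ∀ᶠ ν in atTop, ∀ j, ∀ t ∈ ball t₀ ρ, ‖u ν j t - U j t‖ ≤ ε
  Gdiff : ∀ ν i, DifferentiableOn ℂ (fun p : Ew w × (ι → ℂ) => G ν i p.1 p.2)
    (ball t₀ ρ ×ˢ univ)
  Ghom : ∀ ν i t (a : ℂ) y, G ν i t (a • y) = a ^ dg i * G ν i t y
  Glim : ∀ ε : ℝ, 0 < ε → ∀ B : ℝ, ∀ᶠ ν in atTop, ∀ i, ∀ t ∈ ball t₀ ρ, ∀ y : ι → ℂ,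
    ‖y‖ ≤ B → ‖G ν i t y - eval y (P t i)‖ ≤ ε
  Pcont : ∀ i, ContinuousOn (fun p : Ew w × (ι → ℂ) => eval p.2 (P p.1 i)) (ball t₀ ρ ×ˢ univ)
  Phom : ∀ t i, (P t i).IsHomogeneous (dg i)
  Xcl : IsClosed 𝒳
  Xsm : ∀ (a : ℂ), ∀ y ∈ 𝒳, a • y ∈ 𝒳
  Xy : ∀ ν, ∀ t ∈ ball t₀ ρ, yv R u ν t ∈ 𝒳
  Xt : ∀ t ∈ ball t₀ ρ, ∀ y ∈ 𝒳, ∀ b : Ew w,
    (fun j => y j * Complex.exp (fderiv ℂ (U j) t b)) ∈ 𝒳
  nd : ∀ t ∈ ball t₀ ρ, ∀ Y ∈ 𝒳, Y ≠ 0 → (∀ i, eval Y (P t i) = 0) → ∀ b : Ew w,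
    (∀ j l, Y j ≠ 0 → Y l ≠ 0 → fderiv ℂ (U j) t b = fderiv ℂ (U l) t b) → b = 0

/-- a subsequence of core data -/
theorem CoreData.subseq {w : ℕ} {ι : Type} [Fintype ι] {t₀ : Ew w} {ρ : ℝ} {dg : Fin w → ℕ}
    {𝒳 : Set (ι → ℂ)} {R : ℕ → ℝ} {u : ℕ → ι → Ew w → ℂ} {U : ι → Ew w → ℂ}
    {G : ℕ → Fin w → Ew w → (ι → ℂ) → ℂ} {P : Ew w → Fin w → MvPolynomial ι ℂ}
    (h : CoreData t₀ ρ dg 𝒳 R u U G P) {φ : ℕ → ℕ} (hφ : StrictMono φ) :
    CoreData t₀ ρ dg 𝒳 (R ∘ φ) (u ∘ φ) U (G ∘ φ) P where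
  ρpos := h.ρpos
  dpos := h.dpos
  Rpos := fun _ => h.Rpos _
  Rlim := h.Rlim.comp hφ.tendsto_atTop
  udiff := fun _ j => h.udiff _ j
  Udiff := h.Udiff
  ulim := fun ε hε => hφ.tendsto_atTop.eventually (h.ulim ε hε)
  Gdiff := fun _ i => h.Gdiff _ i
  Ghom := fun _ i t a y => h.Ghom _ i t a y
  Glim := fun ε hε B => hφ.tendsto_atTop.eventually (h.Glim ε hε B)
  Pcont := h.Pcont
  Phom := h.Phom
  Xcl := h.Xcl
  Xsm := h.Xsm
  Xy := fun _ t ht => h.Xy _ t ht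
  Xt := h.Xt
  nd := h.nd

end Pool.Agent.Lib.MP_209724_lc.GS
end

section

/-!
# Exponential points over varieties in general position at infinity: definitions

`OnW ξ x`: the point `x` lies on the affine variety with generic point `ξ`; `OnV ξ υ x y`: the point
`(x, y)` lies on the affine variety with generic point `(ξ, υ)`; `Fam`: the points `(x(t), exp u)` of
the variety over a sheet `x(t)`; `HasChart`: local parametrizations.
-/

namespace Pool.Agent.Lib.MP_209724_lc.GP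

open MvPolynomial Filter Topology Metric Set
open GC (prj)
open GS (Ew)

variable {n d k : ℕ}

/-- `x` is a point of the affine variety with generic point `ξ`. -/
def OnW {L : Type} [Field L] [Algebra ℂ L] (ξ : Fin n → L) (x : Fin n → ℂ) : Prop :=
  ∀ f : MvPolynomial (Fin n) ℂ, aeval ξ f = 0 → eval x f = 0

/-- `(x, y)` is a point of the affine variety with generic point `(ξ, υ)`. -/
def OnV {L : Type} [Field L] [Algebra ℂ L] (ξ υ : Fin n → L) (x y : Fin n → ℂ) : Prop :=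
  ∀ f : MvPolynomial (Fin n ⊕ Fin n) ℂ, aeval (Sum.elim ξ υ) f = 0 → eval (Sum.elim x y) f = 0

/-- The pairs `(t, u)` with `t ∈ S` such that `(x t, exp u)` is on the variety. -/
def Fam {L : Type} [Field L] [Algebra ℂ L] (ξ υ : Fin n → L) (x : Ew d → Fin n → ℂ)
    (S : Set (Ew d)) : Set (Ew d × (Fin n → ℂ)) :=
  {v | v.1 ∈ S ∧ OnV ξ υ (x v.1) fun i => Complex.exp (v.2 i)}

/-- The function `β(Z x, y_B)` at the point `(t, u)` of the family. -/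
noncomputable def pf (Z : Fin d → Fin n → ℂ) (B : Fin k → Fin n)
    (β : MvPolynomial (Fin d ⊕ Fin k) ℂ) (x : Ew d → Fin n → ℂ) (v : Ew d × (Fin n → ℂ)) : ℂ :=
  eval (Sum.elim (prj Z (x v.1)) fun j => Complex.exp (v.2 (B j))) β

/-- The coordinates `(Z x, y_B)` at the point `(t, u)` of the family, numbered by `e`. -/
noncomputable def bas (e : Fin d ⊕ Fin k ≃ Fin n) (Z : Fin d → Fin n → ℂ) (B : Fin k → Fin n)
    (x : Ew d → Fin n → ℂ) (v : Ew d × (Fin n → ℂ)) : Ew n :=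
  WithLp.toLp 2 fun i => Sum.elim (prj Z (x v.1)) (fun j => Complex.exp (v.2 (B j))) (e.symm i)

/-- `M` has a holomorphic parametrization `τ` near `v`, inverse to `ζ`, such that `F ∘ τ` and
`p ∘ τ` are holomorphic. -/
def HasChart (M : Set (Ew d × (Fin n → ℂ))) (F : Ew d × (Fin n → ℂ) → Fin n → ℂ)
    (p : Ew d × (Fin n → ℂ) → ℂ) (ζ : Ew d × (Fin n → ℂ) → Ew n) (v : Ew d × (Fin n → ℂ)) : Prop :=
  ∃ (O : Set (Ew n)) (τ : Ew n → Ew d × (Fin n → ℂ)), IsOpen O ∧ ζ v ∈ O ∧ τ (ζ v) = v ∧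
    ContinuousOn τ O ∧ (∀ s ∈ O, τ s ∈ M ∧ ζ (τ s) = s) ∧
    DifferentiableOn ℂ (fun s => F (τ s)) O ∧ DifferentiableOn ℂ (fun s => p (τ s)) O

theorem OnV.onW {L : Type} [Field L] [Algebra ℂ L] {ξ υ : Fin n → L} {x y : Fin n → ℂ}
    (h : OnV ξ υ x y) : OnW ξ x := by
  intro f hf
  have h1 := h (rename Sum.inl f) (by rw [aeval_rename, Sum.elim_comp_inl]; exact hf)
  rwa [eval_rename, Sum.elim_comp_inl] at h1

end Pool.Agent.Lib.MP_209724_lc.GP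
end

section

/-!
# Curves inside the common zeros of an ideal; a maximum principle along curves
-/

namespace Pool.Agent.Lib.MP_209724_lc.GS

open Filter Topology Metric Set
open scoped ComplexConjugate InnerProductSpace

variable {n : ℕ} {S : Type} [CommRing S] [Algebra ℂ S]

/-- **The curve stays in the common zeros of `I`** if for every `G ∈ I` the determinant obtained by
replacing the row `a₀` by the gradient of `G` is in `I`. Proof: let `G_1, …, G_m` generate `I` and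
`V(G_i) := det(updateRow R a₀ (∇G_i)) = ∑_j A_ij G_j`. The vector `h(z) = (ev (γ z) G_i)_i` satisfies
`h(0) = 0` and `h'(z) = (ev (γ z) A) h(z) / ev (γ z) R.det` (`IsCurve.deriv` with `isRow_ev`). For
`z` in the ball consider `f(t) = h(t z)`, `t ∈ [0,1]`: the coefficients are bounded on the compact
segment, so `‖f'(t)‖ ≤ C ‖f(t)‖`, `f(0) = 0`, hence `f = 0`
(`eq_zero_of_abs_deriv_le_mul_abs_self_of_eq_zero_right`, or `norm_le_gronwallBound_of_norm_deriv_right_le`).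
So all `G_i`, hence all `G ∈ I`, vanish at `γ z`. -/
theorem IsCurve.stays {𝒟 : DRing n S} {φ : Fin n → Ew n → ℂ} {R : Matrix (Fin n) (Fin n) S}
    {ξ₀ : Ew n} {a₀ : Fin n} {γ : ℂ → Ew n} {r : ℝ} (h : IsCurve 𝒟 φ R ξ₀ a₀ γ r) (I : Ideal S)
    (hI : I.FG) (hV : ∀ G ∈ I, (R.updateRow a₀ fun k => 𝒟.D k G).det ∈ I)
    (h0 : ξ₀ ∈ 𝒟.zeros I) : ∀ z ∈ ball (0 : ℂ) r, γ z ∈ 𝒟.zeros I := by
  classical
  intro z hz
  obtain ⟨s, hs⟩ := hI
  have hsI : ∀ G ∈ s, G ∈ I := fun G hG => by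
    rw [← hs]; exact Submodule.subset_span hG
  have hA : ∀ G : s, ∃ f : S → S, ∑ G' ∈ s, f G' • G' =
      (R.updateRow a₀ fun k => 𝒟.D k (G : S)).det := by
    intro G
    have h1 := hV G (hsI G G.2)
    rw [← hs] at h1
    obtain ⟨f, _, hf⟩ := Submodule.mem_span_finset.1 h1
    exact ⟨f, hf⟩
  choose A hA using hA
  -- the segment
  have hseg : ∀ t ∈ Icc (0 : ℝ) 1, (t : ℂ) * z ∈ ball (0 : ℂ) r := by
    intro t ht
    rw [mem_ball_zero_iff] at hz ⊢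
    rw [norm_mul, Complex.norm_real, Real.norm_of_nonneg ht.1]
    calc t * ‖z‖ ≤ 1 * ‖z‖ := by gcongr; exact ht.2
      _ = ‖z‖ := one_mul _
      _ < r := hz
  have hγc : ContinuousOn (fun t : ℝ => γ ((t : ℂ) * z)) (Icc 0 1) := by
    refine ContinuousOn.comp (t := ball (0 : ℂ) r) h.diff.continuousOn ?_ hseg
    exact Continuous.continuousOn (by fun_prop)
  have hevc : ∀ F : S, ContinuousOn (fun t : ℝ => 𝒟.ev (γ ((t : ℂ) * z)) F) (Icc 0 1) := by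
    intro F
    exact (𝒟.continuous_ev F).comp_continuousOn hγc
  set δ : ℝ → ℂ := fun t => 𝒟.ev (γ ((t : ℂ) * z)) R.det with hδ
  have hδ0 : ∀ t ∈ Icc (0 : ℝ) 1, δ t ≠ 0 := fun t ht => h.det _ (hseg t ht)
  -- bounds
  have hbd : ∃ C : ℝ, ∀ t ∈ Icc (0 : ℝ) 1, ∑ G : s, ∑ G' ∈ s,
      ‖z * (𝒟.ev (γ ((t : ℂ) * z)) (A G G') / δ t)‖ ≤ C := by
    have hc : ContinuousOn (fun t : ℝ => ∑ G : s, ∑ G' ∈ s,
        ‖z * (𝒟.ev (γ ((t : ℂ) * z)) (A G G') / δ t)‖) (Icc 0 1) := by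
      refine continuousOn_finsetSum _ fun G _ => continuousOn_finsetSum _ fun G' _ => ?_
      refine ContinuousOn.norm (continuousOn_const.mul ?_)
      exact (hevc _).div (hevc _) hδ0
    obtain ⟨C, hC⟩ := isCompact_Icc.exists_bound_of_continuousOn hc
    exact ⟨C, fun t ht => (le_abs_self _).trans (hC t ht)⟩
  obtain ⟨C, hC⟩ := hbd
  have hder : ∀ t ∈ Icc (0 : ℝ) 1, ∀ G : s,
      HasDerivAt (fun t : ℝ => 𝒟.ev (γ ((t : ℂ) * z)) (G : S))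
        (∑ G' ∈ s, z * (𝒟.ev (γ ((t : ℂ) * z)) (A G G') / δ t) *
          𝒟.ev (γ ((t : ℂ) * z)) G') t := by
    intro t ht G
    have h1 := h.deriv _ (hseg t ht) _ _ (isRow_ev 𝒟 (G : S))
    have h2 : HasDerivAt (fun t : ℝ => (t : ℂ) * z) z t := by
      have h3 : HasDerivAt (fun t : ℝ => (t : ℂ)) 1 t := Complex.ofRealCLM.hasDerivAt
      simpa using h3.mul_const z
    have h4 := HasDerivAt.scomp t (g₁ := fun w => 𝒟.ev (γ w) (G : S)) h1 h2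
    refine h4.congr_deriv ?_
    rw [← hA G, map_sum, smul_eq_mul, Finset.sum_div, Finset.mul_sum]
    refine Finset.sum_congr rfl fun G' _ => ?_
    rw [smul_eq_mul, map_mul]
    ring
  have hzero := eq_zero_of_abs_deriv_le_mul_abs_self_of_eq_zero_right
    (f := fun t : ℝ => fun G : s => 𝒟.ev (γ ((t : ℂ) * z)) (G : S))
    (f' := fun t : ℝ => fun G : s => ∑ G' ∈ s, z * (𝒟.ev (γ ((t : ℂ) * z)) (A G G') / δ t) *
          𝒟.ev (γ ((t : ℂ) * z)) G') (K := C) (a := 0) (b := 1)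
    (by
      refine continuousOn_pi.2 fun G => ?_
      exact hevc _)
    (by
      intro t ht
      rw [hasDerivWithinAt_pi]
      intro G
      exact (hder t ⟨ht.1, ht.2.le⟩ G).hasDerivWithinAt)
    (by
      funext G
      have : γ (((0 : ℝ) : ℂ) * z) = ξ₀ := by
        rw [Complex.ofReal_zero, zero_mul, h.zero]
      change 𝒟.ev (γ (((0 : ℝ) : ℂ) * z)) (G : S) = 0
      rw [this]
      exact h0 G (hsI G G.2))
    (by
      intro t ht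
      have ht' : t ∈ Icc (0 : ℝ) 1 := ⟨ht.1, ht.2.le⟩
      have hC0 : 0 ≤ C := le_trans (Finset.sum_nonneg fun _ _ =>
        Finset.sum_nonneg fun _ _ => norm_nonneg _) (hC t ht')
      rw [pi_norm_le_iff_of_nonneg (mul_nonneg hC0 (norm_nonneg _))]
      intro G
      have h1 : ∀ G' ∈ s, ‖𝒟.ev (γ ((t : ℂ) * z)) G'‖ ≤
          ‖fun G : s => 𝒟.ev (γ ((t : ℂ) * z)) (G : S)‖ := fun G' hG' =>
        norm_le_pi_norm (fun G : s => 𝒟.ev (γ ((t : ℂ) * z)) (G : S)) ⟨G', hG'⟩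
      calc ‖∑ G' ∈ s, z * (𝒟.ev (γ ((t : ℂ) * z)) (A G G') / δ t) *
            𝒟.ev (γ ((t : ℂ) * z)) G'‖
          ≤ ∑ G' ∈ s, ‖z * (𝒟.ev (γ ((t : ℂ) * z)) (A G G') / δ t) *
            𝒟.ev (γ ((t : ℂ) * z)) G'‖ := norm_sum_le _ _
        _ ≤ ∑ G' ∈ s, ‖z * (𝒟.ev (γ ((t : ℂ) * z)) (A G G') / δ t)‖ *
            ‖fun G : s => 𝒟.ev (γ ((t : ℂ) * z)) (G : S)‖ := by
            refine Finset.sum_le_sum fun G' hG' => ?_
            rw [norm_mul]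
            exact mul_le_mul_of_nonneg_left (h1 G' hG') (norm_nonneg _)
        _ = (∑ G' ∈ s, ‖z * (𝒟.ev (γ ((t : ℂ) * z)) (A G G') / δ t)‖) *
            ‖fun G : s => 𝒟.ev (γ ((t : ℂ) * z)) (G : S)‖ := by rw [Finset.sum_mul]
        _ ≤ C * ‖fun G : s => 𝒟.ev (γ ((t : ℂ) * z)) (G : S)‖ := by
            refine mul_le_mul_of_nonneg_right (le_trans ?_ (hC t ht')) (norm_nonneg _)
            exact Finset.single_le_sum (f := fun G : s => ∑ G' ∈ s,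
              ‖z * (𝒟.ev (γ ((t : ℂ) * z)) (A G G') / δ t)‖)
              (fun _ _ => Finset.sum_nonneg fun _ _ => norm_nonneg _) (Finset.mem_univ G))
    1 ⟨zero_le_one, le_rfl⟩
  have hgen : ∀ G ∈ s, 𝒟.ev (γ z) G = 0 := by
    intro G hG
    have h1 := congrFun hzero ⟨G, hG⟩
    simpa using h1
  intro F hF
  have h2 : I ≤ 𝒟.van {γ z} := by
    rw [← hs]
    refine Submodule.span_le.2 fun G hG => ?_
    intro ξ hξ
    rw [Set.mem_singleton_iff.1 hξ]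
    exact hgen G hG
  exact h2 hF (γ z) rfl

/-- **Maximum principle along a curve.** Suppose the contrary. Put
`Ψ(z) = Φ(z) exp(2 ε ⟪γ 0, γ z - γ 0⟫)`, holomorphic on the ball (`innerSL ℂ (γ 0)` is a continuous
linear form). As `‖γ z‖² = ‖γ 0‖² + 2 Re⟪γ 0, γ z - γ 0⟫ + ‖γ z - γ 0‖²`, the assumption gives
`‖Ψ(z)‖ ≤ ‖Ψ(0)‖ exp(-ε ‖γ z - γ 0‖²)`, so `‖Ψ‖` has a strict maximum at `0`, contradicting
`Complex.norm_eventually_eq_of_isLocalMax` (compare the end of the proof of `no_local_max` in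
`GS/Max.lean`). -/
theorem no_max_on_curve {γ : ℂ → Ew n} {r : ℝ} (hr : 0 < r) (hγ : DifferentiableOn ℂ γ (ball 0 r))
    (hne : ∀ z ∈ ball (0 : ℂ) r, z ≠ 0 → γ z ≠ γ 0) {Φ : ℂ → ℂ}
    (hΦ : DifferentiableOn ℂ Φ (ball 0 r)) (h0 : Φ 0 ≠ 0) {ε : ℝ} (hε : 0 < ε) :
    ∃ z ∈ ball (0 : ℂ) r, ‖Φ 0‖ * Real.exp (ε * ‖γ 0‖ ^ 2) < ‖Φ z‖ * Real.exp (ε * ‖γ z‖ ^ 2) := by
  by_contra hcon
  push Not at hcon
  have hball : ball (0 : ℂ) r ∈ 𝓝 (0 : ℂ) := ball_mem_nhds _ hr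
  set Ψ : ℂ → ℂ := fun z => Φ z * Complex.exp (2 * ε * innerSL ℂ (γ 0) (γ z - γ 0)) with hΨ
  have hΨd : DifferentiableOn ℂ Ψ (ball 0 r) := by
    refine hΦ.mul (DifferentiableOn.cexp ?_)
    refine DifferentiableOn.const_mul ?_ _
    exact (innerSL ℂ (γ 0)).differentiable.comp_differentiableOn (hγ.sub_const _)
  have hΨ0 : Ψ 0 = Φ 0 := by
    simp [hΨ]
  have hnorm : ∀ z, ‖γ z‖ ^ 2 = ‖γ 0‖ ^ 2 + 2 * (⟪γ 0, γ z - γ 0⟫_ℂ).re + ‖γ z - γ 0‖ ^ 2 := by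
    intro z
    have h1 := norm_add_sq (𝕜 := ℂ) (γ 0) (γ z - γ 0)
    rw [add_sub_cancel] at h1
    exact h1
  have hΨn : ∀ z, ‖Ψ z‖ = ‖Φ z‖ * Real.exp (2 * ε * (⟪γ 0, γ z - γ 0⟫_ℂ).re) := by
    intro z
    simp only [hΨ, norm_mul, Complex.norm_exp, innerSL_apply_apply]
    have h2 : (2 * (ε : ℂ) * ⟪γ 0, γ z - γ 0⟫_ℂ) = ((2 * ε : ℝ) : ℂ) * ⟪γ 0, γ z - γ 0⟫_ℂ := by
      push_cast; ring
    rw [h2, Complex.re_ofReal_mul]
  have hle : ∀ z ∈ ball (0 : ℂ) r, ‖Ψ z‖ * Real.exp (ε * ‖γ z - γ 0‖ ^ 2) ≤ ‖Ψ 0‖ := by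
    intro z hz
    have h1 := hcon z hz
    rw [hΨ0, hΨn]
    have h2 : Real.exp (ε * ‖γ z‖ ^ 2) = Real.exp (2 * ε * (⟪γ 0, γ z - γ 0⟫_ℂ).re) *
        Real.exp (ε * ‖γ z - γ 0‖ ^ 2) * Real.exp (ε * ‖γ 0‖ ^ 2) := by
      rw [← Real.exp_add, ← Real.exp_add, hnorm z]
      congr 1
      ring
    rw [h2, ← mul_assoc, ← mul_assoc] at h1
    exact le_of_mul_le_mul_right h1 (Real.exp_pos _)
  have hΨ0' : 0 < ‖Ψ 0‖ := by rw [hΨ0]; exact norm_pos_iff.2 h0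
  have hstrict : ∀ z ∈ ball (0 : ℂ) r, z ≠ 0 → ‖Ψ z‖ < ‖Ψ 0‖ := by
    intro z hz hz0
    rcases eq_or_lt_of_le (norm_nonneg (Ψ z)) with h1 | h1
    · rw [← h1]; exact hΨ0'
    · have h2 : 0 < ‖γ z - γ 0‖ := norm_pos_iff.2 (sub_ne_zero.2 (hne z hz hz0))
      have h3 : 1 < Real.exp (ε * ‖γ z - γ 0‖ ^ 2) := by
        rw [Real.one_lt_exp_iff]
        positivity
      calc ‖Ψ z‖ = ‖Ψ z‖ * 1 := (mul_one _).symm
        _ < ‖Ψ z‖ * Real.exp (ε * ‖γ z - γ 0‖ ^ 2) := mul_lt_mul_of_pos_left h3 h1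
        _ ≤ ‖Ψ 0‖ := hle z hz
  have hlm : IsLocalMax (norm ∘ Ψ) 0 := by
    filter_upwards [hball] with z hz
    by_cases h : z = 0
    · rw [h]
    · exact (hstrict z hz h).le
  have hev := Complex.norm_eventually_eq_of_isLocalMax
    (by
      filter_upwards [isOpen_ball.mem_nhds (mem_ball_self hr)] with z hz
      exact hΨd.differentiableAt (isOpen_ball.mem_nhds hz)) hlm
  have h2 : ∀ᶠ z in 𝓝[≠] (0 : ℂ), False := by
    filter_upwards [nhdsWithin_le_nhds hball, nhdsWithin_le_nhds hev, self_mem_nhdsWithin]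
      with z h3 h4 h5
    have h6 := hstrict z h3 h5
    rw [h4] at h6
    exact lt_irrefl _ h6
  exact (inferInstance : (𝓝[≠] (0 : ℂ)).NeBot).ne (by simpa using h2)

end Pool.Agent.Lib.MP_209724_lc.GS
end
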