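import Mathlib
import Pool.Agent.Lib.MP_209724_lc.GS.Ring
import Pool.Agent.Lib.MP_209724_lc.GS.CurveB

/-!
# The part of positive dimension of the common zeros of an ideal of functions
-/

namespace Pool.Agent.Lib.MP_209724_lc.GS

open Filter Topology Metric Set

variable {n : ℕ} {S : Type} [CommRing S] [Algebra ℂ S]

/-- `P` contains the positive dimensional part of `E`: outside of `P` the set `E` is locally
countable, and the points of `P` can escape to the boundary of any bounded open set increasing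
`Re Q + ε ‖·‖²`. -/
structure IsStrat (E P : Set (Ew n)) : Prop where
  sub : P ⊆ E
  disc : ∀ ξ ∈ E, ξ ∉ P → ∃ U ∈ 𝓝 ξ, (U ∩ E).Countable
  esc : ∀ ξ ∈ P, ∀ Ω : Set (Ew n), IsOpen Ω → Bornology.IsBounded Ω → ξ ∈ Ω →
    ∀ Q : Ew n → ℂ, Differentiable ℂ Q → ∀ ε : ℝ, 0 < ε →
      ∃ ζ ∈ P, ζ ∈ frontier Ω ∧ (Q ξ).re + ε * ‖ξ‖ ^ 2 ≤ (Q ζ).re + ε * ‖ζ‖ ^ 2

/-- a choice of rows: the gradients of `F a`, `a ∈ s`, and constant rows -/
structure Frame (n : ℕ) (S : Type) where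
  s : Finset (Fin n)
  F : Fin n → S
  μ : Fin n → Fin n → ℂ

/-- the matrix of a frame -/
noncomputable def Frame.mat (f : Frame n S) (𝒟 : DRing n S) : Matrix (Fin n) (Fin n) S :=
  fun a k => if a ∈ f.s then 𝒟.D k (f.F a) else algebraMap ℂ S (f.μ a k)

/-- the functions of a frame -/
noncomputable def Frame.fn (f : Frame n S) (𝒟 : DRing n S) (a : Fin n) (ξ : Ew n) : ℂ :=
  if a ∈ f.s then 𝒟.ev ξ (f.F a) else ∑ k, f.μ a k * ξ k

theorem Frame.isRow (f : Frame n S) (𝒟 : DRing n S) (a : Fin n) :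
    IsRow 𝒟 (f.fn 𝒟 a) (f.mat 𝒟 a) := by
  by_cases h : a ∈ f.s
  · have h1 : f.fn 𝒟 a = fun ξ => 𝒟.ev ξ (f.F a) := by funext ξ; simp [Frame.fn, h]
    have h2 : f.mat 𝒟 a = fun k => 𝒟.D k (f.F a) := by funext k; simp [Frame.mat, h]
    rw [h1, h2]
    exact isRow_ev 𝒟 _
  · have h1 : f.fn 𝒟 a = fun ξ => ∑ k, f.μ a k * ξ k := by funext ξ; simp [Frame.fn, h]
    have h2 : f.mat 𝒟 a = fun k => algebraMap ℂ S (f.μ a k) := by funext k; simp [Frame.mat, h]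
    rw [h1, h2]
    exact isRow_const 𝒟 _

/-- A frame with `f.F a ∈ J` for `a ∈ f.s`, determinant not in `J`, and `|f.s|` maximal. Such frames
exist (`s = ∅`, `μ` the identity matrix, determinant `1`), and `|f.s| ≤ n`. -/
theorem exists_maximal_frame (𝒟 : DRing n S) (J : Ideal S) (hJ : (1 : S) ∉ J) :
    ∃ f : Frame n S, (∀ a ∈ f.s, f.F a ∈ J) ∧ (f.mat 𝒟).det ∉ J ∧
      ∀ g : Frame n S, (∀ a ∈ g.s, g.F a ∈ J) → (g.mat 𝒟).det ∉ J → g.s.card ≤ f.s.card := by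
  by_contra hcon
  push Not at hcon
  have key : ∀ k : ℕ, ∃ f : Frame n S, (∀ a ∈ f.s, f.F a ∈ J) ∧ (f.mat 𝒟).det ∉ J ∧
      k ≤ f.s.card := by
    intro k
    induction k with
    | zero =>
      refine ⟨⟨∅, fun _ => 0, fun a k => if a = k then 1 else 0⟩, ?_, ?_, Nat.zero_le _⟩
      · intro a ha
        exact absurd ha (Finset.notMem_empty a)
      · have h1 : (Frame.mat ⟨∅, fun _ => 0, fun a k => if a = k then 1 else 0⟩ 𝒟 :
            Matrix (Fin n) (Fin n) S) = 1 := by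
          ext a k
          by_cases h : a = k
          · subst h
            simp [Frame.mat]
          · simp [Frame.mat, Matrix.one_apply, h]
        rw [h1, Matrix.det_one]
        exact hJ
    | succ k ih =>
      obtain ⟨f, h1, h2, h3⟩ := ih
      obtain ⟨g, g1, g2, g3⟩ := hcon f h1 h2
      exact ⟨g, g1, g2, by omega⟩
  obtain ⟨f, -, -, h⟩ := key (n + 1)
  have h2 := f.s.card_le_univ
  rw [Fintype.card_fin] at h2
  omega

/-- By maximality: the frame `g` with `g.s = insert a₀ f.s`, `g.F = Function.update f.F a₀ G` has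
matrix `(f.mat 𝒟).updateRow a₀ (∇G)` and `|g.s| > |f.s|`. -/
theorem maximal_frame_update (𝒟 : DRing n S) (J : Ideal S) (f : Frame n S)
    (h1 : ∀ a ∈ f.s, f.F a ∈ J)
    (h3 : ∀ g : Frame n S, (∀ a ∈ g.s, g.F a ∈ J) → (g.mat 𝒟).det ∉ J → g.s.card ≤ f.s.card)
    (a₀ : Fin n) (ha₀ : a₀ ∉ f.s) (G : S) (hG : G ∈ J) :
    ((f.mat 𝒟).updateRow a₀ fun k => 𝒟.D k G).det ∈ J := by
  by_contra hcon
  have hmat : (Frame.mat ⟨insert a₀ f.s, Function.update f.F a₀ G, f.μ⟩ 𝒟 :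
      Matrix (Fin n) (Fin n) S) = (f.mat 𝒟).updateRow a₀ fun k => 𝒟.D k G := by
    ext a k
    by_cases h : a = a₀
    · subst h
      simp [Frame.mat]
    · simp [Frame.mat, h]
  have h4 := h3 ⟨insert a₀ f.s, Function.update f.F a₀ G, f.μ⟩ (by
    intro a ha
    show Function.update f.F a₀ G a ∈ J
    by_cases h : a = a₀
    · subst h
      rw [Function.update_self]
      exact hG
    · rw [Function.update_of_ne h]
      have ha' : a ∈ insert a₀ f.s := ha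
      exact h1 a ((Finset.mem_insert.1 ha').resolve_left h)) (by rw [hmat]; exact hcon)
  have h5 : (insert a₀ f.s).card = f.s.card + 1 := Finset.card_insert_of_notMem ha₀
  have h6 : (insert a₀ f.s).card ≤ f.s.card := h4
  omega

/-- **Stratification.**  Noetherian induction on `I` (`WellFoundedGT (Ideal S)`): assume the claim
for all `I' > I`. Let `E = 𝒟.zeros I` and `J = 𝒟.van E ≥ I`, so `𝒟.zeros J = E`. If `E = ∅` take
`P = ∅`. Otherwise `1 ∉ J`; take a maximal frame `f` for `J`, `δ = (f.mat 𝒟).det ∉ J`, and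
`I' = J ⊔ Ideal.span {δ} > I`, `E' = 𝒟.zeros I' = {ξ ∈ E | 𝒟.ev ξ δ = 0}`, `P'` for `E'` by the
induction hypothesis. For `ξ ∈ E` and `a ∈ f.s` we have `f.fn 𝒟 a ξ = 𝒟.ev ξ (f.F a) = 0`.

(1) `f.s = univ`. By `locally_injective` every `ξ ∈ E ∖ E'` has a neighbourhood `U` with
`U ∩ E ⊆ {ξ}`. Take `P = P'`. For `disc`: the set of all isolated points of `E` is countable
(e.g. `TopologicalSpace.countable_cover_nhdsWithin` or `Set.Countable` of a discrete subset of a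
second countable space), so for `ξ ∈ E' ∖ P'` and `U` with `U ∩ E'` countable also `U ∩ E` is
countable.

(2) There is `a₀ ∉ f.s`. Let `M = E ∖ E' = {ξ ∈ E | 𝒟.ev ξ δ ≠ 0}` and `P = closure M ∪ P'`
(`E` is closed, so `closure M ⊆ E`). `disc`: for `ξ ∈ E ∖ P` take `U` with `U ∩ E'` countable and
`U ∩ M = ∅`. `esc`: for `ξ ∈ P'` by the induction hypothesis. For `ξ ∈ closure M ∩ Ω`: put
`h(ζ) = Re Q(ζ) + ε ‖ζ‖²`.
 Claim A: for `ξ₁ ∈ M ∩ Ω` and `T > 0` there is `ζ ∈ M ∩ frontier Ω` with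
 `exp(T h(ξ₁)) |δ(ξ₁)| ≤ exp(T h(ζ)) |δ(ζ)|`. Proof: let `K = closure M ∩ closure Ω` (compact) and let
 `ζ ∈ K` be a maximum of the continuous function `exp(T h) |δ|`. Its value is positive (that of `ξ₁`
 is), so `δ(ζ) ≠ 0`, `ζ ∈ M`. If `ζ ∉ frontier Ω`, then `ζ ∈ Ω`; take the curve `γ` of `exists_curve`
 through `ζ` for the frame `f` and `a₀`, staying in a ball around `ζ` contained in `Ω`. By
 `maximal_frame_update` and `IsCurve.stays` (`J` is finitely generated) `γ z ∈ 𝒟.zeros J = E`, and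
 `δ(γ z) ≠ 0`, so `γ z ∈ M ∩ Ω ⊆ K`. By `no_max_on_curve` with `Φ(z) = exp(T Q(γ z)) δ(γ z)` and `T ε`
 instead of `ε` the maximum at `ζ` is impossible.
 Claim B: for `ξ₁ ∈ M ∩ Ω` there is `ζ ∈ closure M ∩ frontier Ω` with `h(ξ₁) ≤ h(ζ)`. Proof: otherwise, by
 compactness of `closure M ∩ frontier Ω` (which is nonempty by Claim A), `h ≤ h(ξ₁) - η` on it for some
 `η > 0`; Claim A with `T` large contradicts this, `|δ|` being bounded on it.
 Then choose `ζ ∈ closure M ∩ frontier Ω` with maximal `h`; then `h(ξ₁) ≤ h(ζ)` for all `ξ₁ ∈ M ∩ Ω`,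
 and by continuity for `ξ₁ = ξ ∈ closure M ∩ Ω`. -/
theorem exists_strat [IsNoetherianRing S] (𝒟 : DRing n S) (I : Ideal S) :
    ∃ P, IsStrat (𝒟.zeros I) P := by
  induction I using WellFoundedGT.induction with
  | ind I ih =>
  obtain ⟨E, hEd⟩ : ∃ E, E = 𝒟.zeros I := ⟨_, rfl⟩
  rw [← hEd]
  have hIJ : I ≤ 𝒟.van E := by
    intro F hF ξ hξ
    rw [hEd] at hξ
    exact hξ F hF
  have hJE : ∀ ξ, ξ ∈ 𝒟.zeros (𝒟.van E) ↔ ξ ∈ E := by
    intro ξ
    constructor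
    · intro h
      rw [hEd]
      exact fun F hF => h F (hIJ hF)
    · intro h F hF
      exact hF ξ h
  have hEc : IsClosed E := by
    have h1 : E = ⋂ F ∈ I, {ξ | 𝒟.ev ξ F = 0} := by
      rw [hEd]
      ext ξ
      simp [DRing.zeros]
    rw [h1]
    exact isClosed_biInter fun F _ => isClosed_eq (𝒟.continuous_ev F) continuous_const
  rcases E.eq_empty_or_nonempty with hE | ⟨ξ', hξ'⟩
  · refine ⟨∅, ⟨empty_subset _, fun ξ hξ => ?_, fun ξ hξ => absurd hξ (notMem_empty ξ)⟩⟩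
    rw [hE] at hξ
    exact absurd hξ (notMem_empty ξ)
  obtain ⟨J, hJ⟩ : ∃ J, J = 𝒟.van E := ⟨_, rfl⟩
  rw [← hJ] at hIJ hJE
  have h1J : (1 : S) ∉ J := by
    intro h
    rw [hJ] at h
    have h2 := h ξ' hξ'
    rw [map_one] at h2
    exact one_ne_zero h2
  obtain ⟨f, hf1, hf2, hf3⟩ := exists_maximal_frame 𝒟 J h1J
  obtain ⟨δ, hδ⟩ : ∃ δ, δ = (f.mat 𝒟).det := ⟨_, rfl⟩
  have hδJ : δ ∉ J := by rw [hδ]; exact hf2
  have hI' : I < J ⊔ Ideal.span {δ} := by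
    refine lt_of_le_of_lt hIJ (lt_of_le_of_ne le_sup_left fun h => hδJ ?_)
    rw [h]
    exact (le_sup_right : Ideal.span {δ} ≤ J ⊔ Ideal.span {δ})
      (Ideal.mem_span_singleton_self δ)
  obtain ⟨P', hP'⟩ := ih _ hI'
  have hE' : ∀ ξ, ξ ∈ 𝒟.zeros (J ⊔ Ideal.span {δ}) ↔ ξ ∈ E ∧ 𝒟.ev ξ δ = 0 := by
    intro ξ
    constructor
    · intro h
      refine ⟨(hJE ξ).1 fun F hF => h F ((le_sup_left : J ≤ J ⊔ Ideal.span {δ}) hF), h δ ?_⟩
      exact (le_sup_right : Ideal.span {δ} ≤ J ⊔ Ideal.span {δ})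
        (Ideal.mem_span_singleton_self δ)
    · rintro ⟨h1, h2⟩ F hF
      obtain ⟨a, ha, b, hb, rfl⟩ := Submodule.mem_sup.1 hF
      obtain ⟨c, rfl⟩ := Ideal.mem_span_singleton'.1 hb
      rw [map_add, map_mul, h2, mul_zero, add_zero]
      exact (hJE ξ).2 h1 a ha
  have hfn0 : ∀ ξ ∈ E, ∀ a ∈ f.s, f.fn 𝒟 a ξ = 0 := by
    intro ξ hξ a ha
    have h1 : f.fn 𝒟 a ξ = 𝒟.ev ξ (f.F a) := by simp [Frame.fn, ha]
    rw [h1]
    exact (hJE ξ).2 hξ _ (hf1 a ha)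
  have hP'E : P' ⊆ E := fun ξ hξ => ((hE' ξ).1 (hP'.sub hξ)).1
  by_cases hs : f.s = Finset.univ
  · -- all the rows are gradients
    have hiso : ∀ ξ ∈ E, 𝒟.ev ξ δ ≠ 0 → ∃ U ∈ 𝓝 ξ, U ∩ E ⊆ {ξ} := by
      intro ξ hξ h
      obtain ⟨U, hU, hU2⟩ := locally_injective 𝒟 (f.fn 𝒟) (f.mat 𝒟) (f.isRow 𝒟) ξ
        (by rw [← hδ]; exact h)
      refine ⟨U, hU, ?_⟩
      rintro ζ ⟨h1, h2⟩
      refine hU2 ζ h1 fun a => ?_
      rw [hfn0 ζ h2 a (by rw [hs]; exact Finset.mem_univ a),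
        hfn0 ξ hξ a (by rw [hs]; exact Finset.mem_univ a)]
    have hcount : {ξ | ξ ∈ E ∧ 𝒟.ev ξ δ ≠ 0}.Countable := by
      choose! U hU hU2 using hiso
      obtain ⟨t, ht1, ht2, ht3⟩ := TopologicalSpace.countable_cover_nhdsWithin
        (f := U) (s := {ξ | ξ ∈ E ∧ 𝒟.ev ξ δ ≠ 0})
        (fun x hx => mem_nhdsWithin_of_mem_nhds (hU x hx.1 hx.2))
      refine ht2.mono fun y hy => ?_
      obtain ⟨x, hx, hyx⟩ := mem_iUnion₂.1 (ht3 hy)
      have h1 := hU2 x (ht1 hx).1 (ht1 hx).2 ⟨hyx, hy.1⟩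
      rw [mem_singleton_iff] at h1
      rw [h1]
      exact hx
    refine ⟨P', ⟨hP'E, fun ξ hξ hξP => ?_, hP'.esc⟩⟩
    by_cases h : 𝒟.ev ξ δ = 0
    · obtain ⟨U, hU, hU2⟩ := hP'.disc ξ ((hE' ξ).2 ⟨hξ, h⟩) hξP
      refine ⟨U, hU, (hU2.union hcount).mono ?_⟩
      rintro ζ ⟨h1, h2⟩
      by_cases h3 : 𝒟.ev ζ δ = 0
      · exact Or.inl ⟨h1, (hE' ζ).2 ⟨h2, h3⟩⟩
      · exact Or.inr ⟨h2, h3⟩
    · obtain ⟨U, hU, hU2⟩ := hiso ξ hξ h
      exact ⟨U, hU, (countable_singleton ξ).mono hU2⟩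
  · -- a free row
    obtain ⟨a₀, ha₀⟩ : ∃ a₀, a₀ ∉ f.s := by
      by_contra hcon
      push Not at hcon
      exact hs (Finset.eq_univ_iff_forall.2 hcon)
    obtain ⟨M, hM⟩ : ∃ M, M = {ξ | ξ ∈ E ∧ 𝒟.ev ξ δ ≠ 0} := ⟨_, rfl⟩
    have hMmem : ∀ ξ, ξ ∈ M ↔ ξ ∈ E ∧ 𝒟.ev ξ δ ≠ 0 := fun ξ => by rw [hM]; rfl
    have hME : closure M ⊆ E := closure_minimal (fun ξ hξ => ((hMmem ξ).1 hξ).1) hEc
    have hgc : Continuous fun ξ => 𝒟.ev ξ δ := 𝒟.continuous_ev δ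
    refine ⟨closure M ∪ P', ⟨union_subset hME hP'E, fun ξ hξ hξP => ?_, ?_⟩⟩
    · have h1 : ξ ∉ closure M := fun h => hξP (Or.inl h)
      have h2 : ξ ∉ P' := fun h => hξP (Or.inr h)
      have h3 : 𝒟.ev ξ δ = 0 := by
        by_contra h
        exact h1 (subset_closure ((hMmem ξ).2 ⟨hξ, h⟩))
      obtain ⟨U, hU, hU2⟩ := hP'.disc ξ ((hE' ξ).2 ⟨hξ, h3⟩) h2
      refine ⟨U ∩ (closure M)ᶜ, inter_mem hU (isClosed_closure.isOpen_compl.mem_nhds h1),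
        hU2.mono ?_⟩
      rintro ζ ⟨⟨h4, h5⟩, h6⟩
      refine ⟨h4, (hE' ζ).2 ⟨h6, ?_⟩⟩
      by_contra h
      exact h5 (subset_closure ((hMmem ζ).2 ⟨h6, h⟩))
    · intro ξ hξ Ω hΩ hΩb hξΩ Q hQ ε hε
      rcases hξ with hξ | hξ
      swap
      · obtain ⟨ζ, h1, h2, h3⟩ := hP'.esc ξ hξ Ω hΩ hΩb hξΩ Q hQ ε hε
        exact ⟨ζ, Or.inr h1, h2, h3⟩
      obtain ⟨h, hhd⟩ : ∃ h : Ew n → ℝ, h = fun ζ => (Q ζ).re + ε * ‖ζ‖ ^ 2 := ⟨_, rfl⟩
      have hhval : ∀ ζ, h ζ = (Q ζ).re + ε * ‖ζ‖ ^ 2 := fun ζ => by rw [hhd]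
      have hhc : Continuous h := by
        rw [hhd]
        exact (Complex.continuous_re.comp hQ.continuous).add
          (continuous_const.mul (continuous_norm.pow 2))
      -- claim A
      have hA : ∀ ξ₁, ξ₁ ∈ M → ξ₁ ∈ Ω → ∀ T : ℝ, 0 < T → ∃ ζ, ζ ∈ M ∧ ζ ∈ frontier Ω ∧
          Real.exp (T * h ξ₁) * ‖𝒟.ev ξ₁ δ‖ ≤ Real.exp (T * h ζ) * ‖𝒟.ev ζ δ‖ := by
        intro ξ₁ h1 h2 T hT
        have hK : IsCompact (closure Ω ∩ closure M) :=
          hΩb.isCompact_closure.inter_right isClosed_closure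
        have hcont : Continuous fun ζ => Real.exp (T * h ζ) * ‖𝒟.ev ζ δ‖ :=
          (Real.continuous_exp.comp (continuous_const.mul hhc)).mul hgc.norm
        obtain ⟨ζ, hζ, hmax⟩ := hK.exists_isMaxOn ⟨ξ₁, subset_closure h2, subset_closure h1⟩
          hcont.continuousOn
        have hle := hmax ⟨subset_closure h2, subset_closure h1⟩
        simp only [Set.mem_ofPred_eq] at hle
        have hpos : 0 < Real.exp (T * h ξ₁) * ‖𝒟.ev ξ₁ δ‖ :=
          mul_pos (Real.exp_pos _) (norm_pos_iff.2 ((hMmem ξ₁).1 h1).2)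
        have hζδ : 𝒟.ev ζ δ ≠ 0 := by
          intro h0
          rw [h0, norm_zero, mul_zero] at hle
          linarith
        have hζE : ζ ∈ E := hME hζ.2
        have hζM : ζ ∈ M := (hMmem ζ).2 ⟨hζE, hζδ⟩
        refine ⟨ζ, hζM, ?_, hle⟩
        by_contra hfr
        have hζΩ : ζ ∈ Ω := by
          by_contra h0
          apply hfr
          rw [hΩ.frontier_eq]
          exact ⟨hζ.1, h0⟩
        obtain ⟨ε', hε', hball⟩ := Metric.isOpen_iff.1 hΩ ζ hζΩ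
        obtain ⟨γ, r, hγ, hγb⟩ := exists_curve 𝒟 (f.fn 𝒟) (f.mat 𝒟) (f.isRow 𝒟) ζ
          (by rw [← hδ]; exact hζδ) a₀ hε'
        have hstay := hγ.stays J ((isNoetherianRing_iff_ideal_fg S).1 inferInstance J)
          (fun G hG => maximal_frame_update 𝒟 J f hf1 hf3 a₀ ha₀ G hG) ((hJE ζ).2 hζE)
        have hne : ∀ z ∈ ball (0 : ℂ) r, z ≠ 0 → γ z ≠ γ 0 := by
          intro z hz hz0
          rw [hγ.zero]
          exact hγ.ne hz hz0
        have hevd : Differentiable ℂ fun ξ => 𝒟.ev ξ δ := fun ξ =>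
          (𝒟.hasDeriv δ ξ).differentiableAt
        have hΦd : DifferentiableOn ℂ (fun z => Complex.exp (T * Q (γ z)) * 𝒟.ev (γ z) δ)
            (ball 0 r) := by
          refine DifferentiableOn.mul ?_ (hevd.comp_differentiableOn hγ.diff)
          exact ((hQ.comp_differentiableOn hγ.diff).const_mul _).cexp
        have hΦ0 : Complex.exp (T * Q (γ 0)) * 𝒟.ev (γ 0) δ ≠ 0 := by
          rw [hγ.zero]
          exact mul_ne_zero (Complex.exp_ne_zero _) hζδ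
        obtain ⟨z, hz, hlt⟩ := no_max_on_curve hγ.pos hγ.diff hne hΦd hΦ0 (mul_pos hT hε)
        have hval : ∀ z, ‖Complex.exp (T * Q (γ z)) * 𝒟.ev (γ z) δ‖ *
            Real.exp (T * ε * ‖γ z‖ ^ 2) = Real.exp (T * h (γ z)) * ‖𝒟.ev (γ z) δ‖ := by
          intro z
          rw [norm_mul, Complex.norm_exp, Complex.re_ofReal_mul, hhval]
          have h3 : T * ((Q (γ z)).re + ε * ‖γ z‖ ^ 2) =
              T * (Q (γ z)).re + T * ε * ‖γ z‖ ^ 2 := by ring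
          rw [h3, Real.exp_add]
          ring
        rw [hval, hval, hγ.zero] at hlt
        have hzE : γ z ∈ E := (hJE _).1 (hstay z hz)
        have hzM : γ z ∈ M := (hMmem _).2 ⟨hzE, by rw [hδ]; exact hγ.det z hz⟩
        have hzΩ : γ z ∈ Ω := hball (by
          rw [mem_ball, dist_eq_norm]
          exact hγb z hz)
        have h4 := hmax (a := γ z) ⟨subset_closure hzΩ, subset_closure hzM⟩
        simp only [Set.mem_ofPred_eq] at h4
        linarith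
      -- claim B
      have hξcl : ξ ∈ closure (Ω ∩ M) := hΩ.inter_closure ⟨hξΩ, hξ⟩
      obtain ⟨ξ₀, hξ₀⟩ : (Ω ∩ M).Nonempty := by
        rw [← closure_nonempty_iff]
        exact ⟨ξ, hξcl⟩
      have hCc : IsCompact (frontier Ω ∩ closure M) :=
        (hΩb.isCompact_closure.of_isClosed_subset isClosed_frontier
          frontier_subset_closure).inter_right isClosed_closure
      have hCne : (frontier Ω ∩ closure M).Nonempty := by
        obtain ⟨ζ, h1, h2, -⟩ := hA ξ₀ hξ₀.2 hξ₀.1 1 one_pos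
        exact ⟨ζ, h2, subset_closure h1⟩
      obtain ⟨ζ₀, hζ₀, hmax⟩ := hCc.exists_isMaxOn hCne hhc.continuousOn
      obtain ⟨B, hB⟩ := hCc.exists_bound_of_continuousOn hgc.continuousOn
      have hB0 : 0 ≤ B := (norm_nonneg _).trans (hB ζ₀ hζ₀)
      have hfin : ∀ ξ₁ ∈ Ω ∩ M, h ξ₁ ≤ h ζ₀ := by
        rintro ξ₁ ⟨h1, h2⟩
        by_contra hcon
        push Not at hcon
        have hg : 0 < ‖𝒟.ev ξ₁ δ‖ := norm_pos_iff.2 ((hMmem ξ₁).1 h2).2
        have hd : 0 < h ξ₁ - h ζ₀ := by linarith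
        have hT : 0 < (B + 1) / ((h ξ₁ - h ζ₀) * ‖𝒟.ev ξ₁ δ‖) := by positivity
        obtain ⟨T, hTd⟩ : ∃ T, T = (B + 1) / ((h ξ₁ - h ζ₀) * ‖𝒟.ev ξ₁ δ‖) := ⟨_, rfl⟩
        rw [← hTd] at hT
        obtain ⟨ζ, h3, h4, h5⟩ := hA ξ₁ h2 h1 T hT
        have h6 : h ζ ≤ h ζ₀ := hmax ⟨h4, subset_closure h3⟩
        have h7 : ‖𝒟.ev ζ δ‖ ≤ B := hB ζ ⟨h4, subset_closure h3⟩
        have h8 : Real.exp (T * h ζ) ≤ Real.exp (T * h ζ₀) :=
          Real.exp_le_exp.2 (mul_le_mul_of_nonneg_left h6 hT.le)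
        have h9 : Real.exp (T * h ζ) * ‖𝒟.ev ζ δ‖ ≤ Real.exp (T * h ζ₀) * B :=
          mul_le_mul h8 h7 (norm_nonneg _) (Real.exp_pos _).le
        have h10 : Real.exp (T * (h ξ₁ - h ζ₀)) * ‖𝒟.ev ξ₁ δ‖ ≤ B := by
          refine le_of_mul_le_mul_left ?_ (Real.exp_pos (T * h ζ₀))
          calc Real.exp (T * h ζ₀) * (Real.exp (T * (h ξ₁ - h ζ₀)) * ‖𝒟.ev ξ₁ δ‖)
              = Real.exp (T * h ζ₀ + T * (h ξ₁ - h ζ₀)) * ‖𝒟.ev ξ₁ δ‖ := by
                rw [Real.exp_add]; ring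
            _ = Real.exp (T * h ξ₁) * ‖𝒟.ev ξ₁ δ‖ := by
                congr 2
                ring
            _ ≤ Real.exp (T * h ζ₀) * B := h5.trans h9
        have h11 : T * (h ξ₁ - h ζ₀) ≤ Real.exp (T * (h ξ₁ - h ζ₀)) := by
          linarith [Real.add_one_le_exp (T * (h ξ₁ - h ζ₀))]
        have h12 : T * (h ξ₁ - h ζ₀) * ‖𝒟.ev ξ₁ δ‖ ≤ B :=
          (mul_le_mul_of_nonneg_right h11 hg.le).trans h10
        have h13 : T * (h ξ₁ - h ζ₀) * ‖𝒟.ev ξ₁ δ‖ = B + 1 := by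
          rw [hTd]
          field_simp
        linarith
      refine ⟨ζ₀, Or.inl hζ₀.2, hζ₀.1, ?_⟩
      rw [← hhval, ← hhval]
      have hclosed : IsClosed {ζ | h ζ ≤ h ζ₀} := isClosed_le hhc continuous_const
      exact closure_minimal hfin hclosed hξcl

end Pool.Agent.Lib.MP_209724_lc.GS
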