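import Mathlib
import Pool.Agent.Lib.MP_209724_lc.GS.Ring
import Pool.Agent.Lib.MP_209724_lc.GS.CurveB
import Pool.Agent.Lib.MP_209724_lc.GS.Strat
import Pool.Agent.Lib.MP_209724_lc.MV.Branch
import Pool.Agent.Lib.MP_209724_lc.GC.Proj

section

/-!
# A holomorphic function whose real part is smaller than a maximum of real parts on a sphere
-/

namespace Pool.Agent.Lib.MP_209724_lc.GS

open Filter Topology Metric Set

/-- The elementary inequality: `∑ z_j = 0`, `‖z_j‖ ≤ B`. -/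
private lemma qest_aux {ι : Type} (Γ : Finset ι) (hΓ : Γ.Nonempty) (z : ι → ℂ)
    (hz : ∑ j ∈ Γ, z j = 0) {B : ℝ} (hB : 0 < B) (hzB : ∀ j ∈ Γ, ‖z j‖ ≤ B) :
    ∃ j ∈ Γ, (1 / (4 * (Γ.card : ℝ) * B)) * (∑ i ∈ Γ, ‖z i‖ ^ 2) +
      (1 / (4 * (Γ.card : ℝ) * B)) * (∑ i ∈ Γ, (z i) ^ 2).re ≤ (z j).re := by
  obtain ⟨j, hj, hmax⟩ := Finset.exists_max_image Γ (fun i => (z i).re) hΓ
  refine ⟨j, hj, ?_⟩
  have hk : (0 : ℝ) < (Γ.card : ℝ) := by exact_mod_cast hΓ.card_pos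
  have hre : ∑ i ∈ Γ, (z i).re = 0 := by
    have := congrArg Complex.re hz
    rwa [Complex.re_sum, Complex.zero_re] at this
  have hM : 0 ≤ (z j).re := by
    have h1 : ∑ i ∈ Γ, (z i).re ≤ ∑ _i ∈ Γ, (z j).re := Finset.sum_le_sum fun i hi => hmax i hi
    rw [hre, Finset.sum_const, nsmul_eq_mul] at h1
    by_contra hneg
    push Not at hneg
    have := mul_neg_of_pos_of_neg hk hneg
    linarith
  have habs : ∑ i ∈ Γ, |(z i).re| ≤ 2 * (Γ.card : ℝ) * (z j).re := by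
    have h1 : ∑ i ∈ Γ, |(z i).re| = ∑ i ∈ Γ, (|(z i).re| + (z i).re) := by
      rw [Finset.sum_add_distrib, hre, add_zero]
    rw [h1]
    have h2 : ∑ i ∈ Γ, (|(z i).re| + (z i).re) ≤ ∑ _i ∈ Γ, 2 * (z j).re := by
      refine Finset.sum_le_sum fun i hi => ?_
      have h3 := hmax i hi
      rcases abs_cases (z i).re with ⟨h4, _⟩ | ⟨h4, _⟩
      · rw [h4]; linarith
      · rw [h4]; linarith
    rw [Finset.sum_const, nsmul_eq_mul] at h2
    linarith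
  have hsum : (∑ i ∈ Γ, ‖z i‖ ^ 2) + (∑ i ∈ Γ, (z i) ^ 2).re ≤
      2 * B * ∑ i ∈ Γ, |(z i).re| := by
    rw [Complex.re_sum, ← Finset.sum_add_distrib, Finset.mul_sum]
    refine Finset.sum_le_sum fun i hi => ?_
    have h1 : ‖z i‖ ^ 2 = (z i).re ^ 2 + (z i).im ^ 2 := by
      rw [← Complex.normSq_eq_norm_sq, Complex.normSq_apply]; ring
    have h2 : ((z i) ^ 2).re = (z i).re ^ 2 - (z i).im ^ 2 := by
      rw [pow_two, Complex.mul_re]; ring
    rw [h1, h2]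
    have h3 : |(z i).re| ≤ B := (Complex.abs_re_le_norm _).trans (hzB i hi)
    have h4 : (z i).re ^ 2 = |(z i).re| * |(z i).re| := by rw [← sq_abs, pow_two]
    have h5 := mul_le_mul_of_nonneg_right h3 (abs_nonneg (z i).re)
    rw [h4] at *
    nlinarith
  rw [← mul_add, one_div, inv_mul_le_iff₀ (by positivity)]
  calc (∑ i ∈ Γ, ‖z i‖ ^ 2) + (∑ i ∈ Γ, (z i) ^ 2).re ≤ 2 * B * ∑ i ∈ Γ, |(z i).re| := hsum
    _ ≤ 2 * B * (2 * (Γ.card : ℝ) * (z j).re) :=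
        mul_le_mul_of_nonneg_left habs (by positivity)
    _ = 4 * (Γ.card : ℝ) * B * (z j).re := by ring

/-- Let `U_j`, `j ∈ Γ`, be holomorphic near `t₀` such that the differentials at `t₀` of the
differences `U_j - U_l`, `j, l ∈ Γ`, have no common zero `b ≠ 0`. Then there are a small sphere
around `t₀` and a holomorphic `q`, `q t₀ = 0`, such that on the sphere
`Re q + η ≤ max_{j ∈ Γ} Re (U_j - U_j t₀)`.

Proof. Let `k = |Γ|`, `v_j(t) = U_j t - U_j t₀`, `m = k⁻¹ ∑_{l ∈ Γ} v_l`, `u_j = v_j - m` for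
`j ∈ Γ`, so `∑_{j ∈ Γ} u_j = 0`, `u_j(t₀) = 0`, and the differentials at `t₀` of the `u_j` have no
common zero `b ≠ 0` (`D u_j b = 0` for all `j ∈ Γ` implies `D U_j b = D U_l b`). Hence there is
`c₃ > 0` with `∑ ‖D u_j b‖² ≥ 4 c₃² ‖b‖²`, and there are `C₂` and a radius below which
`c₃² ‖t-t₀‖² ≤ ∑ ‖u_j t‖²` and `‖u_j t‖ ≤ C₂ ‖t-t₀‖`. As `∑ Re u_j = 0`,
`max_j Re u_j ≥ (2k)⁻¹ ∑ |Re u_j|`. Take `s` small, `A = 1 / (4 k C₂)` (`C₂ > 0`), and
`q = m + (A/s) ∑_{j ∈ Γ} u_j²`. On `‖t-t₀‖ = s`, with `Re u_j² = (Re u_j)² - (Im u_j)²`: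
`max_j Re v_j - Re q = max_j Re u_j + (A/s) ∑ ((Im u_j)² - (Re u_j)²)
  ≥ ∑ |Re u_j| (1/(2k) - A C₂) + (A/s) ∑ (Im u_j)² ≥ (1/(4k)) ∑ |Re u_j| + (A/s) ∑ (Im u_j)²`
(using `(Re u_j)² ≤ C₂ s |Re u_j|`). Since `∑ ((Re u_j)² + (Im u_j)²) ≥ c₃² s²`, either
`∑ (Im u_j)² ≥ c₃² s²/2`, or `∑ (Re u_j)² ≥ c₃² s²/2` and then `C₂ s ∑ |Re u_j| ≥ c₃² s²/2`; in both
cases the bound is `≥ η` for some `η > 0` depending only on `s`. (If `w = 0` no point has
`‖t - t₀‖ = s > 0`.) -/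
theorem exists_q {w : ℕ} {ι : Type} [Fintype ι] (U : ι → Ew w → ℂ) {t₀ : Ew w} {ρ : ℝ}
    (hρ : 0 < ρ) (hU : ∀ j, DifferentiableOn ℂ (U j) (ball t₀ ρ)) (Γ : Finset ι)
    (hΓ : Γ.Nonempty)
    (hinj : ∀ b : Ew w, (∀ j ∈ Γ, ∀ l ∈ Γ, fderiv ℂ (U j) t₀ b = fderiv ℂ (U l) t₀ b) → b = 0) :
    ∃ s : ℝ, 0 < s ∧ s < ρ ∧ ∃ q : Ew w → ℂ, DifferentiableOn ℂ q (ball t₀ ρ) ∧ q t₀ = 0 ∧
      ∃ η : ℝ, 0 < η ∧ ∀ t : Ew w, ‖t - t₀‖ = s →
        ∃ j ∈ Γ, η + (q t).re ≤ (U j t).re - (U j t₀).re := by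
  classical
  have hk : (0 : ℝ) < (Γ.card : ℝ) := by exact_mod_cast hΓ.card_pos
  have hkC : (Γ.card : ℂ) ≠ 0 := by exact_mod_cast hΓ.card_pos.ne'
  set D : ι → (Ew w →L[ℂ] ℂ) := fun j => fderiv ℂ (U j) t₀ with hD_def
  have hD : ∀ j, HasFDerivAt (U j) (D j) t₀ := fun j =>
    ((hU j).differentiableAt (ball_mem_nhds t₀ hρ)).hasFDerivAt
  let v : ι → Ew w → ℂ := fun j t => U j t - U j t₀
  let m : Ew w → ℂ := fun t => (Γ.card : ℂ)⁻¹ * ∑ l ∈ Γ, v l t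
  let u : ι → Ew w → ℂ := fun j t => v j t - m t
  have hv : ∀ j, HasFDerivAt (v j) (D j) t₀ := fun j => (hD j).sub_const _
  have hm : HasFDerivAt m ((Γ.card : ℂ)⁻¹ • ∑ l ∈ Γ, D l) t₀ :=
    (HasFDerivAt.fun_sum fun l _ => hv l).const_mul _
  have hu : ∀ j, HasFDerivAt (u j) (D j - (Γ.card : ℂ)⁻¹ • ∑ l ∈ Γ, D l) t₀ :=
    fun j => (hv j).sub hm
  let uu : Ew w → (Γ → ℂ) := fun t j => u j t
  let L : Ew w →L[ℂ] (Γ → ℂ) :=
    ContinuousLinearMap.pi fun j : Γ => D j - (Γ.card : ℂ)⁻¹ • ∑ l ∈ Γ, D l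
  have huu : HasFDerivAt uu L t₀ := hasFDerivAt_pi.2 fun j => hu j
  have hv0 : ∀ j, v j t₀ = 0 := fun j => sub_self _
  have hm0 : m t₀ = 0 := by
    show (Γ.card : ℂ)⁻¹ * ∑ l ∈ Γ, v l t₀ = 0
    rw [Finset.sum_eq_zero fun l _ => hv0 l, mul_zero]
  have hu0 : ∀ j, u j t₀ = 0 := fun j => by
    show v j t₀ - m t₀ = 0
    rw [hv0, hm0, sub_zero]
  have hker : LinearMap.ker (L : Ew w →ₗ[ℂ] (Γ → ℂ)) = ⊥ := by
    rw [LinearMap.ker_eq_bot']
    intro b hb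
    refine hinj b fun j hj l hl => ?_
    have h1 : D j b - ((Γ.card : ℂ)⁻¹ • ∑ l ∈ Γ, D l) b = 0 := congrFun hb ⟨j, hj⟩
    have h2 : D l b - ((Γ.card : ℂ)⁻¹ • ∑ l ∈ Γ, D l) b = 0 := congrFun hb ⟨l, hl⟩
    exact (sub_eq_zero.1 h1).trans (sub_eq_zero.1 h2).symm
  obtain ⟨K, hK0, hK⟩ := LinearMap.exists_antilipschitzWith (L : Ew w →ₗ[ℂ] (Γ → ℂ)) hker
  have hK0' : (0 : ℝ) < K := hK0
  have hKn : ∀ b : Ew w, ‖b‖ ≤ K * ‖L b‖ := by
    intro b
    have h1 := hK.le_mul_dist b 0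
    rw [dist_zero_right, map_zero, dist_zero_right] at h1
    exact h1
  set c : ℝ := 1 / (2 * K) with hc_def
  have hc : 0 < c := by positivity
  set C : ℝ := ‖L‖ + c with hC_def
  have hL0 : 0 ≤ ‖L‖ := ContinuousLinearMap.opNorm_nonneg _
  have hC : 0 < C := by positivity
  have hev := huu.isLittleO.def hc
  obtain ⟨r₁, hr₁, hr₁'⟩ := Metric.eventually_nhds_iff.1 hev
  have huu0 : uu t₀ = 0 := by
    funext j
    exact hu0 j
  have hbnd : ∀ t : Ew w, ‖t - t₀‖ < r₁ → c * ‖t - t₀‖ ≤ ‖uu t‖ ∧ ‖uu t‖ ≤ C * ‖t - t₀‖ := by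
    intro t ht
    have h1 := hr₁' (y := t) (by rw [dist_eq_norm]; exact ht)
    rw [huu0, sub_zero] at h1
    have h2 := hKn (t - t₀)
    have h3 : 2 * c * ‖t - t₀‖ ≤ ‖L (t - t₀)‖ := by
      have h4 : 2 * c = (K : ℝ)⁻¹ := by rw [hc_def]; field_simp
      rw [h4, inv_mul_le_iff₀ hK0']
      exact h2
    have h5 : ‖L (t - t₀)‖ ≤ ‖L‖ * ‖t - t₀‖ := L.le_opNorm _
    constructor
    · have h6 := norm_sub_norm_le (L (t - t₀)) (uu t)
      rw [norm_sub_rev] at h6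
      linarith
    · have h6 := norm_sub_norm_le (uu t) (L (t - t₀))
      rw [hC_def, add_mul]
      linarith
  set s : ℝ := min ρ r₁ / 2 with hs_def
  have hs : 0 < s := by have := lt_min hρ hr₁; positivity
  have hsρ : s < ρ := by
    have h1 : min ρ r₁ ≤ ρ := min_le_left _ _
    rw [hs_def]; linarith [lt_min hρ hr₁]
  have hsr : s < r₁ := by
    have h1 : min ρ r₁ ≤ r₁ := min_le_right _ _
    rw [hs_def]; linarith [lt_min hρ hr₁]
  set α : ℝ := 1 / (4 * (Γ.card : ℝ) * (C * s)) with hα_def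
  have hα : 0 < α := by positivity
  have hudiff : ∀ j, DifferentiableOn ℂ (v j) (ball t₀ ρ) := fun j => (hU j).sub_const _
  have hmdiff : DifferentiableOn ℂ m (ball t₀ ρ) :=
    (DifferentiableOn.fun_sum fun l _ => hudiff l).const_mul _
  refine ⟨s, hs, hsρ, fun t => m t + (α : ℂ) * ∑ j ∈ Γ, (u j t) ^ 2, ?_, ?_,
    α * (c * s) ^ 2, by positivity, ?_⟩
  · refine hmdiff.add (DifferentiableOn.const_mul (DifferentiableOn.fun_sum fun l _ => ?_) _)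
    exact ((hudiff l).sub hmdiff).pow 2
  · simp only [hm0, hu0]
    simp
  · intro t ht
    have hb := hbnd t (by rw [ht]; exact hsr)
    rw [ht] at hb
    have hzsum : ∑ j ∈ Γ, u j t = 0 := by
      show ∑ j ∈ Γ, (v j t - (Γ.card : ℂ)⁻¹ * ∑ l ∈ Γ, v l t) = 0
      rw [Finset.sum_sub_distrib, Finset.sum_const, nsmul_eq_mul, ← mul_assoc,
        mul_inv_cancel₀ hkC, one_mul, sub_self]
    have hzB : ∀ j ∈ Γ, ‖u j t‖ ≤ C * s := fun j hj =>
      (norm_le_pi_norm (uu t) ⟨j, hj⟩).trans hb.2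
    obtain ⟨j, hj, hjle⟩ := qest_aux Γ hΓ (fun j => u j t) hzsum (B := C * s) (by positivity) hzB
    refine ⟨j, hj, ?_⟩
    have hlow : (c * s) ^ 2 ≤ ∑ i ∈ Γ, ‖u i t‖ ^ 2 := by
      have hne : Nonempty Γ := ⟨⟨j, hj⟩⟩
      obtain ⟨i, hi⟩ := Finite.exists_max fun i : Γ => ‖uu t i‖
      have h1 : ‖uu t‖ ≤ ‖uu t i‖ := (pi_norm_le_iff_of_nonneg (norm_nonneg _)).2 hi
      have h2 : c * s ≤ ‖u i t‖ := hb.1.trans h1
      calc (c * s) ^ 2 ≤ ‖u i t‖ ^ 2 := by gcongr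
        _ ≤ ∑ i ∈ Γ, ‖u i t‖ ^ 2 :=
          Finset.single_le_sum (f := fun i => ‖u i t‖ ^ 2) (fun _ _ => by positivity) i.2
    have h3 : (u j t).re = (U j t).re - (U j t₀).re - (m t).re := by
      show (v j t - m t).re = _
      rw [Complex.sub_re]
      show (U j t - U j t₀).re - (m t).re = _
      rw [Complex.sub_re]
    have h4 : (m t + (α : ℂ) * ∑ j ∈ Γ, (u j t) ^ 2).re =
        (m t).re + α * (∑ j ∈ Γ, (u j t) ^ 2).re := by
      rw [Complex.add_re, Complex.re_ofReal_mul]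
    show α * (c * s) ^ 2 + (m t + (α : ℂ) * ∑ j ∈ Γ, (u j t) ^ 2).re ≤ _
    rw [h4]
    have h5 := mul_le_mul_of_nonneg_left hlow hα.le
    simp only [← hα_def] at hjle
    rw [h3] at hjle
    linarith

end Pool.Agent.Lib.MP_209724_lc.GS
end

section

/-!
# Generic points of a variety: injectivity of linear forms on the tangent space, or curves
-/

namespace Pool.Agent.Lib.MP_209724_lc.GS

open Filter Topology Metric Set MvPolynomial

variable {n : ℕ} {ι : Type}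

/-- the zero set of an ideal -/
def zset (q : Ideal (MvPolynomial (Fin n) ℂ)) : Set (Ew n) :=
  {z | ∀ F ∈ q, eval (fun i => z i) F = 0}

/-- `b` is in the Zariski tangent space of the zero set of `q` at `z`. -/
def InTan (q : Ideal (MvPolynomial (Fin n) ℂ)) (z b : Ew n) : Prop :=
  ∀ F ∈ q, ∑ k, b k * eval (fun i => z i) (pderiv k F) = 0

/-- admissible pairs -/
private def maAdm (q : Ideal (MvPolynomial (Fin n) ℂ)) (v : ι → Ew n →L[ℂ] ℂ) (Γ : Finset ι)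
    (f : Frame n (MvPolynomial (Fin n) ℂ)) (T : Finset (Fin n)) : Prop :=
  (∀ a ∈ f.s, f.F a ∈ q) ∧ (∀ a ∈ T, a ∉ f.s) ∧
    (∀ a ∈ T, ∃ j ∈ Γ, ∃ l ∈ Γ, ∀ b : Ew n, ∑ k, f.μ a k * b k = v j b - v l b) ∧
    (f.mat (polyRing n)).det ∉ q

private theorem ma_card (s : Finset (Fin n)) : s.card ≤ n := by
  simpa using Finset.card_le_univ s

private theorem ma_exists (q : Ideal (MvPolynomial (Fin n) ℂ)) [hq : q.IsPrime]
    (v : ι → Ew n →L[ℂ] ℂ) (Γ : Finset ι) : ∃ f T, maAdm q v Γ f T ∧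
      ∀ g U, maAdm q v Γ g U → (n + 1) * g.s.card + U.card ≤ (n + 1) * f.s.card + T.card := by
  classical
  let A : Set ℕ := {N | ∃ f T, maAdm q v Γ f T ∧ N = (n + 1) * f.s.card + T.card}
  have hne : A.Nonempty := by
    refine ⟨_, (⟨∅, 0, fun a k => if a = k then 1 else 0⟩ : Frame n (MvPolynomial (Fin n) ℂ)), ∅,
      ⟨fun a ha => absurd ha (Finset.notMem_empty a), fun a ha => absurd ha (Finset.notMem_empty a),
        fun a ha => absurd ha (Finset.notMem_empty a), ?_⟩, rfl⟩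
    have h1 : (⟨∅, 0, fun a k => if a = k then 1 else 0⟩ : Frame n (MvPolynomial (Fin n) ℂ)).mat
        (polyRing n) = 1 := by
      refine Matrix.ext fun a k => ?_
      simp only [Frame.mat, Finset.notMem_empty, if_false, Matrix.one_apply]
      split_ifs
      · rw [map_one]
      · rw [map_zero]
    rw [h1, Matrix.det_one]
    exact fun h => hq.ne_top ((Ideal.eq_top_iff_one q).mpr h)
  have hbd : BddAbove A := by
    refine ⟨(n + 1) * n + n, ?_⟩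
    rintro _ ⟨f, T, _, rfl⟩
    exact add_le_add (Nat.mul_le_mul_left _ (ma_card _)) (ma_card _)
  obtain ⟨f, T, h1, h2⟩ := Nat.sSup_mem hne hbd
  refine ⟨f, T, h1, fun g U h3 => ?_⟩
  rw [← h2]
  exact le_csSup hbd ⟨g, U, h3, rfl⟩

private theorem ma_ev (z : Ew n) (F : MvPolynomial (Fin n) ℂ) :
    (polyRing n).ev z F = eval (fun i => z i) F := by
  show MvPolynomial.aeval (fun i => z i) F = _
  rw [MvPolynomial.aeval_def, MvPolynomial.eval₂_eq_eval_map]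
  simp

private theorem ma_zset (q : Ideal (MvPolynomial (Fin n) ℂ)) (z : Ew n) :
    z ∈ (polyRing n).zeros q ↔ z ∈ zset q := by
  constructor
  · intro h F hF
    rw [← ma_ev]
    exact h F hF
  · intro h F hF
    rw [ma_ev]
    exact h F hF

/-- For a single set `Γ` of linear forms. Proof: consider frames `f` (for `𝒟 = polyRing n`) together
with a finset `T ⊆ Fin n` disjoint from `f.s` such that: `f.F a ∈ q` for `a ∈ f.s`; for `a ∈ T` the
constant row `f.μ a` is the coefficient vector of `v j - v l` for some `j, l ∈ Γ` (i.e.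
`∀ b, ∑ k, f.μ a k * b k = v j b - v l b`); and `(f.mat 𝒟).det ∉ q`. Such pairs exist (`s = T = ∅`,
identity matrix). Choose one with `|f.s|` maximal, and then `|T|` maximal (e.g. maximise
`(n+1) * |f.s| + |T|`, as `|T| ≤ n`). Put `p₂ = (f.mat 𝒟).det`. Let `z ∈ zset q`, `p₂(z) ≠ 0`.

If `f.s ∪ T = univ`: if `b` is in the Zariski tangent space and `v j b = v l b` for `j, l ∈ Γ`, then the
matrix `f.mat` evaluated at `z` kills `b`, so `b = 0`.

If `a₀ ∉ f.s ∪ T`: take `γ` from `exists_curve` for `f.fn`, `f.mat`. For `G ∈ q` the determinant of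
`updateRow a₀ (∇G)` is in `q` by maximality of `|f.s|` (`T` may be replaced by `∅`: use
`maximal_frame_update`, noting that maximality of `|f.s|` here gives its hypothesis); so by
`IsCurve.stays` (`q` is finitely generated) `γ z' ∈ zset q`. For `j, l ∈ Γ` the determinant of
`updateRow a₀ (coefficients of v j - v l)` is in `q` by maximality of `|T|` (replace `T` by
`insert a₀ T`), so by `IsCurve.deriv` (with `isRow_const`) the derivative of `(v j - v l) ∘ γ` is `0`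
on the ball, hence `(v j - v l) ∘ γ` is constant. `γ z' ≠ z` for `z' ≠ 0` by `IsCurve.ne`. -/
theorem exists_p_single (q : Ideal (MvPolynomial (Fin n) ℂ)) [q.IsPrime] (v : ι → Ew n →L[ℂ] ℂ)
    (Γ : Finset ι) :
    ∃ p₂ : MvPolynomial (Fin n) ℂ, p₂ ∉ q ∧ ∀ z ∈ zset q, eval (fun i => z i) p₂ ≠ 0 →
      (∀ b : Ew n, InTan q z b → (∀ j ∈ Γ, ∀ l ∈ Γ, v j b = v l b) → b = 0) ∨
      ∃ (γ : ℂ → Ew n) (r : ℝ), 0 < r ∧ DifferentiableOn ℂ γ (ball 0 r) ∧ γ 0 = z ∧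
        (∀ s ∈ ball (0 : ℂ) r, s ≠ 0 → γ s ≠ z) ∧ (∀ s ∈ ball (0 : ℂ) r, γ s ∈ zset q) ∧
        ∀ s ∈ ball (0 : ℂ) r, ∀ j ∈ Γ, ∀ l ∈ Γ, v j (γ s) - v l (γ s) = v j z - v l z := by
  classical
  obtain ⟨f, T, ⟨hf1, hf2, hf3, hf4⟩, hmax⟩ := ma_exists q v Γ
  have hms : ∀ g : Frame n (MvPolynomial (Fin n) ℂ), (∀ a ∈ g.s, g.F a ∈ q) →
      (g.mat (polyRing n)).det ∉ q → g.s.card ≤ f.s.card := by
    intro g h1 h2
    have h3 := hmax g ∅ ⟨h1, fun a ha => absurd ha (Finset.notMem_empty a),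
      fun a ha => absurd ha (Finset.notMem_empty a), h2⟩
    rw [Finset.card_empty, add_zero] at h3
    have h4 := ma_card T
    by_contra h5
    push Not at h5
    have h6 : (n + 1) * (f.s.card + 1) ≤ (n + 1) * g.s.card := Nat.mul_le_mul_left _ h5
    rw [mul_add, mul_one] at h6
    omega
  refine ⟨(f.mat (polyRing n)).det, hf4, fun z hz hdz => ?_⟩
  have hdz' : (polyRing n).ev z (f.mat (polyRing n)).det ≠ 0 := by
    rw [ma_ev]; exact hdz
  by_cases huniv : ∀ a, a ∈ f.s ∨ a ∈ T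
  · left
    intro b hb hv
    have hdet : ((f.mat (polyRing n)).map ((polyRing n).ev z)).det ≠ 0 := by
      rw [← AlgHom.mapMatrix_apply, ← AlgHom.map_det]
      exact hdz'
    have hM : ((f.mat (polyRing n)).map ((polyRing n).ev z)).mulVec (fun k => b k) = 0 := by
      funext a
      show ∑ k, (polyRing n).ev z (f.mat (polyRing n) a k) * b k = 0
      rcases huniv a with ha | ha
      · rw [← hb (f.F a) (hf1 a ha)]
        refine Finset.sum_congr rfl fun k _ => ?_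
        have h1 : f.mat (polyRing n) a k = pderiv k (f.F a) := by
          show (if a ∈ f.s then _ else _) = _
          rw [if_pos ha]
          rfl
        rw [h1, ma_ev, mul_comm]
      · obtain ⟨j, hj, l, hl, hjl⟩ := hf3 a ha
        rw [← sub_eq_zero.mpr (hv j hj l hl), ← hjl b]
        refine Finset.sum_congr rfl fun k _ => ?_
        have h1 : f.mat (polyRing n) a k = algebraMap ℂ _ (f.μ a k) := by
          show (if a ∈ f.s then _ else _) = _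
          rw [if_neg (hf2 a ha)]
        rw [h1, AlgHom.commutes]
        rfl
    have h0 := Matrix.eq_zero_of_mulVec_eq_zero hdet hM
    ext k
    exact congrFun h0 k
  · right
    push Not at huniv
    obtain ⟨a₀, ha₀, ha₀T⟩ := huniv
    obtain ⟨γ, r, hγ, _⟩ := exists_curve (polyRing n) (f.fn (polyRing n)) (f.mat (polyRing n))
      (f.isRow (polyRing n)) z hdz' a₀ one_pos
    have hstay : ∀ s ∈ ball (0 : ℂ) r, γ s ∈ (polyRing n).zeros q :=
      hγ.stays q (IsNoetherian.noetherian q)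
        (fun G hG => maximal_frame_update (polyRing n) q f hf1 hms a₀ ha₀ G hG)
        ((ma_zset q z).mpr hz)
    refine ⟨γ, r, hγ.pos, hγ.diff, hγ.zero, fun s hs hs0 => hγ.ne hs hs0,
      fun s hs => (ma_zset q _).mp (hstay s hs), fun s hs j hj l hl => ?_⟩
    -- the constant row
    set μ : Fin n → ℂ := fun k => v j (EuclideanSpace.single k 1) - v l (EuclideanSpace.single k 1) with hμ
    have hμv : ∀ b : Ew n, ∑ k, μ k * b k = v j b - v l b := by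
      intro b
      have h1 := congrArg (fun L : Ew n →L[ℂ] ℂ => L b) (clm_eq_sum (v j - v l))
      have h2 : (v j - v l) b = v j b - v l b := rfl
      rw [← h2]
      refine Eq.trans ?_ h1.symm
      show _ = (∑ k, (v j - v l) (EuclideanSpace.single k 1) • (EuclideanSpace.proj k : Ew n →L[ℂ] ℂ)) b
      rw [sum_apply]
      rfl
    have hdetq : ((f.mat (polyRing n)).updateRow a₀ fun k => algebraMap ℂ _ (μ k)).det ∈ q := by
      by_contra hcon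
      let g : Frame n (MvPolynomial (Fin n) ℂ) := ⟨f.s, f.F, Function.update f.μ a₀ μ⟩
      have hgm : g.mat (polyRing n) =
          (f.mat (polyRing n)).updateRow a₀ fun k => algebraMap ℂ _ (μ k) := by
        funext a k
        show (if a ∈ f.s then (polyRing n).D k (f.F a) else
          algebraMap ℂ _ (Function.update f.μ a₀ μ a k)) = _
        by_cases haa : a = a₀
        · subst haa
          rw [if_neg ha₀, Matrix.updateRow_self, Function.update_self]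
        · rw [Matrix.updateRow_ne haa, Function.update_of_ne haa]
          rfl
      have h1 := hmax g (insert a₀ T) ⟨hf1, ?_, ?_, by rw [hgm]; exact hcon⟩
      · rw [Finset.card_insert_of_notMem ha₀T] at h1
        have h2 : g.s = f.s := rfl
        rw [h2] at h1
        omega
      · intro a ha
        rcases Finset.mem_insert.mp ha with rfl | ha
        · exact ha₀
        · exact hf2 a ha
      · intro a ha
        rcases Finset.mem_insert.mp ha with rfl | ha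
        · refine ⟨j, hj, l, hl, fun b => ?_⟩
          show ∑ k, Function.update f.μ a μ a k * b k = _
          rw [Function.update_self]
          exact hμv b
        · obtain ⟨j', hj', l', hl', h3⟩ := hf3 a ha
          refine ⟨j', hj', l', hl', fun b => ?_⟩
          have hne : a ≠ a₀ := fun h => ha₀T (h ▸ ha)
          show ∑ k, Function.update f.μ a₀ μ a k * b k = _
          rw [Function.update_of_ne hne]
          exact h3 b
    have hder : ∀ t ∈ ball (0 : ℂ) r,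
        HasDerivWithinAt (fun t => v j (γ t) - v l (γ t)) 0 (ball (0 : ℂ) r) t := by
      intro t ht
      have h1 := hγ.deriv t ht _ _ (isRow_const (polyRing n) μ)
      have h2 : (polyRing n).ev (γ t) ((f.mat (polyRing n)).updateRow a₀
          fun k => algebraMap ℂ _ (μ k)).det = 0 := hstay t ht _ hdetq
      rw [h2, zero_div] at h1
      have h3 : (fun t => ∑ k, μ k * γ t k) = fun t => v j (γ t) - v l (γ t) := by
        funext t
        exact hμv (γ t)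
      rw [h3] at h1
      exact h1.hasDerivWithinAt
    have h5 := (convex_ball (0 : ℂ) r).norm_image_sub_le_of_norm_hasDerivWithin_le (C := 0) hder
      (fun t _ => by rw [norm_zero]) (mem_ball_self hγ.pos) hs
    rw [zero_mul, norm_le_zero_iff, hγ.zero] at h5
    exact sub_eq_zero.mp h5

/-- For all finite sets `Γ` at once: the product of the polynomials of `exists_p_single` (`q` is
prime). -/
theorem exists_p [Fintype ι] (q : Ideal (MvPolynomial (Fin n) ℂ)) [q.IsPrime]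
    (v : ι → Ew n →L[ℂ] ℂ) :
    ∃ p₂ : MvPolynomial (Fin n) ℂ, p₂ ∉ q ∧ ∀ Γ : Finset ι, ∀ z ∈ zset q,
      eval (fun i => z i) p₂ ≠ 0 →
      (∀ b : Ew n, InTan q z b → (∀ j ∈ Γ, ∀ l ∈ Γ, v j b = v l b) → b = 0) ∨
      ∃ (γ : ℂ → Ew n) (r : ℝ), 0 < r ∧ DifferentiableOn ℂ γ (ball 0 r) ∧ γ 0 = z ∧
        (∀ s ∈ ball (0 : ℂ) r, s ≠ 0 → γ s ≠ z) ∧ (∀ s ∈ ball (0 : ℂ) r, γ s ∈ zset q) ∧
        ∀ s ∈ ball (0 : ℂ) r, ∀ j ∈ Γ, ∀ l ∈ Γ, v j (γ s) - v l (γ s) = v j z - v l z := by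
  classical
  choose p hp1 hp2 using fun Γ : Finset ι => exists_p_single q v Γ
  refine ⟨∏ Γ : Finset ι, p Γ, ?_, fun Γ z hz h => hp2 Γ z hz ?_⟩
  · rw [Ideal.IsPrime.prod_mem_iff]
    rintro ⟨Γ, _, h⟩
    exact hp1 Γ h
  · intro h0
    apply h
    rw [map_prod]
    exact Finset.prod_eq_zero (Finset.mem_univ Γ) h0

end Pool.Agent.Lib.MP_209724_lc.GS
end

section

/-!
# A projection that is generically finite on two varieties; relations
-/

namespace Pool.Agent.Lib.MP_209724_lc.GS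

open MvPolynomial
open GC (prj)

/-- the linear map `v ↦ ∑ v_i ξ_i` -/
private noncomputable def evL {n : ℕ} {L : Type} [Field L] [Algebra ℂ L] (ξ : Fin n → L) :
    (Fin n → ℂ) →ₗ[ℂ] L where
  toFun v := ∑ i, algebraMap ℂ L (v i) * ξ i
  map_add' u v := by
    simp only [Pi.add_apply, map_add, add_mul, Finset.sum_add_distrib]
  map_smul' c v := by
    simp only [Pi.smul_apply, smul_eq_mul, map_mul, RingHom.id_apply, Finset.mul_sum,
      Algebra.smul_def, mul_assoc]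

private theorem evL_apply {n : ℕ} {L : Type} [Field L] [Algebra ℂ L] (ξ : Fin n → L)
    (v : Fin n → ℂ) : evL ξ v = ∑ i, algebraMap ℂ L (v i) * ξ i := rfl

private theorem evL_single {n : ℕ} {L : Type} [Field L] [Algebra ℂ L] (ξ : Fin n → L)
    (l : Fin n) : evL ξ (Pi.single l 1) = ξ l := by
  rw [evL_apply, Finset.sum_eq_single l]
  · simp
  · intro j _ hj
    simp [Pi.single_eq_of_ne hj]
  · simp

private theorem evL_mem {n : ℕ} {L : Type} [Field L] [Algebra ℂ L] (ξ : Fin n → L)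
    (v : Fin n → ℂ) : evL ξ v ∈ IntermediateField.adjoin ℂ (Set.range ξ) := by
  rw [evL_apply]
  refine sum_mem fun i _ => mul_mem (IntermediateField.algebraMap_mem _ _) ?_
  exact IntermediateField.subset_adjoin _ _ ⟨i, rfl⟩

/-- a transcendental linear form -/
private theorem exists_transc {n i : ℕ} {L : Type} [Field L] [Algebra ℂ L] (ξ : Fin n → L)
    (htr : ((i + 1 : ℕ) : Cardinal) ≤ Algebra.trdeg ℂ (IntermediateField.adjoin ℂ (Set.range ξ)))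
    (Z : Fin i → Fin n → ℂ) (hZ : AlgebraicIndependent ℂ (fun j => evL ξ (Z j))) :
    ∃ l, Transcendental (Algebra.adjoin ℂ (Set.range fun j => evL ξ (Z j))) (ξ l) := by
  by_contra hcon
  push Not at hcon
  set F := IntermediateField.adjoin ℂ (Set.range fun j => evL ξ (Z j)) with hF
  set K := IntermediateField.adjoin ℂ (Set.range ξ) with hK
  have h1 : ∀ l, IsAlgebraic F (ξ l) := by
    intro l
    have h2 := hcon l
    rw [Transcendental, not_not] at h2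
    exact IntermediateField.isAlgebraic_adjoin_iff.mpr h2
  have h2 : K ≤ (algebraicClosure F L).restrictScalars ℂ := by
    rw [hK, IntermediateField.adjoin_le_iff]
    rintro _ ⟨l, rfl⟩
    exact mem_algebraicClosure_iff.mpr (h1 l)
  let ζ' : Fin i → K := fun j => ⟨evL ξ (Z j), evL_mem ξ (Z j)⟩
  have h3 : AlgebraicIndependent ℂ ζ' := by
    rw [← AlgHom.algebraicIndependent_iff K.val K.val.injective]
    exact hZ
  have h4 : Algebra.IsAlgebraic (Algebra.adjoin ℂ (Set.range ζ')) K := by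
    constructor
    intro x
    by_contra hx
    have h5 := (h3.option_iff_transcendental x).mpr hx
    rw [← AlgHom.algebraicIndependent_iff K.val K.val.injective] at h5
    have h6 : (K.val ∘ fun o : Option (Fin i) => o.elim x ζ') =
        fun o : Option (Fin i) => o.elim (x : L) (fun j => evL ξ (Z j)) := by
      funext o
      rcases o with _ | j
      · rfl
      · rfl
    rw [h6] at h5
    have h7 := (hZ.option_iff_transcendental (x : L)).mp h5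
    apply h7
    rw [← IntermediateField.isAlgebraic_adjoin_iff]
    exact mem_algebraicClosure_iff.mp (h2 x.2)
  have h5 : IsTranscendenceBasis ℂ ζ' :=
    isTranscendenceBasis_iff_algebraicIndependent_isAlgebraic.mpr ⟨h3, h4⟩
  have h6 := h5.cardinalMk_eq_trdeg
  rw [← h6, Cardinal.mk_fintype, Fintype.card_fin] at htr
  have h7 : i + 1 ≤ i := by exact_mod_cast htr
  omega

private theorem alg_sub {n i : ℕ} {L : Type} [Field L] [Algebra ℂ L] (ξ : Fin n → L)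
    (Z : Fin i → Fin n → ℂ) (u v : Fin n → ℂ)
    (huv : IsAlgebraic (Algebra.adjoin ℂ (Set.range fun j => evL ξ (Z j))) (evL ξ (u + v)))
    (hu : IsAlgebraic (Algebra.adjoin ℂ (Set.range fun j => evL ξ (Z j))) (evL ξ u)) :
    IsAlgebraic (Algebra.adjoin ℂ (Set.range fun j => evL ξ (Z j))) (evL ξ v) := by
  rw [← IntermediateField.isAlgebraic_adjoin_iff] at huv hu ⊢
  have h1 : evL ξ v = evL ξ (u + v) - evL ξ u := by
    rw [map_add]
    ring
  rw [h1]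
  exact huv.sub hu

private theorem indep_cons {n i : ℕ} {L : Type} [Field L] [Algebra ℂ L] (ξ : Fin n → L)
    (Z : Fin i → Fin n → ℂ) (hZ : AlgebraicIndependent ℂ (fun j => evL ξ (Z j)))
    (v : Fin n → ℂ)
    (hv : Transcendental (Algebra.adjoin ℂ (Set.range fun j => evL ξ (Z j))) (evL ξ v)) :
    AlgebraicIndependent ℂ (fun j => evL ξ ((Fin.cons v Z : Fin (i + 1) → Fin n → ℂ) j)) := by
  have h1 := (hZ.option_iff_transcendental (evL ξ v)).mpr hv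
  have h2 := h1.comp _ (finSuccEquiv i).injective
  have h3 : (fun o : Option (Fin i) => o.elim (evL ξ v) fun j => evL ξ (Z j)) ∘
      (finSuccEquiv i) = fun j => evL ξ ((Fin.cons v Z : Fin (i + 1) → Fin n → ℂ) j) := by
    funext j
    refine Fin.cases ?_ (fun j => ?_) j
    · simp
    · simp
  rw [h3] at h2
  exact h2

private theorem exists_proj2_aux {n d : ℕ} {L₁ L₂ : Type} [Field L₁] [Algebra ℂ L₁] [Field L₂]
    [Algebra ℂ L₂] (ξ₁ : Fin n → L₁) (ξ₂ : Fin n → L₂)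
    (htr₁ : (d : Cardinal) ≤ Algebra.trdeg ℂ (IntermediateField.adjoin ℂ (Set.range ξ₁)))
    (htr₂ : (d : Cardinal) ≤ Algebra.trdeg ℂ (IntermediateField.adjoin ℂ (Set.range ξ₂)))
    (i : ℕ) (hi : i ≤ d) :
    ∃ Z : Fin i → Fin n → ℂ, AlgebraicIndependent ℂ (fun j => evL ξ₁ (Z j)) ∧
      AlgebraicIndependent ℂ (fun j => evL ξ₂ (Z j)) := by
  induction i with
  | zero =>
    refine ⟨Fin.elim0, ?_, ?_⟩
    · rw [algebraicIndependent_empty_type_iff]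
      exact (algebraMap ℂ L₁).injective
    · rw [algebraicIndependent_empty_type_iff]
      exact (algebraMap ℂ L₂).injective
  | succ i ih =>
    obtain ⟨Z, hZ₁, hZ₂⟩ := ih (by omega)
    have htr₁' : ((i + 1 : ℕ) : Cardinal) ≤
        Algebra.trdeg ℂ (IntermediateField.adjoin ℂ (Set.range ξ₁)) :=
      le_trans (by exact_mod_cast hi) htr₁
    have htr₂' : ((i + 1 : ℕ) : Cardinal) ≤
        Algebra.trdeg ℂ (IntermediateField.adjoin ℂ (Set.range ξ₂)) :=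
      le_trans (by exact_mod_cast hi) htr₂
    obtain ⟨l₁, hl₁⟩ := exists_transc ξ₁ htr₁' Z hZ₁
    obtain ⟨l₂, hl₂⟩ := exists_transc ξ₂ htr₂' Z hZ₂
    rw [← evL_single ξ₁ l₁] at hl₁
    rw [← evL_single ξ₂ l₂] at hl₂
    obtain ⟨v, hv₁, hv₂⟩ : ∃ v : Fin n → ℂ,
        Transcendental (Algebra.adjoin ℂ (Set.range fun j => evL ξ₁ (Z j))) (evL ξ₁ v) ∧
        Transcendental (Algebra.adjoin ℂ (Set.range fun j => evL ξ₂ (Z j))) (evL ξ₂ v) := by
      by_cases h1 : IsAlgebraic (Algebra.adjoin ℂ (Set.range fun j => evL ξ₁ (Z j)))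
          (evL ξ₁ (Pi.single l₂ 1))
      · by_cases h2 : IsAlgebraic (Algebra.adjoin ℂ (Set.range fun j => evL ξ₂ (Z j)))
            (evL ξ₂ (Pi.single l₁ 1))
        · refine ⟨Pi.single l₂ 1 + Pi.single l₁ 1, ?_, ?_⟩
          · intro h
            exact hl₁ (alg_sub ξ₁ Z _ _ h h1)
          · intro h
            rw [add_comm] at h
            exact hl₂ (alg_sub ξ₂ Z _ _ h h2)
        · exact ⟨_, hl₁, h2⟩
      · exact ⟨_, h1, hl₂⟩
    exact ⟨Fin.cons v Z, indep_cons ξ₁ Z hZ₁ v hv₁, indep_cons ξ₂ Z hZ₂ v hv₂⟩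

/-- Linear forms that are algebraically independent in two fields. Proof: as the proof of
`GC.exists_proj` in `GC/Proj.lean`, constructing the rows of `Z` one after the other. If
`v_1, …, v_j ∈ ℂ^n`, `j < d`, are such that `∑ v_i ξ₁ i` and `∑ v_i ξ₂ i` are algebraically
independent families, then for `e = 1, 2` the vectors `v` for which `∑ v_i ξₑ i` is algebraic over
`ℂ` adjoined the previous forms are a linear subspace of `ℂ^n` (sums and multiples of algebraic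
elements are algebraic), proper because otherwise all `ξₑ i` would be algebraic and the
transcendence degree `≤ j < d`. Two proper subspaces do not cover `ℂ^n`
(e.g. `v` outside the first, `v'` outside the second: one of `v`, `v'`, `v + v'` is outside both). -/
theorem exists_proj2 {n d : ℕ} {L₁ L₂ : Type} [Field L₁] [Algebra ℂ L₁] [Field L₂] [Algebra ℂ L₂]
    (ξ₁ : Fin n → L₁) (ξ₂ : Fin n → L₂)
    (htr₁ : (d : Cardinal) ≤ Algebra.trdeg ℂ (IntermediateField.adjoin ℂ (Set.range ξ₁)))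
    (htr₂ : (d : Cardinal) ≤ Algebra.trdeg ℂ (IntermediateField.adjoin ℂ (Set.range ξ₂))) :
    ∃ Z : Fin d → Fin n → ℂ,
      AlgebraicIndependent ℂ (fun j => ∑ i, algebraMap ℂ L₁ (Z j i) * ξ₁ i) ∧
      AlgebraicIndependent ℂ (fun j => ∑ i, algebraMap ℂ L₂ (Z j i) * ξ₂ i) :=
  exists_proj2_aux ξ₁ ξ₂ htr₁ htr₂ d le_rfl

/-- substitution of linear forms -/
private noncomputable def lin {n d : ℕ} (Z : Fin d → Fin n → ℂ) :
    MvPolynomial (Fin d) ℂ →ₐ[ℂ] MvPolynomial (Fin n) ℂ :=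
  aeval fun j => ∑ k, C (Z j k) * X k

/-- the directional derivative -/
private noncomputable def dirD {n : ℕ} (b : Fin n → ℂ) :
    Derivation ℂ (MvPolynomial (Fin n) ℂ) (MvPolynomial (Fin n) ℂ) :=
  ∑ k, b k • pderiv k

private theorem dirD_apply {n : ℕ} (b : Fin n → ℂ) (F : MvPolynomial (Fin n) ℂ) :
    dirD b F = ∑ k, b k • pderiv k F := by
  have h1 := map_sum (Derivation.coeFnAddMonoidHom (R := ℂ) (A := MvPolynomial (Fin n) ℂ)
    (M := MvPolynomial (Fin n) ℂ)) (fun k => b k • (pderiv k :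
      Derivation ℂ (MvPolynomial (Fin n) ℂ) (MvPolynomial (Fin n) ℂ))) Finset.univ
  have h2 := congrFun h1 F
  rw [Finset.sum_apply] at h2
  exact h2

private theorem dirD_X {n : ℕ} (b : Fin n → ℂ) (i : Fin n) :
    dirD b (X i) = C (b i) := by
  classical
  rw [dirD_apply, Finset.sum_eq_single i]
  · rw [pderiv_X_self, smul_eq_C_mul, mul_one]
  · intro j _ hj
    rw [pderiv_X_of_ne hj.symm, smul_zero]
  · simp

private theorem dirD_lin {n d : ℕ} (Z : Fin d → Fin n → ℂ) (b : Fin n → ℂ) (hb : prj Z b = 0)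
    (c : MvPolynomial (Fin d) ℂ) : dirD b (lin Z c) = 0 := by
  induction c using MvPolynomial.induction_on with
  | C a =>
    have h1 : lin Z (C a) = algebraMap ℂ _ a := by
      rw [← algebraMap_eq, AlgHom.commutes]
    rw [h1]
    exact Derivation.map_algebraMap _ _
  | add p q hp hq => rw [map_add, map_add, hp, hq, add_zero]
  | mul_X p j hp =>
    rw [map_mul, Derivation.leibniz, hp, smul_zero, add_zero]
    have h1 : lin Z (X j) = ∑ k, C (Z j k) * X k := by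
      rw [lin, aeval_X]
    have h2 : dirD b (lin Z (X j)) = C (prj Z b j) := by
      rw [h1, map_sum]
      have h3 : ∀ k, dirD b (C (Z j k) * X k) = C (Z j k * b k) := by
        intro k
        rw [Derivation.leibniz, dirD_X, ← algebraMap_eq, Derivation.map_algebraMap, smul_zero,
          add_zero, smul_eq_mul, ← map_mul]
      rw [Finset.sum_congr rfl fun k _ => h3 k, ← map_sum]
      rfl
    rw [h2, hb, Pi.zero_apply, map_zero, smul_zero]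

private theorem dirD_eval₂ {n d : ℕ} (Z : Fin d → Fin n → ℂ) (b : Fin n → ℂ) (hb : prj Z b = 0)
    (i : Fin n) (h : Polynomial (MvPolynomial (Fin d) ℂ)) :
    dirD b (Polynomial.eval₂ (lin Z : MvPolynomial (Fin d) ℂ →+* MvPolynomial (Fin n) ℂ) (X i) h) =
      C (b i) * Polynomial.eval₂ (lin Z : MvPolynomial (Fin d) ℂ →+* MvPolynomial (Fin n) ℂ) (X i)
        (Polynomial.derivative h) := by
  induction h using Polynomial.induction_on' with
  | add p q hp hq =>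
    rw [Polynomial.eval₂_add, map_add, hp, hq, Polynomial.derivative_add, Polynomial.eval₂_add,
      mul_add]
  | monomial m c =>
    rw [Polynomial.derivative_monomial, Polynomial.eval₂_monomial, Polynomial.eval₂_monomial,
      Derivation.leibniz, Derivation.leibniz_pow, dirD_X]
    have h1 : dirD b ((lin Z : MvPolynomial (Fin d) ℂ →+* MvPolynomial (Fin n) ℂ) c) = 0 :=
      dirD_lin Z b hb c
    rw [h1, smul_zero, add_zero, map_mul, map_natCast]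
    simp only [smul_eq_mul, nsmul_eq_mul]
    ring

/-- **A separable relation.** Proof: let `h ∈ ℂ[ζ][T]` (i.e.
`h : Polynomial (MvPolynomial (Fin d) ℂ)`), `h ≠ 0`, of minimal degree with
`h(ζ; ξ i) = 0` in `L`; its derivative `h'` (in `T`) is nonzero (characteristic `0`, `natDegree h ≥ 1`
by algebraic independence) of smaller degree, so `h'(ζ; ξ i) ≠ 0`. Let
`F = h(Z X; X_i)` and `D = h'(Z X; X_i)` (substituting `∑ k, Z j k X_k` for `ζ j`), so that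
`aeval ξ F = 0` and `aeval ξ D ≠ 0`. For `prj Z b = 0` the polynomial in `s`
`F(z + s b) = h(Z z; z_i + s b_i)` has derivative `b_i D(z)` at `s = 0`, and this derivative is
`∑ k, b_k ∂_k F(z)` by the chain rule (alternatively by induction on `h`: the derivation
`∑ k, b_k ∂_k` of `ℂ[X]` kills the linear forms `∑ k, Z j k X_k`). -/
theorem exists_rel {n d : ℕ} {L : Type} [Field L] [Algebra ℂ L] (ξ : Fin n → L)
    (Z : Fin d → Fin n → ℂ) (ζ : Fin d → L)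
    (hζ : ∀ j, ζ j = ∑ i, algebraMap ℂ L (Z j i) * ξ i) (hind : AlgebraicIndependent ℂ ζ)
    (i : Fin n) (halg : IsAlgebraic (Algebra.adjoin ℂ (Set.range ζ)) (ξ i)) :
    ∃ F D : MvPolynomial (Fin n) ℂ, aeval ξ F = 0 ∧ aeval ξ D ≠ 0 ∧
      ∀ z b : Fin n → ℂ, prj Z b = 0 → ∑ k, b k * eval z (pderiv k F) = b i * eval z D := by
  classical
  set f : MvPolynomial (Fin d) ℂ →+* L :=
    ((aeval ζ : MvPolynomial (Fin d) ℂ →ₐ[ℂ] L) : MvPolynomial (Fin d) ℂ →+* L) with hf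
  have hinj : Function.Injective f := hind
  -- a relation
  have hex : ∃ m : ℕ, ∃ h : Polynomial (MvPolynomial (Fin d) ℂ), h ≠ 0 ∧
      Polynomial.eval₂ f (ξ i) h = 0 ∧ h.natDegree = m := by
    obtain ⟨p, hp, hp0⟩ := halg
    let e := hind.aevalEquiv
    refine ⟨_, p.map (e.symm : Algebra.adjoin ℂ (Set.range ζ) →+* MvPolynomial (Fin d) ℂ), ?_, ?_,
      rfl⟩
    · rw [Ne, Polynomial.map_eq_zero_iff]
      · exact hp
      · exact e.symm.injective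
    · rw [Polynomial.eval₂_map]
      have h1 : f.comp (e.symm : Algebra.adjoin ℂ (Set.range ζ) →+* MvPolynomial (Fin d) ℂ) =
          algebraMap (Algebra.adjoin ℂ (Set.range ζ)) L := by
        ext x
        have h2 := hind.algebraMap_aevalEquiv (e.symm x)
        rw [show hind.aevalEquiv (e.symm x) = x from e.apply_symm_apply x] at h2
        rw [RingHom.comp_apply, h2]
        rfl
      rw [h1]
      exact hp0
  obtain ⟨h, hh0, hh, hm⟩ := Nat.find_spec hex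
  have hmin : ∀ g : Polynomial (MvPolynomial (Fin d) ℂ), g ≠ 0 → Polynomial.eval₂ f (ξ i) g = 0 →
      h.natDegree ≤ g.natDegree := by
    intro g hg0 hg
    rw [hm]
    exact Nat.find_min' hex ⟨g, hg0, hg, rfl⟩
  have hdeg : h.natDegree ≠ 0 := by
    intro h0
    rw [Polynomial.eq_C_of_natDegree_eq_zero h0, Polynomial.eval₂_C] at hh
    have h1 := (map_eq_zero_iff f hinj).mp hh
    apply hh0
    rw [Polynomial.eq_C_of_natDegree_eq_zero h0, h1, map_zero]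
  have hder0 : Polynomial.derivative h ≠ 0 := by
    intro h0
    exact hdeg (Polynomial.derivative_eq_zero.mp h0)
  have hder : Polynomial.eval₂ f (ξ i) (Polynomial.derivative h) ≠ 0 := by
    intro h0
    have h1 := hmin _ hder0 h0
    have h2 := Polynomial.natDegree_derivative_lt hdeg
    omega
  have hcomp : ∀ g : Polynomial (MvPolynomial (Fin d) ℂ),
      aeval ξ (Polynomial.eval₂ (lin Z : MvPolynomial (Fin d) ℂ →+* MvPolynomial (Fin n) ℂ)
        (X i) g) = Polynomial.eval₂ f (ξ i) g := by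
    intro g
    have h1 : aeval ξ (Polynomial.eval₂
        (lin Z : MvPolynomial (Fin d) ℂ →+* MvPolynomial (Fin n) ℂ) (X i) g) =
        ((aeval ξ : MvPolynomial (Fin n) ℂ →ₐ[ℂ] L) : MvPolynomial (Fin n) ℂ →+* L)
          (Polynomial.eval₂ (lin Z : MvPolynomial (Fin d) ℂ →+* MvPolynomial (Fin n) ℂ)
          (X i) g) := rfl
    rw [h1, Polynomial.hom_eval₂]
    have h2 : ((aeval ξ : MvPolynomial (Fin n) ℂ →ₐ[ℂ] L) : MvPolynomial (Fin n) ℂ →+* L)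
        (X i) = ξ i := by
      simp
    rw [h2]
    congr 1
    refine MvPolynomial.ringHom_ext ?_ ?_
    · intro r
      simp [hf, lin]
    · intro j
      simp [hf, lin, hζ]
  refine ⟨Polynomial.eval₂ (lin Z : MvPolynomial (Fin d) ℂ →+* MvPolynomial (Fin n) ℂ) (X i) h,
    Polynomial.eval₂ (lin Z : MvPolynomial (Fin d) ℂ →+* MvPolynomial (Fin n) ℂ) (X i)
      (Polynomial.derivative h), ?_, ?_, ?_⟩
  · rw [hcomp]
    exact hh
  · rw [hcomp]
    exact hder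
  · intro z b hb
    have h1 := congrArg (eval z) (dirD_eval₂ Z b hb i h)
    rw [dirD_apply, map_sum, map_mul, eval_C] at h1
    rw [← h1]
    refine Finset.sum_congr rfl fun k _ => ?_
    rw [smul_eval]

end Pool.Agent.Lib.MP_209724_lc.GS
end

section

namespace Pool.Agent.Lib.MP_209724_lc.GP

open Filter Topology Metric Set
open GS (Ew)

variable {n d : ℕ}

/-- **Path lifting by approximate steps.** Proof. Let `c_j = (1 - j / N) • F v₀`, `j = 0, …, N`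
(`N ≥ 1`; if `N = 0`, then `F v₀ = 0` and `v₀` itself works), and `η' = min η (c₀ / 2)`. By induction on
`j ≤ N` there is `v_j ∈ M` with `‖v_j.1 - v₀.1‖ ≤ j R`, `‖F v_j - c_j‖ ≤ η'`, `p v_j ≠ 0`: as
`‖v_j.1 - t₀‖ ≤ ‖v₀.1 - t₀‖ + N R ≤ δ` and `‖c_{j+1} - F v_j‖ ≤ ‖F v₀‖ / N + c₀ / 2 ≤ c₀`, apply `huo` to
`v_j` and `c_{j+1}` with `η'`. Take `j = N`. -/
theorem path {M : Set (Ew d × (Fin n → ℂ))} {F : Ew d × (Fin n → ℂ) → Fin n → ℂ}
    {p : Ew d × (Fin n → ℂ) → ℂ} {v₀ : Ew d × (Fin n → ℂ)} (hv₀ : v₀ ∈ M) (hp : p v₀ ≠ 0)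
    {R c₀ δ : ℝ} (hR : 0 ≤ R) (hc₀ : 0 < c₀) (N : ℕ) (t₀ : Ew d)
    (huo : ∀ v ∈ M, ‖v.1 - t₀‖ ≤ δ → p v ≠ 0 → ∀ c, ‖c - F v‖ ≤ c₀ → ∀ η : ℝ, 0 < η →
      ∃ v' ∈ M, ‖v'.1 - v.1‖ ≤ R ∧ ‖F v' - c‖ ≤ η ∧ p v' ≠ 0)
    (hN : ‖F v₀‖ ≤ N * (c₀ / 2)) (hδ : ‖v₀.1 - t₀‖ + N * R ≤ δ) {η : ℝ} (hη : 0 < η) :
    ∃ v ∈ M, ‖v.1 - t₀‖ ≤ δ ∧ ‖F v‖ ≤ η := by
  rcases Nat.eq_zero_or_pos N with hN0 | hN0
  · subst hN0
    refine ⟨v₀, hv₀, ?_, ?_⟩
    · simpa using hδ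
    · have h1 : ‖F v₀‖ ≤ 0 := by simpa using hN
      exact h1.trans hη.le
  have hNr : (0 : ℝ) < N := by exact_mod_cast hN0
  have hη' : 0 < min η (c₀ / 2) := lt_min hη (by linarith)
  have key : ∀ j : ℕ, j ≤ N → ∃ v ∈ M, ‖v.1 - v₀.1‖ ≤ j * R ∧
      ‖F v - ((1 - (j : ℝ) / N) : ℝ) • F v₀‖ ≤ min η (c₀ / 2) ∧ p v ≠ 0 := by
    intro j
    induction j with
    | zero =>
      intro _
      refine ⟨v₀, hv₀, by simp, ?_, hp⟩
      have h1 : F v₀ - ((1 - ((0 : ℕ) : ℝ) / N) : ℝ) • F v₀ = 0 := by simp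
      rw [h1, norm_zero]
      exact hη'.le
    | succ j ih =>
      intro hj
      obtain ⟨v, hvM, hv1, hv2, hv3⟩ := ih (Nat.le_of_succ_le hj)
      have hjN : (j : ℝ) ≤ N := by exact_mod_cast Nat.le_of_succ_le hj
      have h1 : ‖v.1 - t₀‖ ≤ δ := by
        have e : v.1 - t₀ = (v.1 - v₀.1) + (v₀.1 - t₀) := by abel
        rw [e]
        have := norm_add_le (v.1 - v₀.1) (v₀.1 - t₀)
        have h2 : (j : ℝ) * R ≤ N * R := mul_le_mul_of_nonneg_right hjN hR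
        linarith
      have h2 : ‖((1 - ((j + 1 : ℕ) : ℝ) / N) : ℝ) • F v₀ - F v‖ ≤ c₀ := by
        have e : ((1 - ((j + 1 : ℕ) : ℝ) / N) : ℝ) • F v₀ - F v =
            -((1 / (N : ℝ)) • F v₀) - (F v - ((1 - (j : ℝ) / N) : ℝ) • F v₀) := by
          have e1 : ((1 - ((j + 1 : ℕ) : ℝ) / N) : ℝ) = -(1 / (N : ℝ)) + (1 - (j : ℝ) / N) := by
            push_cast
            ring
          rw [e1, add_smul, neg_smul]
          abel
        rw [e]
        have h3 := norm_sub_le (-((1 / (N : ℝ)) • F v₀)) (F v - ((1 - (j : ℝ) / N) : ℝ) • F v₀)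
        rw [norm_neg, norm_smul, Real.norm_of_nonneg (by positivity)] at h3
        have h4 : 1 / (N : ℝ) * ‖F v₀‖ ≤ c₀ / 2 := by
          rw [one_div, inv_mul_le_iff₀ hNr]
          exact hN
        have h5 := min_le_right η (c₀ / 2)
        linarith
      obtain ⟨v', hv'M, h6, h7, h8⟩ := huo v hvM h1 hv3 _ h2 (min η (c₀ / 2)) hη'
      refine ⟨v', hv'M, ?_, h7, h8⟩
      have e : v'.1 - v₀.1 = (v'.1 - v.1) + (v.1 - v₀.1) := by abel
      rw [e]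
      have := norm_add_le (v'.1 - v.1) (v.1 - v₀.1)
      push_cast
      linarith
  obtain ⟨v, hvM, hv1, hv2, -⟩ := key N le_rfl
  refine ⟨v, hvM, ?_, ?_⟩
  · have e : v.1 - t₀ = (v.1 - v₀.1) + (v₀.1 - t₀) := by abel
    rw [e]
    have := norm_add_le (v.1 - v₀.1) (v₀.1 - t₀)
    linarith
  · rw [div_self hNr.ne', sub_self, zero_smul, sub_zero] at hv2
    exact hv2.trans (min_le_left _ _)

/-- the limit of approximate solutions. Proof: take `v_m` with `‖F v_m‖ ≤ 1/(m+1)` in the compact set; a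
subsequence converges to `v` in it, and `F v = 0` by continuity. -/
theorem exists_exact {M : Set (Ew d × (Fin n → ℂ))} {F : Ew d × (Fin n → ℂ) → Fin n → ℂ} {δ : ℝ}
    {t₀ : Ew d} (hK : IsCompact {v | v ∈ M ∧ ‖v.1 - t₀‖ ≤ δ ∧ ‖F v‖ ≤ 1})
    (hF : ContinuousOn F {v | v ∈ M ∧ ‖v.1 - t₀‖ ≤ δ ∧ ‖F v‖ ≤ 1})
    (h : ∀ η : ℝ, 0 < η → ∃ v ∈ M, ‖v.1 - t₀‖ ≤ δ ∧ ‖F v‖ ≤ η) :
    ∃ v ∈ M, ‖v.1 - t₀‖ ≤ δ ∧ F v = 0 := by
  have hne : {v | v ∈ M ∧ ‖v.1 - t₀‖ ≤ δ ∧ ‖F v‖ ≤ 1}.Nonempty := by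
    obtain ⟨v, h1, h2, h3⟩ := h 1 one_pos
    exact ⟨v, h1, h2, h3⟩
  obtain ⟨v, ⟨hv1, hv2, hv3⟩, hmin⟩ := hK.exists_isMinOn hne hF.norm
  refine ⟨v, hv1, hv2, ?_⟩
  rw [← norm_le_zero_iff]
  refine le_of_forall_pos_le_add fun η hη => ?_
  rw [zero_add]
  obtain ⟨w, w1, w2, w3⟩ := h (min η 1) (lt_min hη one_pos)
  have h4 := hmin (a := w) ⟨w1, w2, w3.trans (min_le_right _ _)⟩
  exact le_trans h4 (w3.trans (min_le_left _ _))

end Pool.Agent.Lib.MP_209724_lc.GP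
end

section

namespace Pool.Agent.Lib.MP_209724_lc.GP

open MvPolynomial Filter Topology Metric Set
open GS (Ew)

variable {n d : ℕ}

/-- the two largest terms are comparable: for `ζ` in the common zero set of the exponential sums
`∑ a_α exp(α · ℓ ξ)` there are two different exponents `α ≠ β` with `a_α, a_β ≠ 0` whose real parts
are at most `C` below the real part of every exponent with `a ≠ 0`.

Proof. Let `T = {γ ∈ S j | a j γ ≠ 0}`, a finite nonempty set, with at least two elements (the sum of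
one nonzero term does not vanish). For `ζ` let `α ∈ T` maximize `|a_γ| exp(Re γ·ℓζ)` and let `β ∈ T ∖ {α}`
maximize it on `T ∖ {α}`; then `|a_α| exp(Re α·ℓζ) ≤ ∑_{γ ≠ α} ≤ |T| |a_β| exp(Re β·ℓζ)`. Take
logarithms; `C` depends only on `min |a_γ|`, `max |a_γ|`, `|T|` (all `j`). -/
theorem win_tie {J : Type} [Fintype J] (S : J → Finset (Fin n → ℕ)) (ℓ : Ew d →L[ℂ] (Fin n → ℂ))
    (a : J → (Fin n → ℕ) → ℂ) (ha : ∀ j, ∃ α ∈ S j, a j α ≠ 0) :
    ∃ C : ℝ, ∀ ζ : Ew d, (∀ j, ∑ α ∈ S j, a j α * Complex.exp (∑ i, (α i : ℂ) * ℓ ζ i) = 0) →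
      ∀ j, ∃ α ∈ S j, ∃ β ∈ S j, α ≠ β ∧ a j α ≠ 0 ∧ a j β ≠ 0 ∧
        ∀ γ ∈ S j, a j γ ≠ 0 →
          (∑ i, (γ i : ℂ) * ℓ ζ i).re ≤ (∑ i, (α i : ℂ) * ℓ ζ i).re + C ∧
          (∑ i, (γ i : ℂ) * ℓ ζ i).re ≤ (∑ i, (β i : ℂ) * ℓ ζ i).re + C := by
  classical
  refine ⟨∑ j, ∑ α ∈ S j, |Real.log ((∑ γ ∈ S j, ‖a j γ‖) / ‖a j α‖)|, ?_⟩
  intro ζ hζ j
  obtain ⟨w, hw⟩ : ∃ w : (Fin n → ℕ) → ℂ, w = fun γ => ∑ i, (γ i : ℂ) * ℓ ζ i := ⟨_, rfl⟩
  have hwγ : ∀ γ : Fin n → ℕ, ∑ i, (γ i : ℂ) * ℓ ζ i = w γ := fun γ => by rw [hw]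
  simp only [hwγ]
  have hz : ∑ γ ∈ S j, a j γ * Complex.exp (w γ) = 0 := by
    have := hζ j
    simp only [hwγ] at this
    exact this
  obtain ⟨T, hTdef⟩ : ∃ T, T = (S j).filter (fun γ => a j γ ≠ 0) := ⟨_, rfl⟩
  have hTm : ∀ γ, γ ∈ T ↔ γ ∈ S j ∧ a j γ ≠ 0 := fun γ => by rw [hTdef, Finset.mem_filter]
  have hT : T.Nonempty := by
    obtain ⟨α, h1, h2⟩ := ha j
    exact ⟨α, (hTm α).2 ⟨h1, h2⟩⟩
  have hzT : ∑ γ ∈ T, a j γ * Complex.exp (w γ) = 0 := by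
    rw [hTdef, Finset.sum_filter_of_ne]
    · exact hz
    · intro γ _ h h0
      exact h (by rw [h0, zero_mul])
  obtain ⟨α, hαT, hα⟩ := T.exists_max_image (fun γ => (w γ).re) hT
  have hsplit := Finset.add_sum_erase T (fun γ => a j γ * Complex.exp (w γ)) hαT
  rw [hzT] at hsplit
  have hα1 := (hTm α).1 hαT
  have hT2 : (T.erase α).Nonempty := by
    by_contra h
    rw [Finset.not_nonempty_iff_eq_empty] at h
    rw [h, Finset.sum_empty, add_zero] at hsplit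
    exact (mul_ne_zero hα1.2 (Complex.exp_ne_zero _)) hsplit
  obtain ⟨β, hβT, hβ⟩ := (T.erase α).exists_max_image (fun γ => (w γ).re) hT2
  have hβ0 := Finset.mem_erase.1 hβT
  have hβ1 := (hTm β).1 hβ0.2
  have hA : 0 < ∑ γ ∈ S j, ‖a j γ‖ := by
    refine Finset.sum_pos' (fun γ _ => norm_nonneg _) ⟨α, hα1.1, norm_pos_iff.2 hα1.2⟩
  have hpos : 0 < ‖a j α‖ := norm_pos_iff.2 hα1.2
  have key : ‖a j α‖ * Real.exp (w α).re ≤ (∑ γ ∈ S j, ‖a j γ‖) * Real.exp (w β).re := by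
    have h1 : a j α * Complex.exp (w α) = -∑ γ ∈ T.erase α, a j γ * Complex.exp (w γ) :=
      eq_neg_of_add_eq_zero_left hsplit
    have h2 : ‖a j α‖ * Real.exp (w α).re = ‖a j α * Complex.exp (w α)‖ := by
      rw [norm_mul, Complex.norm_exp]
    rw [h2, h1, norm_neg]
    calc ‖∑ γ ∈ T.erase α, a j γ * Complex.exp (w γ)‖
        ≤ ∑ γ ∈ T.erase α, ‖a j γ * Complex.exp (w γ)‖ := norm_sum_le _ _
      _ ≤ ∑ γ ∈ T.erase α, ‖a j γ‖ * Real.exp (w β).re := by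
          refine Finset.sum_le_sum fun γ hγ => ?_
          rw [norm_mul, Complex.norm_exp]
          exact mul_le_mul_of_nonneg_left (Real.exp_le_exp.2 (hβ γ hγ)) (norm_nonneg _)
      _ ≤ ∑ γ ∈ S j, ‖a j γ‖ * Real.exp (w β).re := by
          refine Finset.sum_le_sum_of_subset_of_nonneg ?_ fun γ _ _ =>
            mul_nonneg (norm_nonneg _) (Real.exp_pos _).le
          intro γ hγ
          exact ((hTm γ).1 (Finset.mem_of_mem_erase hγ)).1
      _ = (∑ γ ∈ S j, ‖a j γ‖) * Real.exp (w β).re := by rw [Finset.sum_mul]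
  obtain ⟨C, hCdef⟩ : ∃ C : ℝ, C = ∑ j, ∑ α ∈ S j, |Real.log ((∑ γ ∈ S j, ‖a j γ‖) / ‖a j α‖)| :=
    ⟨_, rfl⟩
  rw [← hCdef]
  have hC1 : |Real.log ((∑ γ ∈ S j, ‖a j γ‖) / ‖a j α‖)| ≤ C := by
    rw [hCdef]
    refine le_trans (Finset.single_le_sum
      (f := fun α => |Real.log ((∑ γ ∈ S j, ‖a j γ‖) / ‖a j α‖)|)
      (fun _ _ => abs_nonneg _) hα1.1) ?_
    exact Finset.single_le_sum
      (f := fun j => ∑ α ∈ S j, |Real.log ((∑ γ ∈ S j, ‖a j γ‖) / ‖a j α‖)|)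
      (fun _ _ => Finset.sum_nonneg fun _ _ => abs_nonneg _) (Finset.mem_univ j)
  have hC0 : 0 ≤ C := le_trans (abs_nonneg _) hC1
  have hwC : (w α).re ≤ (w β).re + C := by
    have h1 : Real.exp (w α).re ≤ ((∑ γ ∈ S j, ‖a j γ‖) / ‖a j α‖) * Real.exp (w β).re := by
      rw [div_mul_eq_mul_div, le_div_iff₀ hpos]
      linarith
    have h2 := Real.log_le_log (Real.exp_pos _) h1
    rw [Real.log_exp, Real.log_mul (div_pos hA hpos).ne' (Real.exp_pos _).ne', Real.log_exp] at h2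
    have h3 := le_abs_self (Real.log ((∑ γ ∈ S j, ‖a j γ‖) / ‖a j α‖))
    linarith
  refine ⟨α, hα1.1, β, hβ1.1, fun h => hβ0.1 h.symm, hα1.2, hβ1.2, ?_⟩
  intro γ hγ hγa
  have hγT : γ ∈ T := (hTm γ).2 ⟨hγ, hγa⟩
  have h1 : (w γ).re ≤ (w α).re := hα γ hγT
  refine ⟨by linarith, ?_⟩
  by_cases h : γ = α
  · rw [h]
    exact hwC
  · have h2 : (w γ).re ≤ (w β).re := hβ γ (Finset.mem_erase.2 ⟨h, hγT⟩)
    linarith

end Pool.Agent.Lib.MP_209724_lc.GP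
end

section

namespace Pool.Agent.Lib.MP_209724_lc.GP

open MvPolynomial Filter Topology Metric Set
open GS (Ew)

variable {n d : ℕ}

private theorem w2_front {w : ℕ} {x ζ : Ew w} {r : ℝ} (h : ζ ∈ frontier (ball x r)) : ‖ζ - x‖ = r := by
  have h1 := Metric.frontier_ball_subset_sphere h
  rwa [mem_sphere_iff_norm] at h1

private theorem w2_coer {w : ℕ} {κ : Type} [Fintype κ] (Λ : Ew w →ₗ[ℂ] (κ → ℂ))
    (h : ∀ b, Λ b = 0 → b = 0) : ∃ c : ℝ, 0 < c ∧ ∀ b, c * ‖b‖ ^ 2 ≤ ∑ p, ‖Λ b p‖ ^ 2 := by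
  obtain ⟨K, hK, hΛ⟩ := Λ.exists_antilipschitzWith (LinearMap.ker_eq_bot'.2 h)
  have hK' : (0 : ℝ) < K := by exact_mod_cast hK
  refine ⟨1 / (K : ℝ) ^ 2, by positivity, fun b => ?_⟩
  have h1 : ‖b‖ ≤ K * ‖Λ b‖ := by
    have h2 := hΛ.le_mul_dist b 0
    rw [map_zero, dist_zero_right, dist_zero_right] at h2
    exact h2
  have h3 : ‖Λ b‖ ≤ √(∑ p, ‖Λ b p‖ ^ 2) := by
    rw [pi_norm_le_iff_of_nonneg (Real.sqrt_nonneg _)]
    intro p
    refine Real.le_sqrt_of_sq_le ?_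
    exact Finset.single_le_sum (f := fun p => ‖Λ b p‖ ^ 2) (fun q _ => sq_nonneg _) (Finset.mem_univ p)
  have h4 : 0 ≤ ∑ p, ‖Λ b p‖ ^ 2 := Finset.sum_nonneg fun p _ => sq_nonneg _
  have h5 : ‖Λ b‖ ^ 2 ≤ ∑ p, ‖Λ b p‖ ^ 2 := by
    calc ‖Λ b‖ ^ 2 ≤ √(∑ p, ‖Λ b p‖ ^ 2) ^ 2 := pow_le_pow_left₀ (norm_nonneg _) h3 2
      _ = _ := Real.sq_sqrt h4
  have h6 : ‖b‖ ^ 2 ≤ (K * ‖Λ b‖) ^ 2 := pow_le_pow_left₀ (norm_nonneg _) h1 2
  rw [one_div, inv_mul_le_iff₀ (by positivity)]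
  calc ‖b‖ ^ 2 ≤ (K * ‖Λ b‖) ^ 2 := h6
    _ = K ^ 2 * ‖Λ b‖ ^ 2 := by ring
    _ ≤ K ^ 2 * ∑ p, ‖Λ b p‖ ^ 2 := mul_le_mul_of_nonneg_left h5 (by positivity)

/-- the real linear form of `γ` -/
private noncomputable def w2f (ℓ : Ew d →L[ℂ] (Fin n → ℂ)) (γ : Fin n → ℕ) (ξ : Ew d) : ℝ :=
  (∑ i, (γ i : ℂ) * ℓ ξ i).re

private theorem w2f_cont (ℓ : Ew d →L[ℂ] (Fin n → ℂ)) (γ : Fin n → ℕ) : Continuous (w2f ℓ γ) := by
  refine Complex.continuous_re.comp (continuous_finsetSum _ fun i _ => ?_)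
  exact continuous_const.mul ((continuous_apply i).comp ℓ.continuous)

private theorem w2f_smul (ℓ : Ew d →L[ℂ] (Fin n → ℂ)) (γ : Fin n → ℕ) (c : ℝ) (ξ : Ew d) :
    w2f ℓ γ ((c : ℂ) • ξ) = c * w2f ℓ γ ξ := by
  unfold w2f
  have h1 : ∑ i, (γ i : ℂ) * ℓ ((c : ℂ) • ξ) i = (c : ℂ) * ∑ i, (γ i : ℂ) * ℓ ξ i := by
    rw [Finset.mul_sum]
    refine Finset.sum_congr rfl fun i _ => ?_
    rw [map_smul, Pi.smul_apply, smul_eq_mul]
    ring
  rw [h1, Complex.re_ofReal_mul]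

/-- the limits of `ζ_m / r_m` -/
private def w2C (P : Set (Ew d)) : Set (Ew d) :=
  {κ | ∃ (ζ : ℕ → Ew d) (r : ℕ → ℝ), (∀ m, ζ m ∈ P) ∧ (∀ m, 0 < r m) ∧ Tendsto r atTop atTop ∧
    Tendsto (fun m => (((r m)⁻¹ : ℝ) : ℂ) • ζ m) atTop (𝓝 κ)}

/-- some limit has norm one -/
private theorem w2_unit (P : Set (Ew d)) {ξ₀ : Ew d} (hξ₀ : ξ₀ ∈ P)
    (hesc : ∀ ξ ∈ P, ∀ Ω : Set (Ew d), IsOpen Ω → Bornology.IsBounded Ω → ξ ∈ Ω →
      ∀ Q : Ew d → ℂ, Differentiable ℂ Q → ∀ ε : ℝ, 0 < ε →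
        ∃ ζ ∈ P, ζ ∈ frontier Ω ∧ (Q ξ).re + ε * ‖ξ‖ ^ 2 ≤ (Q ζ).re + ε * ‖ζ‖ ^ 2) :
    ∃ κ ∈ w2C P, ‖κ‖ = 1 := by
  have h1 : ∀ m : ℕ, ∃ ζ ∈ P, ‖ζ - ξ₀‖ = (m : ℝ) + 1 := fun m => by
    obtain ⟨ζ, hζ, hf, -⟩ := hesc ξ₀ hξ₀ (ball ξ₀ ((m : ℝ) + 1)) isOpen_ball isBounded_ball
      (mem_ball_self (by positivity)) (fun _ => 0) (differentiable_const _) 1 one_pos
    exact ⟨ζ, hζ, w2_front hf⟩
  choose ζ hζP hζ using h1
  have hpos : ∀ m : ℕ, (0 : ℝ) < (m : ℝ) + 1 := fun m => by positivity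
  have h2 : ∀ m : ℕ, ‖((((m : ℝ) + 1)⁻¹ : ℝ) : ℂ) • (ζ m - ξ₀)‖ = 1 := fun m => by
    rw [norm_smul, hζ, Complex.norm_real, norm_inv, Real.norm_eq_abs, abs_of_pos (hpos m),
      inv_mul_cancel₀ (hpos m).ne']
  obtain ⟨κ, hκ, φ, hφ, hlim⟩ := (isCompact_sphere (0 : Ew d) 1).tendsto_subseq
    (x := fun m : ℕ => ((((m : ℝ) + 1)⁻¹ : ℝ) : ℂ) • (ζ m - ξ₀))
    (fun m => by rw [mem_sphere_zero_iff_norm]; exact h2 m)
  refine ⟨κ, ⟨fun m => ζ (φ m), fun m => (φ m : ℝ) + 1, fun m => hζP _, fun m => hpos _, ?_, ?_⟩,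
    by rwa [mem_sphere_zero_iff_norm] at hκ⟩
  · exact tendsto_atTop_add_const_right _ _ (tendsto_natCast_atTop_atTop.comp hφ.tendsto_atTop)
  · have h3 : Tendsto (fun m => ((((φ m : ℝ) + 1)⁻¹ : ℝ) : ℂ) • ξ₀) atTop (𝓝 (((0 : ℝ) : ℂ) • ξ₀)) := by
      refine Tendsto.smul_const ?_ _
      refine (Complex.continuous_ofReal.tendsto 0).comp ?_
      exact tendsto_inv_atTop_zero.comp
        (tendsto_atTop_add_const_right _ _ (tendsto_natCast_atTop_atTop.comp hφ.tendsto_atTop))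
    rw [Complex.ofReal_zero, zero_smul] at h3
    have h4 := hlim.add h3
    rw [add_zero] at h4
    refine h4.congr fun m => ?_
    show ((((φ m : ℝ) + 1)⁻¹ : ℝ) : ℂ) • (ζ (φ m) - ξ₀) + _ = _
    rw [smul_sub, sub_add_cancel]

/-- at a limit two exponents are maximal -/
private theorem w2_two (S : Finset (Fin n → ℕ)) (ℓ : Ew d →L[ℂ] (Fin n → ℂ)) (P : Set (Ew d)) (C : ℝ)
    (htie : ∀ ζ ∈ P, ∃ α ∈ S, ∃ β ∈ S, α ≠ β ∧ ∀ γ ∈ S,
      w2f ℓ γ ζ ≤ w2f ℓ α ζ + C ∧ w2f ℓ γ ζ ≤ w2f ℓ β ζ + C) {κ : Ew d} (hκ : κ ∈ w2C P) :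
    ∃ α ∈ S, ∃ β ∈ S, α ≠ β ∧ ∀ γ ∈ S, w2f ℓ γ κ ≤ w2f ℓ α κ ∧ w2f ℓ γ κ ≤ w2f ℓ β κ := by
  classical
  obtain ⟨ζ, r, hζ, hr, hrt, hlim⟩ := hκ
  by_contra hcon
  push Not at hcon
  have hC : Tendsto (fun m => (r m)⁻¹ * C) atTop (𝓝 (0 * C)) :=
    (tendsto_inv_atTop_zero.comp hrt).mul_const C
  rw [zero_mul] at hC
  have hg : ∀ γ : Fin n → ℕ, Tendsto (fun m => (r m)⁻¹ * w2f ℓ γ (ζ m)) atTop (𝓝 (w2f ℓ γ κ)) :=
    fun γ => by
      have h1 := ((w2f_cont ℓ γ).tendsto κ).comp hlim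
      refine h1.congr fun m => ?_
      show w2f ℓ γ ((((r m)⁻¹ : ℝ) : ℂ) • ζ m) = _
      rw [w2f_smul]
  -- a strict inequality at the limit excludes the inequality up to `C`
  have key : ∀ α γ : Fin n → ℕ, w2f ℓ α κ < w2f ℓ γ κ → ∀ᶠ m in atTop,
      ¬ w2f ℓ γ (ζ m) ≤ w2f ℓ α (ζ m) + C := by
    intro α γ h
    have h1 : Tendsto (fun m => (r m)⁻¹ * w2f ℓ α (ζ m) + (r m)⁻¹ * C) atTop (𝓝 (w2f ℓ α κ + 0)) :=
      (hg α).add hC
    rw [add_zero] at h1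
    filter_upwards [h1.eventually_lt (hg γ) h] with m hm hle
    have h2 := mul_le_mul_of_nonneg_left hle (inv_pos.2 (hr m)).le
    rw [mul_add] at h2
    linarith
  have h3 : ∀ p ∈ S ×ˢ S, ∀ᶠ m in atTop, p.1 ≠ p.2 → ¬ ∀ γ ∈ S,
      w2f ℓ γ (ζ m) ≤ w2f ℓ p.1 (ζ m) + C ∧ w2f ℓ γ (ζ m) ≤ w2f ℓ p.2 (ζ m) + C := by
    intro p hp
    rw [Finset.mem_product] at hp
    by_cases hne : p.1 ≠ p.2
    · obtain ⟨γ, hγ, h4⟩ := hcon p.1 hp.1 p.2 hp.2 hne
      by_cases h5 : w2f ℓ γ κ ≤ w2f ℓ p.1 κ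
      · filter_upwards [key p.2 γ (h4 h5)] with m hm _ h6
        exact hm (h6 γ hγ).2
      · push Not at h5
        filter_upwards [key p.1 γ h5] with m hm _ h6
        exact hm (h6 γ hγ).1
    · exact Eventually.of_forall fun m h => absurd h hne
  obtain ⟨m, hm⟩ := ((Filter.eventually_all_finset _).2 h3).exists
  obtain ⟨α, hα, β, hβ, hne, h4⟩ := htie (ζ m) (hζ m)
  exact hm (α, β) (Finset.mem_product.2 ⟨hα, hβ⟩) hne h4

open Classical in
/-- the maximal exponents -/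
private noncomputable def w2A (S : Finset (Fin n → ℕ)) (ℓ : Ew d →L[ℂ] (Fin n → ℂ)) (κ : Ew d) :
    Finset (Fin n → ℕ) := S.filter fun γ => ∀ γ' ∈ S, w2f ℓ γ' κ ≤ w2f ℓ γ κ

private theorem w2_near (S : Finset (Fin n → ℕ)) (ℓ : Ew d →L[ℂ] (Fin n → ℂ)) (κ : Ew d) :
    ∀ᶠ κ' in 𝓝 κ, w2A S ℓ κ' ⊆ w2A S ℓ κ := by
  classical
  have h1 : ∀ γ ∈ S, ∀ᶠ κ' in 𝓝 κ, γ ∈ w2A S ℓ κ' → γ ∈ w2A S ℓ κ := by
    intro γ hγ
    by_cases h : γ ∈ w2A S ℓ κ
    · exact Eventually.of_forall fun _ _ => h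
    · have h2 : ∃ γ' ∈ S, w2f ℓ γ κ < w2f ℓ γ' κ := by
        by_contra hc
        push Not at hc
        exact h (Finset.mem_filter.2 ⟨hγ, hc⟩)
      obtain ⟨γ', hγ', h3⟩ := h2
      have h4 := (w2f_cont ℓ γ).continuousAt.eventually_lt (w2f_cont ℓ γ').continuousAt h3
      filter_upwards [h4] with κ' h5 h6
      exact absurd ((Finset.mem_filter.1 h6).2 γ' hγ') (not_le.2 h5)
  filter_upwards [(Filter.eventually_all_finset _).2 h1] with κ' h2 γ hγ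
  exact h2 γ (Finset.mem_filter.1 hγ).1 hγ

/-- **The part of positive dimension is empty.** `P` is a set with the escape property (as in
`GS.IsStrat.esc`) such that at all its points, for every `j`, two different exponents of `S' j` are
maximal up to `C` (this is `htie`; `S' j` is a finite set of real-linear forms given through
exponents). Then `P = ∅`.

Proof. Write `f_{γ}(ξ) = Re (γ·ℓ ξ)`. Suppose `ξ₀ ∈ P`. Let `𝒞` be the set of the limits of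
`ζ_m / r_m`, `ζ_m ∈ P`, `r_m → ∞`.
(i) `𝒞` contains some `κ` with `‖κ‖ = 1`: `esc` for `ξ₀`, `Ω = ball ξ₀ (m+1)`, `Q = 0`, `ε = 1` gives
`ζ_m ∈ P` with `‖ζ_m - ξ₀‖ = m + 1`; take a convergent subsequence of `ζ_m / (m + 1)`.
(ii) For `κ ∈ 𝒞` let `A_j(κ) = {γ ∈ S' j | f_γ(κ) = max_{γ' ∈ S' j} f_γ'(κ)}`. It has at least two
elements: in `htie` for `ζ_m` the pair `(α, β)` is constant on a subsequence (pigeonhole); divide by `r_m`.
(iii) Choose `κ ∈ 𝒞`, `κ ≠ 0`, with `∑_j |A_j(κ)|` minimal (natural numbers). There is `δ > 0`,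
`δ < ‖κ‖`, such that `‖κ' - κ‖ ≤ δ` implies `A_j(κ') ⊆ A_j(κ)` for all `j` (forms which are not maximal at
`κ` are not maximal near `κ`). If moreover `κ' ∈ 𝒞`, then `A_j(κ') = A_j(κ)` by minimality.
(iv) For every `j` choose `α_j ≠ β_j` in `A_j(κ)` and put `M_j(ξ) = ∑ i, (α_j i - β_j i) ℓ ξ i`, complex
linear. By `hsel` `M = (M_j)_j` is injective, so there is `c > 0` with `c ‖ξ‖² ≤ ∑_j |M_j ξ|²`
(as in the private `GS.sys_coer`, `LinearMap.exists_antilipschitzWith`). By (iii)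
`Re M_j(κ') = 0` for all `κ' ∈ 𝒞` with `‖κ' - κ‖ ≤ δ`.
(v) Let `ζ_m / r_m → κ`, and `ε' = c δ² / (2 (‖κ‖ + δ)²)`. Apply `esc` at `ζ_m` with
`Ω = ball ζ_m (δ r_m)`, `Q(ξ) = ∑_j (M_j(ξ - ζ_m))² / r_m`, `ε = ε' / r_m`: there is `ζ'_m ∈ P` with
`‖ζ'_m - ζ_m‖ = δ r_m` and `ε' ‖ζ_m‖² / r_m ≤ Re ∑_j (M_j(ζ'_m - ζ_m))² / r_m + ε' ‖ζ'_m‖² / r_m`.
Divide by `r_m` and pass to the limit of a subsequence, `ζ'_m / r_m → κ' ∈ 𝒞`, `‖κ' - κ‖ = δ`:
`ε' ‖κ‖² ≤ Re ∑_j (M_j(κ' - κ))² + ε' ‖κ'‖²`. As `Re M_j(κ' - κ) = 0`, the sum is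
`-∑ |M_j(κ' - κ)|² ≤ - c δ²`, and `‖κ'‖ ≤ ‖κ‖ + δ`: so `ε' ‖κ‖² ≤ -c δ² + c δ²/2 < 0`, a
contradiction. -/
theorem win_empty {J : Type} [Fintype J] (S' : J → Finset (Fin n → ℕ))
    (ℓ : Ew d →L[ℂ] (Fin n → ℂ))
    (hsel : ∀ b : Ew d, ∀ α β : J → Fin n → ℕ, (∀ j, α j ∈ S' j ∧ β j ∈ S' j ∧ α j ≠ β j) →
      (∀ j, ∑ i, ((α j i : ℂ) - β j i) * ℓ b i = 0) → b = 0)
    (P : Set (Ew d)) (C : ℝ)
    (htie : ∀ ζ ∈ P, ∀ j, ∃ α ∈ S' j, ∃ β ∈ S' j, α ≠ β ∧ ∀ γ ∈ S' j,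
      (∑ i, (γ i : ℂ) * ℓ ζ i).re ≤ (∑ i, (α i : ℂ) * ℓ ζ i).re + C ∧
      (∑ i, (γ i : ℂ) * ℓ ζ i).re ≤ (∑ i, (β i : ℂ) * ℓ ζ i).re + C)
    (hesc : ∀ ξ ∈ P, ∀ Ω : Set (Ew d), IsOpen Ω → Bornology.IsBounded Ω → ξ ∈ Ω →
      ∀ Q : Ew d → ℂ, Differentiable ℂ Q → ∀ ε : ℝ, 0 < ε →
        ∃ ζ ∈ P, ζ ∈ frontier Ω ∧ (Q ξ).re + ε * ‖ξ‖ ^ 2 ≤ (Q ζ).re + ε * ‖ζ‖ ^ 2) :
    P = ∅ := by
  classical
  by_contra hne
  obtain ⟨ξ₀, hξ₀⟩ := Set.nonempty_iff_ne_empty.2 hne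
  have htie' : ∀ j, ∀ ζ ∈ P, ∃ α ∈ S' j, ∃ β ∈ S' j, α ≠ β ∧ ∀ γ ∈ S' j,
      w2f ℓ γ ζ ≤ w2f ℓ α ζ + C ∧ w2f ℓ γ ζ ≤ w2f ℓ β ζ + C := fun j ζ hζ => htie ζ hζ j
  have hex : ∃ N : ℕ, ∃ κ ∈ w2C P, κ ≠ 0 ∧ ∑ j, (w2A (S' j) ℓ κ).card = N := by
    obtain ⟨κ, hκ, h1⟩ := w2_unit P hξ₀ hesc
    refine ⟨_, κ, hκ, ?_, rfl⟩
    rintro rfl
    rw [norm_zero] at h1
    exact zero_ne_one h1
  obtain ⟨κ, hκC, hκ0, hκN⟩ := Nat.find_spec hex
  have hmin : ∀ κ' ∈ w2C P, κ' ≠ 0 → ∑ j, (w2A (S' j) ℓ κ).card ≤ ∑ j, (w2A (S' j) ℓ κ').card := by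
    intro κ' h1 h2
    rw [hκN]
    exact Nat.find_min' hex ⟨κ', h1, h2, rfl⟩
  have hκpos : 0 < ‖κ‖ := norm_pos_iff.2 hκ0
  -- a neighbourhood where the sets of maximal exponents do not grow
  obtain ⟨δ, hδ0, hδκ, hδ⟩ : ∃ δ : ℝ, 0 < δ ∧ δ < ‖κ‖ ∧ ∀ κ' : Ew d, ‖κ' - κ‖ ≤ δ → ∀ j,
      w2A (S' j) ℓ κ' ⊆ w2A (S' j) ℓ κ := by
    have h1 : ∀ᶠ κ' in 𝓝 κ, ∀ j, w2A (S' j) ℓ κ' ⊆ w2A (S' j) ℓ κ :=
      Filter.eventually_all.2 fun j => w2_near (S' j) ℓ κ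
    obtain ⟨ε, hε, h2⟩ := Metric.eventually_nhds_iff.1 h1
    refine ⟨min (ε / 2) (‖κ‖ / 2), by positivity, ?_, fun κ' h3 => h2 ?_⟩
    · exact (min_le_right _ _).trans_lt (by linarith)
    · rw [dist_eq_norm]
      exact (h3.trans (min_le_left _ _)).trans_lt (by linarith)
  have hA : ∀ κ' ∈ w2C P, ‖κ' - κ‖ ≤ δ → ∀ j, w2A (S' j) ℓ κ' = w2A (S' j) ℓ κ := by
    intro κ' h1 h2 j
    have h3 : κ' ≠ 0 := by
      rintro rfl
      rw [zero_sub, norm_neg] at h2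
      linarith
    have h4 := hmin κ' h1 h3
    refine Finset.eq_of_subset_of_card_le (hδ κ' h2 j) ?_
    by_contra h5
    push Not at h5
    have h6 : ∑ j, (w2A (S' j) ℓ κ').card < ∑ j, (w2A (S' j) ℓ κ).card :=
      Finset.sum_lt_sum (fun i _ => Finset.card_le_card (hδ κ' h2 i)) ⟨j, Finset.mem_univ _, h5⟩
    omega
  -- two maximal exponents
  have htwo : ∀ j, ∃ α ∈ S' j, ∃ β ∈ S' j, α ≠ β ∧ α ∈ w2A (S' j) ℓ κ ∧ β ∈ w2A (S' j) ℓ κ := by
    intro j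
    obtain ⟨α, hα, β, hβ, hne', h1⟩ := w2_two (S' j) ℓ P C (htie' j) hκC
    exact ⟨α, hα, β, hβ, hne', Finset.mem_filter.2 ⟨hα, fun γ hγ => (h1 γ hγ).1⟩,
      Finset.mem_filter.2 ⟨hβ, fun γ hγ => (h1 γ hγ).2⟩⟩
  choose α hα β hβ hαβ hαA hβA using htwo
  obtain ⟨M, hM⟩ : ∃ M : Ew d →ₗ[ℂ] (J → ℂ), ∀ ξ j, M ξ j = ∑ i, ((α j i : ℂ) - β j i) * ℓ ξ i := by
    refine ⟨LinearMap.pi fun j => ∑ i, ((α j i : ℂ) - β j i) •
      ((LinearMap.proj i : (Fin n → ℂ) →ₗ[ℂ] ℂ) ∘ₗ (ℓ : Ew d →ₗ[ℂ] (Fin n → ℂ))), fun ξ j => ?_⟩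
    rw [LinearMap.pi_apply, LinearMap.sum_apply]
    refine Finset.sum_congr rfl fun i _ => ?_
    rfl
  have hMinj : ∀ b, M b = 0 → b = 0 := by
    intro b hb
    refine hsel b α β (fun j => ⟨hα j, hβ j, hαβ j⟩) fun j => ?_
    rw [← hM, hb]
    rfl
  obtain ⟨c, hc0, hc⟩ := w2_coer M hMinj
  have hMre : ∀ ξ j, (M ξ j).re = w2f ℓ (α j) ξ - w2f ℓ (β j) ξ := by
    intro ξ j
    rw [hM]
    unfold w2f
    rw [← Complex.sub_re, ← Finset.sum_sub_distrib]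
    congr 1
    refine Finset.sum_congr rfl fun i _ => ?_
    ring
  have hre0 : ∀ κ' ∈ w2C P, ‖κ' - κ‖ ≤ δ → ∀ j, (M κ' j).re = 0 := by
    intro κ' h1 h2 j
    have h3 := hA κ' h1 h2 j
    have h4 := hαA j
    have h5 := hβA j
    rw [← h3] at h4 h5
    have h6 := (Finset.mem_filter.1 h4).2 (β j) (hβ j)
    have h7 := (Finset.mem_filter.1 h5).2 (α j) (hα j)
    rw [hMre]
    linarith
  -- the escape argument
  have hκC' := hκC
  obtain ⟨ζ, r, hζ, hr, hrt, hlim⟩ := hκC'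
  obtain ⟨ε', hε'⟩ : ∃ ε' : ℝ, ε' = c * δ ^ 2 / (2 * (‖κ‖ + δ) ^ 2) := ⟨_, rfl⟩
  have hε'0 : 0 < ε' := by rw [hε']; positivity
  have hMc : Continuous M := LinearMap.continuous_of_finiteDimensional M
  have hstep : ∀ m, ∃ u ∈ P, ‖u - ζ m‖ = δ * r m ∧
      ε' * ‖ζ m‖ ^ 2 ≤ (∑ j, (M (u - ζ m) j) ^ 2).re + ε' * ‖u‖ ^ 2 := by
    intro m
    have hMd : ∀ j, Differentiable ℂ fun u : Ew d => M (u - ζ m) j := fun j => by
      have h1 : Differentiable ℂ fun u : Ew d => (LinearMap.toContinuousLinearMap M) (u - ζ m) :=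
        (LinearMap.toContinuousLinearMap M).differentiable.comp (differentiable_id.sub_const _)
      exact (differentiable_pi.1 h1) j
    have hQ : Differentiable ℂ fun u : Ew d => ∑ j, (M (u - ζ m) j) ^ 2 :=
      Differentiable.fun_sum fun j _ => (hMd j).pow 2
    obtain ⟨u, hu, hf, hle⟩ := hesc (ζ m) (hζ m) (ball (ζ m) (δ * r m)) isOpen_ball isBounded_ball
      (mem_ball_self (mul_pos hδ0 (hr m))) _ hQ ε' hε'0
    refine ⟨u, hu, w2_front hf, ?_⟩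
    have h0 : (∑ j, (M (ζ m - ζ m) j) ^ 2) = 0 := by
      rw [sub_self, map_zero]
      simp
    simp only [h0, Complex.zero_re, zero_add] at hle
    exact hle
  choose u huP hur hule using hstep
  have hsph : ∀ m, ‖(((r m)⁻¹ : ℝ) : ℂ) • (u m - ζ m)‖ = δ := fun m => by
    rw [norm_smul, hur, Complex.norm_real, norm_inv, Real.norm_eq_abs, abs_of_pos (hr m),
      mul_comm δ, ← mul_assoc, inv_mul_cancel₀ (hr m).ne', one_mul]
  obtain ⟨v, hv, φ, hφ, hvlim⟩ := (isCompact_sphere (0 : Ew d) δ).tendsto_subseq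
    (x := fun m : ℕ => (((r m)⁻¹ : ℝ) : ℂ) • (u m - ζ m))
    (fun m => by rw [mem_sphere_zero_iff_norm]; exact hsph m)
  rw [mem_sphere_zero_iff_norm] at hv
  have hlim' : Tendsto (fun m => (((r (φ m))⁻¹ : ℝ) : ℂ) • ζ (φ m)) atTop (𝓝 κ) :=
    hlim.comp hφ.tendsto_atTop
  have hulim : Tendsto (fun m => (((r (φ m))⁻¹ : ℝ) : ℂ) • u (φ m)) atTop (𝓝 (v + κ)) := by
    have h1 := hvlim.add hlim'
    refine h1.congr fun m => ?_
    show (((r (φ m))⁻¹ : ℝ) : ℂ) • (u (φ m) - ζ (φ m)) + _ = _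
    rw [smul_sub, sub_add_cancel]
  have hmem : v + κ ∈ w2C P := ⟨fun m => u (φ m), fun m => r (φ m), fun m => huP _, fun m => hr _,
    hrt.comp hφ.tendsto_atTop, hulim⟩
  have hnear : ‖v + κ - κ‖ ≤ δ := by rw [add_sub_cancel_right, hv]
  -- the limit of the inequality
  have hineq : ∀ m, ε' * ‖(((r (φ m))⁻¹ : ℝ) : ℂ) • ζ (φ m)‖ ^ 2 ≤
      (∑ j, (M ((((r (φ m))⁻¹ : ℝ) : ℂ) • (u (φ m) - ζ (φ m))) j) ^ 2).re +
        ε' * ‖(((r (φ m))⁻¹ : ℝ) : ℂ) • u (φ m)‖ ^ 2 := by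
    intro m
    have h1 := hule (φ m)
    obtain ⟨t, ht⟩ : ∃ t : ℝ, t = (r (φ m))⁻¹ := ⟨_, rfl⟩
    have ht0 : 0 < t := by rw [ht]; exact inv_pos.2 (hr _)
    rw [← ht]
    have h2 : ∑ j, (M ((t : ℂ) • (u (φ m) - ζ (φ m))) j) ^ 2 =
        ((t ^ 2 : ℝ) : ℂ) * ∑ j, (M (u (φ m) - ζ (φ m)) j) ^ 2 := by
      rw [Finset.mul_sum]
      refine Finset.sum_congr rfl fun j _ => ?_
      rw [map_smul, Pi.smul_apply, smul_eq_mul]
      push_cast
      ring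
    rw [h2, Complex.re_ofReal_mul, norm_smul, norm_smul, Complex.norm_real, Real.norm_eq_abs,
      abs_of_pos ht0]
    have h3 := mul_le_mul_of_nonneg_left h1 (sq_nonneg t)
    calc ε' * (t * ‖ζ (φ m)‖) ^ 2 = t ^ 2 * (ε' * ‖ζ (φ m)‖ ^ 2) := by ring
      _ ≤ _ := h3
      _ = _ := by ring
  have hlimineq : ε' * ‖κ‖ ^ 2 ≤ (∑ j, (M v j) ^ 2).re + ε' * ‖v + κ‖ ^ 2 := by
    have h1 : Tendsto (fun m => ε' * ‖(((r (φ m))⁻¹ : ℝ) : ℂ) • ζ (φ m)‖ ^ 2) atTop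
        (𝓝 (ε' * ‖κ‖ ^ 2)) := ((hlim'.norm.pow 2).const_mul ε')
    have hQc : Continuous fun x : Ew d => (∑ j, (M x j) ^ 2).re := by
      refine Complex.continuous_re.comp (continuous_finsetSum _ fun j _ => ?_)
      exact ((continuous_apply j).comp hMc).pow 2
    have h2 : Tendsto (fun m => (∑ j, (M ((((r (φ m))⁻¹ : ℝ) : ℂ) • (u (φ m) - ζ (φ m))) j) ^ 2).re +
        ε' * ‖(((r (φ m))⁻¹ : ℝ) : ℂ) • u (φ m)‖ ^ 2) atTop
        (𝓝 ((∑ j, (M v j) ^ 2).re + ε' * ‖v + κ‖ ^ 2)) :=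
      ((hQc.tendsto v).comp hvlim).add ((hulim.norm.pow 2).const_mul ε')
    exact le_of_tendsto_of_tendsto' h1 h2 hineq
  have hre : ∀ z : ℂ, (z ^ 2).re = 2 * z.re ^ 2 - ‖z‖ ^ 2 := fun z => by
    rw [← Complex.normSq_eq_norm_sq, Complex.normSq_apply, sq, Complex.mul_re]
    ring
  have hsum : (∑ j, (M v j) ^ 2).re ≤ -(c * δ ^ 2) := by
    have h1 : (∑ j, (M v j) ^ 2).re = -∑ j, ‖M v j‖ ^ 2 := by
      rw [Complex.re_sum, ← Finset.sum_neg_distrib]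
      refine Finset.sum_congr rfl fun j _ => ?_
      have h2 : (M v j).re = 0 := by
        have h3 := hre0 _ hmem hnear j
        have h4 := hre0 κ hκC (by rw [sub_self, norm_zero]; exact hδ0.le) j
        rw [map_add, Pi.add_apply, Complex.add_re, h4, add_zero] at h3
        exact h3
      rw [hre, h2]
      ring
    rw [h1]
    have h2 := hc v
    rw [hv] at h2
    linarith
  have hnorm : ‖v + κ‖ ≤ ‖κ‖ + δ := by
    have := norm_add_le v κ
    rw [hv] at this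
    linarith
  have hsq : ‖v + κ‖ ^ 2 ≤ (‖κ‖ + δ) ^ 2 := pow_le_pow_left₀ (norm_nonneg _) hnorm 2
  have h1 : ε' * ‖v + κ‖ ^ 2 ≤ c * δ ^ 2 / 2 := by
    calc ε' * ‖v + κ‖ ^ 2 ≤ ε' * (‖κ‖ + δ) ^ 2 := mul_le_mul_of_nonneg_left hsq hε'0.le
      _ = c * δ ^ 2 / 2 := by
        rw [hε']
        field_simp
  have h2 : 0 ≤ ε' * ‖κ‖ ^ 2 := by positivity
  have h3 : 0 < c * δ ^ 2 := by positivity
  linarith

end Pool.Agent.Lib.MP_209724_lc.GP
end

section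

namespace Pool.Agent.Lib.MP_209724_lc.GP

open MvPolynomial Filter Topology Metric Set
open GS (Ew)

variable {n d : ℕ}

private theorem win_zeros {w : ℕ} {ι κ : Type} [Fintype ι] (P : κ → MvPolynomial ι ℂ)
    (ℓ : ι → Ew w →L[ℂ] ℂ) (c : ι → ℂ) :
    (GS.expRing ℓ c).zeros (Ideal.span (Set.range P)) =
      {ξ : Ew w | ∀ i, eval (fun j => c j * Complex.exp (ℓ j ξ)) (P i) = 0} := by
  have hev : ∀ ξ F, (GS.expRing ℓ c).ev ξ F = eval (fun j => c j * Complex.exp (ℓ j ξ)) F := by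
    intro ξ F
    change MvPolynomial.aeval (fun j => c j * Complex.exp (ℓ j ξ)) F = _
    rw [MvPolynomial.aeval_eq_eval]
  ext ξ
  constructor
  · intro h i
    have h1 := h (P i) (Ideal.subset_span ⟨i, rfl⟩)
    rwa [hev] at h1
  · intro h
    have h1 : Ideal.span (Set.range P) ≤ (GS.expRing ℓ c).van {ξ} := by
      rw [Ideal.span_le]
      rintro _ ⟨i, rfl⟩ ξ' hξ'
      rw [Set.mem_singleton_iff] at hξ'
      subst hξ'
      rw [hev]
      exact h i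
    intro F hF
    exact h1 hF ξ rfl

private theorem win_sphere {w : ℕ} {Z : Set (Ew w)} (h : ∃ U ∈ 𝓝 (0 : Ew w), (U ∩ Z).Countable)
    {r₀ : ℝ} (hr₀ : 0 < r₀) : ∃ r : ℝ, 0 < r ∧ r < r₀ ∧ ∀ ξ : Ew w, ‖ξ‖ = r → ξ ∉ Z := by
  obtain ⟨U, hU, hc⟩ := h
  obtain ⟨δ, hδ, hball⟩ := Metric.mem_nhds_iff.1 hU
  have h1 : ((fun ξ : Ew w => ‖ξ‖) '' (U ∩ Z)).Countable := hc.image _
  have h2 : Dense ((fun ξ : Ew w => ‖ξ‖) '' (U ∩ Z))ᶜ := h1.dense_compl ℝ
  obtain ⟨r, hr1, hr2⟩ := h2.exists_mem_open isOpen_Ioo (nonempty_Ioo.2 (lt_min hδ hr₀))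
  refine ⟨r, hr2.1, hr2.2.trans_le (min_le_right _ _), fun ξ hξ hZ => hr1 ⟨ξ, ⟨hball ?_, hZ⟩, hξ⟩⟩
  rw [mem_ball_zero_iff, hξ]
  exact hr2.2.trans_le (min_le_left _ _)


/-- **A small sphere without zeros.** Nonzero exponential sums `∑_{α ∈ S j} a_{j,α} exp(α·ℓ ξ)`, `j ∈ J`,
vanishing at `ξ = 0`. If for every choice of two different exponents `α_j ≠ β_j` in each `S j` the linear
map `b ↦ ((α_j - β_j)·ℓ b)_j` is injective, then there are arbitrarily small spheres around `0` on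
which the sums have no common zero.

Proof. Let `E` be the set of the common zeros `ξ` of the sums. With the index type
`ι = {p : J × (Fin n → ℕ) // p.2 ∈ S p.1}` (a `Fintype`), `expRing (fun p => ∑ i, p.2 i • ℓ_i)
(fun p => a p.1 p.2)` and the linear polynomials `F_j = ∑_{α ∈ S j} X (j, α)`, `E` is the set of common
zeros of `Ideal.span (range F)` (as in the private lemma `GS.sys_zeros`), and
`MvPolynomial ι ℂ` is noetherian, so `GS.exists_strat` gives `P` with `IsStrat E P`. By `win_tie` and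
`win_empty` (with `S' j = {γ ∈ S j | a j γ ≠ 0}`; `hsel` is inherited) `P = ∅`. As `0 ∈ E` (`h0`),
`IsStrat.disc` gives a neighbourhood `U` of `0` with `U ∩ E` countable, and as in the private lemma
`GS.sys_sphere` some `s ∈ (0, r₀)` is not the norm of a point of `E`. -/
theorem sphere_of_sel {J : Type} [Fintype J] (S : J → Finset (Fin n → ℕ))
    (ℓ : Ew d →L[ℂ] (Fin n → ℂ))
    (hsel : ∀ b : Ew d, ∀ α β : J → Fin n → ℕ, (∀ j, α j ∈ S j ∧ β j ∈ S j ∧ α j ≠ β j) →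
      (∀ j, ∑ i, ((α j i : ℂ) - β j i) * ℓ b i = 0) → b = 0)
    (a : J → (Fin n → ℕ) → ℂ) (ha : ∀ j, ∃ α ∈ S j, a j α ≠ 0)
    (h0 : ∀ j, ∑ α ∈ S j, a j α = 0) {r₀ : ℝ} (hr₀ : 0 < r₀) :
    ∃ s : ℝ, 0 < s ∧ s < r₀ ∧ ∀ ξ : Ew d, ‖ξ‖ = s →
      ∃ j, ∑ α ∈ S j, a j α * Complex.exp (∑ i, (α i : ℂ) * ℓ ξ i) ≠ 0 := by
  classical
  obtain ⟨E, hE⟩ : ∃ E : Set (Ew d), E = {ξ : Ew d | ∀ j, ∑ α ∈ S j, a j α *
      Complex.exp (∑ i, (α i : ℂ) * ℓ ξ i) = 0} := ⟨_, rfl⟩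
  have hEm : ∀ ξ, ξ ∈ E ↔ ∀ j, ∑ α ∈ S j, a j α *
      Complex.exp (∑ i, (α i : ℂ) * ℓ ξ i) = 0 := fun ξ => by rw [hE]; rfl
  obtain ⟨P, hP⟩ : ∃ P, GS.IsStrat E P := by
    have h1 := GS.exists_strat (GS.expRing
      (fun p : (Σ j : J, {x // x ∈ S j}) =>
        ∑ i, ((p.2.1 i : ℕ) : ℂ) • ((ContinuousLinearMap.proj i : (Fin n → ℂ) →L[ℂ] ℂ).comp ℓ))
      (fun p => a p.1 p.2.1))
      (Ideal.span (Set.range fun j : J => ∑ α : {x // x ∈ S j},
        (X ⟨j, α⟩ : MvPolynomial (Σ j : J, {x // x ∈ S j}) ℂ)))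
    rw [win_zeros] at h1
    have h2 : {ξ : Ew d | ∀ i : J, eval (fun p : (Σ j : J, {x // x ∈ S j}) => a p.1 p.2.1 *
        Complex.exp ((∑ i, ((p.2.1 i : ℕ) : ℂ) •
          ((ContinuousLinearMap.proj i : (Fin n → ℂ) →L[ℂ] ℂ).comp ℓ)) ξ))
        (∑ α : {x // x ∈ S i}, (X ⟨i, α⟩ : MvPolynomial (Σ j : J, {x // x ∈ S j}) ℂ)) = 0} = E := by
      ext ξ
      rw [hEm]
      refine forall_congr' fun j => ?_
      rw [map_sum]
      simp only [eval_X]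
      rw [← Finset.sum_coe_sort (S j)]
      have h3 : ∀ α : {x // x ∈ S j}, (∑ i, ((α.1 i : ℕ) : ℂ) •
          ((ContinuousLinearMap.proj i : (Fin n → ℂ) →L[ℂ] ℂ).comp ℓ)) ξ =
          ∑ i, (α.1 i : ℂ) * ℓ ξ i := by
        intro α
        rw [sum_apply]
        exact Finset.sum_congr rfl fun i _ => rfl
      simp only [h3]
    rw [h2] at h1
    exact h1
  obtain ⟨C, hC⟩ := win_tie S ℓ a ha
  have hPe : P = ∅ := by
    refine win_empty (fun j => (S j).filter (fun γ => a j γ ≠ 0)) ℓ ?_ P C ?_ hP.esc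
    · intro b α β h1 h2
      refine hsel b α β (fun j => ?_) h2
      obtain ⟨h3, h4, h5⟩ := h1 j
      exact ⟨(Finset.mem_filter.1 h3).1, (Finset.mem_filter.1 h4).1, h5⟩
    · intro ζ hζ j
      obtain ⟨α, hα, β, hβ, hne, hα0, hβ0, h⟩ := hC ζ ((hEm ζ).1 (hP.sub hζ)) j
      refine ⟨α, Finset.mem_filter.2 ⟨hα, hα0⟩, β, Finset.mem_filter.2 ⟨hβ, hβ0⟩, hne, ?_⟩
      intro γ hγ
      exact h γ (Finset.mem_filter.1 hγ).1 (Finset.mem_filter.1 hγ).2
  have h0E : (0 : Ew d) ∈ E := by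
    rw [hEm]
    intro j
    rw [← h0 j]
    refine Finset.sum_congr rfl fun α _ => ?_
    simp
  obtain ⟨s, hs1, hs2, hs3⟩ := win_sphere
    (hP.disc 0 h0E (by rw [hPe]; exact notMem_empty _)) hr₀
  refine ⟨s, hs1, hs2, fun ξ hξ => ?_⟩
  have h1 := hs3 ξ hξ
  rw [hEm] at h1
  push Not at h1
  exact h1

end Pool.Agent.Lib.MP_209724_lc.GP
end

section

/-!
# The estimate for linear forms on a closed cone
-/

namespace Pool.Agent.Lib.MP_209724_lc.GS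

open Filter Topology Metric Set

/-- real numbers with sum zero -/
theorem sum_abs_le {ι : Type} [Fintype ι] (a : ι → ℝ) (ha : ∑ j, a j = 0) (M : ℝ)
    (hM : ∀ j, a j ≤ M) : ∑ j, |a j| ≤ 2 * (Fintype.card ι * M) := by
  classical
  rcases isEmpty_or_nonempty ι with h | h
  · simp
  have hM0 : 0 ≤ M := by
    by_contra hcon
    push Not at hcon
    have : ∑ j, a j < 0 := by
      apply Finset.sum_neg (fun j _ => lt_of_le_of_lt (hM j) hcon)
      exact Finset.univ_nonempty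
    linarith
  have h1 : ∀ j, |a j| ≤ 2 * M - a j := by
    intro j
    rw [abs_le]
    constructor
    · have := hM j; linarith
    · have := hM j; linarith
  calc ∑ j, |a j| ≤ ∑ j, (2 * M - a j) := Finset.sum_le_sum fun j _ => h1 j
    _ = 2 * (Fintype.card ι * M) := by
      rw [Finset.sum_sub_distrib, ha, Finset.sum_const, Finset.card_univ]
      simp
      ring

theorem exists_q_lin {n : ℕ} {ι : Type} [Fintype ι] [Nonempty ι] (v : ι → Ew n →L[ℂ] ℂ)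
    (S : Set (Ew n)) (hS : IsClosed S)
    (hv : ∀ z ∈ S, (∀ j l, v j z = v l z) → z = 0) :
    ∃ q₀ : Ew n → ℂ, Differentiable ℂ q₀ ∧ q₀ 0 = 0 ∧ ∃ η : ℝ, 0 < η ∧
      ∀ z ∈ S, ‖z‖ = 1 / 2 → ∃ j, η + (q₀ z).re ≤ (v j z).re := by
  classical
  set k : ℝ := ((Fintype.card ι : ℕ) : ℝ) with hk
  have hk0 : 0 < k := by
    rw [hk]
    exact_mod_cast Fintype.card_pos
  set m : Ew n →L[ℂ] ℂ := ((k⁻¹ : ℝ) : ℂ) • ∑ l, v l with hm
  have hma : ∀ z, m z = ((k⁻¹ : ℝ) : ℂ) * ∑ l, v l z := by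
    intro z
    rw [hm, smul_apply, sum_apply, smul_eq_mul]
  set u : ι → Ew n →L[ℂ] ℂ := fun j => v j - m with hu
  have hua : ∀ j z, u j z = v j z - m z := fun j z => rfl
  have husum : ∀ z, ∑ j, u j z = 0 := by
    intro z
    simp only [hua, Finset.sum_sub_distrib, Finset.sum_const, Finset.card_univ, hma]
    have : (k : ℂ) ≠ 0 := by exact_mod_cast hk0.ne'
    rw [nsmul_eq_mul]
    have e : ((Fintype.card ι : ℕ) : ℂ) = (k : ℂ) := by rw [hk]; simp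
    rw [e, Complex.ofReal_inv]
    field_simp
    simp
  have hcomp : IsCompact (sphere (0 : Ew n) (1 / 2)) := isCompact_sphere _ _
  obtain ⟨C₂, hC₂, hC₂b⟩ : ∃ C₂ : ℝ, 0 < C₂ ∧ ∀ j, ∀ z : Ew n, ‖z‖ = 1 / 2 → ‖u j z‖ ≤ C₂ := by
    refine ⟨∑ j, ‖u j‖ + 1, by positivity, fun j z hz => ?_⟩
    have h1 : ‖u j z‖ ≤ ‖u j‖ * ‖z‖ := (u j).le_opNorm z
    have h2 : ‖u j‖ ≤ ∑ j, ‖u j‖ :=
      Finset.single_le_sum (f := fun j => ‖u j‖) (fun j _ => norm_nonneg _) (Finset.mem_univ j)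
    rw [hz] at h1
    have := norm_nonneg (u j)
    linarith
  set A : ℝ := 1 / (4 * k * C₂) with hA
  have hA0 : 0 < A := by positivity
  set q₀ : Ew n → ℂ := fun z => m z + (A : ℂ) * ∑ j, (u j z) ^ 2 with hq₀
  have hq₀d : Differentiable ℂ q₀ := by
    have h1 : Differentiable ℂ fun z => ∑ j, (u j z) ^ 2 :=
      Differentiable.fun_sum fun j _ => (u j).differentiable.pow 2
    exact m.differentiable.add (h1.const_mul _)
  refine ⟨q₀, hq₀d, by simp [hq₀], ?_⟩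
  set φ : Ew n → ℝ := fun z => Finset.univ.sup' Finset.univ_nonempty fun j => (v j z).re with hφ
  have hφc : Continuous φ := by
    have := Continuous.finset_sup'_apply (f := fun j (z : Ew n) => (v j z).re)
      (Finset.univ_nonempty (α := ι)) (fun j _ => Complex.continuous_re.comp (v j).continuous)
    exact this
  have hφle : ∀ z j, (v j z).re ≤ φ z := fun z j =>
    Finset.le_sup' (f := fun j => (v j z).re) (Finset.mem_univ j)
  have hpos : ∀ z ∈ S, ‖z‖ = 1 / 2 → 0 < φ z - (q₀ z).re := by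
    intro z hzS hz
    set a : ι → ℝ := fun j => (u j z).re with ha
    set b : ι → ℝ := fun j => (u j z).im with hb
    have hasum : ∑ j, a j = 0 := by
      have := congrArg Complex.re (husum z)
      simpa [ha] using this
    have h1 := sum_abs_le a hasum (φ z - (m z).re) (fun j => by
      have := hφle z j
      simp only [ha, hua, Complex.sub_re]
      linarith)
    have h2 : (q₀ z).re = (m z).re + A * ∑ j, (a j ^ 2 - b j ^ 2) := by
      simp only [hq₀, Complex.add_re, Complex.re_ofReal_mul, Complex.re_sum]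
      congr 2
      refine Finset.sum_congr rfl fun j _ => ?_
      simp [sq, ha, hb]
    have h3 : ∀ j, a j ^ 2 ≤ C₂ * |a j| := by
      intro j
      have h4 : |a j| ≤ C₂ := (Complex.abs_re_le_norm _).trans (hC₂b j z hz)
      rw [← sq_abs, sq]
      exact mul_le_mul_of_nonneg_right h4 (abs_nonneg _)
    have h4 : A * ∑ j, a j ^ 2 ≤ (1 / (4 * k)) * ∑ j, |a j| := by
      have h5 : ∑ j, a j ^ 2 ≤ C₂ * ∑ j, |a j| := by
        rw [Finset.mul_sum]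
        exact Finset.sum_le_sum fun j _ => h3 j
      calc A * ∑ j, a j ^ 2 ≤ A * (C₂ * ∑ j, |a j|) := mul_le_mul_of_nonneg_left h5 hA0.le
        _ = _ := by rw [hA]; field_simp
    have h5 : (1 / (2 * k)) * ∑ j, |a j| ≤ φ z - (m z).re := by
      rw [one_div, inv_mul_le_iff₀ (by positivity)]
      rw [← hk] at h1
      linarith
    have h6 : (1 / (4 * k)) * ∑ j, |a j| + A * ∑ j, b j ^ 2 ≤ φ z - (q₀ z).re := by
      rw [h2, Finset.sum_sub_distrib]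
      have h7 : (1 / (2 * k)) * ∑ j, |a j| = 2 * ((1 / (4 * k)) * ∑ j, |a j|) := by
        field_simp
        ring
      rw [h7] at h5
      linarith
    refine lt_of_lt_of_le ?_ h6
    by_contra hcon
    push Not at hcon
    have h7 : 0 ≤ (1 / (4 * k)) * ∑ j, |a j| :=
      mul_nonneg (by positivity) (Finset.sum_nonneg fun j _ => abs_nonneg _)
    have h8 : 0 ≤ A * ∑ j, b j ^ 2 :=
      mul_nonneg hA0.le (Finset.sum_nonneg fun j _ => sq_nonneg _)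
    have h9 : ∑ j, |a j| = 0 := by
      have : (1 / (4 * k)) * ∑ j, |a j| = 0 := by linarith
      rcases mul_eq_zero.1 this with h | h
      · exact absurd h (by positivity)
      · exact h
    have h10 : ∑ j, b j ^ 2 = 0 := by
      have : A * ∑ j, b j ^ 2 = 0 := by linarith
      rcases mul_eq_zero.1 this with h | h
      · exact absurd h hA0.ne'
      · exact h
    have h11 : ∀ j, u j z = 0 := by
      intro j
      have e1 := (Finset.sum_eq_zero_iff_of_nonneg fun j _ => abs_nonneg (a j)).1 h9 j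
        (Finset.mem_univ j)
      have e2 := (Finset.sum_eq_zero_iff_of_nonneg fun j _ => sq_nonneg (b j)).1 h10 j
        (Finset.mem_univ j)
      apply Complex.ext
      · exact abs_eq_zero.1 e1
      · exact pow_eq_zero_iff (two_ne_zero) |>.1 e2
    have h12 : z = 0 := by
      refine hv z hzS fun j l => ?_
      have e1 := h11 j
      have e2 := h11 l
      rw [hua] at e1 e2
      rw [sub_eq_zero.1 e1, sub_eq_zero.1 e2]
    rw [h12, norm_zero] at hz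
    norm_num at hz
  have hcomp' : IsCompact (S ∩ sphere (0 : Ew n) (1 / 2)) := hcomp.inter_left hS
  have hΨc : Continuous fun z => φ z - (q₀ z).re :=
    hφc.sub (Complex.continuous_re.comp hq₀d.continuous)
  obtain ⟨η, hη, hηb⟩ : ∃ η : ℝ, 0 < η ∧ ∀ z ∈ S ∩ sphere (0 : Ew n) (1 / 2),
      η ≤ φ z - (q₀ z).re := by
    rcases (S ∩ sphere (0 : Ew n) (1 / 2)).eq_empty_or_nonempty with h | h
    · exact ⟨1, one_pos, fun z hz => by rw [h] at hz; exact absurd hz (Set.notMem_empty z)⟩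
    · obtain ⟨z, hz, hz2⟩ := hcomp'.exists_isMinOn h hΨc.continuousOn
      exact ⟨_, hpos z hz.1 (mem_sphere_zero_iff_norm.1 hz.2), fun x hx => hz2 hx⟩
  refine ⟨η, hη, fun z hzS hz => ?_⟩
  have h1 := hηb z ⟨hzS, mem_sphere_zero_iff_norm.2 hz⟩
  obtain ⟨j, -, hj⟩ := Finset.exists_mem_eq_sup' (Finset.univ_nonempty (α := ι))
    fun j => (v j z).re
  refine ⟨j, ?_⟩
  have h2 : φ z = (v j z).re := hj
  linarith

end Pool.Agent.Lib.MP_209724_lc.GS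
end
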