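import Mathlib
import Pool.Agent.Lib.MP_209724_lc.GS.Strat
import Pool.Agent.Lib.MP_209724_lc.GS.CurveB
import Pool.Agent.Lib.MP_209724_lc.GP.Low
import Pool.Agent.Lib.MP_209724_lc.GC.Good

section

/-!
# Nondegenerate systems of exponential sums with constant coefficients
-/

namespace Pool.Agent.Lib.MP_209724_lc.GS

open Filter Topology Metric Set MvPolynomial

private theorem sys_hom {ι : Type} [Fintype ι] {p : MvPolynomial ι ℂ} {n : ℕ}
    (hp : p.IsHomogeneous n) (a : ℂ) (y : ι → ℂ) : eval (a • y) p = a ^ n * eval y p := by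
  rw [eval_eq, eval_eq, Finset.mul_sum]
  refine Finset.sum_congr rfl fun m hm => ?_
  have h1 : ∑ i ∈ m.support, m i = n := by
    have h0 := hp (MvPolynomial.mem_support_iff.1 hm)
    rw [Finsupp.weight_apply, Finsupp.sum] at h0
    simpa using h0
  have h2 : ∏ i ∈ m.support, (a • y) i ^ m i = a ^ n * ∏ i ∈ m.support, y i ^ m i := by
    have h3 : ∀ i ∈ m.support, (a • y) i ^ m i = a ^ m i * y i ^ m i := fun i _ => by
      rw [Pi.smul_apply, smul_eq_mul, mul_pow]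
    rw [Finset.prod_congr rfl h3, Finset.prod_mul_distrib, Finset.prod_pow_eq_pow_sum, h1]
  rw [h2]
  ring

private theorem sys_cont {ι : Type} [Fintype ι] (p : MvPolynomial ι ℂ) :
    Continuous fun y : ι → ℂ => eval y p := MvPolynomial.continuous_eval p

private theorem sys_zeros {w : ℕ} {ι : Type} [Fintype ι] (P : Fin w → MvPolynomial ι ℂ)
    (ℓ : ι → Ew w →L[ℂ] ℂ) (c : ι → ℂ) :
    (expRing ℓ c).zeros (Ideal.span (Set.range P)) =
      {ξ : Ew w | ∀ i, eval (fun j => c j * Complex.exp (ℓ j ξ)) (P i) = 0} := by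
  have hev : ∀ ξ F, (expRing ℓ c).ev ξ F = eval (fun j => c j * Complex.exp (ℓ j ξ)) F := by
    intro ξ F
    change MvPolynomial.aeval (fun j => c j * Complex.exp (ℓ j ξ)) F = _
    rw [MvPolynomial.aeval_eq_eval]
  ext ξ
  constructor
  · intro h i
    have h1 := h (P i) (Ideal.subset_span ⟨i, rfl⟩)
    rwa [hev] at h1
  · intro h
    have h1 : Ideal.span (Set.range P) ≤ (expRing ℓ c).van {ξ} := by
      rw [Ideal.span_le]
      rintro _ ⟨i, rfl⟩ ξ' hξ'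
      rw [Set.mem_singleton_iff] at hξ'
      subst hξ'
      rw [hev]
      exact h i
    intro F hF
    exact h1 hF ξ rfl

private theorem sys_sphere {w : ℕ} {Z : Set (Ew w)} (h : ∃ U ∈ 𝓝 (0 : Ew w), (U ∩ Z).Countable)
    {r₀ : ℝ} (hr₀ : 0 < r₀) : ∃ r : ℝ, 0 < r ∧ r < r₀ ∧ ∀ ξ : Ew w, ‖ξ‖ = r → ξ ∉ Z := by
  obtain ⟨U, hU, hc⟩ := h
  obtain ⟨δ, hδ, hball⟩ := Metric.mem_nhds_iff.1 hU
  have h1 : ((fun ξ : Ew w => ‖ξ‖) '' (U ∩ Z)).Countable := hc.image _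
  have h2 : Dense ((fun ξ : Ew w => ‖ξ‖) '' (U ∩ Z))ᶜ := h1.dense_compl ℝ
  obtain ⟨r, hr1, hr2⟩ := h2.exists_mem_open isOpen_Ioo (nonempty_Ioo.2 (lt_min hδ hr₀))
  refine ⟨r, hr2.1, hr2.2.trans_le (min_le_right _ _), fun ξ hξ hZ => hr1 ⟨ξ, ⟨hball ?_, hZ⟩, hξ⟩⟩
  rw [mem_ball_zero_iff, hξ]
  exact hr2.2.trans_le (min_le_left _ _)

private theorem sys_coer {w : ℕ} {κ : Type} [Fintype κ] (Λ : Ew w →ₗ[ℂ] (κ → ℂ))
    (h : ∀ b, Λ b = 0 → b = 0) : ∃ c : ℝ, 0 < c ∧ ∀ b, c * ‖b‖ ^ 2 ≤ ∑ p, ‖Λ b p‖ ^ 2 := by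
  obtain ⟨K, hK, hΛ⟩ := Λ.exists_antilipschitzWith (LinearMap.ker_eq_bot'.2 h)
  have hK' : (0 : ℝ) < K := by exact_mod_cast hK
  refine ⟨1 / (K : ℝ) ^ 2, by positivity, fun b => ?_⟩
  have h1 : ‖b‖ ≤ K * ‖Λ b‖ := by
    have h2 := hΛ.le_mul_dist b 0
    rw [map_zero, dist_zero_right, dist_zero_right] at h2
    exact h2
  have h3 : ‖Λ b‖ ≤ √(∑ p, ‖Λ b p‖ ^ 2) := by
    rw [pi_norm_le_iff_of_nonneg (Real.sqrt_nonneg _)]
    intro p
    refine Real.le_sqrt_of_sq_le ?_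
    exact Finset.single_le_sum (f := fun p => ‖Λ b p‖ ^ 2) (fun q _ => sq_nonneg _) (Finset.mem_univ p)
  have h4 : 0 ≤ ∑ p, ‖Λ b p‖ ^ 2 := Finset.sum_nonneg fun p _ => sq_nonneg _
  have h5 : ‖Λ b‖ ^ 2 ≤ ∑ p, ‖Λ b p‖ ^ 2 := by
    calc ‖Λ b‖ ^ 2 ≤ √(∑ p, ‖Λ b p‖ ^ 2) ^ 2 := pow_le_pow_left₀ (norm_nonneg _) h3 2
      _ = _ := Real.sq_sqrt h4
  have h6 : ‖b‖ ^ 2 ≤ (K * ‖Λ b‖) ^ 2 := pow_le_pow_left₀ (norm_nonneg _) h1 2
  rw [one_div, inv_mul_le_iff₀ (by positivity)]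
  calc ‖b‖ ^ 2 ≤ (K * ‖Λ b‖) ^ 2 := h6
    _ = K ^ 2 * ‖Λ b‖ ^ 2 := by ring
    _ ≤ K ^ 2 * ∑ p, ‖Λ b p‖ ^ 2 := mul_le_mul_of_nonneg_left h5 (by positivity)

private theorem sys_front {w : ℕ} {x ζ : Ew w} {r : ℝ} (h : ζ ∈ frontier (ball x r)) : ‖ζ - x‖ = r := by
  have h1 := Metric.frontier_ball_subset_sphere h
  rwa [mem_sphere_iff_norm] at h1

/-- the case of bounded exponents -/
private theorem sys_case1 {w : ℕ} {κ : Type} [Fintype κ] {E Pp : Set (Ew w)} (hst : IsStrat E Pp)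
    (Λ : Ew w →ₗ[ℂ] (κ → ℂ)) (h : ∀ b, Λ b = 0 → b = 0) {B : ℝ}
    (hB : ∀ ζ ∈ Pp, ∀ p, |(Λ ζ p).re| ≤ B) {ξ₀ : Ew w} (hξ₀ : ξ₀ ∈ Pp) : False := by
  obtain ⟨c₀, hc₀, hco⟩ := sys_coer Λ h
  have hB0 : ∀ p : κ, 0 ≤ B := fun p => (abs_nonneg _).trans (hB ξ₀ hξ₀ p)
  obtain ⟨N, hN⟩ : ∃ N : ℝ, N = Fintype.card κ := ⟨_, rfl⟩
  have hN0 : 0 ≤ N := by rw [hN]; positivity
  obtain ⟨R, hR⟩ : ∃ R : ℝ, R = 1 + (16 * B ^ 2 * N + c₀ * ‖ξ₀‖ ^ 2) / c₀ := ⟨_, rfl⟩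
  have hR1 : 1 ≤ R := by
    rw [hR]
    have : 0 ≤ (16 * B ^ 2 * N + c₀ * ‖ξ₀‖ ^ 2) / c₀ := by positivity
    linarith
  have hR0 : 0 < R := by linarith
  have hΛc : Continuous Λ := LinearMap.continuous_of_finiteDimensional Λ
  have hΛd : ∀ p, Differentiable ℂ fun ζ : Ew w => Λ (ζ - ξ₀) p := fun p => by
    have h1 : Differentiable ℂ fun ζ : Ew w => (LinearMap.toContinuousLinearMap Λ) (ζ - ξ₀) :=
      (LinearMap.toContinuousLinearMap Λ).differentiable.comp (differentiable_id.sub_const _)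
    exact (differentiable_pi.1 h1) p
  have hQ : Differentiable ℂ fun ζ : Ew w => ∑ p, (Λ (ζ - ξ₀) p) ^ 2 :=
    Differentiable.fun_sum fun p _ => (hΛd p).pow 2
  obtain ⟨ζ, hζP, hζf, hζ⟩ := hst.esc ξ₀ hξ₀ (ball ξ₀ R) isOpen_ball isBounded_ball
    (mem_ball_self hR0) _ hQ (c₀ / 4) (by positivity)
  have hd := sys_front hζf
  have hQ0 : (∑ p, (Λ (ξ₀ - ξ₀) p) ^ 2) = 0 := by
    rw [sub_self, map_zero]
    simp
  rw [hQ0, Complex.zero_re, zero_add] at hζ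
  have hre : ∀ z : ℂ, (z ^ 2).re = 2 * z.re ^ 2 - ‖z‖ ^ 2 := fun z => by
    rw [← Complex.normSq_eq_norm_sq, Complex.normSq_apply, sq, Complex.mul_re]
    ring
  have hQz : (∑ p, (Λ (ζ - ξ₀) p) ^ 2).re ≤ 8 * B ^ 2 * N - c₀ * R ^ 2 := by
    rw [Complex.re_sum]
    have h1 : ∑ p, ((Λ (ζ - ξ₀) p) ^ 2).re ≤ ∑ p : κ, (8 * B ^ 2 - ‖Λ (ζ - ξ₀) p‖ ^ 2) := by
      refine Finset.sum_le_sum fun p _ => ?_
      rw [hre]
      have h2 : |(Λ (ζ - ξ₀) p).re| ≤ 2 * B := by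
        rw [map_sub, Pi.sub_apply, Complex.sub_re]
        have h3 := hB ζ hζP p
        have h4 := hB ξ₀ hξ₀ p
        have h5 := abs_sub ((Λ ζ p).re) ((Λ ξ₀ p).re)
        linarith
      have h6 : (Λ (ζ - ξ₀) p).re ^ 2 ≤ (2 * B) ^ 2 := by
        rw [← sq_abs]
        exact pow_le_pow_left₀ (abs_nonneg _) h2 2
      linarith
    refine h1.trans ?_
    rw [Finset.sum_sub_distrib, Finset.sum_const, Finset.card_univ, nsmul_eq_mul, ← hN]
    have h7 := hco (ζ - ξ₀)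
    rw [hd] at h7
    linarith
  have hζn : ‖ζ‖ ^ 2 ≤ 2 * ‖ξ₀‖ ^ 2 + 2 * R ^ 2 := by
    have h1 : ‖ζ‖ ≤ ‖ξ₀‖ + R := by
      have h2 := norm_add_le ξ₀ (ζ - ξ₀)
      rwa [add_sub_cancel, hd] at h2
    have h3 : ‖ζ‖ ^ 2 ≤ (‖ξ₀‖ + R) ^ 2 := pow_le_pow_left₀ (norm_nonneg _) h1 2
    nlinarith [sq_nonneg (‖ξ₀‖ - R)]
  have hRR : R ≤ R ^ 2 := by nlinarith
  have hcR : c₀ * R = c₀ + (16 * B ^ 2 * N + c₀ * ‖ξ₀‖ ^ 2) := by
    rw [hR, mul_add, mul_one, mul_div_cancel₀ _ hc₀.ne']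
  have h8 : c₀ * R ≤ c₀ * R ^ 2 := mul_le_mul_of_nonneg_left hRR hc₀.le
  have h9 := sq_nonneg ‖ξ₀‖
  have h10 : c₀ / 4 * ‖ζ‖ ^ 2 ≤ c₀ / 4 * (2 * ‖ξ₀‖ ^ 2 + 2 * R ^ 2) :=
    mul_le_mul_of_nonneg_left hζn (by positivity)
  have h11 : 0 ≤ c₀ * ‖ξ₀‖ ^ 2 := by positivity
  have h12 : 0 ≤ B ^ 2 * N := by positivity
  have h13 : c₀ / 4 * ‖ξ₀‖ ^ 2 = c₀ * ‖ξ₀‖ ^ 2 / 4 := by ring
  have h14 : c₀ / 4 * (2 * ‖ξ₀‖ ^ 2 + 2 * R ^ 2) = c₀ * ‖ξ₀‖ ^ 2 / 2 + c₀ * R ^ 2 / 2 := by ring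
  rw [h13] at hζ
  rw [h14] at h10
  linarith

/-- the case of unbounded exponents: a limit of the rescaled systems -/
private theorem sys_case2 {w : ℕ} {ι : Type} [Fintype ι] (P : Fin w → MvPolynomial ι ℂ)
    (dg : Fin w → ℕ) (hP : ∀ i, (P i).IsHomogeneous (dg i)) (ℓ : ι → Ew w →L[ℂ] ℂ)
    (𝒳 : Set (ι → ℂ)) (hX : IsClosed 𝒳) (hXs : ∀ (a : ℂ), ∀ y ∈ 𝒳, a • y ∈ 𝒳)
    (hXt : ∀ y ∈ 𝒳, ∀ ξ : Ew w, (fun j => y j * Complex.exp (ℓ j ξ)) ∈ 𝒳)
    (c : ι → ℂ) (hc : c ∈ 𝒳) {Pp : Set (Ew w)}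
    (hst : IsStrat {ξ : Ew w | ∀ i, eval (fun j => c j * Complex.exp (ℓ j ξ)) (P i) = 0} Pp)
    (ih : ∀ c' : ι → ℂ, (∀ j, c j = 0 → c' j = 0) → (∃ l, c l ≠ 0 ∧ c' l = 0) → c' ∈ 𝒳 → c' ≠ 0 →
      (∀ i, eval (fun j => c' j * Complex.exp (ℓ j 0)) (P i) = 0) →
      ∃ U ∈ 𝓝 (0 : Ew w), (U ∩ {ξ' : Ew w | ∀ i,
        eval (fun j => c' j * Complex.exp (ℓ j ξ')) (P i) = 0}).Countable)
    {j₁ l₁ : ι} (hj₁ : c j₁ ≠ 0) (hl₁ : c l₁ ≠ 0)
    (hub : ∀ B : ℝ, ∃ ζ ∈ Pp, B < (ℓ j₁ ζ - ℓ l₁ ζ).re) : False := by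
  choose ζ hζP hζ using fun k : ℕ => hub k
  obtain ⟨y, hy⟩ : ∃ y : ℕ → ι → ℂ, y = fun k j => c j * Complex.exp (ℓ j (ζ k)) := ⟨_, rfl⟩
  have hyX : ∀ k, y k ∈ 𝒳 := fun k => by rw [hy]; exact hXt c hc (ζ k)
  have hy0 : ∀ k, y k ≠ 0 := fun k h0 => by
    have h1 := congrFun h0 j₁
    rw [hy] at h1
    exact mul_ne_zero hj₁ (Complex.exp_ne_zero _) h1
  have hyn : ∀ k, 0 < ‖y k‖ := fun k => norm_pos_iff.2 (hy0 k)
  obtain ⟨v, hv⟩ : ∃ v : ℕ → ι → ℂ, v = fun k => ((‖y k‖⁻¹ : ℝ) : ℂ) • y k := ⟨_, rfl⟩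
  have hvX : ∀ k, v k ∈ 𝒳 := fun k => by rw [hv]; exact hXs _ _ (hyX k)
  have hvn : ∀ k, ‖v k‖ = 1 := fun k => by
    rw [hv]
    show ‖((‖y k‖⁻¹ : ℝ) : ℂ) • y k‖ = 1
    rw [norm_smul, Complex.norm_real, norm_inv, norm_norm, inv_mul_cancel₀ (hyn k).ne']
  obtain ⟨c', hc's, φ, hφ, hlim⟩ := (isCompact_sphere (0 : ι → ℂ) 1).tendsto_subseq
    (x := v) (fun k => by rw [mem_sphere_zero_iff_norm]; exact hvn k)
  have hc'n : ‖c'‖ = 1 := by rwa [mem_sphere_zero_iff_norm] at hc's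
  have hc'X : c' ∈ 𝒳 := hX.mem_of_tendsto hlim (Eventually.of_forall fun k => hvX _)
  have hc'0 : c' ≠ 0 := by
    intro h0
    rw [h0, norm_zero] at hc'n
    exact zero_ne_one hc'n
  have hlimj : ∀ j, Tendsto (fun k => v (φ k) j) atTop (𝓝 (c' j)) := fun j =>
    (continuous_apply j).continuousAt.tendsto.comp hlim
  have hsupp : ∀ j, c j = 0 → c' j = 0 := fun j hj => by
    have h1 : ∀ k, v (φ k) j = 0 := fun k => by
      rw [hv, hy]
      show _ * (c j * _) = 0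
      rw [hj, zero_mul, mul_zero]
    refine tendsto_nhds_unique (hlimj j) ?_
    simp only [h1]
    exact tendsto_const_nhds
  have hl' : c' l₁ = 0 := by
    have h1 : ∀ k, ‖v k l₁‖ ≤ ‖c l₁‖ / ‖c j₁‖ * Real.exp (-(k : ℝ)) := fun k => by
      have h2 : ‖v k l₁‖ * (‖c j₁‖ * Real.exp ((ℓ j₁ (ζ k)).re)) =
          ‖v k j₁‖ * (‖c l₁‖ * Real.exp ((ℓ l₁ (ζ k)).re)) := by
        rw [hv, hy]
        show ‖((_ : ℝ) : ℂ) * (c l₁ * Complex.exp (ℓ l₁ (ζ k)))‖ * _ =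
          ‖((_ : ℝ) : ℂ) * (c j₁ * Complex.exp (ℓ j₁ (ζ k)))‖ * _
        rw [norm_mul, norm_mul, norm_mul, norm_mul, Complex.norm_exp, Complex.norm_exp]
        ring
      have h3 : ‖v k j₁‖ ≤ 1 := by
        rw [← hvn k]
        exact norm_le_pi_norm (v k) j₁
      have h4 : 0 < ‖c j₁‖ := norm_pos_iff.2 hj₁
      have h5 := hζ k
      rw [Complex.sub_re] at h5
      have h6 : Real.exp ((ℓ l₁ (ζ k)).re) ≤ Real.exp ((ℓ j₁ (ζ k)).re) * Real.exp (-(k : ℝ)) := by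
        rw [← Real.exp_add]
        exact Real.exp_le_exp.2 (by linarith)
      have h7 : ‖v k l₁‖ * (‖c j₁‖ * Real.exp ((ℓ j₁ (ζ k)).re)) ≤
          (‖c l₁‖ / ‖c j₁‖ * Real.exp (-(k : ℝ))) * (‖c j₁‖ * Real.exp ((ℓ j₁ (ζ k)).re)) := by
        rw [h2]
        calc ‖v k j₁‖ * (‖c l₁‖ * Real.exp ((ℓ l₁ (ζ k)).re))
            ≤ 1 * (‖c l₁‖ * (Real.exp ((ℓ j₁ (ζ k)).re) * Real.exp (-(k : ℝ)))) :=
              mul_le_mul h3 (mul_le_mul_of_nonneg_left h6 (norm_nonneg _)) (by positivity) zero_le_one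
          _ = _ := by field_simp
      exact le_of_mul_le_mul_right h7 (by positivity)
    have h2 : Tendsto (fun k : ℕ => ‖c l₁‖ / ‖c j₁‖ * Real.exp (-(k : ℝ))) atTop (𝓝 (‖c l₁‖ / ‖c j₁‖ * 0)) :=
      (Real.tendsto_exp_neg_atTop_nhds_zero.comp tendsto_natCast_atTop_atTop).const_mul _
    rw [mul_zero] at h2
    have h3 : Tendsto (fun k => v k l₁) atTop (𝓝 0) := squeeze_zero_norm h1 h2
    exact tendsto_nhds_unique (hlimj l₁) (h3.comp hφ.tendsto_atTop)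
  have hPv : ∀ k i, eval (v k) (P i) = 0 := fun k i => by
    rw [hv]
    show eval (((‖y k‖⁻¹ : ℝ) : ℂ) • y k) (P i) = 0
    rw [sys_hom (hP i)]
    have h1 := hst.sub (hζP k) i
    rw [hy]
    change _ * eval (fun j => c j * Complex.exp (ℓ j (ζ k))) (P i) = 0
    rw [h1, mul_zero]
  have hPc : ∀ i, eval c' (P i) = 0 := fun i => by
    have h1 : Tendsto (fun k => eval (v (φ k)) (P i)) atTop (𝓝 (eval c' (P i))) :=
      (sys_cont (P i)).continuousAt.tendsto.comp hlim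
    refine tendsto_nhds_unique h1 ?_
    simp only [hPv]
    exact tendsto_const_nhds
  have hcount := ih c' hsupp ⟨l₁, hl₁, hl'⟩ hc'X hc'0 (fun i => by
    have h1 : (fun j => c' j * Complex.exp (ℓ j 0)) = c' := by
      funext j
      rw [map_zero, Complex.exp_zero, mul_one]
    rw [h1]
    exact hPc i)
  obtain ⟨r, hr0, -, hr⟩ := sys_sphere hcount zero_lt_one
  -- the zeros at distance `r`
  have hesc : ∀ k, ∃ ξ : Ew w, ‖ξ‖ = r ∧ ∀ i, eval (fun j => v k j * Complex.exp (ℓ j ξ)) (P i) = 0 := by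
    intro k
    obtain ⟨ζ', hζ'P, hζ'f, -⟩ := hst.esc (ζ k) (hζP k) (ball (ζ k) r) isOpen_ball isBounded_ball
      (mem_ball_self hr0) (fun _ => 0) (differentiable_const _) 1 one_pos
    refine ⟨ζ' - ζ k, sys_front hζ'f, fun i => ?_⟩
    have h1 : (fun j => v k j * Complex.exp (ℓ j (ζ' - ζ k))) =
        ((‖y k‖⁻¹ : ℝ) : ℂ) • fun j => c j * Complex.exp (ℓ j ζ') := by
      funext j
      rw [hv, hy]
      show ((_ : ℝ) : ℂ) * (c j * Complex.exp (ℓ j (ζ k))) * Complex.exp (ℓ j (ζ' - ζ k)) =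
        ((_ : ℝ) : ℂ) * (c j * Complex.exp (ℓ j ζ'))
      have h2 : Complex.exp (ℓ j (ζ k)) * Complex.exp (ℓ j (ζ' - ζ k)) = Complex.exp (ℓ j ζ') := by
        rw [← Complex.exp_add, ← map_add, add_sub_cancel]
      rw [← h2]
      ring
    rw [h1, sys_hom (hP i), hst.sub hζ'P i, mul_zero]
  choose ξ hξr hξ0 using hesc
  obtain ⟨ξ', hξ's, ψ, hψ, hlim'⟩ := (isCompact_sphere (0 : Ew w) r).tendsto_subseq
    (x := fun k => ξ (φ k)) (fun k => by rw [mem_sphere_zero_iff_norm]; exact hξr _)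
  refine hr ξ' (by rwa [mem_sphere_zero_iff_norm] at hξ's) fun i => ?_
  have h1 : Tendsto (fun k => (fun j => v (φ (ψ k)) j * Complex.exp (ℓ j (ξ (φ (ψ k)))))) atTop
      (𝓝 fun j => c' j * Complex.exp (ℓ j ξ')) := by
    refine tendsto_pi_nhds.2 fun j => ?_
    refine ((hlimj j).comp hψ.tendsto_atTop).mul ?_
    exact (Complex.continuous_exp.comp (ℓ j).continuous).continuousAt.tendsto.comp hlim'
  have h2 := ((sys_cont (P i)).continuousAt.tendsto.comp h1)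
  refine tendsto_nhds_unique h2 ?_
  have h3 : ((fun y : ι → ℂ => eval y (P i)) ∘ fun k => (fun j => v (φ (ψ k)) j *
      Complex.exp (ℓ j (ξ (φ (ψ k)))))) = fun _ => 0 := by
    funext k
    exact hξ0 _ i
  rw [h3]
  exact tendsto_const_nhds

/-- **Local countability.** The common zeros `ξ ∈ ℂ^w` of the exponential sums
`P_i(c_j exp(ℓ_j ξ))`, where the polynomials `P_i` are homogeneous, are locally countable, if for
every nonzero common zero `Y` of the `P_i` in `𝒳` the differences `ℓ_j - ℓ_l`, `Y_j ≠ 0 ≠ Y_l`,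
have no common zero `b ≠ 0`.

Proof: strong induction on the number of `j` with `c j ≠ 0`. Let `T = {j | c j ≠ 0}`, let `E` be the
set of zeros, i.e. `E = (expRing ℓ c).zeros (Ideal.span (range P))`, and let `E⁺` be the set given
by `exists_strat`. It suffices to show `E⁺ = ∅`. Let `ξ₀ ∈ E⁺`.

By `hnd` for `Y = (c_j exp(ℓ_j ξ₀))_j` (nonzero, in `𝒳`, nonzero coordinates exactly `T`), the
`ℓ_j - ℓ_l`, `j, l ∈ T`, have no common zero except `0`, so there is `c₀ > 0` with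
`∑_{j,l ∈ T} |(ℓ_j - ℓ_l) ξ|² ≥ c₀ ‖ξ‖²` for all `ξ`.

Case 1: there is `B` with `Re (ℓ_j - ℓ_l) ζ ≤ B` for all `ζ ∈ E⁺`, `j, l ∈ T`. Take
`Q(ζ) = ∑_{j,l ∈ T} ((ℓ_j - ℓ_l)(ζ - ξ₀))²`, `ε = c₀/4`, `Ω = ball ξ₀ R`. For `ζ ∈ E⁺` with
`‖ζ - ξ₀‖ = R`: `Re Q(ζ) = ∑ (2 (Re ·)² - |·|²) ≤ 2 |T|² (2B)² - c₀ R²`, so
`Re Q(ζ) + ε ‖ζ‖² ≤ 8 B² |T|² - c₀ R² + (c₀/4)(2 ‖ξ₀‖² + 2 R²) < 0` for `R` large, while
`Re Q(ξ₀) + ε ‖ξ₀‖² ≥ 0`. This contradicts `esc`.

Case 2: for every `k : ℕ` there are `ζ_k ∈ E⁺` and `j_k, l_k ∈ T` with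
`Re (ℓ_{j_k} - ℓ_{l_k}) ζ_k > k`. Let `y_k = (c_j exp(ℓ_j ζ_k))_j`, `ŷ_k = ‖y_k‖⁻¹ • y_k ∈ 𝒳`,
`‖ŷ_k‖ = 1`. A subsequence converges to some `c' ∈ 𝒳`, `‖c'‖ = 1`. The support of `c'` is contained
in `T`, and it is not all of `T`: otherwise `|ŷ_{k,j}|` is bounded below for all `j ∈ T` along the
subsequence, but `|ŷ_{k,j_k}| / |ŷ_{k,l_k}| ≥ (min |c| / max |c|) exp k`. As `P_i(ŷ_k) = 0`
(homogeneity), `P_i(c') = 0`, i.e. `0` is a zero of `ξ ↦ P(c'_j exp(ℓ_j ξ))`. By the induction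
hypothesis the zeros of this system near `0` are countable, so there is `r > 0` such that no zero
has norm exactly `r`. By compactness of the sphere and continuity, for `k` large (in the
subsequence) the system `P(ŷ_{k,j} exp(ℓ_j ξ))` has no zero with `‖ξ‖ = r`. But by `esc` for
`ζ_k ∈ E⁺`, `Ω = ball ζ_k r`, `Q = 0` there is `ζ ∈ E⁺` with `‖ζ - ζ_k‖ = r`, and
`c_j exp(ℓ_j ζ) = ‖y_k‖ ŷ_{k,j} exp(ℓ_j (ζ - ζ_k))`. Contradiction. -/
theorem sys_countable {w : ℕ} {ι : Type} [Fintype ι] (P : Fin w → MvPolynomial ι ℂ)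
    (dg : Fin w → ℕ) (hP : ∀ i, (P i).IsHomogeneous (dg i)) (ℓ : ι → Ew w →L[ℂ] ℂ)
    (𝒳 : Set (ι → ℂ)) (hX : IsClosed 𝒳) (hXs : ∀ (a : ℂ), ∀ y ∈ 𝒳, a • y ∈ 𝒳)
    (hXt : ∀ y ∈ 𝒳, ∀ ξ : Ew w, (fun j => y j * Complex.exp (ℓ j ξ)) ∈ 𝒳)
    (hnd : ∀ Y ∈ 𝒳, Y ≠ 0 → (∀ i, eval Y (P i) = 0) → ∀ b : Ew w,
      (∀ j l, Y j ≠ 0 → Y l ≠ 0 → ℓ j b = ℓ l b) → b = 0)
    (c : ι → ℂ) (hc : c ∈ 𝒳) (hc0 : c ≠ 0) (ξ : Ew w)
    (hξ : ∀ i, eval (fun j => c j * Complex.exp (ℓ j ξ)) (P i) = 0) :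
    ∃ U ∈ 𝓝 ξ, (U ∩ {ξ' : Ew w | ∀ i, eval (fun j => c j * Complex.exp (ℓ j ξ')) (P i) = 0}).Countable := by
  classical
  suffices H : ∀ (n : ℕ) (c : ι → ℂ), (Finset.univ.filter fun j => c j ≠ 0).card = n → c ∈ 𝒳 →
      c ≠ 0 → ∀ ξ : Ew w, (∀ i, eval (fun j => c j * Complex.exp (ℓ j ξ)) (P i) = 0) →
      ∃ U ∈ 𝓝 ξ, (U ∩ {ξ' : Ew w | ∀ i,
        eval (fun j => c j * Complex.exp (ℓ j ξ')) (P i) = 0}).Countable from
    H _ c rfl hc hc0 ξ hξ
  intro n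
  induction n using Nat.strong_induction_on with
  | _ n ih =>
    intro c hcn hc hc0 ξ hξ
    obtain ⟨Pp, hst⟩ := exists_strat (expRing ℓ c) (Ideal.span (Set.range P))
    rw [sys_zeros] at hst
    by_cases hξP : ξ ∈ Pp
    swap
    · exact hst.disc ξ hξ hξP
    exfalso
    have hexp : ∀ j, c j * Complex.exp (ℓ j ξ) ≠ 0 ↔ c j ≠ 0 := fun j =>
      ⟨fun h h0 => h (by rw [h0, zero_mul]), fun h => mul_ne_zero h (Complex.exp_ne_zero _)⟩
    have hT : ∀ b : Ew w, (∀ j l, c j ≠ 0 → c l ≠ 0 → ℓ j b = ℓ l b) → b = 0 := by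
      intro b hb
      refine hnd (fun j => c j * Complex.exp (ℓ j ξ)) (hXt c hc ξ) (fun h0 => hc0 ?_) hξ b ?_
      · funext j
        by_contra h1
        exact (hexp j).2 h1 (congrFun h0 j)
      · intro j l hj hl
        exact hb j l ((hexp j).1 hj) ((hexp l).1 hl)
    by_cases hcase : ∃ j l, c j ≠ 0 ∧ c l ≠ 0 ∧ ∀ B : ℝ, ∃ ζ ∈ Pp, B < (ℓ j ζ - ℓ l ζ).re
    · obtain ⟨j₁, l₁, hj₁, hl₁, hub⟩ := hcase
      refine sys_case2 P dg hP ℓ 𝒳 hX hXs hXt c hc hst ?_ hj₁ hl₁ hub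
      rintro c' h1 ⟨l, h2, h3⟩ h4 h5 h6
      refine ih _ ?_ c' rfl h4 h5 0 h6
      rw [← hcn]
      refine Finset.card_lt_card ⟨fun j hj => ?_, fun hsub => ?_⟩
      · rw [Finset.mem_filter] at hj ⊢
        exact ⟨Finset.mem_univ _, fun h0 => hj.2 (h1 j h0)⟩
      · have h7 : l ∈ Finset.univ.filter fun j => c' j ≠ 0 :=
          hsub (Finset.mem_filter.2 ⟨Finset.mem_univ _, h2⟩)
        exact (Finset.mem_filter.1 h7).2 h3
    · push Not at hcase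
      have hB : ∀ p : ι × ι, ∃ B : ℝ, c p.1 ≠ 0 → c p.2 ≠ 0 → ∀ ζ ∈ Pp,
          (ℓ p.1 ζ - ℓ p.2 ζ).re ≤ B := fun p => by
        by_cases h1 : c p.1 ≠ 0 ∧ c p.2 ≠ 0
        · obtain ⟨B, hB⟩ := hcase p.1 p.2 h1.1 h1.2
          exact ⟨B, fun _ _ => hB⟩
        · exact ⟨0, fun h2 h3 => absurd ⟨h2, h3⟩ h1⟩
      choose B hB using hB
      have hBs : ∀ p, B p ≤ ∑ q, |B q| := fun p =>
        (le_abs_self _).trans (Finset.single_le_sum (f := fun q => |B q|) (fun q _ => abs_nonneg _)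
          (Finset.mem_univ p))
      have hBn : 0 ≤ ∑ q, |B q| := Finset.sum_nonneg fun q _ => abs_nonneg _
      refine sys_case1 (κ := ι × ι) hst (LinearMap.pi fun p : ι × ι =>
        if c p.1 ≠ 0 ∧ c p.2 ≠ 0 then ((ℓ p.1 : Ew w →ₗ[ℂ] ℂ) - (ℓ p.2 : Ew w →ₗ[ℂ] ℂ)) else 0)
        (fun b hb => hT b fun j l hj hl => ?_) (B := ∑ q, |B q|) (fun ζ hζ p => ?_) hξP
      · have h1 := congrFun hb (j, l)
        rw [LinearMap.pi_apply, if_pos ⟨hj, hl⟩] at h1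
        exact sub_eq_zero.1 h1
      · rw [LinearMap.pi_apply]
        by_cases h1 : c p.1 ≠ 0 ∧ c p.2 ≠ 0
        · rw [if_pos h1]
          have h2 := (hB p h1.1 h1.2 ζ hζ).trans (hBs p)
          have h3 := (hB (p.2, p.1) h1.2 h1.1 ζ hζ).trans (hBs _)
          show |(ℓ p.1 ζ - ℓ p.2 ζ).re| ≤ _
          rw [abs_le]
          constructor
          · have h4 : (ℓ p.2 ζ - ℓ p.1 ζ).re = -(ℓ p.1 ζ - ℓ p.2 ζ).re := by
              rw [Complex.sub_re, Complex.sub_re]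
              ring
            change (ℓ p.2 ζ - ℓ p.1 ζ).re ≤ _ at h3
            rw [h4] at h3
            linarith
          · exact h2
        · rw [if_neg h1]
          show |(0 : ℂ).re| ≤ _
          rw [Complex.zero_re, abs_zero]
          exact hBn

/-- a small sphere without zeros: the norms of the zeros in a neighbourhood are countably many, and
the interval `(0, r₀)` is uncountable. -/
theorem exists_sphere {w : ℕ} {ι : Type} [Fintype ι] (P : Fin w → MvPolynomial ι ℂ)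
    (ℓ : ι → Ew w →L[ℂ] ℂ) (c : ι → ℂ) (h : ∃ U ∈ 𝓝 (0 : Ew w),
      (U ∩ {ξ' : Ew w | ∀ i, eval (fun j => c j * Complex.exp (ℓ j ξ')) (P i) = 0}).Countable)
    {r₀ : ℝ} (hr₀ : 0 < r₀) :
    ∃ r : ℝ, 0 < r ∧ r < r₀ ∧ ∀ ξ : Ew w, ‖ξ‖ = r →
      ∃ i, eval (fun j => c j * Complex.exp (ℓ j ξ)) (P i) ≠ 0 := by
  obtain ⟨r, h1, h2, h3⟩ := sys_sphere h hr₀
  refine ⟨r, h1, h2, fun ξ hξ => ?_⟩
  by_contra hcon
  push Not at hcon
  exact h3 ξ hξ hcon

end Pool.Agent.Lib.MP_209724_lc.GS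
end

section

/-!
# Exponential points over varieties with complex asymptotic cones: definitions

`fac S η`: the exponents `α ∈ S` with `α · η` maximal; `Lim ξ υ z η`: `(z, η)` is a limit of
`(x / r, log |y| / r)` for points `(x, y)` of the variety with generic point `(ξ, υ)`, `r → ∞`.
-/

namespace Pool.Agent.Lib.MP_209724_lc.GF

open MvPolynomial Filter Topology Metric Set
open GP (OnV OnW)

variable {n d k : ℕ}

/-- The exponents `α ∈ S` for which `α · η` is maximal. -/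
noncomputable def fac (S : Finset (Fin n → ℕ)) (η : Fin n → ℝ) : Finset (Fin n → ℕ) := by
  classical
  exact S.filter fun α => ∀ β ∈ S, ∑ i, (β i : ℝ) * η i ≤ ∑ i, (α i : ℝ) * η i

theorem mem_fac {S : Finset (Fin n → ℕ)} {η : Fin n → ℝ} {α : Fin n → ℕ} :
    α ∈ fac S η ↔ α ∈ S ∧ ∀ β ∈ S, ∑ i, (β i : ℝ) * η i ≤ ∑ i, (α i : ℝ) * η i := by
  classical
  rw [fac, Finset.mem_filter]

/-- `(z, η)` is a limit of `(x / r, log |y| / r)` for points `(x, y)` of the variety, `r → ∞`. -/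
def Lim {L : Type} [Field L] [Algebra ℂ L] (ξ υ : Fin n → L) (z : Fin n → ℂ) (η : Fin n → ℝ) :
    Prop :=
  ∃ (r : ℕ → ℝ) (x y : ℕ → Fin n → ℂ), (∀ ν, 0 < r ν) ∧ Tendsto r atTop atTop ∧
    (∀ ν, OnV ξ υ (x ν) (y ν)) ∧ (∀ ν i, y ν i ≠ 0) ∧
    Tendsto (fun ν => (r ν)⁻¹ • x ν) atTop (𝓝 z) ∧
    ∀ i, Tendsto (fun ν => (r ν)⁻¹ * Real.log ‖y ν i‖) atTop (𝓝 (η i))

end Pool.Agent.Lib.MP_209724_lc.GF
end

section

namespace Pool.Agent.Lib.MP_209724_lc.GP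

open MvPolynomial Filter Topology Metric Set
open GC (prj)
open GC (evM evM_C evM_X map_evM evM_eq_sum)

variable {n k : ℕ}

/-- The evaluation as a homomorphism of algebras. -/
private noncomputable def cenMA {σ τ S : Type*} [CommRing S] [Algebra ℂ S] (x : τ → S)
    (t : σ → S) : MvPolynomial σ (MvPolynomial τ ℂ) →ₐ[ℂ] S :=
  { evM x t with
    commutes' := fun r => by
      have h : algebraMap ℂ (MvPolynomial σ (MvPolynomial τ ℂ)) r = C (C r) := rfl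
      rw [h]
      change evM x t (C (C r)) = _
      rw [evM_C, ← algebraMap_eq, AlgHom.commutes] }

private theorem cen_coeff {L : Type} [Field L] [Algebra ℂ L] (ξ : Fin n → L)
    (t : Fin k → L) (ht : AlgebraicIndependent (IntermediateField.adjoin ℂ (Set.range ξ)) t)
    (q : MvPolynomial (Fin k) (MvPolynomial (Fin n) ℂ)) (hq : evM ξ t q = 0) (ν : Fin k →₀ ℕ) :
    aeval ξ (q.coeff ν) = 0 := by
  set K := IntermediateField.adjoin ℂ (Set.range ξ)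
  let ρ : MvPolynomial (Fin n) ℂ →ₐ[ℂ] K :=
    aeval fun i => ⟨ξ i, IntermediateField.subset_adjoin _ _ ⟨i, rfl⟩⟩
  have hρ : ∀ c, algebraMap K L (ρ c) = aeval ξ c := by
    intro c
    have : (IsScalarTower.toAlgHom ℂ K L).comp ρ = aeval ξ := by
      ext i
      simp [ρ]
    exact congrArg (fun f => f c) this
  have h1 : aeval t (map (ρ : MvPolynomial (Fin n) ℂ →+* K) q) = evM ξ t q := by
    rw [aeval_def, eval₂_map]
    unfold evM
    rw [coe_eval₂Hom]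
    congr 1
    ext c
    · simp
    · simp [hρ]
  rw [hq] at h1
  have h2 := ht.eq_zero_of_aeval_eq_zero _ h1
  have h3 := congrArg (fun p => algebraMap K L (coeff ν p)) h2
  simp only [coeff_map, coeff_zero, map_zero] at h3
  rw [← hρ]
  exact h3

private theorem cen_rep {L : Type} [Field L] [Algebra ℂ L] (ξ : Fin n → L) (t : Fin k → L)
    (z : L) (hz : z ∈ Algebra.adjoin ℂ (Set.range ξ ∪ Set.range t)) :
    ∃ q : MvPolynomial (Fin k) (MvPolynomial (Fin n) ℂ), evM ξ t q = z := by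
  have h1 : Algebra.adjoin ℂ (Set.range ξ ∪ Set.range t) ≤ (cenMA ξ t).range := by
    apply Algebra.adjoin_le
    rintro _ (⟨i, rfl⟩ | ⟨j, rfl⟩)
    · exact ⟨C (X i), by
        change evM ξ t (C (X i)) = ξ i
        rw [evM_C, aeval_X]⟩
    · exact ⟨X j, by
        change evM ξ t (X j) = t j
        rw [evM_X]⟩
  obtain ⟨q, hq⟩ := h1 hz
  exact ⟨q, hq⟩

private theorem cen_hom {L : Type} [Field L] [Algebra ℂ L] (ξ : Fin n → L)
    (t : Fin k → L) (ht : AlgebraicIndependent (IntermediateField.adjoin ℂ (Set.range ξ)) t)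
    (B : Subalgebra ℂ L) (hB : B = Algebra.adjoin ℂ (Set.range ξ ∪ Set.range t))
    (hξB : ∀ i, ξ i ∈ B) (htB : ∀ j, t j ∈ B) (x : Fin n → ℂ)
    (hx : ∀ f : MvPolynomial (Fin n) ℂ, aeval ξ f = 0 → eval x f = 0) (t₀ : Fin k → ℂ) :
    ∃ φ : B →ₐ[ℂ] ℂ, (∀ i, φ ⟨ξ i, hξB i⟩ = x i) ∧ (∀ j, φ ⟨t j, htB j⟩ = t₀ j) ∧
      ∀ (z : B) (q : MvPolynomial (Fin k) (MvPolynomial (Fin n) ℂ)), evM ξ t q = z →
        φ z = eval x (evM X (fun j => C (t₀ j)) q) := by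
  let f : MvPolynomial (Fin k) (MvPolynomial (Fin n) ℂ) →ₐ[ℂ] B :=
    cenMA (fun i => ⟨ξ i, hξB i⟩) (fun j => ⟨t j, htB j⟩)
  let f₀ : MvPolynomial (Fin k) (MvPolynomial (Fin n) ℂ) →ₐ[ℂ] ℂ := cenMA x t₀
  have hval : ∀ q, B.val (f q) = evM ξ t q := by
    intro q
    exact map_evM B.val _ _ q
  have hf : Function.Surjective f := by
    intro y
    obtain ⟨q, hq⟩ := cen_rep ξ t y (by rw [← hB]; exact y.2)
    refine ⟨q, Subtype.ext ?_⟩
    rw [← hq]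
    exact hval q
  have hker : RingHom.ker f.toRingHom ≤ RingHom.ker f₀.toRingHom := by
    intro q hq
    rw [RingHom.mem_ker] at hq ⊢
    have h1 : evM ξ t q = 0 := by
      rw [← hval q]
      have : f q = 0 := hq
      rw [this, map_zero]
    change evM x t₀ q = 0
    rw [evM_eq_sum]
    apply Finset.sum_eq_zero
    intro ν _
    rw [aeval_eq_eval]
    have h2 := hx _ (cen_coeff ξ t ht q h1 ν)
    change eval x (coeff ν q) * _ = 0
    rw [h2, zero_mul]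
  refine ⟨AlgHom.liftOfSurjective f hf f₀ hker, fun i => ?_, fun j => ?_, fun z q hq => ?_⟩
  · have h1 : f (C (X i)) = ⟨ξ i, hξB i⟩ := by
      change evM _ _ (C (X i)) = _
      rw [evM_C, aeval_X]
    rw [← h1, AlgHom.liftOfSurjective_apply]
    change evM _ _ (C (X i)) = _
    rw [evM_C, aeval_X]
  · have h1 : f (X j) = ⟨t j, htB j⟩ := by
      change evM _ _ (X j) = _
      rw [evM_X]
    rw [← h1, AlgHom.liftOfSurjective_apply]
    change evM _ _ (X j) = _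
    rw [evM_X]
  · have h1 : f q = z := by
      apply Subtype.val_injective
      exact (hval q).trans hq
    rw [← h1, AlgHom.liftOfSurjective_apply]
    change evM x t₀ q = _
    have h2 := map_evM (aeval x : MvPolynomial (Fin n) ℂ →ₐ[ℂ] ℂ) X (fun j => C (t₀ j)) q
    rw [aeval_eq_eval] at h2
    refine Eq.trans ?_ h2.symm
    congr 1
    · congr 1
      · funext i
        exact (eval_X i).symm
      · funext j
        exact (eval_C _).symm

/-- Polynomial growth. -/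
private def PG (h : (Fin n → ℂ) → ℝ) : Prop :=
  ∃ (c : ℝ) (N : ℕ), 0 ≤ c ∧ ∀ x, h x ≤ c * (1 + ‖x‖) ^ N

private theorem PG.add {h₁ h₂ : (Fin n → ℂ) → ℝ} (H₁ : PG h₁) (H₂ : PG h₂) :
    PG fun x => h₁ x + h₂ x := by
  obtain ⟨c₁, N₁, hc₁, H₁⟩ := H₁
  obtain ⟨c₂, N₂, hc₂, H₂⟩ := H₂
  refine ⟨c₁ + c₂, N₁ + N₂, by positivity, fun x => ?_⟩
  have h0 : (1 : ℝ) ≤ 1 + ‖x‖ := by linarith [norm_nonneg x]
  have e1 : (1 + ‖x‖) ^ N₁ ≤ (1 + ‖x‖) ^ (N₁ + N₂) := pow_le_pow_right₀ h0 (by omega)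
  have e2 : (1 + ‖x‖) ^ N₂ ≤ (1 + ‖x‖) ^ (N₁ + N₂) := pow_le_pow_right₀ h0 (by omega)
  have e3 := mul_le_mul_of_nonneg_left e1 hc₁
  have e4 := mul_le_mul_of_nonneg_left e2 hc₂
  have := H₁ x
  have := H₂ x
  rw [add_mul]
  linarith

private theorem PG.mul {h₁ h₂ : (Fin n → ℂ) → ℝ} (H₁ : PG h₁) (H₂ : PG h₂)
    (h0 : ∀ x, 0 ≤ h₂ x) : PG fun x => h₁ x * h₂ x := by
  obtain ⟨c₁, N₁, hc₁, H₁⟩ := H₁
  obtain ⟨c₂, N₂, hc₂, H₂⟩ := H₂
  refine ⟨c₁ * c₂, N₁ + N₂, by positivity, fun x => ?_⟩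
  have e0 : (0 : ℝ) ≤ 1 + ‖x‖ := by linarith [norm_nonneg x]
  have := mul_le_mul (H₁ x) (H₂ x) (h0 x) (by positivity)
  refine this.trans (le_of_eq ?_)
  rw [pow_add]
  ring

private theorem PG.sum {ι : Type} (s : Finset ι) (h : ι → (Fin n → ℂ) → ℝ) (H : ∀ i ∈ s, PG (h i)) :
    PG fun x => ∑ i ∈ s, h i x := by
  classical
  induction s using Finset.induction_on with
  | empty => exact ⟨0, 0, le_rfl, fun x => by simp⟩
  | insert a s ha ih =>
    have h1 := (H a (Finset.mem_insert_self _ _)).add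
      (ih fun i hi => H i (Finset.mem_insert_of_mem hi))
    have h2 : (fun x => ∑ i ∈ insert a s, h i x) = fun x => h a x + ∑ i ∈ s, h i x := by
      funext x
      rw [Finset.sum_insert ha]
    rw [h2]
    exact h1

private theorem PG.eval (P : MvPolynomial (Fin n) ℂ) : PG fun x => ‖MvPolynomial.eval x P‖ := by
  induction P using MvPolynomial.induction_on with
  | C a => exact ⟨‖a‖, 0, norm_nonneg _, fun x => by simp⟩
  | add p q hp hq =>
    obtain ⟨c, N, hc, H⟩ := hp.add hq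
    refine ⟨c, N, hc, fun x => ?_⟩
    change ‖MvPolynomial.eval x (p + q)‖ ≤ _
    rw [map_add]
    exact (norm_add_le _ _).trans (H x)
  | mul_X p i hp =>
    have hX : PG fun x : Fin n → ℂ => ‖x i‖ := by
      refine ⟨1, 1, zero_le_one, fun x => ?_⟩
      have := norm_le_pi_norm x i
      rw [one_mul, pow_one]
      linarith
    obtain ⟨c, N, hc, H⟩ := hp.mul hX fun x => norm_nonneg _
    refine ⟨c, N, hc, fun x => ?_⟩
    change ‖MvPolynomial.eval x (p * X i)‖ ≤ _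
    rw [map_mul, eval_X, norm_mul]
    exact H x

/-- A bound for the roots of a polynomial. -/
private theorem cen_root (m : ℕ) (e : ℕ → ℂ) (y : ℂ) (hm : e m ≠ 0)
    (h : ∑ j ∈ Finset.range (m + 1), e j * y ^ j = 0) :
    ‖y‖ ≤ (‖e m‖ + ∑ j ∈ Finset.range (m + 1), ‖e j‖) / ‖e m‖ := by
  have h0 : 0 < ‖e m‖ := norm_pos_iff.2 hm
  rw [le_div_iff₀ h0]
  by_cases hy : ‖y‖ ≤ 1
  · have h1 : 0 ≤ ∑ j ∈ Finset.range (m + 1), ‖e j‖ := Finset.sum_nonneg fun j _ => norm_nonneg _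
    nlinarith
  · push Not at hy
    rcases Nat.eq_zero_or_pos m with rfl | hm0
    · simp at h
      exact absurd h hm
    · obtain ⟨q, rfl⟩ : ∃ q, m = q + 1 := ⟨m - 1, by omega⟩
      rw [Finset.sum_range_succ] at h
      have h1 : e (q + 1) * y ^ (q + 1) = -∑ j ∈ Finset.range (q + 1), e j * y ^ j := by
        linear_combination h
      have h2 : ‖e (q + 1)‖ * ‖y‖ ^ (q + 1) ≤ (∑ j ∈ Finset.range (q + 1), ‖e j‖) * ‖y‖ ^ q := by
        rw [← norm_pow, ← norm_mul, h1, norm_neg, Finset.sum_mul]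
        refine (norm_sum_le _ _).trans (Finset.sum_le_sum fun j hj => ?_)
        rw [norm_mul, norm_pow]
        refine mul_le_mul_of_nonneg_left ?_ (norm_nonneg _)
        refine pow_le_pow_right₀ hy.le ?_
        have := Finset.mem_range.1 hj
        omega
      have h3 : 0 < ‖y‖ ^ q := by positivity
      have h4 : ‖e (q + 1)‖ * ‖y‖ ≤ ∑ j ∈ Finset.range (q + 1), ‖e j‖ := by
        refine le_of_mul_le_mul_right ?_ h3
        rw [mul_assoc, ← pow_succ']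
        exact h2
      rw [Finset.sum_range_succ]
      linarith [norm_nonneg (e (q + 1))]

private theorem cen_root_inv (m : ℕ) (e : ℕ → ℂ) (y : ℂ) (hy : y ≠ 0) (h0 : e 0 ≠ 0)
    (h : ∑ j ∈ Finset.range (m + 1), e j * y ^ j = 0) :
    ‖y⁻¹‖ ≤ (‖e 0‖ + ∑ j ∈ Finset.range (m + 1), ‖e j‖) / ‖e 0‖ := by
  have h1 := cen_root m (fun j => e (m - j)) y⁻¹ (by simpa using h0) (by
    have h2 : ∑ j ∈ Finset.range (m + 1), e (m - j) * y⁻¹ ^ j =
        (y⁻¹) ^ m * ∑ j ∈ Finset.range (m + 1), e j * y ^ j := by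
      rw [← Finset.sum_range_reflect (fun j => e j * y ^ j), Finset.mul_sum]
      refine Finset.sum_congr rfl fun j hj => ?_
      have hj' := Finset.mem_range.1 hj
      have e1 : m + 1 - 1 - j = m - j := by omega
      rw [e1]
      have e2 : y⁻¹ ^ m = y⁻¹ ^ j * y⁻¹ ^ (m - j) := by
        rw [← pow_add]
        congr 1
        omega
      rw [e2, inv_pow y (m - j)]
      field_simp
    rw [h2, h, mul_zero])
  have h3 : ∑ j ∈ Finset.range (m + 1), ‖e (m - j)‖ = ∑ j ∈ Finset.range (m + 1), ‖e j‖ := by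
    rw [← Finset.sum_range_reflect (fun j => ‖e j‖)]
    refine Finset.sum_congr rfl fun j hj => ?_
    congr 2
  rw [h3] at h1
  simpa using h1

private theorem cen_alg {L : Type} [Field L] [Algebra ℂ L] (R : Subalgebra ℂ L) (S : Set L)
    (hS : ∀ s ∈ S, IsAlgebraic R s) {z : L} (hz : z ∈ Algebra.adjoin ℂ S) : IsAlgebraic R z := by
  induction hz using Algebra.adjoin_induction with
  | mem x hx => exact hS x hx
  | algebraMap x =>
    exact isAlgebraic_algebraMap (⟨algebraMap ℂ L x, Subalgebra.algebraMap_mem _ x⟩ : R)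
  | add x y _ _ hx hy => exact hx.add hy
  | mul x y _ _ hx hy => exact hx.mul hy

private theorem cen_map {σ : Type} {E F : Type} [CommRing E] [CommRing F] [Algebra ℂ E]
    [Algebra ℂ F] (g : E →ₐ[ℂ] F) (x : σ → E) (f : MvPolynomial σ ℂ) :
    g (aeval x f) = aeval (fun i => g (x i)) f := by
  have h : g.comp (aeval x) = aeval fun i => g (x i) := by
    ext i
    simp
  exact congrArg (fun u => u f) h

/-- **Centers.** Over the points `x` of `W` with `g(x) ≠ 0` there are points `(x, y)` of `V` with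
`D(x, y) ≠ 0`, `y_i ≠ 0` and with `y_i`, `1 / y_i` polynomially bounded in terms of `x` and `1 / g(x)`.

Proof. Let `A = Algebra.adjoin ℂ (range ξ ∪ range υ ∪ range υ⁻¹)`, and
`B₀ = Algebra.adjoin ℂ (range ξ ∪ range (υ ∘ B)) ≤ A`; all elements of `A` are algebraic over `B₀`
(`halg`, and the `ξ i` are in `B₀`; inverses of algebraic elements are algebraic). As
`1 / D(ξ, υ)` may not be in `A`, replace `A` by its algebra with `(aeval (Sum.elim ξ υ) D)⁻¹` adjoined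
(also algebraic over `B₀`). `MV.exists_ext B₀ A _ _ _ 1` (take `f = 1 ∈ A`, `r = 1`) gives `b₀ ≠ 0` in
`B₀` such that every homomorphism `φ : B₀ →ₐ[ℂ] ℂ` with `φ b₀ ≠ 0` extends to `ψ : A →ₐ[ℂ] ℂ` (for
`h` over `B₀` with `h(1) = 0` we have `(h.map φ).eval 1 = φ (h.eval 1) = 0`).
For each `i` let `∑_{j ≤ m_i} e_{i,j} T^j` be a nonzero polynomial over `B₀` with root `υ i`; dividing by
a power of `T` we may assume `e_{i,0} ≠ 0` (`υ i ≠ 0`, domain), and `e_{i,m_i} ≠ 0` is the leading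
coefficient. The elements of `B₀` are values at `(ξ, υ ∘ B)` of polynomials `E ∈ ℂ[x][Y_1..Y_k]`
(`GC.evM`, see the private lemmas `gc_good_coeff`, `gc_good_hom`, `gc_good_beta` of `GC/Good.lean`,
whose proofs can be copied). For a nonzero element the polynomial `E`, with `E(ξ; Y)` over `ℂ(ξ)`, is
nonzero (`hB`: the coefficients are not all zero at `ξ`), so for `Y = b` outside of a proper algebraic
subset of `ℂ^k`, `E(ξ; b) ≠ 0` (choose a nonzero coefficient `aeval ξ E_ν`; to find `b` with nonzero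
coordinates for finitely many `E` at once: the product of these polynomials and of the variables,
mapped to polynomials over the infinite field `IntermediateField.adjoin ℂ (range ξ)`, is nonzero and
does not vanish on `(ℂ)^k` — `MvPolynomial.funext_set`-like statement for the infinite set
`range (algebraMap ℂ _)`, or induct on `k`). Fix such a `b` with `b_j ≠ 0`, for
`E ∈ {b₀, all e_{i,0}, all e_{i,m_i}}`, and let `g` be the product of the polynomials `E(x; b) ∈ ℂ[x]`.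
Let `x` be on `W`, `g(x) ≠ 0`. There is `φ : B₀ →ₐ[ℂ] ℂ` with `ξ ↦ x`, `υ_{B j} ↦ b j` (as `gc_good_hom`);
`φ b₀ = b₀(x; b) ≠ 0`, so it extends to `ψ` on `A`; `y i = ψ (υ i)`. It is nonzero since `υ i` is
invertible in `A`; `D(x, y) ≠ 0` as `D(ξ, υ)` is invertible in `A`; `(x, y)` is on `V`. The number `y i`
is a root of `∑_j φ(e_{i,j}) T^j`, whose leading coefficient and constant term are nonzero, so
`‖y i‖ ≤ 1 + ∑_j ‖φ(e_{i,j})‖ / ‖φ(e_{i,m_i})‖` and `‖1 / y i‖ ≤ 1 + ∑_j ‖φ(e_{i,j})‖ / ‖φ(e_{i,0})‖`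
(Cauchy bound). The `φ(e_{i,j}) = E_{i,j}(x; b)` are polynomials in `x`, bounded by `C' (1 + ‖x‖)^{N'}`,
and `‖φ(e_{i,m_i})‖ ≥ ‖g(x)‖ / (C' (1 + ‖x‖)^{N'})`, the other factors of `g` being bounded. -/
theorem exists_center {L : Type} [Field L] [Algebra ℂ L] (ξ υ : Fin n → L) (hυ : ∀ i, υ i ≠ 0)
    (B : Fin k → Fin n)
    (hB : AlgebraicIndependent (IntermediateField.adjoin ℂ (Set.range ξ)) fun j => υ (B j))
    (halg : ∀ i, IsAlgebraic (Algebra.adjoin ℂ (Set.range ξ ∪ Set.range fun j => υ (B j))) (υ i))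
    (D : MvPolynomial (Fin n ⊕ Fin n) ℂ) (hD : aeval (Sum.elim ξ υ) D ≠ 0) :
    ∃ (g : MvPolynomial (Fin n) ℂ) (C : ℝ) (N : ℕ), aeval ξ g ≠ 0 ∧
      ∀ x : Fin n → ℂ, OnW ξ x → eval x g ≠ 0 →
        ∃ y : Fin n → ℂ, OnV ξ υ x y ∧ eval (Sum.elim x y) D ≠ 0 ∧ (∀ i, y i ≠ 0) ∧
          ∀ i, ‖y i‖ ≤ C * (1 + ‖x‖) ^ N / ‖eval x g‖ ∧
            ‖(y i)⁻¹‖ ≤ C * (1 + ‖x‖) ^ N / ‖eval x g‖ := by
  classical
  set t : Fin k → L := fun j => υ (B j) with htdef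
  set B₀ := Algebra.adjoin ℂ (Set.range ξ ∪ Set.range t) with hB₀
  set D' : L := aeval (Sum.elim ξ υ) D with hD'
  set A := Algebra.adjoin ℂ ((Set.range ξ ∪ Set.range υ) ∪
    ((Set.range fun i => (υ i)⁻¹) ∪ {D'⁻¹})) with hA
  have hξA : ∀ i, ξ i ∈ A := fun i => Algebra.subset_adjoin (Or.inl (Or.inl ⟨i, rfl⟩))
  have hυA : ∀ i, υ i ∈ A := fun i => Algebra.subset_adjoin (Or.inl (Or.inr ⟨i, rfl⟩))
  have hυA' : ∀ i, (υ i)⁻¹ ∈ A := fun i => Algebra.subset_adjoin (Or.inr (Or.inl ⟨i, rfl⟩))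
  have hDA' : D'⁻¹ ∈ A := Algebra.subset_adjoin (Or.inr (Or.inr rfl))
  have hξB : ∀ i, ξ i ∈ B₀ := fun i => Algebra.subset_adjoin (Or.inl ⟨i, rfl⟩)
  have htB : ∀ j, t j ∈ B₀ := fun j => Algebra.subset_adjoin (Or.inr ⟨j, rfl⟩)
  have hBA : B₀ ≤ A := by
    apply Algebra.adjoin_le
    rintro _ (⟨i, rfl⟩ | ⟨j, rfl⟩)
    · exact hξA i
    · exact hυA (B j)
  have hAfg : A.FG := by
    refine ⟨(((Set.finite_range ξ).union (Set.finite_range υ)).union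
      ((Set.finite_range fun i => (υ i)⁻¹).union (Set.finite_singleton D'⁻¹))).toFinset, ?_⟩
    rw [Set.Finite.coe_toFinset]
  have hξalg : ∀ i, IsAlgebraic B₀ (ξ i) := fun i =>
    isAlgebraic_algebraMap (⟨ξ i, hξB i⟩ : B₀)
  have hDalg : IsAlgebraic B₀ D' := by
    have h1 : D' ∈ Algebra.adjoin ℂ (Set.range (Sum.elim ξ υ)) := by
      rw [Algebra.adjoin_range_eq_range_aeval]
      exact ⟨D, rfl⟩
    refine cen_alg B₀ _ ?_ h1
    rintro _ ⟨i | i, rfl⟩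
    · exact hξalg i
    · exact halg i
  have halgA : ∀ x ∈ A, IsAlgebraic B₀ x := by
    intro x hx
    refine cen_alg B₀ _ ?_ hx
    rintro _ ((⟨i, rfl⟩ | ⟨i, rfl⟩) | (⟨i, rfl⟩ | rfl))
    · exact hξalg i
    · exact halg i
    · exact (halg i).inv
    · exact hDalg.inv
  obtain ⟨b₀, hb₀, hext⟩ := exists_ext_field B₀ A hBA hAfg halgA
  -- the polynomials
  have hpoly : ∀ i, ∃ p : Polynomial B₀, p.coeff 0 ≠ 0 ∧ Polynomial.aeval (υ i) p = 0 := fun i =>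
    (halg i).exists_nonzero_coeff_and_aeval_eq_zero (mem_nonZeroDivisors_of_ne_zero (hυ i))
  choose p hp0 hpυ using hpoly
  have hplead : ∀ i, (p i).leadingCoeff ≠ 0 := by
    intro i h0
    rw [Polynomial.leadingCoeff_eq_zero] at h0
    apply hp0 i
    rw [h0, Polynomial.coeff_zero]
  set Y : B₀ := b₀ * ∏ i, ((p i).leadingCoeff * (p i).coeff 0) with hY
  have hY0 : Y ≠ 0 := mul_ne_zero hb₀ (Finset.prod_ne_zero_iff.2 fun i _ =>
    mul_ne_zero (hplead i) (hp0 i))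
  have hlead : ∀ i, ∃ R : B₀, Y = (p i).leadingCoeff * R := by
    intro i
    have h1 : (p i).leadingCoeff * (p i).coeff 0 ∣ Y :=
      (Finset.dvd_prod_of_mem (fun i => (p i).leadingCoeff * (p i).coeff 0)
        (Finset.mem_univ i)).mul_left b₀
    exact (dvd_mul_right _ _).trans h1
  have hconst : ∀ i, ∃ R : B₀, Y = (p i).coeff 0 * R := by
    intro i
    have h1 : (p i).leadingCoeff * (p i).coeff 0 ∣ Y :=
      (Finset.dvd_prod_of_mem (fun i => (p i).leadingCoeff * (p i).coeff 0)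
        (Finset.mem_univ i)).mul_left b₀
    exact (dvd_mul_left _ _).trans h1
  choose Rl hRl using hlead
  choose Rc hRc using hconst
  have hrep : ∀ z : B₀, ∃ q : MvPolynomial (Fin k) (MvPolynomial (Fin n) ℂ), evM ξ t q = z :=
    fun z => cen_rep ξ t z z.2
  choose r hr using hrep
  -- the choice of `b`
  have hinj : Function.Injective (algebraMap ℂ L) := (algebraMap ℂ L).injective
  set G : MvPolynomial (Fin k) L := MvPolynomial.map (aeval ξ : MvPolynomial (Fin n) ℂ →ₐ[ℂ] L)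
    (r Y) with hG
  have hGev : ∀ v : Fin k → L, MvPolynomial.eval v G = evM ξ v (r Y) := by
    intro v
    rw [hG, MvPolynomial.eval_map]
    rfl
  have hG0 : G ≠ 0 := by
    intro h0
    apply hY0
    apply Subtype.val_injective
    rw [← hr Y, ← hGev, h0, map_zero]
    rfl
  obtain ⟨v, hv, hv0⟩ : ∃ v : Fin k → L, v ∈ Set.pi .univ (fun _ : Fin k =>
      Set.range (algebraMap ℂ L)) ∧ MvPolynomial.eval v G ≠ 0 := by
    by_contra hcon
    push Not at hcon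
    apply hG0
    refine funext_set (fun _ : Fin k => Set.range (algebraMap ℂ L)) (fun _ =>
      Set.infinite_range_of_injective hinj) fun x hx => ?_
    rw [hcon x hx, map_zero]
  have hv' : ∀ l, ∃ c : ℂ, algebraMap ℂ L c = v l := fun l => hv l (Set.mem_univ l)
  choose b hb using hv'
  set sub : MvPolynomial (Fin k) (MvPolynomial (Fin n) ℂ) →+* MvPolynomial (Fin n) ℂ :=
    evM X (fun j => C (b j)) with hsub
  have hg0 : aeval ξ (sub (r Y)) ≠ 0 := by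
    have h1 := map_evM (aeval ξ : MvPolynomial (Fin n) ℂ →ₐ[ℂ] L) X (fun j => C (b j)) (r Y)
    rw [hsub, h1]
    rw [hGev] at hv0
    have h2 : (fun i => (aeval ξ : MvPolynomial (Fin n) ℂ →ₐ[ℂ] L) (X i)) = ξ := by
      funext i
      rw [aeval_X]
    have h3 : (fun j => (aeval ξ : MvPolynomial (Fin n) ℂ →ₐ[ℂ] L) (C (b j))) = v := by
      funext j
      rw [← hb j, ← algebraMap_eq, AlgHom.commutes]
    rw [h2, h3]
    exact hv0
  -- the bound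
  let ev : B₀ → (Fin n → ℂ) → ℝ := fun z x => ‖MvPolynomial.eval x (sub (r z))‖
  have hev : ∀ z, PG (ev z) := fun z => PG.eval _
  let h₁ : Fin n → (Fin n → ℂ) → ℝ := fun i x =>
    (ev (p i).leadingCoeff x + ∑ j ∈ Finset.range ((p i).natDegree + 1), ev ((p i).coeff j) x) *
      ev (Rl i) x
  let h₂ : Fin n → (Fin n → ℂ) → ℝ := fun i x =>
    (ev ((p i).coeff 0) x + ∑ j ∈ Finset.range ((p i).natDegree + 1), ev ((p i).coeff j) x) *
      ev (Rc i) x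
  have hh₁ : ∀ i, PG (h₁ i) := fun i => ((hev _).add (PG.sum _ _ fun j _ => hev _)).mul (hev _)
    fun x => norm_nonneg _
  have hh₂ : ∀ i, PG (h₂ i) := fun i => ((hev _).add (PG.sum _ _ fun j _ => hev _)).mul (hev _)
    fun x => norm_nonneg _
  have hevn : ∀ z x, 0 ≤ ev z x := fun z x => norm_nonneg _
  have hn₁ : ∀ i x, 0 ≤ h₁ i x := fun i x => mul_nonneg (add_nonneg (hevn _ _)
    (Finset.sum_nonneg fun j _ => hevn _ _)) (hevn _ _)
  have hn₂ : ∀ i x, 0 ≤ h₂ i x := fun i x => mul_nonneg (add_nonneg (hevn _ _)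
    (Finset.sum_nonneg fun j _ => hevn _ _)) (hevn _ _)
  obtain ⟨C₀, N, hC₀, hbound⟩ : PG fun x => ∑ i : Fin n, (h₁ i x + h₂ i x) :=
    PG.sum Finset.univ (fun i x => h₁ i x + h₂ i x) fun i _ => (hh₁ i).add (hh₂ i)
  have hbound' : ∀ i x, h₁ i x + h₂ i x ≤ C₀ * (1 + ‖x‖) ^ N := fun i x =>
    (Finset.single_le_sum (f := fun i => h₁ i x + h₂ i x)
      (fun i _ => add_nonneg (hn₁ i x) (hn₂ i x)) (Finset.mem_univ i)).trans (hbound x)
  refine ⟨sub (r Y), C₀, N, hg0, fun x hx hgx => ?_⟩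
  obtain ⟨φ, hφξ, hφt, hφ⟩ := cen_hom ξ t hB B₀ hB₀ hξB htB x hx b
  have hφr : ∀ z : B₀, φ z = MvPolynomial.eval x (sub (r z)) := fun z => hφ z (r z) (hr z)
  have hφev : ∀ z : B₀, ‖φ z‖ = ev z x := fun z => by rw [hφr z]
  have hφY : φ Y ≠ 0 := by
    rw [hφr]
    exact hgx
  have hφb : φ b₀ ≠ 0 := by
    intro h0
    apply hφY
    rw [hY, map_mul, h0, zero_mul]
  obtain ⟨ψ, hψ, -⟩ := hext ℂ φ hφb
  let y : Fin n → ℂ := fun i => ψ ⟨υ i, hυA i⟩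
  have hψξ : ∀ i, ψ ⟨ξ i, hξA i⟩ = x i := by
    intro i
    have h1 := hψ ⟨ξ i, hξB i⟩
    rw [hφξ i] at h1
    exact h1
  have hy0 : ∀ i, y i ≠ 0 := by
    intro i h0
    have h2 : (⟨υ i, hυA i⟩ : A) * ⟨(υ i)⁻¹, hυA' i⟩ = 1 := by
      apply Subtype.val_injective
      exact mul_inv_cancel₀ (hυ i)
    have h3 := congrArg ψ h2
    have h4 : ψ ⟨υ i, hυA i⟩ = 0 := h0
    rw [map_mul, h4, zero_mul, map_one] at h3
    exact zero_ne_one h3
  have hψf : ∀ f : MvPolynomial (Fin n ⊕ Fin n) ℂ,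
      ψ (aeval (Sum.elim (fun i => (⟨ξ i, hξA i⟩ : A)) fun i => ⟨υ i, hυA i⟩) f) =
        MvPolynomial.eval (Sum.elim x y) f := by
    intro f
    rw [cen_map, ← aeval_eq_eval]
    congr 2
    funext i
    rcases i with i | i
    · exact hψξ i
    · rfl
  have hAf : ∀ f : MvPolynomial (Fin n ⊕ Fin n) ℂ,
      A.val (aeval (Sum.elim (fun i => (⟨ξ i, hξA i⟩ : A)) fun i => ⟨υ i, hυA i⟩) f) =
        aeval (Sum.elim ξ υ) f := by
    intro f
    rw [cen_map]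
    congr 2
    funext i
    rcases i with i | i <;> rfl
  have hrel : ∀ i, ∑ j ∈ Finset.range ((p i).natDegree + 1), φ ((p i).coeff j) * y i ^ j = 0 := by
    intro i
    have h1 := hpυ i
    rw [Polynomial.aeval_eq_sum_range] at h1
    have h2 : ∑ j ∈ Finset.range ((p i).natDegree + 1),
        Subalgebra.inclusion hBA ((p i).coeff j) * (⟨υ i, hυA i⟩ : A) ^ j = 0 := by
      apply Subtype.val_injective
      change A.val _ = A.val 0
      rw [map_sum, map_zero, ← h1]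
      refine Finset.sum_congr rfl fun j _ => ?_
      rw [map_mul, map_pow, Algebra.smul_def]
      rfl
    have h3 := congrArg ψ h2
    rw [map_sum, map_zero] at h3
    rw [← h3]
    refine Finset.sum_congr rfl fun j _ => ?_
    rw [map_mul, map_pow, hψ]
  refine ⟨y, ?_, ?_, hy0, fun i => ?_⟩
  · intro f hf
    rw [← hψf]
    have h1 : aeval (Sum.elim (fun i => (⟨ξ i, hξA i⟩ : A)) fun i => ⟨υ i, hυA i⟩) f = 0 := by
      apply Subtype.val_injective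
      exact (hAf f).trans hf
    rw [h1, map_zero]
  · rw [← hψf]
    intro h0
    have h2 : aeval (Sum.elim (fun i => (⟨ξ i, hξA i⟩ : A)) fun i => ⟨υ i, hυA i⟩) D *
        ⟨D'⁻¹, hDA'⟩ = 1 := by
      apply Subtype.val_injective
      have h3 : A.val (aeval (Sum.elim (fun i => (⟨ξ i, hξA i⟩ : A)) fun i => ⟨υ i, hυA i⟩) D) *
          D'⁻¹ = 1 := by
        rw [hAf]
        exact mul_inv_cancel₀ hD
      exact h3
    have h3 := congrArg ψ h2
    rw [map_mul, h0, zero_mul, map_one] at h3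
    exact zero_ne_one h3
  · have hgY : ‖MvPolynomial.eval x (sub (r Y))‖ = ‖φ Y‖ := by rw [hφr]
    have hφY' : 0 < ‖φ Y‖ := norm_pos_iff.2 hφY
    have e1 : φ Y = φ (p i).leadingCoeff * φ (Rl i) := by
      conv_lhs => rw [hRl i]
      rw [map_mul]
    have e2 : φ Y = φ ((p i).coeff 0) * φ (Rc i) := by
      conv_lhs => rw [hRc i]
      rw [map_mul]
    have l0 : φ (p i).leadingCoeff ≠ 0 := fun h => hφY (by rw [e1, h, zero_mul])
    have c0 : φ ((p i).coeff 0) ≠ 0 := fun h => hφY (by rw [e2, h, zero_mul])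
    have hb := hbound' i x
    constructor
    · have h1 := cen_root (p i).natDegree (fun j => φ ((p i).coeff j)) (y i) l0 (hrel i)
      have h2 : (‖φ ((p i).coeff (p i).natDegree)‖ +
          ∑ j ∈ Finset.range ((p i).natDegree + 1), ‖φ ((p i).coeff j)‖) /
            ‖φ ((p i).coeff (p i).natDegree)‖ = h₁ i x / ‖φ Y‖ := by
        have e3 : h₁ i x = (‖φ (p i).leadingCoeff‖ +
            ∑ j ∈ Finset.range ((p i).natDegree + 1), ‖φ ((p i).coeff j)‖) * ‖φ (Rl i)‖ := by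
          simp only [hφev, h₁]
        have l1 : ‖φ (p i).leadingCoeff‖ ≠ 0 := norm_ne_zero_iff.2 l0
        have r1 : ‖φ (Rl i)‖ ≠ 0 := fun h => by
          rw [e1, norm_mul, h, mul_zero] at hφY'
          exact lt_irrefl _ hφY'
        rw [e3, e1, norm_mul]
        change (‖φ (p i).leadingCoeff‖ + _) / ‖φ (p i).leadingCoeff‖ = _
        field_simp
      rw [hgY]
      refine h1.trans ?_
      change (‖φ ((p i).coeff (p i).natDegree)‖ + _) / _ ≤ _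
      rw [h2]
      refine div_le_div_of_nonneg_right ?_ hφY'.le
      linarith [hn₂ i x]
    · have h1 := cen_root_inv (p i).natDegree (fun j => φ ((p i).coeff j)) (y i) (hy0 i) c0 (hrel i)
      have h2 : (‖φ ((p i).coeff 0)‖ +
          ∑ j ∈ Finset.range ((p i).natDegree + 1), ‖φ ((p i).coeff j)‖) /
            ‖φ ((p i).coeff 0)‖ = h₂ i x / ‖φ Y‖ := by
        have e3 : h₂ i x = (‖φ ((p i).coeff 0)‖ +
            ∑ j ∈ Finset.range ((p i).natDegree + 1), ‖φ ((p i).coeff j)‖) * ‖φ (Rc i)‖ := by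
          simp only [hφev, h₂]
        have l1 : ‖φ ((p i).coeff 0)‖ ≠ 0 := norm_ne_zero_iff.2 c0
        have r1 : ‖φ (Rc i)‖ ≠ 0 := fun h => by
          rw [e2, norm_mul, h, mul_zero] at hφY'
          exact lt_irrefl _ hφY'
        rw [e3, e2, norm_mul]
        field_simp
      rw [hgY]
      refine h1.trans ?_
      change (‖φ ((p i).coeff 0)‖ + _) / _ ≤ _
      rw [h2]
      refine div_le_div_of_nonneg_right ?_ hφY'.le
      linarith [hn₁ i x]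

end Pool.Agent.Lib.MP_209724_lc.GP
end

section

/-!
# Compactness: a lower bound if there are no zeros
-/

namespace Pool.Agent.Lib.MP_209724_lc.GS

open Filter Topology Metric Set MvPolynomial

/-- Cauchy estimate for the derivative -/
private theorem comp_cauchy {w : ℕ} {f : Ew w → ℂ} {x : Ew w} {r M : ℝ} (hr : 0 < r)
    (hf : DifferentiableOn ℂ f (ball x r)) (hM : ∀ y ∈ ball x r, ‖f y‖ ≤ M) :
    ‖fderiv ℂ f x‖ ≤ 2 * M / r := by
  have hM0 : 0 ≤ M := (norm_nonneg _).trans (hM x (mem_ball_self hr))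
  refine ContinuousLinearMap.opNorm_le_bound _ (by positivity) fun v => ?_
  by_cases hv : v = 0
  · rw [hv, map_zero, norm_zero]
    simp
  have hv0 : 0 < ‖v‖ := norm_pos_iff.2 hv
  have hρ : 0 < r / (2 * ‖v‖) := by positivity
  have hmap : ∀ z ∈ ball (0 : ℂ) (r / ‖v‖), x + z • v ∈ ball x r := by
    intro z hz
    rw [mem_ball_zero_iff, lt_div_iff₀ hv0] at hz
    rw [mem_ball_iff_norm, add_sub_cancel_left, norm_smul]
    exact hz
  have hg : DifferentiableOn ℂ (fun z : ℂ => f (x + z • v)) (ball 0 (r / ‖v‖)) :=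
    hf.comp ((differentiable_id.smul_const v).const_add x).differentiableOn hmap
  have hsub : closedBall (0 : ℂ) (r / (2 * ‖v‖)) ⊆ ball 0 (r / ‖v‖) :=
    closedBall_subset_ball (by
      rw [div_lt_div_iff₀ (by positivity) hv0]
      nlinarith)
  have h1 := Complex.norm_deriv_le_of_forall_mem_sphere_norm_le (f := fun z : ℂ => f (x + z • v))
    hρ (hg.diffContOnCl_ball hsub) (C := M)
    (fun z hz => hM _ (hmap z (hsub (sphere_subset_closedBall hz))))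
  have h2 : deriv (fun z : ℂ => f (x + z • v)) 0 = fderiv ℂ f x v := by
    have h3 : HasFDerivAt f (fderiv ℂ f x) (x + (0 : ℂ) • v) := by
      rw [zero_smul, add_zero]
      exact (hf.differentiableAt (ball_mem_nhds x hr)).hasFDerivAt
    have h4 : HasDerivAt (fun z : ℂ => x + z • v) ((1 : ℂ) • v) 0 :=
      ((hasDerivAt_id (0 : ℂ)).smul_const v).const_add x
    have h5 := h3.comp_hasDerivAt 0 h4
    rw [one_smul] at h5
    exact h5.deriv
  rw [h2] at h1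
  calc ‖fderiv ℂ f x v‖ ≤ M / (r / (2 * ‖v‖)) := h1
    _ = 2 * M / r * ‖v‖ := by field_simp

/-- strict differentiability -/
private theorem comp_strict {w : ℕ} {f : Ew w → ℂ} {x₀ : Ew w} {ρ : ℝ}
    (hf : DifferentiableOn ℂ f (ball x₀ ρ)) {x : Ew w} (hx : x ∈ ball x₀ ρ) {ε : ℝ} (hε : 0 < ε) :
    ∃ δ : ℝ, 0 < δ ∧ ball x δ ⊆ ball x₀ ρ ∧ ∀ a ∈ ball x δ, ∀ b ∈ ball x δ,
      ‖f b - f a - fderiv ℂ f x (b - a)‖ ≤ ε * ‖b - a‖ := by
  obtain ⟨ρ₁, hρ₁, hsub⟩ : ∃ ρ₁ : ℝ, 0 < ρ₁ ∧ closedBall x (2 * ρ₁) ⊆ ball x₀ ρ := by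
    obtain ⟨e, he, h⟩ := Metric.isOpen_iff.1 isOpen_ball x hx
    exact ⟨e / 4, by positivity, (closedBall_subset_ball (by linarith)).trans h⟩
  have hu : UniformContinuousOn f (closedBall x (2 * ρ₁)) :=
    (isCompact_closedBall x _).uniformContinuousOn_of_continuous (hf.continuousOn.mono hsub)
  obtain ⟨δ₀, hδ₀, hδ⟩ := Metric.uniformContinuousOn_iff.1 hu (ε * ρ₁ / 2) (by positivity)
  have hmin : 0 < min δ₀ ρ₁ := lt_min hδ₀ hρ₁
  have hballs : ball x (min δ₀ ρ₁) ⊆ ball x₀ ρ :=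
    ((ball_subset_closedBall.trans (closedBall_subset_closedBall
      ((min_le_right _ _).trans (by linarith)))).trans hsub)
  have hder : ∀ y ∈ ball x (min δ₀ ρ₁), ‖fderiv ℂ f y - fderiv ℂ f x‖ ≤ ε := by
    intro y hy
    rw [mem_ball_iff_norm] at hy
    have hm1 : ∀ z ∈ ball x ρ₁, z ∈ closedBall x (2 * ρ₁) := fun z hz => by
      rw [mem_ball_iff_norm] at hz
      rw [mem_closedBall_iff_norm]
      linarith
    have hm2 : ∀ z ∈ ball x ρ₁, z + (y - x) ∈ closedBall x (2 * ρ₁) := fun z hz => by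
      rw [mem_ball_iff_norm] at hz
      rw [mem_closedBall_iff_norm]
      have e1 : z + (y - x) - x = (z - x) + (y - x) := by abel
      rw [e1]
      have := norm_add_le (z - x) (y - x)
      have := min_le_right δ₀ ρ₁
      linarith
    have h1 : DifferentiableOn ℂ (fun z => f (z + (y - x)) - f z) (ball x ρ₁) :=
      (hf.comp (differentiable_id.add_const _).differentiableOn fun z hz => hsub (hm2 z hz)).sub
        (hf.mono fun z hz => hsub (hm1 z hz))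
    have h2 := comp_cauchy hρ₁ h1 (M := ε * ρ₁ / 2) (fun z hz => by
      have h3 := hδ _ (hm2 z hz) _ (hm1 z hz) (by
        rw [dist_eq_norm, add_sub_cancel_left]
        exact hy.trans_le (min_le_left _ _))
      rw [dist_eq_norm] at h3
      exact h3.le)
    have h3 : fderiv ℂ (fun z => f (z + (y - x)) - f z) x = fderiv ℂ f y - fderiv ℂ f x := by
      have hyb : y ∈ ball x₀ ρ := hballs (by rw [mem_ball_iff_norm]; exact hy)
      have h4 : HasFDerivAt (fun z => f (z + (y - x))) (fderiv ℂ f y) x := by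
        have h5 : HasFDerivAt f (fderiv ℂ f y) (x + (y - x)) := by
          rw [add_sub_cancel]
          exact (hf.differentiableAt (isOpen_ball.mem_nhds hyb)).hasFDerivAt
        exact (hasFDerivAt_comp_add_right (y - x)).2 h5
      exact (h4.sub (hf.differentiableAt (isOpen_ball.mem_nhds hx)).hasFDerivAt).fderiv
    rw [h3] at h2
    calc ‖fderiv ℂ f y - fderiv ℂ f x‖ ≤ 2 * (ε * ρ₁ / 2) / ρ₁ := h2
      _ = ε := by field_simp
  refine ⟨min δ₀ ρ₁, hmin, hballs, fun a ha b hb => ?_⟩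
  exact (convex_ball x _).norm_image_sub_le_of_norm_fderiv_le' (𝕜 := ℂ)
    (fun y hy => hf.differentiableAt (isOpen_ball.mem_nhds (hballs hy))) hder ha hb

private theorem comp_lim {X Y : Type} [TopologicalSpace X] [TopologicalSpace Y] {Ψ : X → Y → ℂ}
    {s : Set X} (hΨ : ContinuousOn (fun p : X × Y => Ψ p.1 p.2) (s ×ˢ univ)) (hs : IsOpen s)
    {a : ℕ → X} {y : ℕ → Y} {a' : X} {y' : Y} (ha' : a' ∈ s) (ha : Tendsto a atTop (𝓝 a'))
    (hy : Tendsto y atTop (𝓝 y')) : Tendsto (fun k => Ψ (a k) (y k)) atTop (𝓝 (Ψ a' y')) := by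
  have h2 := hΨ.continuousAt ((hs.prod isOpen_univ).mem_nhds
    (show (a', y') ∈ s ×ˢ univ from ⟨ha', mem_univ _⟩))
  exact h2.tendsto.comp (ha.prodMk_nhds hy)

/-- Lipschitz estimate -/
private theorem comp_lip {w : ℕ} {f : Ew w → ℂ} {x : Ew w} {r M : ℝ} (hr : 0 < r)
    (hf : DifferentiableOn ℂ f (ball x (2 * r))) (hM : ∀ y ∈ ball x (2 * r), ‖f y‖ ≤ M) :
    ∀ a ∈ ball x r, ∀ b ∈ ball x r, ‖f b - f a‖ ≤ 2 * M / r * ‖b - a‖ := by
  intro a ha b hb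
  have hsub : ∀ y ∈ ball x r, ball y r ⊆ ball x (2 * r) := fun y hy =>
    ball_subset_ball' (by
      rw [mem_ball] at hy
      linarith)
  refine (convex_ball x r).norm_image_sub_le_of_norm_fderiv_le (𝕜 := ℂ)
    (fun y hy => hf.differentiableAt (isOpen_ball.mem_nhds (ball_subset_ball (by linarith) hy)))
    (fun y hy => ?_) ha hb
  exact comp_cauchy hr (hf.mono (hsub y hy)) fun z hz => hM z (hsub y hy hz)

variable {w : ℕ} {ι : Type} [Fintype ι] {t₀ : Ew w} {ρ : ℝ} {dg : Fin w → ℕ}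
    {𝒳 : Set (ι → ℂ)} {R : ℕ → ℝ} {u : ℕ → ι → Ew w → ℂ} {U : ι → Ew w → ℂ}
    {G : ℕ → Fin w → Ew w → (ι → ℂ) → ℂ} {P : Ew w → Fin w → MvPolynomial ι ℂ}

/-- **Blow-up of the exponents.** If `φ : ℕ → ℕ` tends to infinity and `t_k → t' ∈ ball t₀ ρ`, then
`R_{φ k} (u_{φ k, j}(t_k + ξ / R_{φ k}) - u_{φ k, j}(t_k)) → D U_j(t') ξ` uniformly for `‖ξ‖ ≤ B`.
Proof: write `u_ν = U + e_ν`. By strict differentiability of `U_j` at `t'`
(`HasStrictFDerivAt`, `U_j` is holomorphic on an open set), `‖U_j a - U_j b - D U_j(t')(a-b)‖ ≤ ε ‖a-b‖`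
for `a, b` near `t'`. For `e = e_{ν,j}`, `sup ‖e‖ ≤ ε'` on the ball: on a smaller ball the derivative of
`e` is bounded by `ε'/ρ'` (Cauchy estimate on complex lines, e.g.
`Complex.norm_deriv_le_of_forall_mem_sphere_norm_le`, or the Schwarz lemma
`Complex.dist_le_div_mul_dist_of_mapsTo_ball` applied on complex lines), so
`‖e a - e b‖ ≤ (2ε'/ρ') ‖a-b‖` there. -/
theorem CoreData.blowup (h : CoreData t₀ ρ dg 𝒳 R u U G P) {φ : ℕ → ℕ}
    (hφ : Tendsto φ atTop atTop) {t : ℕ → Ew w} {t' : Ew w} (ht' : t' ∈ ball t₀ ρ)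
    (ht : Tendsto t atTop (𝓝 t')) (B : ℝ) {ε : ℝ} (hε : 0 < ε) :
    ∀ᶠ k in atTop, ∀ ξ : Ew w, ‖ξ‖ ≤ B → ∀ j,
      ‖(R (φ k) : ℂ) * (u (φ k) j (t k + ((R (φ k))⁻¹ : ℂ) • ξ) - u (φ k) j (t k)) -
        fderiv ℂ (U j) t' ξ‖ ≤ ε := by
  have hB' : 0 < |B| + 1 := by positivity
  have hj : ∀ j, ∀ᶠ k in atTop, ∀ ξ : Ew w, ‖ξ‖ ≤ B →
      ‖(R (φ k) : ℂ) * (u (φ k) j (t k + ((R (φ k))⁻¹ : ℂ) • ξ) - u (φ k) j (t k)) -
        fderiv ℂ (U j) t' ξ‖ ≤ ε := by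
    intro j
    obtain ⟨δ, hδ, hδsub, hstr⟩ := comp_strict (h.Udiff j) ht' (ε := ε / (2 * (|B| + 1)))
      (by positivity)
    have hul := hφ.eventually (h.ulim (ε * δ / (8 * (|B| + 1))) (by positivity))
    have h1 : ∀ᶠ k in atTop, t k ∈ ball t' (δ / 4) := ht.eventually (ball_mem_nhds t' (by positivity))
    have h2 : ∀ᶠ k in atTop, (|B| + 1) / R (φ k) < δ / 4 :=
      ((h.Rlim.comp hφ).const_div_atTop (|B| + 1)).eventually_lt_const (by positivity)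
    filter_upwards [hul, h1, h2] with k hk1 hk2 hk3 ξ hξ
    have hR : 0 < R (φ k) := h.Rpos _
    have hRc : (R (φ k) : ℂ) ≠ 0 := by exact_mod_cast hR.ne'
    have hξ' : ‖ξ‖ ≤ |B| + 1 := hξ.trans ((le_abs_self B).trans (by linarith))
    have hn : ‖((R (φ k))⁻¹ : ℂ) • ξ‖ = ‖ξ‖ / R (φ k) := by
      rw [norm_smul, norm_inv, Complex.norm_real, Real.norm_eq_abs, abs_of_pos hR, inv_mul_eq_div]
    have hn2 : ‖((R (φ k))⁻¹ : ℂ) • ξ‖ < δ / 4 := by
      rw [hn]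
      exact (div_le_div_of_nonneg_right hξ' hR.le).trans_lt hk3
    have ha : t k ∈ ball t' (δ / 2) := ball_subset_ball (by linarith) hk2
    have hb : t k + ((R (φ k))⁻¹ : ℂ) • ξ ∈ ball t' (δ / 2) := by
      rw [mem_ball_iff_norm] at hk2 ⊢
      have e1 : t k + ((R (φ k))⁻¹ : ℂ) • ξ - t' = (t k - t') + ((R (φ k))⁻¹ : ℂ) • ξ := by abel
      rw [e1]
      have := norm_add_le (t k - t') (((R (φ k))⁻¹ : ℂ) • ξ)
      linarith
    have hs1 := hstr _ (ball_subset_ball (by linarith) ha) _ (ball_subset_ball (by linarith) hb)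
    have e2δ : 2 * (δ / 2) = δ := by ring
    have hs2 := comp_lip (f := fun x => u (φ k) j x - U j x) (x := t') (r := δ / 2)
      (M := ε * δ / (8 * (|B| + 1))) (by positivity)
      (by
        rw [e2δ]
        exact ((h.udiff (φ k) j).mono hδsub).sub ((h.Udiff j).mono hδsub))
      (fun y hy => by
        rw [e2δ] at hy
        exact hk1 j y (hδsub hy)) _ ha _ hb
    rw [add_sub_cancel_left, hn] at hs1 hs2
    rw [map_smul, smul_eq_mul] at hs1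
    have e3 : (R (φ k) : ℂ) * (u (φ k) j (t k + ((R (φ k))⁻¹ : ℂ) • ξ) - u (φ k) j (t k)) -
        fderiv ℂ (U j) t' ξ =
        (R (φ k) : ℂ) * ((U j (t k + ((R (φ k))⁻¹ : ℂ) • ξ) - U j (t k) -
          ((R (φ k))⁻¹ : ℂ) * fderiv ℂ (U j) t' ξ) +
          ((u (φ k) j (t k + ((R (φ k))⁻¹ : ℂ) • ξ) - U j (t k + ((R (φ k))⁻¹ : ℂ) • ξ)) -
            (u (φ k) j (t k) - U j (t k)))) := by
      field_simp
      ring
    rw [e3, norm_mul, Complex.norm_real, Real.norm_eq_abs, abs_of_pos hR]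
    have h4 := (norm_add_le _ _).trans (add_le_add hs1 hs2)
    calc R (φ k) * _ ≤ R (φ k) * (ε / (2 * (|B| + 1)) * (‖ξ‖ / R (φ k)) +
          2 * (ε * δ / (8 * (|B| + 1))) / (δ / 2) * (‖ξ‖ / R (φ k))) :=
          mul_le_mul_of_nonneg_left h4 hR.le
      _ = ε * (‖ξ‖ / (|B| + 1)) := by
          field_simp
          ring
      _ ≤ ε * 1 := mul_le_mul_of_nonneg_left ((div_le_one hB').2 hξ') hε.le
      _ = ε := mul_one ε
  filter_upwards [eventually_all.2 hj] with k hk ξ hξ j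
  exact hk j ξ hξ

private theorem comp_conv (h : CoreData t₀ ρ dg 𝒳 R u U G P) {φ : ℕ → ℕ}
    (hφ : Tendsto φ atTop atTop) (i : Fin w) {a : ℕ → Ew w} {y : ℕ → ι → ℂ} {a' : Ew w}
    {y' : ι → ℂ} (ha' : a' ∈ ball t₀ ρ) (ha : Tendsto a atTop (𝓝 a'))
    (hy : Tendsto y atTop (𝓝 y')) :
    Tendsto (fun k => G (φ k) i (a k) (y k)) atTop (𝓝 (eval y' (P a' i))) := by
  have hab : ∀ᶠ k in atTop, a k ∈ ball t₀ ρ := ha.eventually (isOpen_ball.mem_nhds ha')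
  have h1 : Tendsto (fun k => eval (y k) (P (a k) i)) atTop (𝓝 (eval y' (P a' i))) :=
    comp_lim (Ψ := fun x y => eval y (P x i)) (h.Pcont i) isOpen_ball ha' ha hy
  have h3 : Tendsto (fun k => G (φ k) i (a k) (y k) - eval (y k) (P (a k) i)) atTop (𝓝 0) := by
    rw [tendsto_zero_iff_norm_tendsto_zero]
    refine tendsto_order.2 ⟨fun b hb => Eventually.of_forall fun k => hb.trans_le (norm_nonneg _),
      fun b hb => ?_⟩
    have hyb : ∀ᶠ k in atTop, ‖y k‖ ≤ ‖y'‖ + 1 :=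
      (hy.norm.eventually_lt_const (lt_add_one ‖y'‖)).mono fun k hk => hk.le
    filter_upwards [hφ.eventually (h.Glim (b / 2) (by positivity) (‖y'‖ + 1)), hab, hyb]
      with k hk1 hk2 hk3
    exact (hk1 i (a k) hk2 (y k) hk3).trans_lt (by linarith)
  have h4 := h3.add h1
  rw [zero_add] at h4
  exact h4.congr fun k => sub_add_cancel _ _

/-- **Lower bound.** Proof: otherwise for every `k` there are infinitely many `ν` and
`t ∈ closedBall t₀ s` with `‖G ν i t (yh R u ν t)‖ < 1/(k+1)` for all `i`; choose `ν_k → ∞`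
(strictly increasing) and `t_k`. Pass to a subsequence such that `t_k → t'` and
`yh R u ν_k t_k → c`, `‖c‖ = 1`, `c ∈ 𝒳` (`Xy`, `Xsm`, `Xcl`). By `Glim` and `Pcont`, `eval c (P t' i) = 0`.
Let `ℓ_j = fderiv ℂ (U j) t'`. By `sys_countable` (with `nd`, `Phom`, `Xt`) and `exists_sphere` there is
`r ∈ (0,1)` such that `F∞(ξ) = (eval (c_j exp(ℓ_j ξ)) (P t' i))_i` has no zero on `‖ξ‖ = r`. For `k`
large put, for `‖ξ‖ < 2`,
`F_k(ξ)_i = G ν_k i (t_k + ξ/R) (ŷ_j exp(R (u_j(t_k + ξ/R) - u_j(t_k))))`, `R = R_{ν_k}`,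
`ŷ = yh R u ν_k t_k`. It is holomorphic near `closedBall 0 r` and, as
`yv(t_k + ξ/R)_j = ‖yv(t_k)‖ ŷ_j exp(R (u_j(t_k + ξ/R) - u_j(t_k)))` and by `Ghom`, it has no zero
there, by `hno`. By `maximality` with `p = 1` there is `ξ_k`, `‖ξ_k‖ = r` (the frontier of the closed
ball is contained in the sphere), with `‖F_k(ξ_k)‖ ≤ ‖F_k(0)‖ → 0`. By `blowup`, `Glim` and `Pcont`,
`F_k → F∞` uniformly on the sphere; a limit point of the `ξ_k` is a zero of `F∞` with norm `r`: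
contradiction. -/
theorem CoreData.lower_bound (h : CoreData t₀ ρ dg 𝒳 R u U G P)
    (hno : ∀ ν, ∀ t ∈ ball t₀ ρ, ∃ i, G ν i t (yv R u ν t) ≠ 0) {s : ℝ} (hs : s < ρ) :
    ∃ κ : ℝ, 0 < κ ∧ ∀ᶠ ν in atTop, ∀ t ∈ closedBall t₀ s, ∃ i, κ ≤ ‖G ν i t (yh R u ν t)‖ := by
  classical
  -- `ι` is not empty
  have hyv0 : ∀ ν, ∀ t ∈ ball t₀ ρ, yv R u ν t ≠ 0 := by
    intro ν t ht h0
    obtain ⟨i, hi⟩ := hno ν t ht
    apply hi
    have h1 := h.Ghom ν i t 0 (yv R u ν t)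
    rw [zero_smul, zero_pow (h.dpos i).ne', zero_mul] at h1
    rw [h0]
    exact h1
  have hyn : ∀ ν, ∀ t ∈ ball t₀ ρ, 0 < ‖yv R u ν t‖ := fun ν t ht => norm_pos_iff.2 (hyv0 ν t ht)
  have hyh : ∀ ν, ∀ t ∈ ball t₀ ρ, ‖yh R u ν t‖ = 1 := fun ν t ht => by
    unfold yh
    rw [norm_smul, Complex.norm_real, norm_inv, norm_norm, inv_mul_cancel₀ (hyn ν t ht).ne']
  have hyX : ∀ ν, ∀ t ∈ ball t₀ ρ, yh R u ν t ∈ 𝒳 := fun ν t ht => h.Xsm _ _ (h.Xy ν t ht)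
  by_contra hcon
  push Not at hcon
  have hsub : closedBall t₀ s ⊆ ball t₀ ρ := closedBall_subset_ball hs
  have hfreq : ∀ k : ℕ, ∃ ν, k ≤ ν ∧ ∃ t ∈ closedBall t₀ s, ∀ i,
      ‖G ν i t (yh R u ν t)‖ < 1 / ((k : ℝ) + 1) := fun k => by
    have h1 := hcon (1 / ((k : ℝ) + 1)) (by positivity)
    exact Filter.frequently_atTop.1 h1 k
  choose ν₀ hν₀ t₁ ht₁ hsm using hfreq
  have hν₀lim : Tendsto ν₀ atTop atTop := tendsto_atTop_mono hν₀ tendsto_id
  -- a convergent subsequence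
  obtain ⟨p, hp, ψ, hψ, hplim⟩ := ((isCompact_closedBall t₀ s).prod
    (isCompact_sphere (0 : ι → ℂ) 1)).tendsto_subseq
    (x := fun k => (t₁ k, yh R u (ν₀ k) (t₁ k))) (fun k => ⟨ht₁ k, by
      rw [mem_sphere_zero_iff_norm]
      exact hyh _ _ (hsub (ht₁ k))⟩)
  obtain ⟨t', c⟩ := p
  have ht' : t' ∈ ball t₀ ρ := hsub hp.1
  have hcn : ‖c‖ = 1 := by
    have h1 := hp.2
    rwa [mem_sphere_zero_iff_norm] at h1
  obtain ⟨φ, hφdef⟩ : ∃ φ : ℕ → ℕ, φ = fun k => ν₀ (ψ k) := ⟨_, rfl⟩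
  obtain ⟨t, htdef⟩ : ∃ t : ℕ → Ew w, t = fun k => t₁ (ψ k) := ⟨_, rfl⟩
  have hφ : Tendsto φ atTop atTop := by
    rw [hφdef]
    exact hν₀lim.comp hψ.tendsto_atTop
  have htb : ∀ k, t k ∈ ball t₀ ρ := fun k => by rw [htdef]; exact hsub (ht₁ _)
  have hsmall : ∀ k i, ‖G (φ k) i (t k) (yh R u (φ k) (t k))‖ < 1 / ((k : ℝ) + 1) := fun k i => by
    rw [hφdef, htdef]
    refine (hsm (ψ k) i).trans_le (one_div_le_one_div_of_le (by positivity) ?_)
    have : (k : ℝ) ≤ ψ k := by exact_mod_cast hψ.id_le k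
    linarith
  have htlim : Tendsto t atTop (𝓝 t') := by
    rw [htdef]
    exact (continuous_fst.continuousAt.tendsto.comp hplim)
  obtain ⟨v, hvdef⟩ : ∃ v : ℕ → ι → ℂ, v = fun k => yh R u (φ k) (t k) := ⟨_, rfl⟩
  have hvlim : Tendsto v atTop (𝓝 c) := by
    rw [hvdef, hφdef, htdef]
    exact (continuous_snd.continuousAt.tendsto.comp hplim)
  have hcX : c ∈ 𝒳 := h.Xcl.mem_of_tendsto hvlim (Eventually.of_forall fun k => by
    rw [hvdef]
    exact hyX _ _ (htb k))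
  have hc0 : c ≠ 0 := by
    intro h0
    rw [h0, norm_zero] at hcn
    exact zero_ne_one hcn
  -- convergence of the functions
  have hGconv : ∀ i, ∀ (a : ℕ → Ew w) (y : ℕ → ι → ℂ) (a' : Ew w) (y' : ι → ℂ), a' ∈ ball t₀ ρ →
      Tendsto a atTop (𝓝 a') → Tendsto y atTop (𝓝 y') →
      Tendsto (fun k => G (φ k) i (a k) (y k)) atTop (𝓝 (eval y' (P a' i))) :=
    fun i a y a' y' ha' ha hy => comp_conv h hφ i ha' ha hy
  have hPc : ∀ i, eval c (P t' i) = 0 := fun i => by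
    refine tendsto_nhds_unique (hGconv i t v t' c ht' htlim hvlim) ?_
    rw [tendsto_zero_iff_norm_tendsto_zero]
    refine squeeze_zero (fun k => norm_nonneg _) (fun k => ?_) tendsto_one_div_add_atTop_nhds_zero_nat
    rw [hvdef]
    exact (hsmall k i).le
  -- the limit system has no zero on a small sphere
  have hsys := sys_countable (P t') dg (h.Phom t') (fun j => fderiv ℂ (U j) t') 𝒳 h.Xcl h.Xsm
    (fun y hy ξ => h.Xt t' ht' y hy ξ) (fun Y hY hY0 hYP b hb => h.nd t' ht' Y hY hY0 hYP b hb)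
    c hcX hc0 0 (fun i => by
      have h1 : (fun j => c j * Complex.exp (fderiv ℂ (U j) t' 0)) = c := by
        funext j
        rw [map_zero, Complex.exp_zero, mul_one]
      rw [h1]
      exact hPc i)
  obtain ⟨r, hr0, hr1, hr⟩ := exists_sphere (P t') (fun j => fderiv ℂ (U j) t') c hsys zero_lt_one
  -- the rescaled functions
  obtain ⟨E, hEdef⟩ : ∃ E : ℕ → Ew w → ι → ℂ, E = fun k ξ j => v k j *
    Complex.exp ((R (φ k) : ℂ) * (u (φ k) j (t k + ((R (φ k))⁻¹ : ℂ) • ξ) - u (φ k) j (t k))) :=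
    ⟨_, rfl⟩
  obtain ⟨Fk, hFdef⟩ : ∃ Fk : ℕ → Ew w → Ew w, Fk = fun k ξ => WithLp.toLp 2 (fun i =>
    G (φ k) i (t k + ((R (φ k))⁻¹ : ℂ) • ξ) (E k ξ)) := ⟨_, rfl⟩
  have hFi : ∀ k ξ i, Fk k ξ i = G (φ k) i (t k + ((R (φ k))⁻¹ : ℂ) • ξ) (E k ξ) := fun k ξ i => by
    rw [hFdef]
  have hnear : ∀ᶠ k in atTop, ∀ ξ ∈ ball (0 : Ew w) 2, t k + ((R (φ k))⁻¹ : ℂ) • ξ ∈ ball t₀ ρ := by
    obtain ⟨e, he, hesub⟩ := Metric.isOpen_iff.1 isOpen_ball t' ht'
    have h1 : ∀ᶠ k in atTop, t k ∈ ball t' (e / 2) := htlim.eventually (ball_mem_nhds t' (by positivity))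
    have h2 : ∀ᶠ k in atTop, 2 / R (φ k) < e / 2 :=
      ((h.Rlim.comp hφ).const_div_atTop 2).eventually_lt_const (by positivity)
    filter_upwards [h1, h2] with k hk1 hk2 ξ hξ
    apply hesub
    rw [mem_ball_iff_norm] at hk1 ⊢
    rw [mem_ball_zero_iff] at hξ
    have hR : 0 < R (φ k) := h.Rpos _
    have hn : ‖((R (φ k))⁻¹ : ℂ) • ξ‖ = ‖ξ‖ / R (φ k) := by
      rw [norm_smul, norm_inv, Complex.norm_real, Real.norm_eq_abs, abs_of_pos hR, inv_mul_eq_div]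
    have e1 : t k + ((R (φ k))⁻¹ : ℂ) • ξ - t' = (t k - t') + ((R (φ k))⁻¹ : ℂ) • ξ := by abel
    rw [e1]
    have h3 := norm_add_le (t k - t') (((R (φ k))⁻¹ : ℂ) • ξ)
    have h4 : ‖ξ‖ / R (φ k) < 2 / R (φ k) := div_lt_div_of_pos_right hξ hR
    rw [hn] at h3
    linarith
  have hpts : ∀ᶠ k in atTop, ∃ ξ : Ew w, ‖ξ‖ = r ∧ ‖Fk k ξ‖ ≤ ‖Fk k 0‖ := by
    filter_upwards [hnear] with k hk
    have hR : 0 < R (φ k) := h.Rpos _
    have hdiff : DifferentiableOn ℂ (Fk k) (ball 0 2) := by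
      rw [differentiableOn_euclidean]
      intro i
      have h0 : (fun ξ => Fk k ξ i) = fun ξ => G (φ k) i (t k + ((R (φ k))⁻¹ : ℂ) • ξ) (E k ξ) := by
        funext ξ
        exact hFi k ξ i
      rw [h0]
      have h1 : DifferentiableOn ℂ (fun ξ : Ew w => t k + ((R (φ k))⁻¹ : ℂ) • ξ) (ball 0 2) :=
        ((differentiable_fun_id.const_smul ((R (φ k))⁻¹ : ℂ)).const_add (t k)).differentiableOn
      have h2 : DifferentiableOn ℂ (fun ξ : Ew w => E k ξ) (ball 0 2) := by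
        rw [hEdef]
        rw [differentiableOn_pi]
        intro j
        refine (DifferentiableOn.cexp ?_).const_mul _
        exact (((h.udiff (φ k) j).comp h1 hk).sub_const _).const_mul _
      exact (h.Gdiff (φ k) i).comp (h1.prodMk h2) fun ξ hξ => ⟨hk ξ hξ, mem_univ _⟩
    have hne : ∀ ξ ∈ closedBall (0 : Ew w) r, Fk k ξ ≠ 0 := by
      intro ξ hξ h0
      have hξb : ξ ∈ ball (0 : Ew w) 2 := closedBall_subset_ball (by linarith) hξ
      obtain ⟨i, hi⟩ := hno (φ k) _ (hk ξ hξb)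
      apply hi
      have h1 : yv R u (φ k) (t k + ((R (φ k))⁻¹ : ℂ) • ξ) = ((‖yv R u (φ k) (t k)‖ : ℝ) : ℂ) • E k ξ := by
        funext j
        rw [hEdef, hvdef]
        show _ = ((‖yv R u (φ k) (t k)‖ : ℝ) : ℂ) * ((((‖yv R u (φ k) (t k)‖⁻¹ : ℝ) : ℂ) *
          Complex.exp (R (φ k) * u (φ k) j (t k))) * Complex.exp _)
        have h2 : ((‖yv R u (φ k) (t k)‖ : ℝ) : ℂ) * ((‖yv R u (φ k) (t k)‖⁻¹ : ℝ) : ℂ) = 1 := by
          rw [← Complex.ofReal_mul, mul_inv_cancel₀ (hyn _ _ (htb k)).ne', Complex.ofReal_one]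
        rw [← mul_assoc, ← mul_assoc, h2, one_mul, ← Complex.exp_add]
        show Complex.exp _ = _
        congr 1
        ring
      rw [h1, h.Ghom, ← hFi, h0]
      show _ * (0 : Ew w) i = 0
      rw [PiLp.zero_apply, mul_zero]
    obtain ⟨ξ, hξ, hle⟩ := maximality isOpen_ball (isCompact_closedBall (0 : Ew w) r)
      (closedBall_subset_ball (by linarith)) (F := Fk k) (p := fun _ => 1) hdiff
      (differentiableOn_const _) hne (x0 := 0) (mem_closedBall_self hr0.le)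
    have h3 := frontier_closedBall_subset_sphere hξ
    rw [mem_sphere_zero_iff_norm] at h3
    refine ⟨ξ, h3, ?_⟩
    rw [norm_one, one_mul, one_mul] at hle
    exact hle
  obtain ⟨N, hN⟩ := eventually_atTop.1 hpts
  choose ξ₀ hξ₀ using fun k : ℕ => hN (k + N) (Nat.le_add_left _ _)
  obtain ⟨ξ', hξ's, χ, hχ, hlimξ⟩ := (isCompact_sphere (0 : Ew w) r).tendsto_subseq
    (x := ξ₀) (fun k => by rw [mem_sphere_zero_iff_norm]; exact (hξ₀ k).1)
  obtain ⟨i, hi⟩ := hr ξ' (by rwa [mem_sphere_zero_iff_norm] at hξ's)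
  apply hi
  -- all along the subsequence `χ k + N`
  obtain ⟨θ, hθdef⟩ : ∃ θ : ℕ → ℕ, θ = fun k => χ k + N := ⟨_, rfl⟩
  have hθ : Tendsto θ atTop atTop := by
    rw [hθdef]
    exact (tendsto_add_atTop_nat N).comp hχ.tendsto_atTop
  obtain ⟨ζ, hζdef⟩ : ∃ ζ : ℕ → Ew w, ζ = fun k => ξ₀ (χ k) := ⟨_, rfl⟩
  have hζlim : Tendsto ζ atTop (𝓝 ξ') := by rw [hζdef]; exact hlimξ
  have hζn : ∀ k, ‖ζ k‖ = r := fun k => by rw [hζdef]; exact (hξ₀ _).1
  have hζF : ∀ k, ‖Fk (θ k) (ζ k)‖ ≤ ‖Fk (θ k) 0‖ := fun k => by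
    rw [hζdef, hθdef]
    exact (hξ₀ _).2
  have hRθ : Tendsto (fun k => R (φ (θ k))) atTop atTop := h.Rlim.comp (hφ.comp hθ)
  have harg : Tendsto (fun k => t (θ k) + ((R (φ (θ k)))⁻¹ : ℂ) • ζ k) atTop (𝓝 t') := by
    have h1 : Tendsto (fun k => ((R (φ (θ k)))⁻¹ : ℂ) • ζ k) atTop (𝓝 0) := by
      rw [tendsto_zero_iff_norm_tendsto_zero]
      have h2 : (fun k => ‖((R (φ (θ k)))⁻¹ : ℂ) • ζ k‖) = fun k => r / R (φ (θ k)) := by
        funext k
        rw [norm_smul, norm_inv, Complex.norm_real, Real.norm_eq_abs, abs_of_pos (h.Rpos _),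
          inv_mul_eq_div, hζn]
      rw [h2]
      exact hRθ.const_div_atTop r
    have h3 := (htlim.comp hθ).add h1
    rw [add_zero] at h3
    exact h3
  have hexp : ∀ j, Tendsto (fun k => (R (φ (θ k)) : ℂ) *
      (u (φ (θ k)) j (t (θ k) + ((R (φ (θ k)))⁻¹ : ℂ) • ζ k) - u (φ (θ k)) j (t (θ k)))) atTop
      (𝓝 (fderiv ℂ (U j) t' ξ')) := by
    intro j
    have h1 : Tendsto (fun k => fderiv ℂ (U j) t' (ζ k)) atTop (𝓝 (fderiv ℂ (U j) t' ξ')) :=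
      (fderiv ℂ (U j) t').continuous.continuousAt.tendsto.comp hζlim
    have h2 : Tendsto (fun k => (R (φ (θ k)) : ℂ) *
        (u (φ (θ k)) j (t (θ k) + ((R (φ (θ k)))⁻¹ : ℂ) • ζ k) - u (φ (θ k)) j (t (θ k))) -
          fderiv ℂ (U j) t' (ζ k)) atTop (𝓝 0) := by
      rw [tendsto_zero_iff_norm_tendsto_zero]
      refine tendsto_order.2 ⟨fun b hb => Eventually.of_forall fun k => hb.trans_le (norm_nonneg _),
        fun b hb => ?_⟩
      filter_upwards [hθ.eventually (h.blowup hφ ht' htlim 1 (ε := b / 2) (by positivity))]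
        with k hk
      exact (hk (ζ k) (by rw [hζn]; exact hr1.le) j).trans_lt (by linarith)
    have h3 := h2.add h1
    rw [zero_add] at h3
    refine h3.congr fun k => ?_
    ring
  have hElim : Tendsto (fun k => E (θ k) (ζ k)) atTop
      (𝓝 fun j => c j * Complex.exp (fderiv ℂ (U j) t' ξ')) := by
    refine tendsto_pi_nhds.2 fun j => ?_
    rw [hEdef]
    refine Tendsto.mul ?_ ?_
    · exact ((continuous_apply j).continuousAt.tendsto.comp hvlim).comp hθ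
    · exact Complex.continuous_exp.continuousAt.tendsto.comp (hexp j)
  -- the two limits of `Fk (θ k) (ζ k) i`
  have hFlim : Tendsto (fun k => G (φ (θ k)) i (t (θ k) + ((R (φ (θ k)))⁻¹ : ℂ) • ζ k)
      (E (θ k) (ζ k))) atTop (𝓝 (eval (fun j => c j * Complex.exp (fderiv ℂ (U j) t' ξ')) (P t' i))) :=
    comp_conv h (hφ.comp hθ) i ht' harg hElim
  refine tendsto_nhds_unique hFlim ?_
  rw [tendsto_zero_iff_norm_tendsto_zero]
  have hF0 : ∀ k, ‖Fk k 0‖ ≤ (w : ℝ) * (1 / ((k : ℝ) + 1)) := by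
    intro k
    have h1 : ‖Fk k 0‖ ≤ ∑ i, ‖Fk k 0 i‖ := by
      rw [EuclideanSpace.norm_eq]
      refine Real.sqrt_le_iff.2 ⟨Finset.sum_nonneg fun i _ => norm_nonneg _, ?_⟩
      exact Finset.sum_sq_le_sq_sum_of_nonneg (fun i _ => norm_nonneg _)
    refine h1.trans ?_
    have h2 : ∀ i, ‖Fk k 0 i‖ ≤ 1 / ((k : ℝ) + 1) := by
      intro i
      rw [hFi, smul_zero, add_zero]
      have h3 : E k 0 = yh R u (φ k) (t k) := by
        funext j
        rw [hEdef, hvdef]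
        show _ * Complex.exp (_ * (u (φ k) j (t k + _ • (0 : Ew w)) - u (φ k) j (t k))) = _
        rw [smul_zero, add_zero, sub_self, mul_zero, Complex.exp_zero, mul_one]
      rw [h3]
      exact (hsmall k i).le
    calc ∑ i, ‖Fk k 0 i‖ ≤ ∑ _i : Fin w, 1 / ((k : ℝ) + 1) := Finset.sum_le_sum fun i _ => h2 i
      _ = (w : ℝ) * (1 / ((k : ℝ) + 1)) := by
          rw [Finset.sum_const, Finset.card_univ, Fintype.card_fin, nsmul_eq_mul]
  have hlim0 : Tendsto (fun k : ℕ => (w : ℝ) * (1 / ((θ k : ℝ) + 1))) atTop (𝓝 0) := by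
    have h1 : Tendsto (fun k : ℕ => (w : ℝ) * (1 / ((k : ℝ) + 1))) atTop (𝓝 ((w : ℝ) * 0)) :=
      tendsto_one_div_add_atTop_nhds_zero_nat.const_mul _
    rw [mul_zero] at h1
    exact h1.comp hθ
  refine squeeze_zero (fun k => norm_nonneg _) (fun k => ?_) hlim0
  rw [← hFi]
  exact ((PiLp.norm_apply_le _ i).trans (hζF k)).trans (hF0 _)

end Pool.Agent.Lib.MP_209724_lc.GS
end
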