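import Mathlib
import Pool.Agent.Lib.MP_209724_lc.MV.Branch
import Pool.Agent.Lib.MP_209724_lc.MV.HurwitzMulti
import Pool.Agent.Lib.MP_209724_lc.GS.QLin

/-!
# Preparations for the assembly
-/

namespace Pool.Agent.Lib.MP_209724_lc.GS

open MvPolynomial Filter Topology Metric Set
open GC (prj cone)

/-- The asymptotic cone is invariant under positive scaling: if `(r_j)⁻¹ x_j → z` then
`(r_j / a)⁻¹ x_j → a z`. -/
theorem cone_smul {n : ℕ} (p : Ideal (MvPolynomial (Fin n) ℂ)) {z : Fin n → ℂ} (hz : z ∈ cone p)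
    {a : ℝ} (ha : 0 < a) : (fun i => (a : ℂ) * z i) ∈ cone p := by
  obtain ⟨r, x, hr, hx, hlim⟩ := hz
  refine ⟨fun j => r j / a, x, hr.atTop_div_const ha, hx, ?_⟩
  have h1 : Tendsto (fun j => a • ((r j)⁻¹ • x j)) atTop (𝓝 (a • z)) := hlim.const_smul a
  have h2 : (fun i => (a : ℂ) * z i) = a • z := by
    funext i
    exact (Complex.real_smul (x := a) (z := z i)).symm
  rw [h2]
  refine h1.congr fun j => ?_
  rw [smul_smul]
  congr 1
  rw [inv_div]
  exact (div_eq_mul_inv a (r j)).symm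

/-- the polynomial `f(c x)` -/
private noncomputable def asmSc {n : ℕ} (c : ℂ) (f : MvPolynomial (Fin n) ℂ) :
    MvPolynomial (Fin n) ℂ := aeval (fun i => MvPolynomial.C c * X i) f

private theorem asmSc_eval {n : ℕ} (c : ℂ) (y : Fin n → ℂ) (f : MvPolynomial (Fin n) ℂ) :
    eval y (asmSc c f) = eval (fun i => c * y i) f := by
  have h : (eval y).comp ((aeval (fun i => MvPolynomial.C c * X i) :
      MvPolynomial (Fin n) ℂ →ₐ[ℂ] MvPolynomial (Fin n) ℂ) :
      MvPolynomial (Fin n) ℂ →+* MvPolynomial (Fin n) ℂ) = eval (fun i => c * y i) := by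
    apply MvPolynomial.ringHom_ext
    · intro a
      simp
    · intro i
      simp
  exact congrArg (fun g => g f) h

/-- the polynomial `a ↦ f(a y)` -/
private noncomputable def asmLine {n : ℕ} (y : Fin n → ℂ) (f : MvPolynomial (Fin n) ℂ) :
    Polynomial ℂ := aeval (fun i => Polynomial.C (y i) * Polynomial.X) f

private theorem asmLine_eval {n : ℕ} (y : Fin n → ℂ) (f : MvPolynomial (Fin n) ℂ) (c : ℂ) :
    (asmLine y f).eval c = eval (fun i => c * y i) f := by
  have h : (Polynomial.evalRingHom c).comp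
      ((aeval (fun i => Polynomial.C (y i) * Polynomial.X) :
        MvPolynomial (Fin n) ℂ →ₐ[ℂ] Polynomial ℂ) : MvPolynomial (Fin n) ℂ →+* Polynomial ℂ) =
      eval (fun i => c * y i) := by
    apply MvPolynomial.ringHom_ext
    · intro a
      simp
    · intro i
      show Polynomial.eval c (aeval (fun i => Polynomial.C (y i) * Polynomial.X) (X i)) =
        eval (fun i => c * y i) (X i)
      rw [aeval_X, eval_X, Polynomial.eval_mul, Polynomial.eval_C, Polynomial.eval_X, mul_comm]
  exact congrArg (fun g => g f) h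

/-- **Components of the cone are cones.** Let `f ∈ q`. Step 1: let `z` be a zero of `q` with
`G(z) ≠ 0`. For `a` close to `1` the point `a z` is in the cone (`hq1`, `cone_smul`) and
`G(a z) ≠ 0`, so `f(a z) = 0` by `hq2`. The polynomial `a ↦ f(a z)` vanishes on an interval, so it is
`0`. Step 2: fix `a`. The polynomial `f_a(x) = f(a x)` (`aeval (fun i => C a * X i) f`) satisfies:
`f_a * G` vanishes on the zero set of `q` by step 1, so `f_a * G ∈ q` by the Nullstellensatz
(`MvPolynomial.vanishingIdeal_zeroLocus_eq_radical`, `q` prime), so `f_a ∈ q`. -/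
theorem scale_component {n : ℕ} (p q : Ideal (MvPolynomial (Fin n) ℂ)) [q.IsPrime]
    (hq1 : ∀ z : Fin n → ℂ, (∀ f ∈ q, eval z f = 0) → z ∈ cone p)
    (G : MvPolynomial (Fin n) ℂ) (hG : G ∉ q)
    (hq2 : ∀ z ∈ cone p, eval z G ≠ 0 → ∀ f ∈ q, eval z f = 0) (z : Fin n → ℂ)
    (hz : ∀ f ∈ q, eval z f = 0) (a : ℝ) (ha : 0 < a) :
    ∀ f ∈ q, eval (fun i => (a : ℂ) * z i) f = 0 := by
  intro f hf
  obtain ⟨fa, hfa⟩ : ∃ fa : ℂ → MvPolynomial (Fin n) ℂ, fa = fun c => asmSc c f := ⟨_, rfl⟩
  have hev : ∀ (c : ℂ) (y : Fin n → ℂ), eval y (fa c) = eval (fun i => c * y i) f := fun c y => by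
    rw [hfa]; exact asmSc_eval c y f
  -- step 1
  have h1 : ∀ y : Fin n → ℂ, (∀ g ∈ q, eval y g = 0) → eval y G ≠ 0 → ∀ c : ℂ,
      eval (fun i => c * y i) f = 0 := by
    intro y hy hGy
    obtain ⟨P, hP⟩ : ∃ P : Polynomial ℂ, P = asmLine y f := ⟨_, rfl⟩
    have hPe : ∀ c : ℂ, P.eval c = eval (fun i => c * y i) f := fun c => by
      rw [hP]; exact asmLine_eval y f c
    have hcont : Continuous fun c : ℝ => eval (fun i => (c : ℂ) * y i) G := by
      have e2 : ∀ c : ℝ, (asmLine y G).eval (c : ℂ) = eval (fun i => (c : ℂ) * y i) G :=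
        fun c => asmLine_eval y G (c : ℂ)
      exact ((asmLine y G).continuous.comp Complex.continuous_ofReal).congr e2
    have hnear : ∀ᶠ c : ℝ in 𝓝 1, 0 < c ∧ eval (fun i => (c : ℂ) * y i) G ≠ 0 := by
      refine (eventually_gt_nhds one_pos).and ?_
      refine hcont.continuousAt.eventually_ne ?_
      have e3 : (fun i => ((1 : ℝ) : ℂ) * y i) = y :=
        funext fun i => by rw [Complex.ofReal_one, one_mul]
      rw [e3]
      exact hGy
    have hzero : ∀ᶠ c : ℝ in 𝓝 1, P.eval (c : ℂ) = 0 := by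
      filter_upwards [hnear] with c hc
      rw [hPe]
      exact hq2 _ (cone_smul p (hq1 y hy) hc.1) hc.2 f hf
    have hP0 : P = 0 := by
      obtain ⟨ε, hε, hball⟩ := Metric.eventually_nhds_iff.1 hzero
      refine Polynomial.eq_zero_of_infinite_isRoot P ?_
      have h3 : (Set.Ioo (1:ℝ) (1 + ε)).Infinite := Set.Ioo_infinite (by linarith)
      have h4 : ((fun c : ℝ => (c : ℂ)) '' Set.Ioo (1:ℝ) (1 + ε)).Infinite :=
        h3.image Complex.ofReal_injective.injOn
      refine h4.mono ?_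
      rintro _ ⟨c, hc, rfl⟩
      refine hball ?_
      rw [Real.dist_eq, abs_lt]
      constructor <;> linarith [hc.1, hc.2]
    intro c
    rw [← hPe, hP0, Polynomial.eval_zero]
  -- step 2
  have h2 : fa a ∈ q := by
    have h3 : fa a * G ∈ q := by
      have h4 : fa a * G ∈ vanishingIdeal ℂ (zeroLocus ℂ q) := by
        rw [mem_vanishingIdeal_iff]
        intro y hy
        have hy' : ∀ g ∈ q, eval y g = 0 := by
          intro g hg
          have := (mem_zeroLocus_iff.1 hy) g hg
          rwa [MvPolynomial.aeval_eq_eval] at this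
        rw [MvPolynomial.aeval_eq_eval]
        show eval y (fa a * G) = 0
        rw [map_mul]
        by_cases hGy : eval y G = 0
        · rw [hGy, mul_zero]
        · rw [hev, h1 y hy' hGy, zero_mul]
      rw [vanishingIdeal_zeroLocus_eq_radical, (inferInstance : q.IsPrime).isRadical.radical] at h4
      exact h4
    exact ((inferInstance : q.IsPrime).mem_or_mem h3).resolve_right hG
  rw [← hev]
  exact hz _ h2

/-- Complete linearly independent linear forms by coordinates to a basis (Steinitz exchange, e.g.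
`LinearIndependent.extend`/`exists_linearIndependent_extension` inside the union with the standard
basis), so that the only common zero is `0`. -/
theorem exists_sigma {n d k : ℕ} (hdk : d + k = n) (Z : Fin d → Fin n → ℂ)
    (hZ : LinearIndependent ℂ Z) :
    ∃ σ : Fin k → Fin n, ∀ b : Fin n → ℂ, prj Z b = 0 → (∀ l, b (σ l) = 0) → b = 0 := by
  classical
  obtain ⟨A, hA⟩ : ∃ A : Matrix (Fin d) (Fin n) ℂ, A = Matrix.of Z := ⟨_, rfl⟩
  have hrank : A.rank = d := by
    have h1 : LinearIndependent ℂ A.row := by rw [hA]; exact hZ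
    rw [h1.rank_matrix, Fintype.card_fin]
  have hApp : ∀ b, A.mulVecLin b = prj Z b := by
    intro b
    funext j
    rw [hA]
    rfl
  obtain ⟨W, hW⟩ : ∃ W : Submodule ℂ (Fin n → ℂ), W = LinearMap.ker A.mulVecLin := ⟨_, rfl⟩
  have hWdim : Module.finrank ℂ W = k := by
    have h1 := LinearMap.finrank_range_add_finrank_ker A.mulVecLin
    rw [← hW, Module.finrank_fin_fun] at h1
    have h2 : Module.finrank ℂ (LinearMap.range A.mulVecLin) = d := hrank
    omega
  obtain ⟨v, hv⟩ : ∃ v : Fin n → Module.Dual ℂ W, v = fun i =>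
    (LinearMap.proj i : (Fin n → ℂ) →ₗ[ℂ] ℂ) ∘ₗ W.subtype := ⟨_, rfl⟩
  obtain ⟨κ, a, ha, hsp, hli⟩ := exists_linearIndependent' ℂ v
  have hfin : Finite κ := Finite.of_injective a ha
  have hfint : Fintype κ := Fintype.ofFinite κ
  have hcard : Fintype.card κ ≤ k := by
    have h1 := hli.fintype_card_le_finrank
    rwa [Subspace.dual_finrank_eq, hWdim] at h1
  obtain ⟨em⟩ : Nonempty (κ ↪ Fin k) := by
    rw [Function.Embedding.nonempty_iff_card_le, Fintype.card_fin]
    exact hcard
  refine ⟨fun l => if h : ∃ x : κ, em x = l then a h.choose else Fin.castLE (by omega) l,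
    fun b hb hσ => ?_⟩
  have hbW : b ∈ W := by
    rw [hW, LinearMap.mem_ker, hApp]
    exact hb
  have h1 : ∀ x : κ, b (a x) = 0 := by
    intro x
    have h2 := hσ (em x)
    have h3 : ∃ x' : κ, em x' = em x := ⟨x, rfl⟩
    beta_reduce at h2
    rw [dif_pos h3] at h2
    have h4 : h3.choose = x := em.injective h3.choose_spec
    rw [h4] at h2
    exact h2
  have h2 : Submodule.span ℂ (Set.range v) ≤
      LinearMap.ker (Module.Dual.eval ℂ W ⟨b, hbW⟩) := by
    rw [← hsp, Submodule.span_le]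
    rintro _ ⟨x, rfl⟩
    rw [SetLike.mem_coe, LinearMap.mem_ker, Module.Dual.eval_apply, hv]
    exact h1 x
  funext i
  have h3 := h2 (Submodule.subset_span ⟨i, rfl⟩)
  rw [LinearMap.mem_ker, Module.Dual.eval_apply, hv] at h3
  exact h3

/-- see the beginning of the proof of `GC.trdeg_facts` in `GC/Trdeg.lean` -/
theorem isAlgebraic_coord {n d : ℕ} {L : Type} [Field L] [Algebra ℂ L] (ξ : Fin n → L)
    (htr : Algebra.trdeg ℂ (IntermediateField.adjoin ℂ (Set.range ξ)) = d) (ζ : Fin d → L)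
    (hζK : ∀ j, ζ j ∈ IntermediateField.adjoin ℂ (Set.range ξ)) (hζ : AlgebraicIndependent ℂ ζ)
    (i : Fin n) : IsAlgebraic (Algebra.adjoin ℂ (Set.range ζ)) (ξ i) := by
  set K := IntermediateField.adjoin ℂ (Set.range ξ) with hK
  set ζ' : Fin d → K := fun j => ⟨ζ j, hζK j⟩ with hζ'
  have hζ'ind : AlgebraicIndependent ℂ ζ' := by
    apply AlgebraicIndependent.of_comp K.val
    exact hζ
  have hbK : IsTranscendenceBasis ℂ ζ' := by
    apply AlgebraicIndependent.isTranscendenceBasis_of_trdeg_le_of_finite hζ'ind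
    rw [htr, Cardinal.mk_fintype, Fintype.card_fin]
  have halgK := hbK.isAlgebraic
  have h2 : IsAlgebraic (Algebra.adjoin ℂ (Set.range ζ')) (⟨ξ i,
      IntermediateField.subset_adjoin _ _ ⟨i, rfl⟩⟩ : K) := halgK.isAlgebraic _
  have h3 : IsAlgebraic (Algebra.adjoin ℂ (Set.range ζ')) (ξ i) := h2.algebraMap
  have hmap : ∀ r ∈ Algebra.adjoin ℂ (Set.range ζ'), (r : L) ∈ Algebra.adjoin ℂ (Set.range ζ) := by
    intro r hr
    have e : (Algebra.adjoin ℂ (Set.range ζ')).map K.val = Algebra.adjoin ℂ (Set.range ζ) := by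
      rw [← Algebra.adjoin_image, ← Set.range_comp]
      rfl
    rw [← e]
    exact ⟨r, hr, rfl⟩
  let φ : Algebra.adjoin ℂ (Set.range ζ') →+* Algebra.adjoin ℂ (Set.range ζ) :=
    RingHom.codRestrict (K.val.toRingHom.comp (Algebra.adjoin ℂ (Set.range ζ')).val.toRingHom)
      (Algebra.adjoin ℂ (Set.range ζ)) (fun r => hmap r.1 r.2)
  refine MV.isAlgebraic_of_map φ (fun r => rfl) ?_ h3
  intro a b hab
  have h4 := congrArg (fun y : Algebra.adjoin ℂ (Set.range ζ) => (y : L)) hab
  exact Subtype.ext (Subtype.ext h4)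

/-- If the forms `∑ i, Z j i ξ i` are algebraically independent then the rows of `Z` are linearly
independent. -/
theorem linearIndependent_rows {n d : ℕ} {L : Type} [Field L] [Algebra ℂ L] (ξ : Fin n → L)
    (Z : Fin d → Fin n → ℂ)
    (hind : AlgebraicIndependent ℂ (fun j => ∑ i, algebraMap ℂ L (Z j i) * ξ i)) :
    LinearIndependent ℂ Z := by
  obtain ⟨φ, hφ⟩ : ∃ φ : (Fin n → ℂ) →ₗ[ℂ] L, ∀ b, φ b = ∑ i, algebraMap ℂ L (b i) * ξ i := by
    refine ⟨{ toFun := fun b => ∑ i, algebraMap ℂ L (b i) * ξ i, map_add' := ?_, map_smul' := ?_ },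
      fun b => rfl⟩
    · intro x y
      simp only [Pi.add_apply, map_add, add_mul, Finset.sum_add_distrib]
    · intro c x
      simp only [Pi.smul_apply, smul_eq_mul, map_mul, RingHom.id_apply,
        Algebra.smul_def, mul_assoc, Finset.mul_sum]
  refine LinearIndependent.of_comp φ ?_
  have h1 : (φ ∘ Z) = fun j => ∑ i, algebraMap ℂ L (Z j i) * ξ i := funext fun j => hφ (Z j)
  rw [h1]
  exact hind.linearIndependent

end Pool.Agent.Lib.MP_209724_lc.GS
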