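import Mathlib
import Pool.Agent.Lib.MP_209724_lc.MV.Branch
import Pool.Agent.Lib.MP_209724_lc.GS.CurveB

/-!
# The core data of a system of exponential equations
-/

namespace Pool.Agent.Lib.MP_209724_lc.GS

open MvPolynomial Filter Topology Metric Set
open GC (prj cone)

variable {n d : ℕ} {ι : Type} [Fintype ι]

/-- the exponent `e + ∑ κ_j α_j` -/
def wgt (e : ℤ) (κ : ι → ℤ) (α : ι →₀ ℕ) : ℤ := e + ∑ j, κ j * (α j : ℤ)

/-- The part of the polynomial `P(x; Y)` of highest weight: in the coefficient of `Y ^ α` only the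
homogeneous component of degree `e + ∑ κ_j α_j` is kept. -/
noncomputable def topPoly (P : MvPolynomial ι (MvPolynomial (Fin n) ℂ)) (e : ℤ) (κ : ι → ℤ)
    (z : Fin n → ℂ) : MvPolynomial ι ℂ :=
  ∑ α ∈ P.support, monomial α (eval z (homogeneousComponent (wgt e κ α).toNat (P.coeff α)))

/-- `∑ r ^ (-(e + ∑ κ_j α_j)) c_α(r x) Y ^ α` -/
noncomputable def scaleEval (P : MvPolynomial ι (MvPolynomial (Fin n) ℂ)) (e : ℤ) (κ : ι → ℤ)
    (r : ℝ) (x : Fin n → ℂ) (Y : ι → ℂ) : ℂ :=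
  ∑ α ∈ P.support, (r : ℂ) ^ (-wgt e κ α) * eval (fun i => (r : ℂ) * x i) (P.coeff α) *
    ∏ j, Y j ^ α j

/-- The vectors `Y` satisfying all the homogeneous binomial equations satisfied by the vectors
`(t ^ κ_j exp(m_j x))_j`. -/
def torus (m : ι → Fin n → ℂ) (κ : ι → ℤ) : Set (ι → ℂ) :=
  {Y | ∀ α β : ι → ℕ, ∑ j, α j = ∑ j, β j →
    (∀ k, ∑ j, (α j : ℂ) * m j k = ∑ j, (β j : ℂ) * m j k) →
    ∑ j, (α j : ℤ) * κ j = ∑ j, (β j : ℤ) * κ j → ∏ j, Y j ^ α j = ∏ j, Y j ^ β j}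

theorem isClosed_torus (m : ι → Fin n → ℂ) (κ : ι → ℤ) : IsClosed (torus m κ) := by
  simp only [torus, Set.ofPred_forall]
  refine isClosed_iInter fun α => isClosed_iInter fun β => isClosed_iInter fun _ =>
    isClosed_iInter fun _ => isClosed_iInter fun _ => ?_
  exact isClosed_eq (by fun_prop) (by fun_prop)

theorem torus_smul (m : ι → Fin n → ℂ) (κ : ι → ℤ) (a : ℂ) (y : ι → ℂ) (hy : y ∈ torus m κ) :
    a • y ∈ torus m κ := by
  intro α β h1 h2 h3
  have h := hy α β h1 h2 h3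
  simp only [Pi.smul_apply, smul_eq_mul, mul_pow, Finset.prod_mul_distrib,
    Finset.prod_pow_eq_pow_sum]
  rw [h, h1]

theorem prod_exp_pow (u : ι → ℂ) (α : ι → ℕ) :
    ∏ j, Complex.exp (u j) ^ α j = Complex.exp (∑ j, (α j : ℂ) * u j) := by
  rw [Complex.exp_sum]
  refine Finset.prod_congr rfl fun j _ => ?_
  rw [← Complex.exp_nat_mul]

theorem sum_lin (m : ι → Fin n → ℂ) (b : Fin n → ℂ) (α : ι → ℕ) :
    ∑ j, (α j : ℂ) * ∑ k, m j k * b k = ∑ k, (∑ j, (α j : ℂ) * m j k) * b k := by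
  simp only [Finset.mul_sum, Finset.sum_mul]
  rw [Finset.sum_comm]
  refine Finset.sum_congr rfl fun k _ => Finset.sum_congr rfl fun j _ => ?_
  ring

theorem torus_mul_exp (m : ι → Fin n → ℂ) (κ : ι → ℤ) (y : ι → ℂ) (hy : y ∈ torus m κ)
    (b : Fin n → ℂ) : (fun j => y j * Complex.exp (∑ k, m j k * b k)) ∈ torus m κ := by
  intro α β h1 h2 h3
  have h := hy α β h1 h2 h3
  simp only [mul_pow, Finset.prod_mul_distrib, prod_exp_pow, sum_lin]
  rw [h]
  congr 2
  exact Finset.sum_congr rfl fun k _ => by rw [h2 k]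

/-- `exp(r (m_j x + κ_j log r / r)) = r ^ κ_j exp(m_j (r x))` for `r > 0`, and these vectors are in
the set `torus`. -/
theorem exp_mem_torus (m : ι → Fin n → ℂ) (κ : ι → ℤ) {r : ℝ} (hr : 0 < r) (x : Fin n → ℂ) :
    (fun j => Complex.exp (r * (∑ k, m j k * x k + κ j * (Real.log r / r : ℝ)))) ∈ torus m κ := by
  intro α β h1 h2 h3
  have h3' : ∑ j, (α j : ℂ) * (κ j : ℂ) = ∑ j, (β j : ℂ) * (κ j : ℂ) := by
    exact_mod_cast congrArg (fun z : ℤ => (z : ℂ)) h3
  have key : ∀ α : ι → ℕ, ∑ j, (α j : ℂ) * ((r : ℂ) * (∑ k, m j k * x k +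
      κ j * ((Real.log r / r : ℝ) : ℂ))) = (r : ℂ) * (∑ k, (∑ j, (α j : ℂ) * m j k) * x k) +
      (∑ j, (α j : ℂ) * (κ j : ℂ)) * ((r : ℂ) * ((Real.log r / r : ℝ) : ℂ)) := by
    intro α
    rw [← sum_lin, Finset.mul_sum, Finset.sum_mul, ← Finset.sum_add_distrib]
    refine Finset.sum_congr rfl fun j _ => ?_
    ring
  simp only [prod_exp_pow]
  rw [key, key, h3']
  congr 3
  exact Finset.sum_congr rfl fun k _ => by rw [h2 k]

/-- The scaled equation. -/
theorem scaleEval_exp (P : MvPolynomial ι (MvPolynomial (Fin n) ℂ)) (e : ℤ) (κ : ι → ℤ)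
    (m : ι → Fin n → ℂ) {r : ℝ} (hr : 0 < r) (x : Fin n → ℂ) :
    scaleEval P e κ r x
      (fun j => Complex.exp (r * (∑ k, m j k * x k + κ j * (Real.log r / r : ℝ)))) =
    (r : ℂ) ^ (-e) * eval (fun j => Complex.exp (∑ k, m j k * (r * x k)))
      (map (eval fun i => (r : ℂ) * x i) P) := by
  have hr0 : (r : ℂ) ≠ 0 := by exact_mod_cast hr.ne'
  rw [eval_map, eval₂_eq', Finset.mul_sum, scaleEval]
  refine Finset.sum_congr rfl fun α _ => ?_
  have h1 : ∏ j, Complex.exp (r * (∑ k, m j k * x k + κ j * ((Real.log r / r : ℝ) : ℂ))) ^ α j =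
      (r : ℂ) ^ (∑ j, κ j * (α j : ℤ)) *
        ∏ j, Complex.exp (∑ k, m j k * (r * x k)) ^ α j := by
    have h2 : (r : ℂ) ^ (∑ j, κ j * (α j : ℤ)) =
        Complex.exp (∑ j, (α j : ℂ) * ((κ j : ℂ) * ((Real.log r : ℝ) : ℂ))) := by
      have h3 : (r : ℂ) = Complex.exp ((Real.log r : ℝ) : ℂ) := by
        rw [← Complex.ofReal_exp, Real.exp_log hr]
      rw [h3, ← Complex.exp_int_mul]
      congr 1
      push_cast
      rw [Finset.sum_mul]
      refine Finset.sum_congr rfl fun j _ => ?_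
      ring
    rw [h2, prod_exp_pow, prod_exp_pow, ← Complex.exp_add, ← Finset.sum_add_distrib]
    congr 1
    refine Finset.sum_congr rfl fun j _ => ?_
    have h4 : (r : ℂ) * ((Real.log r / r : ℝ) : ℂ) = ((Real.log r : ℝ) : ℂ) := by
      push_cast
      field_simp
    have h5 : ∑ k, m j k * ((r : ℂ) * x k) = (r : ℂ) * ∑ k, m j k * x k := by
      rw [Finset.mul_sum]
      exact Finset.sum_congr rfl fun k _ => by ring
    rw [h5, ← h4]
    ring
  rw [h1, wgt, neg_add, zpow_add₀ hr0, zpow_neg (r : ℂ) (∑ j, κ j * (α j : ℤ))]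
  have h6 : (r : ℂ) ^ (∑ j, κ j * (α j : ℤ)) ≠ 0 := zpow_ne_zero _ hr0
  field_simp

/-- Uniform convergence of the coefficients: `c` of total degree `≤ s`. Proof: `c` is the sum of its
homogeneous components `c_k`, `k ≤ s`, and `r ^ (-s) c_k(r x) = r ^ (k-s) c_k(x)`; the `c_k` are
uniformly continuous and bounded on bounded sets. -/
theorem coeff_limit (c : MvPolynomial (Fin n) ℂ) (s : ℤ) (hs : (c.totalDegree : ℤ) ≤ s) {A : Type}
    (D : Set A) (r : ℕ → ℝ) (hr : Tendsto r atTop atTop) (X : ℕ → A → Fin n → ℂ)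
    (H : A → Fin n → ℂ) {B : ℝ} (hB : ∀ z ∈ D, ‖H z‖ ≤ B)
    (hX : ∀ ε : ℝ, 0 < ε → ∀ᶠ ν in atTop, ∀ z ∈ D, ‖X ν z - H z‖ ≤ ε) {ε : ℝ} (hε : 0 < ε) :
    ∀ᶠ ν in atTop, ∀ z ∈ D, ‖((r ν : ℝ) : ℂ) ^ (-s) * eval (fun i => (r ν : ℂ) * X ν z i) c -
      eval (H z) (homogeneousComponent s.toNat c)‖ ≤ ε := by
  obtain ⟨S, rfl⟩ : ∃ S : ℕ, s = S := ⟨s.toNat, by omega⟩
  have hS : c.totalDegree ≤ S := by exact_mod_cast hs
  simp only [Int.toNat_natCast]
  set F : ℝ × (Fin n → ℂ) → ℂ := fun p => ∑ k ∈ Finset.range (S + 1),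
    (p.1 : ℂ) ^ (S - k) * eval p.2 (homogeneousComponent k c) with hF
  have hFc : Continuous F := by
    rw [hF]
    refine continuous_finsetSum _ fun k _ => ?_
    refine Continuous.mul (by fun_prop) ?_
    exact (continuous_eval _).comp continuous_snd
  have hF0 : ∀ x, F (0, x) = eval x (homogeneousComponent S c) := by
    intro x
    simp only [hF]
    rw [Finset.sum_eq_single S]
    · simp
    · intro k hk hkS
      have : S - k ≠ 0 := by
        have := Finset.mem_range.1 hk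
        omega
      simp [this]
    · intro h
      exact absurd (Finset.mem_range.2 (Nat.lt_succ_self S)) h
  have hsum : ∀ y, eval y c = ∑ k ∈ Finset.range (S + 1), eval y (homogeneousComponent k c) := by
    intro y
    conv_lhs => rw [← sum_homogeneousComponent c]
    rw [map_sum]
    refine Finset.sum_subset (Finset.range_mono (by omega)) ?_
    intro k _ hk
    rw [homogeneousComponent_eq_zero _ _ (by
      have := mt Finset.mem_range.2 hk
      omega), map_zero]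
  have hhom : ∀ (k : ℕ) (a : ℂ) (x : Fin n → ℂ),
      eval (fun i => a * x i) (homogeneousComponent k c) =
        a ^ k * eval x (homogeneousComponent k c) := by
    intro k a x
    rw [eval_eq', eval_eq', Finset.mul_sum]
    refine Finset.sum_congr rfl fun d hd => ?_
    have hk := (homogeneousComponent_isHomogeneous k c) (mem_support_iff.1 hd)
    have hdeg : ∑ i, d i = k := by
      rw [← hk, Finsupp.weight_apply, Finsupp.sum_fintype _ _ (by simp)]
      simp
    simp only [mul_pow, Finset.prod_mul_distrib, Finset.prod_pow_eq_pow_sum]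
    rw [hdeg]
    ring
  have hFr : ∀ (a : ℝ) (x : Fin n → ℂ), 0 < a →
      ((a : ℝ) : ℂ) ^ (-(S : ℤ)) * eval (fun i => (a : ℂ) * x i) c = F (a⁻¹, x) := by
    intro a x ha
    have ha0 : (a : ℂ) ≠ 0 := by exact_mod_cast ha.ne'
    rw [hsum, Finset.mul_sum]
    simp only [hF]
    refine Finset.sum_congr rfl fun k hk => ?_
    have hkS : k ≤ S := by
      have := Finset.mem_range.1 hk
      omega
    rw [hhom, ← mul_assoc]
    congr 1
    push_cast
    obtain ⟨l, rfl⟩ := Nat.exists_eq_add_of_le hkS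
    rw [Nat.add_sub_cancel_left, zpow_neg, zpow_natCast, pow_add, inv_pow]
    field_simp
  have hK : IsCompact ((Icc (-1 : ℝ) 1) ×ˢ closedBall (0 : Fin n → ℂ) (B + 1)) :=
    isCompact_Icc.prod (isCompact_closedBall _ _)
  have hU := hK.uniformContinuousOn_of_continuous hFc.continuousOn
  rw [Metric.uniformContinuousOn_iff] at hU
  obtain ⟨δ, hδ, hU⟩ := hU ε hε
  set η := min (δ / 2) 1 with hη
  have hη0 : 0 < η := by positivity
  have hr' : Tendsto (fun ν => (r ν)⁻¹) atTop (𝓝 0) := tendsto_inv_atTop_zero.comp hr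
  have e1 : ∀ᶠ ν in atTop, (r ν)⁻¹ < η := hr'.eventually (gt_mem_nhds hη0)
  have e2 : ∀ᶠ ν in atTop, 0 < r ν := hr.eventually_gt_atTop 0
  filter_upwards [e1, e2, hX η hη0] with ν h1 h2 h3 z hz
  rw [hFr _ _ h2, ← hF0 (H z), ← dist_eq_norm]
  have hi : 0 < (r ν)⁻¹ := inv_pos.2 h2
  have hη1 : η ≤ 1 := min_le_right _ _
  have hη2 : η ≤ δ / 2 := min_le_left _ _
  have hXz : ‖X ν z - H z‖ ≤ η := h3 z hz
  have hHz : ‖H z‖ ≤ B := hB z hz
  refine (hU _ ?_ _ ?_ ?_).le
  · refine ⟨⟨by linarith, by linarith⟩, ?_⟩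
    simp only [mem_closedBall, dist_zero_right]
    calc ‖X ν z‖ = ‖(X ν z - H z) + H z‖ := by rw [sub_add_cancel]
      _ ≤ ‖X ν z - H z‖ + ‖H z‖ := norm_add_le _ _
      _ ≤ B + 1 := by linarith
  · refine ⟨⟨by norm_num, by norm_num⟩, ?_⟩
    simp only [mem_closedBall, dist_zero_right]
    linarith
  · rw [Prod.dist_eq]
    refine max_lt ?_ ?_
    · simp only [dist_zero_right, Real.norm_eq_abs]
      rw [abs_of_pos hi]
      linarith
    · simp only [dist_eq_norm]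
      linarith

end Pool.Agent.Lib.MP_209724_lc.GS
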