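import Mathlib
import Pool.Agent.Lib.MP_209724_lc.MV.Branch
import Pool.Agent.Lib.MP_209724_lc.GS.CurveB
import Pool.Agent.Lib.MP_209724_lc.GS.AsmB

/-!
# The core data of a system of exponential equations: assembly
-/

namespace Pool.Agent.Lib.MP_209724_lc.GS

open MvPolynomial Filter Topology Metric Set
open GC (prj cone)

variable {n d : ℕ} {ι : Type} [Fintype ι]

private theorem ball_ofLp {z₀ : Fin d → ℂ} {ρ : ℝ} {t : Ew d}
    (ht : t ∈ ball (WithLp.toLp 2 z₀ : Ew d) ρ) : WithLp.ofLp t ∈ ball z₀ ρ := by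
  rw [mem_ball, dist_eq_norm] at ht ⊢
  refine lt_of_le_of_lt ?_ ht
  rw [pi_norm_le_iff_of_nonneg (norm_nonneg _)]
  intro i
  exact PiLp.norm_apply_le (t - WithLp.toLp 2 z₀) i

private theorem diff_ofLp {z₀ : Fin d → ℂ} {ρ : ℝ} {F : Type} [NormedAddCommGroup F]
    [NormedSpace ℂ F] {K : (Fin d → ℂ) → F} (hK : DifferentiableOn ℂ K (ball z₀ ρ)) {t : Ew d}
    (ht : t ∈ ball (WithLp.toLp 2 z₀ : Ew d) ρ) :
    DifferentiableAt ℂ (fun t : Ew d => K (WithLp.ofLp t)) t := by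
  have h1 : DifferentiableAt ℂ K (WithLp.ofLp t) :=
    hK.differentiableAt (isOpen_ball.mem_nhds (ball_ofLp ht))
  have h2 : DifferentiableAt ℂ (fun t : Ew d => (EuclideanSpace.equiv (Fin d) ℂ) t) t :=
    (EuclideanSpace.equiv (Fin d) ℂ).differentiableAt
  exact DifferentiableAt.comp t h1 h2

private theorem diff_lin (a : Fin n → ℂ) {z₀ : Fin d → ℂ} {ρ : ℝ}
    {K : (Fin d → ℂ) → Fin n → ℂ} (hK : DifferentiableOn ℂ K (ball z₀ ρ)) {t : Ew d}
    (ht : t ∈ ball (WithLp.toLp 2 z₀ : Ew d) ρ) :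
    DifferentiableAt ℂ (fun t : Ew d => ∑ k, a k * K (WithLp.ofLp t) k) t := by
  have h1 := diff_ofLp hK ht
  rw [differentiableAt_pi] at h1
  exact DifferentiableAt.fun_sum fun k _ => (h1 k).const_mul (a k)

private theorem fderiv_lin (a : Fin n → ℂ) {z₀ : Fin d → ℂ} {ρ : ℝ}
    {K : (Fin d → ℂ) → Fin n → ℂ} (hK : DifferentiableOn ℂ K (ball z₀ ρ)) {t : Ew d}
    (ht : t ∈ ball (WithLp.toLp 2 z₀ : Ew d) ρ) (b : Ew d) :
    fderiv ℂ (fun t : Ew d => ∑ k, a k * K (WithLp.ofLp t) k) t b =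
      ∑ k, a k * (fderiv ℂ (fun t : Ew d => K (WithLp.ofLp t)) t b) k := by
  have h1 := (diff_ofLp hK ht).hasFDerivAt
  have h2 := hasFDerivAt_pi'.1 h1
  have h3 : HasFDerivAt (fun t : Ew d => ∑ k, a k * K (WithLp.ofLp t) k)
      (∑ k, a k • ((ContinuousLinearMap.proj k : (Fin n → ℂ) →L[ℂ] ℂ).comp
        (fderiv ℂ (fun t : Ew d => K (WithLp.ofLp t)) t))) t :=
    HasFDerivAt.fun_sum fun k _ => (h2 k).const_mul (a k)
  rw [h3.fderiv]
  simp

private theorem eval_top (P : MvPolynomial ι (MvPolynomial (Fin n) ℂ)) (e : ℤ) (κ : ι → ℤ)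
    (z : Fin n → ℂ) (y : ι → ℂ) : eval y (topPoly P e κ z) =
      ∑ α ∈ P.support, eval z (homogeneousComponent (wgt e κ α).toNat (P.coeff α)) *
        ∏ j, y j ^ α j := by
  rw [topPoly, map_sum]
  refine Finset.sum_congr rfl fun α _ => ?_
  rw [eval_monomial, Finsupp.prod_fintype _ _ (fun j => pow_zero _)]

private theorem scale_smul (P : MvPolynomial ι (MvPolynomial (Fin n) ℂ)) (e : ℤ) (κ : ι → ℤ)
    (r : ℝ) (x : Fin n → ℂ) (y : ι → ℂ) (a : ℂ) {g : ℕ}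
    (hh : ∀ α ∈ P.support, ∑ j, α j = g) :
    scaleEval P e κ r x (a • y) = a ^ g * scaleEval P e κ r x y := by
  unfold scaleEval
  rw [Finset.mul_sum]
  refine Finset.sum_congr rfl fun α hα => ?_
  have h1 : ∏ j, (a • y) j ^ α j = a ^ g * ∏ j, y j ^ α j := by
    rw [← hh α hα, ← Finset.prod_pow_eq_pow_sum, ← Finset.prod_mul_distrib]
    exact Finset.prod_congr rfl fun j _ => by rw [Pi.smul_apply, smul_eq_mul, mul_pow]
  rw [h1]
  ring

private theorem eval_diff {E : Type} [NormedAddCommGroup E] [NormedSpace ℂ E]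
    (y : E → Fin n → ℂ) {ξ : E} (hy : DifferentiableAt ℂ y ξ) (F : MvPolynomial (Fin n) ℂ) :
    DifferentiableAt ℂ (fun ξ => eval (y ξ) F) ξ := by
  have h2 := hasFDerivAt_pi'.1 hy.hasFDerivAt
  exact (hasFDerivAt_aeval (fun j ξ => y ξ j) _ ξ h2 F).differentiableAt

private theorem scale_diff (P : MvPolynomial ι (MvPolynomial (Fin n) ℂ)) (e : ℤ) (κ : ι → ℤ)
    (r : ℝ) {E : Type} [NormedAddCommGroup E] [NormedSpace ℂ E]
    (x : E → Fin n → ℂ) (y : E → ι → ℂ) {ξ : E} (hx : DifferentiableAt ℂ x ξ)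
    (hy : DifferentiableAt ℂ y ξ) :
    DifferentiableAt ℂ (fun ξ => scaleEval P e κ r (x ξ) (y ξ)) ξ := by
  unfold scaleEval
  refine DifferentiableAt.fun_sum fun α _ => ?_
  have h1 : DifferentiableAt ℂ (fun ξ => fun i => (r : ℂ) * x ξ i) ξ := by
    rw [differentiableAt_pi]
    intro i
    exact (differentiableAt_pi.1 hx i).const_mul _
  have h2 : DifferentiableAt ℂ (fun ξ => ∏ j, y ξ j ^ α j) ξ := by
    have h4 := (hasFDerivAt_aeval (fun j ξ => y ξ j) _ ξ (hasFDerivAt_pi'.1 hy.hasFDerivAt)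
      (∏ j, (MvPolynomial.X j : MvPolynomial ι ℂ) ^ α j)).differentiableAt
    simpa only [map_prod, map_pow, aeval_X] using h4
  exact ((eval_diff _ h1 _).const_mul _).mul h2

private theorem prod_bound (y : ι → ℂ) {B : ℝ} (hy : ‖y‖ ≤ B) {α : ι →₀ ℕ} {g : ℕ}
    (hα : ∑ j, α j = g) : ‖∏ j, y j ^ α j‖ ≤ B ^ g := by
  rw [norm_prod, ← hα, ← Finset.prod_pow_eq_pow_sum]
  refine Finset.prod_le_prod (fun j _ => norm_nonneg _) fun j _ => ?_
  rw [norm_pow]
  exact pow_le_pow_left₀ (norm_nonneg _) ((norm_le_pi_norm y j).trans hy) _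

private theorem glim_one (P : MvPolynomial ι (MvPolynomial (Fin n) ℂ)) (e : ℤ) (κ : ι → ℤ)
    {g : ℕ} (hh : ∀ α ∈ P.support, ∑ j, α j = g)
    (hdeg : ∀ α ∈ P.support, ((P.coeff α).totalDegree : ℤ) ≤ wgt e κ α)
    {A : Type} (D : Set A) (r : ℕ → ℝ) (hr : Tendsto r atTop atTop) (X : ℕ → A → Fin n → ℂ)
    (H : A → Fin n → ℂ) {B : ℝ} (hB : ∀ z ∈ D, ‖H z‖ ≤ B)
    (hX : ∀ ε : ℝ, 0 < ε → ∀ᶠ ν in atTop, ∀ z ∈ D, ‖X ν z - H z‖ ≤ ε) {ε : ℝ} (hε : 0 < ε)
    (B' : ℝ) :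
    ∀ᶠ ν in atTop, ∀ z ∈ D, ∀ y : ι → ℂ, ‖y‖ ≤ B' →
      ‖scaleEval P e κ (r ν) (X ν z) y - eval y (topPoly P e κ (H z))‖ ≤ ε := by
  set K : ℝ := (P.support.card + 1) * (|B'| ^ g + 1) with hK
  have hK0 : 0 < K := by positivity
  have h1 : ∀ᶠ ν in atTop, ∀ α ∈ P.support, ∀ z ∈ D,
      ‖((r ν : ℝ) : ℂ) ^ (-wgt e κ α) * eval (fun i => (r ν : ℂ) * X ν z i) (P.coeff α) -
        eval (H z) (homogeneousComponent (wgt e κ α).toNat (P.coeff α))‖ ≤ ε / K := by
    rw [Finset.eventually_all]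
    intro α hα
    exact coeff_limit (P.coeff α) (wgt e κ α) (hdeg α hα) D r hr X H hB hX (div_pos hε hK0)
  filter_upwards [h1] with ν hν z hz y hy
  rw [eval_top, scaleEval, ← Finset.sum_sub_distrib]
  have h2 : ∀ α ∈ P.support,
      ‖((r ν : ℝ) : ℂ) ^ (-wgt e κ α) * eval (fun i => (r ν : ℂ) * X ν z i) (P.coeff α) *
        ∏ j, y j ^ α j - eval (H z) (homogeneousComponent (wgt e κ α).toNat (P.coeff α)) *
        ∏ j, y j ^ α j‖ ≤ ε / K * |B'| ^ g := by
    intro α hα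
    rw [← sub_mul, norm_mul]
    exact mul_le_mul (hν α hα z hz) (prod_bound y (hy.trans (le_abs_self _)) (hh α hα))
      (norm_nonneg _) (div_pos hε hK0).le
  refine (norm_sum_le_of_le _ h2).trans ?_
  rw [Finset.sum_const, nsmul_eq_mul]
  have h3 : (P.support.card : ℝ) * |B'| ^ g ≤ K := by
    rw [hK]
    have h4 : 0 ≤ |B'| ^ g := by positivity
    nlinarith [Nat.cast_nonneg (α := ℝ) P.support.card]
  calc (P.support.card : ℝ) * (ε / K * |B'| ^ g) = ε / K * (P.support.card * |B'| ^ g) := by ring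
    _ ≤ ε / K * K := mul_le_mul_of_nonneg_left h3 (div_pos hε hK0).le
    _ = ε := div_mul_cancel₀ _ hK0.ne'

private theorem ulim_aux (m : ι → Fin n → ℂ) (κ : ι → ℤ) (r : ℕ → ℝ)
    (hr : Tendsto r atTop atTop) {A : Type} (D : Set A) (X : ℕ → A → Fin n → ℂ)
    (H : A → Fin n → ℂ)
    (hX : ∀ ε : ℝ, 0 < ε → ∀ᶠ ν in atTop, ∀ z ∈ D, ‖X ν z - H z‖ ≤ ε) {ε : ℝ} (hε : 0 < ε) :
    ∀ᶠ ν in atTop, ∀ j, ∀ z ∈ D, ‖(∑ k, m j k * X ν z k + κ j * (Real.log (r ν) / r ν : ℝ)) -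
      ∑ k, m j k * H z k‖ ≤ ε := by
  rw [eventually_all]
  intro j
  set K : ℝ := (∑ k, ‖m j k‖) + ‖((κ j : ℤ) : ℂ)‖ + 1 with hK
  have hK1 : 0 ≤ ∑ k, ‖m j k‖ := Finset.sum_nonneg fun k _ => norm_nonneg _
  have hK0 : 0 < K := by positivity
  have h1 : Tendsto (fun ν => Real.log (r ν) / r ν) atTop (𝓝 0) := by
    have h2 : Tendsto (fun x : ℝ => Real.log x / x) atTop (𝓝 0) := by
      have := Real.isLittleO_log_id_atTop.tendsto_div_nhds_zero
      exact this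
    exact h2.comp hr
  have h3 : ∀ᶠ ν in atTop, |Real.log (r ν) / r ν| ≤ ε / K := by
    have h4 := h1.abs
    rw [abs_zero] at h4
    exact h4.eventually_le_const (div_pos hε hK0)
  filter_upwards [h3, hX (ε / K) (div_pos hε hK0)] with ν h4 h5 z hz
  have h6 : (∑ k, m j k * X ν z k + κ j * (Real.log (r ν) / r ν : ℝ)) - ∑ k, m j k * H z k =
      ∑ k, m j k * (X ν z - H z) k + κ j * (Real.log (r ν) / r ν : ℝ) := by
    simp only [Pi.sub_apply, mul_sub, Finset.sum_sub_distrib]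
    ring
  rw [h6]
  have h7 : ‖∑ k, m j k * (X ν z - H z) k‖ ≤ (∑ k, ‖m j k‖) * (ε / K) := by
    rw [Finset.sum_mul]
    refine norm_sum_le_of_le _ fun k _ => ?_
    rw [norm_mul]
    exact mul_le_mul_of_nonneg_left ((norm_le_pi_norm _ k).trans (h5 z hz)) (norm_nonneg _)
  have h8 : ‖(κ j : ℂ) * ((Real.log (r ν) / r ν : ℝ) : ℂ)‖ ≤ ‖((κ j : ℤ) : ℂ)‖ * (ε / K) := by
    rw [norm_mul, Complex.norm_real, Real.norm_eq_abs]
    exact mul_le_mul_of_nonneg_left h4 (norm_nonneg _)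
  refine (norm_add_le _ _).trans ((add_le_add h7 h8).trans ?_)
  have h9 : ε / K * K = ε := div_mul_cancel₀ _ hK0.ne'
  have h10 : 0 ≤ ε / K := (div_pos hε hK0).le
  calc (∑ k, ‖m j k‖) * (ε / K) + ‖((κ j : ℤ) : ℂ)‖ * (ε / K) ≤ ε / K * K := by
        rw [hK]
        nlinarith
    _ = ε := h9

/-- **The core data.** Here `H` is a chart (`prj Z (H z) = z`) with values in the zero set of `q`,
`X ν → H` uniformly, `r ν → ∞`; the system is nondegenerate at all the points `H z`. The points of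
`Ew d` are identified with those of `Fin d → ℂ`; the Euclidean ball is contained in the ball for
the supremum norm. Proof of the fields: `ulim`: `log r / r → 0`; `Gdiff`: `scaleEval` is a
polynomial in `x, Y`; `Ghom`, `Phom`: `∑ j, α j = dg i` on the support; `Glim`: `coeff_limit` for
each of the finitely many `α`; `Pcont`: continuity of `H`; `Xcl`, `Xsm`, `Xy`, `Xt`: the lemmas on
`torus`, and `fderiv (U j) t b = ∑ k, m j k * (DH(t) b) k` (chain rule, `U j = (∑ k, m j k * ·) ∘ H`);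
`nd`: apply `hnd` with the tangent vector `DH(t) b` (differentiate `f (H z) = 0` for `f ∈ q`), then
`DH(t) b = 0` and `b = 0` as `prj Z (H z) = z` (differentiate). -/
theorem coreData_of_family (q : Ideal (MvPolynomial (Fin n) ℂ)) (Z : Fin d → Fin n → ℂ)
    (m : ι → Fin n → ℂ) (κ : ι → ℤ) (e : Fin d → ℤ) (dg : Fin d → ℕ) (hdg : ∀ i, 0 < dg i)
    (P : Fin d → MvPolynomial ι (MvPolynomial (Fin n) ℂ))
    (hhom : ∀ i, ∀ α ∈ (P i).support, ∑ j, α j = dg i)
    (hdeg : ∀ i, ∀ α ∈ (P i).support, (((P i).coeff α).totalDegree : ℤ) ≤ wgt (e i) κ α)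
    (z₀ : Fin d → ℂ) {ρ : ℝ} (hρ : 0 < ρ) (H : (Fin d → ℂ) → Fin n → ℂ)
    (hH : DifferentiableOn ℂ H (ball z₀ ρ)) {B : ℝ} (hHB : ∀ z ∈ ball z₀ ρ, ‖H z‖ ≤ B)
    (hZH : ∀ z ∈ ball z₀ ρ, prj Z (H z) = z)
    (hHq : ∀ z ∈ ball z₀ ρ, ∀ f ∈ q, eval (H z) f = 0)
    (hnd : ∀ z ∈ ball z₀ ρ, ∀ Y ∈ torus m κ, Y ≠ 0 →
      (∀ i, eval Y (topPoly (P i) (e i) κ (H z)) = 0) → ∀ b : Fin n → ℂ,
      (∀ f ∈ q, ∑ k, b k * eval (H z) (pderiv k f) = 0) →
      (∀ j l, Y j ≠ 0 → Y l ≠ 0 → ∑ k, m j k * b k = ∑ k, m l k * b k) → b = 0)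
    (r : ℕ → ℝ) (hr0 : ∀ ν, 0 < r ν) (hr : Tendsto r atTop atTop)
    (X : ℕ → (Fin d → ℂ) → Fin n → ℂ) (hXd : ∀ ν, DifferentiableOn ℂ (X ν) (ball z₀ ρ))
    (hX : ∀ ε : ℝ, 0 < ε → ∀ᶠ ν in atTop, ∀ z ∈ ball z₀ ρ, ‖X ν z - H z‖ ≤ ε) :
    CoreData (WithLp.toLp 2 z₀ : Ew d) ρ dg (torus m κ) r
      (fun ν j t => ∑ k, m j k * X ν (WithLp.ofLp t) k + κ j * (Real.log (r ν) / r ν : ℝ))
      (fun j t => ∑ k, m j k * H (WithLp.ofLp t) k)
      (fun ν i t y => scaleEval (P i) (e i) κ (r ν) (X ν (WithLp.ofLp t)) y)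
      (fun t i => topPoly (P i) (e i) κ (H (WithLp.ofLp t))) := by
  have hHd : ∀ t ∈ ball (WithLp.toLp 2 z₀ : Ew d) ρ,
      HasFDerivAt (fun t : Ew d => H (WithLp.ofLp t))
        (fderiv ℂ (fun t : Ew d => H (WithLp.ofLp t)) t) t :=
    fun t ht => (diff_ofLp hH ht).hasFDerivAt
  refine
    { ρpos := hρ
      dpos := hdg
      Rpos := hr0
      Rlim := hr
      udiff := fun ν j t ht =>
        ((diff_lin (m j) (hXd ν) ht).add_const _).differentiableWithinAt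
      Udiff := fun j t ht => (diff_lin (m j) hH ht).differentiableWithinAt
      ulim := ?_
      Gdiff := ?_
      Ghom := fun ν i t a y => scale_smul (P i) (e i) κ (r ν) _ y a (hhom i)
      Glim := ?_
      Pcont := ?_
      Phom := ?_
      Xcl := isClosed_torus m κ
      Xsm := fun a y hy => torus_smul m κ a y hy
      Xy := fun ν t _ => exp_mem_torus m κ (hr0 ν) (X ν (WithLp.ofLp t))
      Xt := ?_
      nd := ?_ }
  · intro ε hε
    filter_upwards [ulim_aux m κ r hr (ball z₀ ρ) X H hX hε] with ν hν j t ht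
    exact hν j _ (ball_ofLp ht)
  · rintro ν i ⟨t, y⟩ ⟨ht, _⟩
    have h1 : DifferentiableAt ℂ (fun p : Ew d × (ι → ℂ) => X ν (WithLp.ofLp p.1)) (t, y) :=
      DifferentiableAt.comp (g := fun t : Ew d => X ν (WithLp.ofLp t))
        (f := fun p : Ew d × (ι → ℂ) => p.1) (t, y) (diff_ofLp (hXd ν) ht) differentiableAt_fst
    exact (scale_diff (P i) (e i) κ (r ν) _ _ h1 differentiableAt_snd).differentiableWithinAt
  · intro ε hε B'
    rw [eventually_all]
    intro i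
    filter_upwards [glim_one (P i) (e i) κ (hhom i) (hdeg i) (ball z₀ ρ) r hr X H hHB hX hε B']
      with ν hν t ht y hy
    exact hν _ (ball_ofLp ht) y hy
  · intro i
    simp only [eval_top]
    refine continuousOn_finsetSum _ fun α _ => ?_
    refine ContinuousOn.mul ?_ ?_
    · refine (continuous_eval _).comp_continuousOn ?_
      rintro ⟨t, y⟩ ⟨ht, _⟩
      have h1 : ContinuousAt (fun p : Ew d × (ι → ℂ) => H (WithLp.ofLp p.1)) (t, y) :=
        ContinuousAt.comp (f := fun p : Ew d × (ι → ℂ) => p.1)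
          (g := fun t : Ew d => H (WithLp.ofLp t)) (hHd t ht).continuousAt continuousAt_fst
      exact h1.continuousWithinAt
    · exact (continuous_finsetProd _ fun j _ =>
        ((continuous_apply j).comp continuous_snd).pow _).continuousOn
  · intro t i
    rw [topPoly]
    refine IsHomogeneous.sum _ _ _ fun α hα => ?_
    refine isHomogeneous_monomial _ ?_
    rw [Finsupp.degree_eq_sum]
    exact hhom i α hα
  · intro t ht y hy b
    simp only [fderiv_lin _ hH ht]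
    exact torus_mul_exp m κ y hy _
  · intro t ht Y hY hY0 hYe b hb
    have hz := ball_ofLp ht
    have hnb : ball (WithLp.toLp 2 z₀ : Ew d) ρ ∈ 𝓝 t := isOpen_ball.mem_nhds ht
    have hv : (fderiv ℂ (fun t : Ew d => H (WithLp.ofLp t)) t b) = 0 := by
      apply hnd _ hz Y hY hY0 hYe
      · intro f hf
        have h1 : HasFDerivAt (fun t : Ew d => eval (H (WithLp.ofLp t)) f) _ t :=
          hasFDerivAt_aeval (fun j (t : Ew d) => H (WithLp.ofLp t) j) _ t
            (hasFDerivAt_pi'.1 (hHd t ht)) f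
        have h2 : HasFDerivAt (fun t : Ew d => eval (H (WithLp.ofLp t)) f)
            (0 : Ew d →L[ℂ] ℂ) t := by
          refine (hasFDerivAt_const (0 : ℂ) t).congr_of_eventuallyEq ?_
          filter_upwards [hnb] with s hs
          exact hHq _ (ball_ofLp hs) f hf
        have h3 := congrArg (fun L : Ew d →L[ℂ] ℂ => L b) (h1.unique h2)
        simp only [sum_apply, smul_apply, zero_apply, smul_eq_mul] at h3
        rw [← h3]
        exact Finset.sum_congr rfl fun k _ => mul_comm _ _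
      · intro j l hj hl
        have h4 := hb j l hj hl
        rwa [fderiv_lin _ hH ht, fderiv_lin _ hH ht] at h4
    have h5 : HasFDerivAt (fun t : Ew d => WithLp.ofLp t)
        ((EuclideanSpace.equiv (Fin d) ℂ : Ew d →L[ℂ] (Fin d → ℂ))) t :=
      (EuclideanSpace.equiv (Fin d) ℂ).hasFDerivAt
    have h6 : ∀ i : Fin d, ∑ k, Z i k * (fderiv ℂ (fun t : Ew d => H (WithLp.ofLp t)) t b) k =
        WithLp.ofLp b i := by
      intro i
      rw [← fderiv_lin (Z i) hH ht b]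
      have h7 : HasFDerivAt (fun t : Ew d => ∑ k, Z i k * H (WithLp.ofLp t) k)
          ((ContinuousLinearMap.proj i : (Fin d → ℂ) →L[ℂ] ℂ).comp
            (EuclideanSpace.equiv (Fin d) ℂ : Ew d →L[ℂ] (Fin d → ℂ))) t := by
        refine (hasFDerivAt_pi'.1 h5 i).congr_of_eventuallyEq ?_
        filter_upwards [hnb] with s hs
        exact congrFun (hZH _ (ball_ofLp hs)) i
      rw [h7.fderiv]
      rfl
    ext i
    have h8 := h6 i
    rw [hv] at h8
    simp only [Pi.zero_apply, mul_zero, Finset.sum_const_zero] at h8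
    exact h8.symm

end Pool.Agent.Lib.MP_209724_lc.GS
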