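import Mathlib
import Pool.Agent.Lib.MP_209724_lc.MV.CoreA
import Pool.Agent.Lib.MP_209724_lc.GS.Ring

/-!
# Derivatives of charts
-/

namespace Pool.Agent.Lib.MP_209724_lc.GS

open MvPolynomial Filter Topology Metric Set
open GC (prj cone)

variable {n d : ℕ}

/-- the derivative of a linear form of a chart, in Euclidean coordinates -/
theorem fderiv_lin (H : (Fin d → ℂ) → Fin n → ℂ) (m : Fin n → ℂ) (t : Ew d)
    (hH : DifferentiableAt ℂ H (WithLp.ofLp t)) (b : Ew d) :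
    fderiv ℂ (fun t : Ew d => ∑ k, m k * H (WithLp.ofLp t) k) t b =
      ∑ k, m k * fderiv ℂ H (WithLp.ofLp t) (WithLp.ofLp b) k := by
  set e : Ew d →L[ℂ] (Fin d → ℂ) := (EuclideanSpace.equiv (Fin d) ℂ : Ew d →L[ℂ] (Fin d → ℂ)) with he
  have h0 : HasFDerivAt (fun t : Ew d => (WithLp.ofLp t : Fin d → ℂ)) e t := e.hasFDerivAt
  have h1 : HasFDerivAt (fun t : Ew d => H (WithLp.ofLp t))
      ((fderiv ℂ H (WithLp.ofLp t)).comp e) t := hH.hasFDerivAt.comp t h0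
  set L : (Fin n → ℂ) →L[ℂ] ℂ := ∑ k, m k • (ContinuousLinearMap.proj k : (Fin n → ℂ) →L[ℂ] ℂ)
    with hL
  have hLa : ∀ x, L x = ∑ k, m k * x k := by
    intro x
    rw [hL]
    simp only [sum_apply, smul_apply, smul_eq_mul]
    rfl
  have h2 : HasFDerivAt (fun t : Ew d => ∑ k, m k * H (WithLp.ofLp t) k)
      (L.comp ((fderiv ℂ H (WithLp.ofLp t)).comp e)) t := by
    have h3 := (L.hasFDerivAt (x := H (WithLp.ofLp t))).comp t h1
    refine h3.congr_of_eventuallyEq (Eventually.of_forall fun t' => ?_)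
    exact (hLa _).symm
  rw [h2.fderiv]
  exact hLa _

/-- derivatives of a chart are tangent vectors -/
theorem chart_tangent (q : Ideal (MvPolynomial (Fin n) ℂ)) (H : (Fin d → ℂ) → Fin n → ℂ)
    {z₀ : Fin d → ℂ} {ρ : ℝ} (hH : DifferentiableOn ℂ H (ball z₀ ρ))
    (hHq : ∀ z ∈ ball z₀ ρ, ∀ f ∈ q, eval (H z) f = 0) {z : Fin d → ℂ} (hz : z ∈ ball z₀ ρ)
    (v : Fin d → ℂ) {f : MvPolynomial (Fin n) ℂ} (hf : f ∈ q) :
    ∑ k, fderiv ℂ H z v k * eval (H z) (pderiv k f) = 0 := by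
  have h0 : HasFDerivAt H (fderiv ℂ H z) z :=
    (hH.differentiableAt (isOpen_ball.mem_nhds hz)).hasFDerivAt
  have h1 : ∀ k, HasFDerivAt (fun z => H z k)
      ((ContinuousLinearMap.proj k : (Fin n → ℂ) →L[ℂ] ℂ).comp (fderiv ℂ H z)) z := fun k =>
    (ContinuousLinearMap.proj k : (Fin n → ℂ) →L[ℂ] ℂ).hasFDerivAt.comp z h0
  have h2 := hasFDerivAt_aeval (fun k z => H z k) _ z h1 f
  have h3 : HasFDerivAt (fun z => aeval (fun k => H z k) f) (0 : (Fin d → ℂ) →L[ℂ] ℂ) z := by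
    refine (hasFDerivAt_const (0 : ℂ) z).congr_of_eventuallyEq ?_
    filter_upwards [isOpen_ball.mem_nhds hz] with z' hz'
    exact hHq z' hz' f hf
  have h4 := congrArg (fun L => L v) (h2.unique h3)
  simp only [sum_apply, smul_apply, smul_eq_mul, zero_apply] at h4
  rw [← h4]
  refine Finset.sum_congr rfl fun k _ => ?_
  rw [mul_comm]
  rfl

/-- the derivative of a chart is injective -/
theorem chart_injective (Z : Fin d → Fin n → ℂ) (H : (Fin d → ℂ) → Fin n → ℂ)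
    {z₀ : Fin d → ℂ} {ρ : ℝ} (hH : DifferentiableOn ℂ H (ball z₀ ρ))
    (hZH : ∀ z ∈ ball z₀ ρ, prj Z (H z) = z) {z : Fin d → ℂ} (hz : z ∈ ball z₀ ρ)
    (v : Fin d → ℂ) (hv : fderiv ℂ H z v = 0) : v = 0 := by
  have h0 : HasFDerivAt H (fderiv ℂ H z) z :=
    (hH.differentiableAt (isOpen_ball.mem_nhds hz)).hasFDerivAt
  have h1 : HasFDerivAt (fun z => GC.chartPrjL Z (H z)) ((GC.chartPrjL Z).comp (fderiv ℂ H z)) z :=
    (GC.chartPrjL Z).hasFDerivAt.comp z h0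
  have h2 : HasFDerivAt (fun z => GC.chartPrjL Z (H z)) (ContinuousLinearMap.id ℂ (Fin d → ℂ)) z := by
    refine (hasFDerivAt_id z).congr_of_eventuallyEq ?_
    filter_upwards [isOpen_ball.mem_nhds hz] with z' hz'
    rw [GC.chartPrjL_apply, hZH z' hz']
    rfl
  have h3 := congrArg (fun L => L v) (h1.unique h2)
  simp only [ContinuousLinearMap.comp_apply, hv, map_zero, ContinuousLinearMap.id_apply] at h3
  exact h3.symm

end Pool.Agent.Lib.MP_209724_lc.GS
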