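import Mathlib
import Pool.Agent.Lib.MP_209724_lc.MV.CoreA

/-!
# Charts
-/

namespace Pool.Agent.Lib.MP_209724_lc.GS

open MvPolynomial Filter Topology Metric Set
open GC (prj)

/-- As `GC.exists_chart` in `GC/Chart.lean`, without the rational structure. Either repeat its proof,
or apply it: by `hZ` the linear map `b ↦ (prj Z b, (∑ i, b i * ∂_i F_l(w))_l)` from `ℂ^n` to
`ℂ^d × ℂ^k` is injective, hence bijective, so the vectors `(∂_i F_l(w))_l ∈ ℂ^k`, `i ∈ Fin n`, span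
`ℂ^k`, so there is `σ : Fin k → Fin n` such that the matrix `(∂_{σ j} F_l(w))` is invertible; take
`a i j = if i = σ j then 1 else 0`. -/
theorem exists_chart2 {n d k : ℕ} (hdk : d + k = n) (S : Set (Fin n → ℂ)) (w : Fin n → ℂ)
    (hw : w ∈ S) (F : Fin k → MvPolynomial (Fin n) ℂ)
    (hFS : ∀ l, ∀ w' ∈ S, eval w' (F l) = 0) (Z : Fin d → Fin n → ℂ)
    (hZ : ∀ b : Fin n → ℂ, (∀ l, ∑ i, b i * eval w (pderiv i (F l)) = 0) → prj Z b = 0 → b = 0) :
    ∃ (H : (Fin d → ℂ) → Fin n → ℂ) (ρ₁ r₀ ρ : ℝ), 0 < ρ ∧ ρ ≤ ρ₁ ∧ 0 < r₀ ∧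
      ContDiffOn ℂ 1 H (ball (prj Z w) ρ₁) ∧ H (prj Z w) = w ∧
      (∀ z ∈ ball (prj Z w) ρ₁, prj Z (H z) = z) ∧
      (∀ w' : Fin n → ℂ, ‖w' - w‖ ≤ r₀ → prj Z w' ∈ ball (prj Z w) ρ₁) ∧
      (∀ w' ∈ S, ‖w' - w‖ ≤ r₀ → w' = H (prj Z w')) ∧
      ∀ z ∈ ball (prj Z w) ρ, ‖H z - w‖ < r₀ / 2 := by
  classical
  -- the derivative at `w` is invertible
  have hinj : Function.Injective
      (GC.chartD Z F w : (Fin n → ℂ) →ₗ[ℂ] (Fin d → ℂ) × (Fin k → ℂ)) := by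
    rw [injective_iff_map_eq_zero]
    intro b hb
    have hb' : GC.chartD Z F w b = 0 := hb
    rw [GC.chartD_apply] at hb'
    have h1 : prj Z b = 0 := congrArg Prod.fst hb'
    have h2 : (fun l => ∑ i, b i * eval w (pderiv i (F l))) = 0 := congrArg Prod.snd hb'
    exact hZ b (fun l => congrFun h2 l) h1
  have hdim : Module.finrank ℂ (Fin n → ℂ) = Module.finrank ℂ ((Fin d → ℂ) × (Fin k → ℂ)) := by
    rw [Module.finrank_prod, Module.finrank_fin_fun, Module.finrank_fin_fun,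
      Module.finrank_fin_fun, hdk]
  let f' : (Fin n → ℂ) ≃L[ℂ] (Fin d → ℂ) × (Fin k → ℂ) :=
    (LinearMap.linearEquivOfInjective
      (GC.chartD Z F w : (Fin n → ℂ) →ₗ[ℂ] (Fin d → ℂ) × (Fin k → ℂ))
      hinj hdim).toContinuousLinearEquiv
  have hf' : (f' : (Fin n → ℂ) →L[ℂ] (Fin d → ℂ) × (Fin k → ℂ)) = GC.chartD Z F w := by
    ext1 b
    rfl
  have hder : HasFDerivAt (GC.chartPhi Z F)
      (f' : (Fin n → ℂ) →L[ℂ] (Fin d → ℂ) × (Fin k → ℂ)) w := by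
    rw [hf']
    exact GC.chartPhi_hasFDerivAt Z F w
  have hcd : ContDiffAt ℂ 1 (GC.chartPhi Z F) w := (GC.chartPhi_contDiff Z F).contDiffAt
  let P := hcd.toOpenPartialHomeomorph (GC.chartPhi Z F) hder one_ne_zero
  have hPcoe : ∀ x, P x = GC.chartPhi Z F x := fun x => rfl
  have hwS : w ∈ P.source := hcd.mem_toOpenPartialHomeomorph_source hder one_ne_zero
  have hwT : GC.chartPhi Z F w ∈ P.target :=
    hcd.image_mem_toOpenPartialHomeomorph_target hder one_ne_zero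
  have hΨ : ContDiffAt ℂ 1 P.symm (GC.chartPhi Z F w) := hcd.to_localInverse hder one_ne_zero
  have hΨev : ∀ᶠ y in 𝓝 (GC.chartPhi Z F w), ContDiffAt ℂ 1 P.symm y := hΨ.eventually (by simp)
  have hΦw : GC.chartPhi Z F w = (prj Z w, 0) := by
    refine Prod.ext rfl ?_
    funext l
    exact hFS l w hw
  -- the slice
  let ι : (Fin d → ℂ) → (Fin d → ℂ) × (Fin k → ℂ) := fun z => (z, 0)
  have hιc : Continuous ι := by fun_prop
  have hιd : ContDiff ℂ 1 ι := contDiff_id.prodMk contDiff_const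
  have hN : ∀ᶠ z in 𝓝 (prj Z w), ι z ∈ P.target ∧ ContDiffAt ℂ 1 P.symm (ι z) := by
    have h1 : Tendsto ι (𝓝 (prj Z w)) (𝓝 (GC.chartPhi Z F w)) := by
      rw [hΦw]
      exact hιc.tendsto _
    exact h1.eventually ((P.open_target.eventually_mem hwT).and hΨev)
  obtain ⟨ρ₁, hρ₁, hball⟩ := Metric.mem_nhds_iff.mp hN
  let H : (Fin d → ℂ) → Fin n → ℂ := fun z => P.symm (ι z)
  have hHd : ∀ z ∈ ball (prj Z w) ρ₁, ContDiffAt ℂ 1 H z := by
    intro z hz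
    exact (hball hz).2.comp z hιd.contDiffAt
  have hHw : H (prj Z w) = w := by
    have h1 : H (prj Z w) = P.symm (P w) := by
      rw [hPcoe, hΦw]
    rw [h1, P.left_inv hwS]
  have hΦH : ∀ z ∈ ball (prj Z w) ρ₁, GC.chartPhi Z F (H z) = ι z := by
    intro z hz
    rw [← hPcoe]
    exact P.right_inv (hball hz).1
  -- the radius r₀
  have hr : ∀ᶠ w' in 𝓝 w, w' ∈ P.source ∧ prj Z w' ∈ ball (prj Z w) ρ₁ :=
    (P.open_source.eventually_mem hwS).and
      ((GC.continuous_prj Z).continuousAt.eventually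
        (isOpen_ball.eventually_mem (mem_ball_self hρ₁)))
  obtain ⟨r₀, hr₀, hr₀b⟩ := Metric.nhds_basis_closedBall.mem_iff.mp hr
  have hmemr : ∀ w' : Fin n → ℂ, ‖w' - w‖ ≤ r₀ → w' ∈ closedBall w r₀ := by
    intro w' h
    rw [mem_closedBall, dist_eq_norm]
    exact h
  have hHc : ContinuousAt H (prj Z w) := (hHd _ (mem_ball_self hρ₁)).continuousAt
  have hρev : ∀ᶠ z in 𝓝 (prj Z w), ‖H z - w‖ < r₀ / 2 := by
    have h1 : ∀ᶠ y in 𝓝 (H (prj Z w)), ‖y - w‖ < r₀ / 2 := by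
      rw [hHw]
      have := ball_mem_nhds w (half_pos hr₀)
      filter_upwards [this] with y hy
      rwa [mem_ball, dist_eq_norm] at hy
    exact hHc.eventually h1
  obtain ⟨ρ₂, hρ₂, hρ₂b⟩ := Metric.mem_nhds_iff.mp hρev
  refine ⟨H, ρ₁, r₀, min ρ₁ ρ₂, lt_min hρ₁ hρ₂, min_le_left _ _, hr₀, ?_, hHw, ?_, ?_, ?_, ?_⟩
  · intro z hz
    exact (hHd z hz).contDiffWithinAt
  · intro z hz
    exact congrArg Prod.fst (hΦH z hz)
  · intro w' hw'
    exact (hr₀b (hmemr w' hw')).2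
  · intro w' hw'S hw'
    have h1 : w' ∈ P.source := (hr₀b (hmemr w' hw')).1
    have h2 : GC.chartPhi Z F w' = ι (prj Z w') := by
      refine Prod.ext rfl ?_
      funext l
      exact hFS l w' hw'S
    change w' = P.symm (ι (prj Z w'))
    rw [← h2, ← hPcoe, P.left_inv h1]
  · intro z hz
    exact hρ₂b (ball_subset_ball (min_le_right _ _) hz)

end Pool.Agent.Lib.MP_209724_lc.GS
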