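import Mathlib
import Pool.Agent.Lib.MP_209724_lc.GS.CurveB
import Pool.Agent.Lib.MP_209724_lc.GS.QLin
import Pool.Agent.Lib.MP_209724_lc.GS.Comp

/-!
# The analytic core
-/

namespace Pool.Agent.Lib.MP_209724_lc.GS

open Filter Topology Metric Set MvPolynomial

variable {w : ℕ} {ι : Type} [Fintype ι] {t₀ : Ew w} {ρ : ℝ} {dg : Fin w → ℕ}
    {𝒳 : Set (ι → ℂ)} {R : ℕ → ℝ} {u : ℕ → ι → Ew w → ℂ} {U : ι → Ew w → ℂ}
    {G : ℕ → Fin w → Ew w → (ι → ℂ) → ℂ} {P : Ew w → Fin w → MvPolynomial ι ℂ}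

theorem yh_norm_le (R : ℕ → ℝ) (u : ℕ → ι → Ew w → ℂ) (ν : ℕ) (t : Ew w) :
    ‖yh R u ν t‖ ≤ 1 := by
  rw [yh, norm_smul, Complex.norm_real, norm_inv, norm_norm]
  exact inv_mul_le_one

theorem yv_pos [Nonempty ι] (R : ℕ → ℝ) (u : ℕ → ι → Ew w → ℂ) (ν : ℕ) (t : Ew w) :
    0 < ‖yv R u ν t‖ := by
  obtain ⟨j⟩ := ‹Nonempty ι›
  refine lt_of_lt_of_le ?_ (norm_le_pi_norm (yv R u ν t) j)
  rw [yv, Complex.norm_exp]
  exact Real.exp_pos _

theorem yv_eq [Nonempty ι] (R : ℕ → ℝ) (u : ℕ → ι → Ew w → ℂ) (ν : ℕ) (t : Ew w) :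
    yv R u ν t = ((‖yv R u ν t‖ : ℝ) : ℂ) • yh R u ν t := by
  have h := (yv_pos R u ν t).ne'
  rw [yh, smul_smul, ← Complex.ofReal_mul, mul_inv_cancel₀ h, Complex.ofReal_one, one_smul]

/-- an upper bound: by `Glim` for `B = 1` and the boundedness of `eval y (P t i)` on the compact set
`closedBall t₀ s ×ˢ closedBall 0 1` (`Pcont`). -/
theorem CoreData.upper_bound (h : CoreData t₀ ρ dg 𝒳 R u U G P) {s : ℝ} (hs : s < ρ) :
    ∃ C : ℝ, 1 ≤ C ∧ ∀ᶠ ν in atTop, ∀ t ∈ closedBall t₀ s, ∀ i, ‖G ν i t (yh R u ν t)‖ ≤ C := by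
  have hsub : closedBall t₀ s ⊆ ball t₀ ρ := closedBall_subset_ball hs
  have hK : IsCompact (closedBall t₀ s ×ˢ closedBall (0 : ι → ℂ) 1) :=
    (isCompact_closedBall _ _).prod (isCompact_closedBall _ _)
  have h1 : ∀ i, ∃ C : ℝ, ∀ p ∈ closedBall t₀ s ×ˢ closedBall (0 : ι → ℂ) 1,
      ‖eval p.2 (P p.1 i)‖ ≤ C := fun i =>
    hK.exists_bound_of_continuousOn ((h.Pcont i).mono (prod_mono hsub (subset_univ _)))
  choose C hC using h1
  refine ⟨1 + ∑ i, |C i|, by linarith [Finset.sum_nonneg fun i (_ : i ∈ Finset.univ) => abs_nonneg (C i)],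
    ?_⟩
  filter_upwards [h.Glim 1 one_pos 1] with ν hν t ht i
  have h2 := hν i t (hsub ht) _ (yh_norm_le R u ν t)
  have h3 := hC i (t, yh R u ν t) ⟨ht, by
    rw [mem_closedBall, dist_zero_right]; exact yh_norm_le R u ν t⟩
  have h4 : |C i| ≤ ∑ i, |C i| :=
    Finset.single_le_sum (f := fun i => |C i|) (fun j _ => abs_nonneg _) (Finset.mem_univ i)
  have h5 := le_abs_self (C i)
  have h6 : ‖G ν i t (yh R u ν t)‖ ≤ ‖G ν i t (yh R u ν t) - eval (yh R u ν t) (P t i)‖ +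
      ‖eval (yh R u ν t) (P t i)‖ := norm_le_norm_sub_add _ _
  simp only at h3
  linarith

/-- If for infinitely many `ν` there is no zero, there is a contradiction: the case that there is no
zero for any `ν`.

Proof. Let `Γ = {j | ∀ l, Re U_l(t₀) ≤ Re U_j(t₀)}`, nonempty. Take `s, q, η` from `exists_q`, `κ` from
`lower_bound` (we may assume `κ ≤ 1`) and `C` from `upper_bound` for this `s`. Let
`D = ∏ i, dg i`, `e_i = D / dg i` (so `dg i * e_i = D`, `0 < e_i ≤ D`), and for `ν` large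
`F(t) = (G ν i t (yv R u ν t) ^ e_i)_i : Ew w`, `p(t) = exp(D R_ν q(t))`; both are holomorphic on
`ball t₀ ρ` and `F` has no zeros there. As `yv = ‖yv‖ • yh` and by `Ghom`,
`‖G ν i t (yv t) ^ e_i‖ = ‖yv t‖ ^ D * ‖G ν i t (yh t)‖ ^ e_i`, so
`κ ^ D ‖yv t‖ ^ D ≤ ‖F t‖ ≤ w C ^ D ‖yv t‖ ^ D` on `closedBall t₀ s`. `maximality` for
`K = closedBall t₀ s` and `x0 = t₀` gives `t` with `‖t - t₀‖ = s` and `‖p t₀‖ ‖F t‖ ≤ ‖p t‖ ‖F t₀‖`,
i.e. (`q t₀ = 0`) `κ ^ D ‖yv t‖ ^ D ≤ w C ^ D exp(D R Re q(t)) ‖yv t₀‖ ^ D`. By `exists_q` there is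
`j ∈ Γ` with `η + Re q(t) ≤ Re U_j(t) - Re U_j(t₀)`. For `ν` large (`ulim` with `η/4`)
`‖yv t‖ ≥ |yv_j(t)| ≥ exp(R (Re U_j(t) - η/4))` and
`‖yv t₀‖ ≤ exp(R (Re U_j(t₀) + η/4))` (`j ∈ Γ`). Together
`κ ^ D exp(D R η / 2) ≤ w C ^ D`, a contradiction for `ν` large. (If `w = 0`, `hno` is absurd.) -/
theorem CoreData.false_of_no_zero [Nonempty ι] (h : CoreData t₀ ρ dg 𝒳 R u U G P)
    (hact : ∀ b : Ew w, (∀ j l, (∀ i, (U i t₀).re ≤ (U j t₀).re) →
      (∀ i, (U i t₀).re ≤ (U l t₀).re) → fderiv ℂ (U j) t₀ b = fderiv ℂ (U l) t₀ b) → b = 0)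
    (hno : ∀ ν, ∀ t ∈ ball t₀ ρ, ∃ i, G ν i t (yv R u ν t) ≠ 0) : False := by
  classical
  -- `Γ`
  obtain ⟨j0, -, hj0⟩ := Finset.exists_max_image Finset.univ (fun j => (U j t₀).re)
    Finset.univ_nonempty
  set Γ : Finset ι := Finset.univ.filter fun j => ∀ l, (U l t₀).re ≤ (U j t₀).re with hΓ
  have hΓne : Γ.Nonempty := ⟨j0, by
    rw [hΓ, Finset.mem_filter]
    exact ⟨Finset.mem_univ _, fun l => hj0 l (Finset.mem_univ _)⟩⟩
  have hΓm : ∀ j ∈ Γ, ∀ l, (U l t₀).re ≤ (U j t₀).re := fun j hj => (Finset.mem_filter.1 hj).2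
  obtain ⟨s, hs0, hsρ, q, hqd, hq0, η, hη, hq⟩ := exists_q U h.ρpos h.Udiff Γ hΓne
    (fun b hb => hact b fun j l hj hl => hb j (Finset.mem_filter.2 ⟨Finset.mem_univ _, hj⟩) l
      (Finset.mem_filter.2 ⟨Finset.mem_univ _, hl⟩))
  obtain ⟨κ', hκ', hlow'⟩ := h.lower_bound hno hsρ
  obtain ⟨C, hC1, hup⟩ := h.upper_bound hsρ
  -- `κ ≤ 1`
  obtain ⟨κ, hκ, hκ1, hlow⟩ : ∃ κ : ℝ, 0 < κ ∧ κ ≤ 1 ∧ ∀ᶠ ν in atTop, ∀ t ∈ closedBall t₀ s, ∃ i,
      κ ≤ ‖G ν i t (yh R u ν t)‖ :=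
    ⟨min κ' 1, lt_min hκ' one_pos, min_le_right _ _, by
      filter_upwards [hlow'] with ν hν t ht
      obtain ⟨i, hi⟩ := hν t ht
      exact ⟨i, (min_le_left _ _).trans hi⟩⟩
  -- exponents
  set D : ℕ := ∏ i, dg i with hD
  have hDpos : 0 < D := Finset.prod_pos fun i _ => h.dpos i
  set e : Fin w → ℕ := fun i => D / dg i with he
  have hde : ∀ i, dg i * e i = D := fun i =>
    Nat.mul_div_cancel' (Finset.dvd_prod_of_mem _ (Finset.mem_univ i))
  have hepos : ∀ i, 0 < e i := fun i => by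
    rcases Nat.eq_zero_or_pos (e i) with h0 | h0
    · have := hde i
      rw [h0, mul_zero] at this
      omega
    · exact h0
  have hele : ∀ i, e i ≤ D := fun i => Nat.div_le_self _ _
  have hsub : closedBall t₀ s ⊆ ball t₀ ρ := closedBall_subset_ball hsρ
  have ht₀ : t₀ ∈ closedBall t₀ s := mem_closedBall_self hs0.le
  -- `R` large
  have hRbig : ∀ᶠ ν in atTop, Real.log (w * C ^ D / κ ^ D + 1) / (D * (η / 2)) < R ν :=
    h.Rlim.eventually_gt_atTop _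
  obtain ⟨ν, hlowν, hupν, huν, hRν⟩ := (hlow.and (hup.and ((h.ulim (η / 4) (by positivity)).and
    hRbig))).exists
  -- the functions
  set F : Ew w → Ew w := fun t => WithLp.toLp 2 fun i => G ν i t (yv R u ν t) ^ e i with hF
  set p : Ew w → ℂ := fun t => Complex.exp ((D : ℂ) * (R ν : ℂ) * q t) with hp
  have hyd : DifferentiableOn ℂ (fun t => yv R u ν t) (ball t₀ ρ) := by
    rw [differentiableOn_pi]
    intro j
    exact ((h.udiff ν j).const_mul (R ν : ℂ)).cexp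
  have hGd : ∀ i, DifferentiableOn ℂ (fun t => G ν i t (yv R u ν t)) (ball t₀ ρ) := fun i =>
    (h.Gdiff ν i).comp (g := fun p : Ew w × (ι → ℂ) => G ν i p.1 p.2)
      (f := fun t => (t, yv R u ν t)) (differentiableOn_id.prodMk hyd)
      fun t ht => ⟨ht, mem_univ _⟩
  have hFd : DifferentiableOn ℂ F (ball t₀ ρ) := by
    rw [hF]
    rw [differentiableOn_euclidean]
    intro i
    exact (hGd i).pow _
  have hpd : DifferentiableOn ℂ p (ball t₀ ρ) := (hqd.const_mul _).cexp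
  have hFne : ∀ x ∈ closedBall t₀ s, F x ≠ 0 := by
    intro x hx h0
    obtain ⟨i, hi⟩ := hno ν x (hsub hx)
    have h1 : F x i = 0 := by rw [h0]; rfl
    exact pow_ne_zero _ hi h1
  obtain ⟨t, htf, hmax⟩ := maximality isOpen_ball (isCompact_closedBall t₀ s) hsub hFd hpd hFne
    ht₀
  have hts : ‖t - t₀‖ = s := by
    have h1 := frontier_closedBall_subset_sphere htf
    rwa [mem_sphere, dist_eq_norm] at h1
  have htc : t ∈ closedBall t₀ s := by
    rw [mem_closedBall, dist_eq_norm, hts]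
  -- sizes of the components
  have hcomp : ∀ (i : Fin w) (x : Ew w), ‖F x i‖ = ‖yv R u ν x‖ ^ D * ‖G ν i x (yh R u ν x)‖ ^ e i := by
    intro i x
    have h1 : F x i = G ν i x (yv R u ν x) ^ e i := rfl
    rw [h1, norm_pow, yv_eq R u ν x, h.Ghom, norm_mul, norm_pow, mul_pow, ← pow_mul, hde,
      Complex.norm_real, norm_norm, ← yv_eq]
  have hFlow : κ ^ D * ‖yv R u ν t‖ ^ D ≤ ‖F t‖ := by
    obtain ⟨i, hi⟩ := hlowν t htc
    have h1 : ‖F t i‖ ≤ ‖F t‖ := PiLp.norm_apply_le _ i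
    refine le_trans ?_ h1
    rw [hcomp, mul_comm]
    refine mul_le_mul_of_nonneg_left ?_ (by positivity)
    calc κ ^ D ≤ κ ^ e i := pow_le_pow_of_le_one hκ.le hκ1 (hele i)
      _ ≤ _ := pow_le_pow_left₀ hκ.le hi _
  have hFup : ‖F t₀‖ ≤ w * (C ^ D * ‖yv R u ν t₀‖ ^ D) := by
    have h1 : ‖F t₀‖ ≤ ∑ i, ‖F t₀ i‖ := by
      rw [EuclideanSpace.norm_eq]
      rw [Real.sqrt_le_left (Finset.sum_nonneg fun i _ => norm_nonneg _)]
      exact Finset.sum_sq_le_sq_sum_of_nonneg fun i _ => norm_nonneg _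
    refine h1.trans ?_
    have h2 : ∀ i ∈ (Finset.univ : Finset (Fin w)), ‖F t₀ i‖ ≤ C ^ D * ‖yv R u ν t₀‖ ^ D := by
      intro i _
      rw [hcomp, mul_comm]
      refine mul_le_mul_of_nonneg_right ?_ (by positivity)
      calc ‖G ν i t₀ (yh R u ν t₀)‖ ^ e i ≤ C ^ e i :=
            pow_le_pow_left₀ (norm_nonneg _) (hupν t₀ ht₀ i) _
        _ ≤ C ^ D := pow_le_pow_right₀ hC1 (hele i)
    have h3 := Finset.sum_le_card_nsmul _ _ _ h2
    rwa [Finset.card_univ, Fintype.card_fin, nsmul_eq_mul] at h3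
  -- the sizes of `p`
  have hp0 : ‖p t₀‖ = 1 := by
    simp only [hp, hq0, mul_zero, Complex.exp_zero, norm_one]
  have hpt : ‖p t‖ = Real.exp (D * R ν * (q t).re) := by
    simp only [hp]
    rw [Complex.norm_exp]
    congr 1
    rw [← Complex.ofReal_natCast, ← Complex.ofReal_mul, Complex.re_ofReal_mul]
  rw [hp0, one_mul, hpt] at hmax
  obtain ⟨j, hj, hjη⟩ := hq t hts
  have hRpos := h.Rpos ν
  have hyt : Real.exp (R ν * ((U j t).re - η / 4)) ≤ ‖yv R u ν t‖ := by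
    refine le_trans ?_ (norm_le_pi_norm (yv R u ν t) j)
    rw [yv, Complex.norm_exp, Complex.re_ofReal_mul]
    apply Real.exp_le_exp.2
    refine mul_le_mul_of_nonneg_left ?_ hRpos.le
    have h1 := huν j t (hsub htc)
    have h2 := (Complex.abs_re_le_norm (u ν j t - U j t)).trans h1
    rw [Complex.sub_re] at h2
    linarith [(abs_le.1 h2).1]
  have hyt₀ : ‖yv R u ν t₀‖ ≤ Real.exp (R ν * ((U j t₀).re + η / 4)) := by
    rw [pi_norm_le_iff_of_nonneg (Real.exp_pos _).le]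
    intro l
    rw [yv, Complex.norm_exp, Complex.re_ofReal_mul]
    apply Real.exp_le_exp.2
    refine mul_le_mul_of_nonneg_left ?_ hRpos.le
    have h1 := huν l t₀ (hsub ht₀)
    have h2 := (Complex.abs_re_le_norm (u ν l t₀ - U l t₀)).trans h1
    rw [Complex.sub_re] at h2
    linarith [(abs_le.1 h2).2, hΓm j hj l]
  -- conclusion
  have h1 : κ ^ D * Real.exp (D * (R ν * ((U j t).re - η / 4))) ≤
      Real.exp (D * R ν * (q t).re) * (w * (C ^ D * Real.exp (D * (R ν * ((U j t₀).re + η / 4))))) := by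
    calc κ ^ D * Real.exp (D * (R ν * ((U j t).re - η / 4)))
        = κ ^ D * Real.exp (R ν * ((U j t).re - η / 4)) ^ D := by rw [Real.exp_nat_mul]
      _ ≤ κ ^ D * ‖yv R u ν t‖ ^ D := by gcongr
      _ ≤ ‖F t‖ := hFlow
      _ ≤ _ := hmax
      _ ≤ Real.exp (D * R ν * (q t).re) * (w * (C ^ D * ‖yv R u ν t₀‖ ^ D)) := by gcongr
      _ ≤ Real.exp (D * R ν * (q t).re) * (w * (C ^ D *
          Real.exp (R ν * ((U j t₀).re + η / 4)) ^ D)) := by gcongr
      _ = _ := by rw [Real.exp_nat_mul]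
  have h2 : κ ^ D * Real.exp (D * R ν * (η / 2)) ≤ w * C ^ D := by
    have e1 : Real.exp (D * (R ν * ((U j t).re - η / 4))) =
        Real.exp (D * R ν * (η / 2)) * Real.exp (D * R ν * ((U j t).re - 3 * η / 4)) := by
      rw [← Real.exp_add]
      congr 1
      ring
    have e2 : Real.exp (D * R ν * (q t).re) * (w * (C ^ D *
        Real.exp (D * (R ν * ((U j t₀).re + η / 4))))) =
        (w * C ^ D) * Real.exp (D * R ν * ((q t).re + (U j t₀).re + η / 4)) := by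
      have : Real.exp (D * R ν * ((q t).re + (U j t₀).re + η / 4)) =
          Real.exp (D * R ν * (q t).re) * Real.exp (D * (R ν * ((U j t₀).re + η / 4))) := by
        rw [← Real.exp_add]
        congr 1
        ring
      rw [this]
      ring
    rw [e1, e2] at h1
    have e3 : Real.exp (D * R ν * ((q t).re + (U j t₀).re + η / 4)) ≤
        Real.exp (D * R ν * ((U j t).re - 3 * η / 4)) := by
      apply Real.exp_le_exp.2
      refine mul_le_mul_of_nonneg_left ?_ (by positivity)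
      linarith
    have e4 : 0 < Real.exp (D * R ν * ((U j t).re - 3 * η / 4)) := Real.exp_pos _
    refine le_of_mul_le_mul_right ?_ e4
    calc κ ^ D * Real.exp (D * R ν * (η / 2)) * Real.exp (D * R ν * ((U j t).re - 3 * η / 4))
        = κ ^ D * (Real.exp (D * R ν * (η / 2)) *
          Real.exp (D * R ν * ((U j t).re - 3 * η / 4))) := by ring
      _ ≤ _ := h1
      _ ≤ _ := mul_le_mul_of_nonneg_left e3 (by positivity)
  have h3 : Real.exp (D * R ν * (η / 2)) ≤ w * C ^ D / κ ^ D := by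
    rw [le_div_iff₀ (by positivity), mul_comm]
    exact h2
  have hDR : (0 : ℝ) < D := by exact_mod_cast hDpos
  have h4 : w * C ^ D / κ ^ D + 1 < Real.exp (D * R ν * (η / 2)) := by
    rw [div_lt_iff₀ (by positivity)] at hRν
    have h5 : Real.log (w * C ^ D / κ ^ D + 1) < D * R ν * (η / 2) := by
      calc _ < R ν * (D * (η / 2)) := hRν
        _ = _ := by ring
    rwa [Real.log_lt_iff_lt_exp (by positivity)] at h5
  linarith

/-- **The analytic core.** -/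
theorem CoreData.exists_zero [Nonempty ι] (h : CoreData t₀ ρ dg 𝒳 R u U G P)
    (hact : ∀ b : Ew w, (∀ j l, (∀ i, (U i t₀).re ≤ (U j t₀).re) →
      (∀ i, (U i t₀).re ≤ (U l t₀).re) → fderiv ℂ (U j) t₀ b = fderiv ℂ (U l) t₀ b) → b = 0) :
    ∀ᶠ ν in atTop, ∃ t ∈ ball t₀ ρ, ∀ i, G ν i t (yv R u ν t) = 0 := by
  by_contra hcon
  rw [not_eventually] at hcon
  obtain ⟨φ, hφ, h1⟩ := extraction_of_frequently_atTop hcon
  refine (h.subseq hφ).false_of_no_zero hact fun ν t ht => ?_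
  have h2 := h1 ν
  push Not at h2
  exact h2 t ht

end Pool.Agent.Lib.MP_209724_lc.GS
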