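import Mathlib
import Pool.Agent.Lib.MP_209724_lc.GS.QLin

/-!
# A generic point of a cone with sufficiently many active linear forms
-/

namespace Pool.Agent.Lib.MP_209724_lc.GS

open Filter Topology Metric Set MvPolynomial

variable {n : ℕ} {ι : Type}

private theorem mb_diff (P : MvPolynomial (Fin n) ℂ) :
    Differentiable ℂ fun z : Ew n => eval (fun i => z i) P := fun z => by
  have h := ((polyRing n).hasDeriv P z).differentiableAt
  exact h

/-- Nullstellensatz: a zero of the prime ideal `q` outside of the zeros of `P`. -/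
private theorem mb_zero (q : Ideal (MvPolynomial (Fin n) ℂ)) [hq : q.IsPrime]
    (P : MvPolynomial (Fin n) ℂ) (hP : P ∉ q) :
    ∃ z ∈ zset q, eval (fun i => z i) P ≠ 0 := by
  by_contra hcon
  push Not at hcon
  apply hP
  have h1 : P ∈ vanishingIdeal ℂ (zeroLocus ℂ q) := by
    rw [mem_vanishingIdeal_iff]
    intro x hx
    have h2 := hcon (WithLp.toLp 2 x) (by
      intro F hF
      have := (mem_zeroLocus_iff.1 hx) F hF
      rw [MvPolynomial.aeval_eq_eval] at this
      exact this)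
    rw [MvPolynomial.aeval_eq_eval]
    exact h2
  rw [vanishingIdeal_zeroLocus_eq_radical, hq.isRadical.radical] at h1
  exact h1

/-- scaling: arbitrarily small positive multiples of `z₁` are not zeros of `P` -/
private theorem mb_scale (P : MvPolynomial (Fin n) ℂ) (z₁ : Ew n)
    (hz₁ : eval (fun i => z₁ i) P ≠ 0) (δ : ℝ) (hδ : 0 < δ) :
    ∃ a : ℝ, 0 < a ∧ a < δ ∧ eval (fun i => ((a : ℂ) • z₁) i) P ≠ 0 := by
  set Q : Polynomial ℂ := aeval (fun i => Polynomial.C (z₁ i) * Polynomial.X) P with hQ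
  have hev : ∀ a : ℂ, Q.eval a = eval (fun i => (a • z₁) i) P := by
    intro a
    have h1 : (Polynomial.evalRingHom a).comp
        ((aeval (fun i => Polynomial.C (z₁ i) * Polynomial.X) :
          MvPolynomial (Fin n) ℂ →ₐ[ℂ] Polynomial ℂ) : MvPolynomial (Fin n) ℂ →+* Polynomial ℂ) =
        eval (fun i => (a • z₁) i) := by
      refine MvPolynomial.ringHom_ext ?_ ?_
      · intro c
        simp
      · intro i
        have e1 : ((Polynomial.evalRingHom a).comp
          ((aeval (fun i => Polynomial.C (z₁ i) * Polynomial.X) :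
            MvPolynomial (Fin n) ℂ →ₐ[ℂ] Polynomial ℂ) :
              MvPolynomial (Fin n) ℂ →+* Polynomial ℂ)) (X i) =
          Polynomial.eval a (aeval (fun i => Polynomial.C (z₁ i) * Polynomial.X)
            (X i : MvPolynomial (Fin n) ℂ)) := rfl
        rw [e1, aeval_X, eval_X, Polynomial.eval_mul, Polynomial.eval_C, Polynomial.eval_X,
          mul_comm]
        rfl
    have h2 := congrArg (fun f : MvPolynomial (Fin n) ℂ →+* ℂ => f P) h1
    simpa [hQ] using h2
  have hQ0 : Q ≠ 0 := by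
    intro h0
    have h1 := hev 1
    rw [h0, Polynomial.eval_zero, one_smul] at h1
    exact hz₁ h1.symm
  have hfin : (Q.roots.toFinset : Set ℂ).Finite := Finset.finite_toSet _
  have hinf : (Set.Ioo (0 : ℝ) δ).Infinite := Set.Ioo_infinite hδ
  have hpre : ((fun a : ℝ => (a : ℂ)) ⁻¹' (Q.roots.toFinset : Set ℂ)).Finite :=
    hfin.preimage (Complex.ofReal_injective.injOn)
  obtain ⟨a, ha, ha'⟩ := hinf.exists_notMem_finite hpre
  refine ⟨a, ha.1, ha.2, ?_⟩
  intro h0
  apply ha'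
  rw [← hev] at h0
  simp only [mem_preimage, Finset.mem_coe, Multiset.mem_toFinset]
  rw [Polynomial.mem_roots hQ0]
  exact h0

/-- Let the zero set `Z` of the prime ideal `q` be a cone, `p ∉ q` and `v_j`, `j ∈ ι`, finitely many
linear forms whose differences have no common zero `z ≠ 0` in `Z`. Then there is `z ∈ Z`, `p(z) ≠ 0`, such
that the differences of the forms `v_j` with `Re v_j(z)` maximal have no common zero `b ≠ 0` in the
Zariski tangent space of `Z` at `z`.

Proof. Replacing `p` by `p * p₂`, `p₂` from `exists_p`, it suffices to exclude the second alternative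
of `exists_p` for `Γ = {j | ∀ i, Re v_i z ≤ Re v_j z}`. Apply `exists_q_lin` to get, for `s = 1/2`,
a polynomial `q₀`, `q₀ 0 = 0`, and `η > 0` with
`Re q₀(z) + η ≤ Re v_j(z)` for some `j` if `z ∈ Z`, `‖z‖ = s`. Let `φ(z) = max_j Re v_j(z)`
(`Finset.univ.sup'`), `ε = η / (2 s²)` and `Ψ(z) = Re q₀(z) - φ(z) + ε ‖z‖²`, continuous on
`closedBall 0 s`; `Ψ ≤ -η/2` on `‖z‖ = s` and `Ψ(0) = 0`. There is `z₁ ∈ Z` with `p(z₁) ≠ 0`
(Nullstellensatz: `q` is prime; `MvPolynomial.vanishingIdeal_zeroLocus_eq_radical`), and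
`p(λ z₁)`, a polynomial in `λ`, nonzero at `λ = 1`, is nonzero for all small `λ > 0`; so there is
`z₀ = λ z₁ ∈ Z`, `‖z₀‖ < s`, `p(z₀) ≠ 0`, `Ψ(z₀) > -η/4`. Choose `T > 0` such that
`exp(-T η/4) |p(z₀)| > exp(-T η/2) sup_{closedBall 0 s} |p|`. Let `z` maximise the continuous function
`exp(T Ψ) |p|` on the compact set `Z ∩ closedBall 0 s`. Then `‖z‖ < s` and `p(z) ≠ 0`. Let `Γ` be as
above; suppose there is a curve `γ` as in the second alternative. Near `s' = 0`, by continuity,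
`φ(γ s') = max_{j ∈ Γ} Re v_j(γ s') = Re v_{j₀}(γ s')` for any `j₀ ∈ Γ` (the differences
`v_j - v_{j₀}` are constant along `γ`, with real part `0`). So
`exp(T Ψ(γ s')) |p(γ s')| = |Φ(s')| exp(T ε ‖γ s'‖²)` with
`Φ(s') = exp(T (q₀(γ s') - v_{j₀}(γ s'))) p(γ s')`, which contradicts `no_max_on_curve`. -/
theorem exists_point [Fintype ι] [Nonempty ι] (q : Ideal (MvPolynomial (Fin n) ℂ)) [q.IsPrime]
    (hcone : ∀ z ∈ zset q, ∀ a : ℝ, 0 < a → (a : ℂ) • z ∈ zset q)
    (v : ι → Ew n →L[ℂ] ℂ) (hv : ∀ z ∈ zset q, (∀ j l, v j z = v l z) → z = 0)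
    (p : MvPolynomial (Fin n) ℂ) (hp : p ∉ q) :
    ∃ z ∈ zset q, eval (fun i => z i) p ≠ 0 ∧ ∀ b : Ew n, InTan q z b →
      (∀ j l, (∀ i, (v i z).re ≤ (v j z).re) → (∀ i, (v i z).re ≤ (v l z).re) → v j b = v l b) →
      b = 0 := by
  classical
  obtain ⟨p₂, hp₂, hP2⟩ := exists_p q v
  set P : MvPolynomial (Fin n) ℂ := p * p₂ with hPdef
  have hPq : P ∉ q := fun h => by
    rcases (inferInstance : q.IsPrime).mem_or_mem h with h | h
    · exact hp h
    · exact hp₂ h
  have hPd := mb_diff P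
  have hPc : Continuous fun z : Ew n => eval (fun i => z i) P := hPd.continuous
  have hZcl : IsClosed (zset q) := by
    have : zset q = ⋂ F ∈ q, {z : Ew n | eval (fun i => z i) F = 0} := by
      ext z
      simp [zset]
    rw [this]
    exact isClosed_biInter fun F _ => isClosed_eq (mb_diff F).continuous continuous_const
  obtain ⟨q₀, hq₀d', hq₀0, η, hη, hq₀⟩ := exists_q_lin v (zset q) hZcl hv
  set s : ℝ := 1 / 2 with hs
  have hs0 : 0 < s := by norm_num [hs]
  have hs1 : s < 1 := by norm_num [hs]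
  have hq₀d : DifferentiableOn ℂ q₀ (ball 0 1) := hq₀d'.differentiableOn
  -- the maximum of the real parts
  set φ : Ew n → ℝ := fun z => Finset.univ.sup' Finset.univ_nonempty fun j => (v j z).re with hφ
  have hφc : Continuous φ := by
    have := Continuous.finset_sup'_apply (f := fun j (z : Ew n) => (v j z).re)
      (Finset.univ_nonempty (α := ι)) (fun j _ => Complex.continuous_re.comp (v j).continuous)
    exact this
  have hφle : ∀ z j, (v j z).re ≤ φ z := fun z j =>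
    Finset.le_sup' (f := fun j => (v j z).re) (Finset.mem_univ j)
  have hφ0 : φ 0 = 0 := by
    simp [hφ]
  set ε : ℝ := η / (2 * s ^ 2) with hε
  have hεpos : 0 < ε := by positivity
  set Ψ : Ew n → ℝ := fun z => (q₀ z).re - φ z + ε * ‖z‖ ^ 2 with hΨ
  have hsub : closedBall (0 : Ew n) s ⊆ ball 0 1 := closedBall_subset_ball hs1
  have hΨc : ContinuousOn Ψ (closedBall 0 s) := by
    have h1 : ContinuousOn q₀ (closedBall 0 s) := hq₀d.continuousOn.mono hsub
    exact ((Complex.continuous_re.comp_continuousOn h1).sub hφc.continuousOn).add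
      (Continuous.continuousOn (by fun_prop))
  have hΨ0 : Ψ 0 = 0 := by
    simp [hΨ, hq₀0, hφ0]
  have hΨs : ∀ z ∈ zset q, ‖z‖ = s → Ψ z ≤ -(η / 2) := by
    intro z hzq hz
    obtain ⟨j, hj⟩ := hq₀ z hzq hz
    have h1 := hφle z j
    have h2 : ε * ‖z‖ ^ 2 = η / 2 := by
      rw [hz, hε]
      field_simp
    simp only [hΨ]
    rw [h2]
    linarith
  -- the point `z₀`
  obtain ⟨z₁, hz₁, hz₁P⟩ := mb_zero q P hPq
  have hnear : ∀ᶠ z in 𝓝 (0 : Ew n), -(η / 4) < Ψ z ∧ ‖z‖ < s := by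
    have h1 : ContinuousAt Ψ 0 := hΨc.continuousAt (closedBall_mem_nhds _ hs0)
    have h2 : ∀ᶠ z in 𝓝 (0 : Ew n), -(η / 4) < Ψ z :=
      h1.eventually (lt_mem_nhds (by rw [hΨ0]; linarith))
    have h3 : ∀ᶠ z in 𝓝 (0 : Ew n), ‖z‖ < s :=
      (continuous_norm.continuousAt (x := (0 : Ew n))).eventually
        (gt_mem_nhds (by simpa only [norm_zero] using hs0))
    exact h2.and h3
  obtain ⟨δ, hδ, hball⟩ := Metric.eventually_nhds_iff.1 hnear
  obtain ⟨a, ha0, haδ, haP⟩ := mb_scale P z₁ hz₁P (δ / (‖z₁‖ + 1)) (by positivity)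
  set z₀ : Ew n := (a : ℂ) • z₁ with hz₀
  have hz₀Z : z₀ ∈ zset q := hcone z₁ hz₁ a ha0
  have hz₀n : ‖z₀‖ < δ := by
    rw [hz₀, norm_smul, Complex.norm_real, Real.norm_of_nonneg ha0.le]
    rw [lt_div_iff₀ (by positivity)] at haδ
    nlinarith [norm_nonneg z₁]
  obtain ⟨hz₀Ψ, hz₀s⟩ := hball (y := z₀) (by rw [dist_zero_right]; exact hz₀n)
  have hz₀P : 0 < ‖eval (fun i => z₀ i) P‖ := norm_pos_iff.2 haP
  -- the bound of `P`
  have hcomp : IsCompact (closedBall (0 : Ew n) s) := isCompact_closedBall 0 s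
  obtain ⟨M, hM⟩ := hcomp.exists_bound_of_continuousOn hPc.continuousOn
  have hM0 : 0 ≤ M := (norm_nonneg _).trans (hM 0 (mem_closedBall_self hs0.le))
  set A : ℝ := ‖eval (fun i => z₀ i) P‖ with hA
  set T : ℝ := 4 * (M + 1) / (η * A) with hT
  have hTpos : 0 < T := by positivity
  have hTM : Real.exp (-(T * (η / 2))) * M < Real.exp (-(T * (η / 4))) * A := by
    have h1 : Real.exp (-(T * (η / 4))) = Real.exp (-(T * (η / 2))) * Real.exp (T * (η / 4)) := by
      rw [← Real.exp_add]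
      congr 1
      ring
    rw [h1, mul_assoc]
    refine mul_lt_mul_of_pos_left ?_ (Real.exp_pos _)
    have h2 : T * (η / 4) + 1 ≤ Real.exp (T * (η / 4)) := Real.add_one_le_exp _
    have h3 : T * (η / 4) * A = M + 1 := by
      rw [hT]
      field_simp
    have h4 : (T * (η / 4) + 1) * A ≤ Real.exp (T * (η / 4)) * A :=
      mul_le_mul_of_nonneg_right h2 hz₀P.le
    nlinarith
  -- the maximum
  set g : Ew n → ℝ := fun z => Real.exp (T * Ψ z) * ‖eval (fun i => z i) P‖ with hg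
  have hKc : IsCompact (zset q ∩ closedBall (0 : Ew n) s) := hcomp.inter_left hZcl
  have hgc : ContinuousOn g (zset q ∩ closedBall (0 : Ew n) s) :=
    ((Real.continuous_exp.comp_continuousOn
      ((continuousOn_const.mul hΨc).mono inter_subset_right))).mul
      (hPc.norm.continuousOn)
  have hz₀K : z₀ ∈ zset q ∩ closedBall (0 : Ew n) s :=
    ⟨hz₀Z, by rw [mem_closedBall_zero_iff]; exact hz₀s.le⟩
  obtain ⟨z, hzK, hzmax⟩ := hKc.exists_isMaxOn ⟨z₀, hz₀K⟩ hgc
  have hg0 : Real.exp (-(T * (η / 4))) * A < g z := by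
    have h1 : Real.exp (-(T * (η / 4))) * A < g z₀ := by
      simp only [hg]
      refine mul_lt_mul_of_pos_right (Real.exp_lt_exp.2 ?_) hz₀P
      nlinarith
    exact lt_of_lt_of_le h1 (hzmax hz₀K)
  have hzs : ‖z‖ < s := by
    have h1 : ‖z‖ ≤ s := mem_closedBall_zero_iff.1 hzK.2
    refine lt_of_le_of_ne h1 fun h2 => ?_
    have h3 : g z ≤ Real.exp (-(T * (η / 2))) * M := by
      simp only [hg]
      refine mul_le_mul (Real.exp_le_exp.2 ?_) (hM z hzK.2) (norm_nonneg _) (Real.exp_pos _).le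
      have := hΨs z hzK.1 h2
      nlinarith
    linarith
  have hzP : eval (fun i => z i) P ≠ 0 := by
    intro h0
    have h1 : g z = 0 := by
      simp only [hg, h0, norm_zero, mul_zero]
    have h2 : 0 < Real.exp (-(T * (η / 4))) * A := by positivity
    linarith
  have hzpp : eval (fun i => z i) p ≠ 0 ∧ eval (fun i => z i) p₂ ≠ 0 := by
    rw [hPdef, map_mul] at hzP
    exact ⟨left_ne_zero_of_mul hzP, right_ne_zero_of_mul hzP⟩
  refine ⟨z, hzK.1, hzpp.1, ?_⟩
  set Γ : Finset ι := Finset.univ.filter fun j => ∀ i, (v i z).re ≤ (v j z).re with hΓ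
  have hmemΓ : ∀ j, j ∈ Γ ↔ ∀ i, (v i z).re ≤ (v j z).re := fun j => by
    simp [hΓ]
  rcases hP2 Γ z hzK.1 hzpp.2 with h | ⟨γ, r, hr, hγd, hγ0, hγne, hγZ, hγv⟩
  · intro b hb hbv
    exact h b hb fun j hj l hl => hbv j l ((hmemΓ j).1 hj) ((hmemΓ l).1 hl)
  exfalso
  obtain ⟨j₀, -, hj₀⟩ := Finset.exists_max_image (Finset.univ : Finset ι)
    (fun j => (v j z).re) Finset.univ_nonempty
  have hj₀Γ : j₀ ∈ Γ := (hmemΓ j₀).2 fun i => hj₀ i (Finset.mem_univ i)
  have hγc : ContinuousAt γ 0 := hγd.continuousOn.continuousAt (ball_mem_nhds _ hr)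
  have hev : ∀ᶠ x in 𝓝 (0 : ℂ), x ∈ ball (0 : ℂ) r ∧ ‖γ x‖ < s ∧
      ∀ i, i ∉ Γ → (v i (γ x)).re < (v j₀ (γ x)).re := by
    have h1 : ∀ᶠ x in 𝓝 (0 : ℂ), x ∈ ball (0 : ℂ) r := ball_mem_nhds _ hr
    have h2 : ∀ᶠ x in 𝓝 (0 : ℂ), ‖γ x‖ < s := by
      refine hγc.norm.eventually (gt_mem_nhds ?_)
      simpa only [hγ0] using hzs
    have h3 : ∀ᶠ x in 𝓝 (0 : ℂ), ∀ i, i ∉ Γ → (v i (γ x)).re < (v j₀ (γ x)).re := by
      rw [Filter.eventually_all]
      intro i
      by_cases hi : i ∈ Γ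
      · exact Filter.Eventually.of_forall fun x hx => absurd hi hx
      · have h4 : (v i z).re < (v j₀ z).re := by
          refine lt_of_le_of_ne (hj₀ i (Finset.mem_univ i)) fun h5 => hi ((hmemΓ i).2 fun k => ?_)
          rw [h5]
          exact hj₀ k (Finset.mem_univ k)
        have h5 : ContinuousAt (fun x => (v i (γ x)).re) 0 :=
          Complex.continuous_re.continuousAt.comp ((v i).continuous.continuousAt.comp hγc)
        have h6 : ContinuousAt (fun x => (v j₀ (γ x)).re) 0 :=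
          Complex.continuous_re.continuousAt.comp ((v j₀).continuous.continuousAt.comp hγc)
        have h7 := h5.eventually_lt h6 (by simpa only [hγ0] using h4)
        filter_upwards [h7] with x hx _
        exact hx
    filter_upwards [h1, h2, h3] with x a1 a2 a3
    exact ⟨a1, a2, a3⟩
  obtain ⟨r', hr', hball'⟩ := Metric.eventually_nhds_iff_ball.1 hev
  have hsubr : ball (0 : ℂ) r' ⊆ ball 0 r := fun x hx => (hball' x hx).1
  have hφγ : ∀ x ∈ ball (0 : ℂ) r', φ (γ x) = (v j₀ (γ x)).re := by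
    intro x hx
    obtain ⟨hx1, hx2, hx3⟩ := hball' x hx
    refine le_antisymm ?_ (hφle _ _)
    refine Finset.sup'_le _ _ fun i _ => ?_
    by_cases hi : i ∈ Γ
    · have h1 := hγv x hx1 i hi j₀ hj₀Γ
      have h2 : (v i z).re = (v j₀ z).re :=
        le_antisymm (hj₀ i (Finset.mem_univ i)) ((hmemΓ i).1 hi j₀)
      have h3 := congrArg Complex.re h1
      rw [Complex.sub_re, Complex.sub_re] at h3
      linarith
    · exact (hx3 i hi).le
  -- the holomorphic function
  set Φ : ℂ → ℂ := fun x => Complex.exp (T * (q₀ (γ x) - v j₀ (γ x))) *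
    eval (fun i => (γ x) i) P with hΦ
  have hγd' : DifferentiableOn ℂ γ (ball 0 r') := hγd.mono hsubr
  have hΦd : DifferentiableOn ℂ Φ (ball 0 r') := by
    have h1 : DifferentiableOn ℂ (fun x => q₀ (γ x)) (ball 0 r') :=
      hq₀d.comp hγd' fun x hx => hsub (mem_closedBall_zero_iff.2 (hball' x hx).2.1.le)
    have h2 : DifferentiableOn ℂ (fun x => v j₀ (γ x)) (ball 0 r') :=
      (v j₀).differentiable.comp_differentiableOn hγd'
    have h3 : DifferentiableOn ℂ (fun x => eval (fun i => (γ x) i) P) (ball 0 r') :=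
      hPd.comp_differentiableOn hγd'
    exact (((h1.sub h2).const_mul (T : ℂ)).cexp).mul h3
  have hΦn : ∀ x ∈ ball (0 : ℂ) r', ‖Φ x‖ * Real.exp (T * ε * ‖γ x‖ ^ 2) = g (γ x) := by
    intro x hx
    simp only [hΦ, hg, hΨ, norm_mul, Complex.norm_exp, hφγ x hx]
    have h1 : ((T : ℂ) * (q₀ (γ x) - v j₀ (γ x))).re =
        T * ((q₀ (γ x)).re - (v j₀ (γ x)).re) := by
      rw [Complex.re_ofReal_mul, Complex.sub_re]
    rw [h1]
    have h2 : Real.exp (T * ((q₀ (γ x)).re - (v j₀ (γ x)).re + ε * ‖γ x‖ ^ 2)) =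
        Real.exp (T * ((q₀ (γ x)).re - (v j₀ (γ x)).re)) * Real.exp (T * ε * ‖γ x‖ ^ 2) := by
      rw [← Real.exp_add]
      congr 1
      ring
    rw [h2]
    ring
  have h00 : (0 : ℂ) ∈ ball (0 : ℂ) r' := mem_ball_self hr'
  have hΦ0 : Φ 0 ≠ 0 := by
    simp only [hΦ, hγ0]
    exact mul_ne_zero (Complex.exp_ne_zero _) hzP
  obtain ⟨x, hx, hlt⟩ := no_max_on_curve hr' hγd'
    (fun x hx hx0 => by rw [hγ0]; exact hγne x (hsubr hx) hx0) hΦd hΦ0 (mul_pos hTpos hεpos)
  rw [hΦn x hx, hΦn 0 h00, hγ0] at hlt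
  have hxK : γ x ∈ zset q ∩ closedBall (0 : Ew n) s :=
    ⟨hγZ x (hsubr hx), mem_closedBall_zero_iff.2 (hball' x hx).2.1.le⟩
  exact absurd (hzmax hxK) (not_le.2 hlt)

end Pool.Agent.Lib.MP_209724_lc.GS
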