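import Mathlib
import Pool.Agent.Lib.MP_209724_lc.GC.Close
import Pool.Agent.Lib.MP_209724_lc.GC.Final
import Pool.Agent.Lib.MP_209724_lc.GS.AsmA
import Pool.Agent.Lib.MP_209724_lc.GS.AsmC
import Pool.Agent.Lib.MP_209724_lc.GS.AsmD
import Pool.Agent.Lib.MP_209724_lc.GS.Core
import Pool.Agent.Lib.MP_209724_lc.GS.MacroB
import Pool.Agent.Lib.MP_209724_lc.GS.QLin
import Pool.Agent.Lib.MP_209724_lc.GS.Chart2
import Pool.Agent.Lib.MP_209724_lc.GD.Centers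

/-!
# Systems of exponential equations on a variety
-/

namespace Pool.Agent.Lib.MP_209724_lc.GS

open MvPolynomial Filter Topology Metric Set
open GC (prj cone)
open MV (lead)

variable {n d : ℕ}

/-- the generic point of a variety -/
theorem exists_generic_pt (p : Ideal (MvPolynomial (Fin n) ℂ)) [hp : p.IsPrime]
    (hd : Algebra.trdeg ℂ (MvPolynomial (Fin n) ℂ ⧸ p) = d) :
    ∃ (L : Type) (_ : Field L) (_ : Algebra ℂ L) (ξ : Fin n → L), (∀ c, c ∈ p ↔ aeval ξ c = 0) ∧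
      Algebra.trdeg ℂ (IntermediateField.adjoin ℂ (Set.range ξ)) = d := by
  set L := FractionRing (MvPolynomial (Fin n) ℂ ⧸ p) with hL
  set π : MvPolynomial (Fin n) ℂ →ₐ[ℂ] L :=
    (IsScalarTower.toAlgHom ℂ (MvPolynomial (Fin n) ℂ ⧸ p) L).comp (Ideal.Quotient.mkₐ ℂ p) with hπ
  have hπ0 : ∀ f, π f = 0 ↔ f ∈ p := by
    intro f
    have hinj : Function.Injective (algebraMap (MvPolynomial (Fin n) ℂ ⧸ p) L) :=
      IsFractionRing.injective _ _
    rw [hπ, AlgHom.comp_apply, IsScalarTower.coe_toAlgHom', map_eq_zero_iff _ hinj,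
      Ideal.Quotient.mkₐ_eq_mk, Ideal.Quotient.eq_zero_iff_mem]
  have hπa : ∀ f, π f = aeval (fun i => π (X i)) f := by
    intro f
    have : π = aeval (fun i => π (X i)) := by
      ext i
      simp
    exact congrArg (fun φ => φ f) this
  have h1 : ∀ c, c ∈ p ↔ aeval (fun i => π (X i)) c = 0 := by
    intro c
    rw [← hπ0, ← hπa]
  refine ⟨L, inferInstance, inferInstance, fun i => π (X i), h1, ?_⟩
  rw [GC.trdeg_adjoin _ p h1, hd]

/-- Nullstellensatz for prime ideals -/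
theorem mem_of_forall_zero (q : Ideal (MvPolynomial (Fin n) ℂ)) [hq : q.IsPrime]
    (f : MvPolynomial (Fin n) ℂ)
    (h : ∀ z : Fin n → ℂ, (∀ f ∈ q, eval z f = 0) → eval z f = 0) : f ∈ q := by
  have h1 : f ∈ vanishingIdeal ℂ (zeroLocus ℂ q) := by
    rw [mem_vanishingIdeal_iff]
    intro x hx
    have h2 : eval x f = 0 := h x fun g hg => by
      have h3 := hx g hg
      rwa [aeval_eq_eval] at h3
    rw [aeval_eq_eval]
    exact h2
  rw [vanishingIdeal_zeroLocus_eq_radical, hq.isRadical.radical] at h1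
  exact h1

/-- **Systems of exponential equations on a variety.** -/
theorem final (hd : 0 < d) {ι : Type} [Fintype ι]
    (p : Ideal (MvPolynomial (Fin n) ℂ)) [p.IsPrime]
    (hp : Algebra.trdeg ℂ (MvPolynomial (Fin n) ℂ ⧸ p) = d)
    (q : Ideal (MvPolynomial (Fin n) ℂ)) [hqp : q.IsPrime]
    (hq : Algebra.trdeg ℂ (MvPolynomial (Fin n) ℂ ⧸ q) = d)
    (hq1 : ∀ z : Fin n → ℂ, (∀ f ∈ q, eval z f = 0) → z ∈ cone p)
    (hq2 : ∃ G ∉ q, ∀ z ∈ cone p, eval z G ≠ 0 → ∀ f ∈ q, eval z f = 0)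
    (m : ι → Fin n → ℂ)
    (hm : ∀ z : Fin n → ℂ, (∀ f ∈ q, eval z f = 0) →
      (∀ j l, ∑ k, m j k * z k = ∑ k, m l k * z k) → z = 0)
    (κ : ι → ℤ) (e : Fin d → ℤ) (dg : Fin d → ℕ) (hdg : ∀ i, 0 < dg i)
    (P : Fin d → MvPolynomial ι (MvPolynomial (Fin n) ℂ))
    (hhom : ∀ i, ∀ α ∈ (P i).support, ∑ j, α j = dg i)
    (hdeg : ∀ i, ∀ α ∈ (P i).support, (((P i).coeff α).totalDegree : ℤ) ≤ wgt (e i) κ α)
    (hnd : ∃ G ∉ q, ∀ z : Fin n → ℂ, (∀ f ∈ q, eval z f = 0) → eval z G ≠ 0 →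
      ∀ Y ∈ torus m κ, Y ≠ 0 →
      (∀ i, eval Y (topPoly (P i) (e i) κ z) = 0) → ∀ b : Fin n → ℂ,
      (∀ f ∈ q, ∑ k, b k * eval z (pderiv k f) = 0) →
      (∀ j l, Y j ≠ 0 → Y l ≠ 0 → ∑ k, m j k * b k = ∑ k, m l k * b k) → b = 0)
    (g : MvPolynomial (Fin n) ℂ) (hg : g ∉ p) (M : ℝ) :
    ∃ x : Fin n → ℂ, M < ‖x‖ ∧ (∀ f ∈ p, eval x f = 0) ∧ eval x g ≠ 0 ∧
      ∀ i, eval (fun j => Complex.exp (∑ k, m j k * x k)) (map (eval x) (P i)) = 0 := by
  classical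
  obtain ⟨G₁, hG₁, hq2⟩ := hq2
  obtain ⟨G₂, hG₂, hnd⟩ := hnd
  obtain ⟨L₁, _, _, ξ₁, hξ₁, htr₁⟩ := exists_generic_pt p hp
  obtain ⟨L₂, _, _, ξ₂, hξ₂, htr₂⟩ := exists_generic_pt q hq
  obtain ⟨Z, hZ₁, hZ₂⟩ := exists_proj2 ξ₁ ξ₂ (d := d) (by rw [htr₁]) (by rw [htr₂])
  set ζ₁ : Fin d → L₁ := fun j => ∑ i, algebraMap ℂ L₁ (Z j i) * ξ₁ i with hζ₁
  set ζ₂ : Fin d → L₂ := fun j => ∑ i, algebraMap ℂ L₂ (Z j i) * ξ₂ i with hζ₂
  have hmem : ∀ {L : Type} [Field L] [Algebra ℂ L] (ξ : Fin n → L) (j : Fin d),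
      ∑ i, algebraMap ℂ L (Z j i) * ξ i ∈ IntermediateField.adjoin ℂ (Set.range ξ) := by
    intro L _ _ ξ j
    refine sum_mem fun i _ => mul_mem ?_ (IntermediateField.subset_adjoin _ _ ⟨i, rfl⟩)
    exact IntermediateField.algebraMap_mem _ _
  have halg₁ : ∀ i, IsAlgebraic (Algebra.adjoin ℂ (Set.range ζ₁)) (ξ₁ i) := fun i =>
    isAlgebraic_coord ξ₁ htr₁ ζ₁ (hmem ξ₁) hZ₁ i
  have halg₂ : ∀ i, IsAlgebraic (Algebra.adjoin ℂ (Set.range ζ₂)) (ξ₂ i) := fun i =>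
    isAlgebraic_coord ξ₂ htr₂ ζ₂ (hmem ξ₂) hZ₂ i
  choose F D hF hD hFD using fun i => exists_rel ξ₂ Z ζ₂ (fun j => rfl) hZ₂ i (halg₂ i)
  obtain ⟨β, hβ, hfam⟩ := exists_family p ξ₁ hξ₁ Z ζ₁ (fun j => rfl) hZ₁ halg₁ g hg
  -- the leading form of `β` as a polynomial on `ℂ^n`
  set βq : MvPolynomial (Fin n) ℂ := aeval (fun j => ∑ i, C (Z j i) * X i) (lead β) with hβq
  have hβqe : ∀ z : Fin n → ℂ, eval z βq = eval (prj Z z) (lead β) := by
    intro z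
    rw [hβq, ← MvPolynomial.aeval_eq_eval, ← MvPolynomial.aeval_eq_eval]
    rw [← AlgHom.comp_apply, MvPolynomial.comp_aeval]
    congr 2
    funext j
    simp [prj]
  have hβqn : βq ∉ q := by
    rw [hξ₂, hβq, ← AlgHom.comp_apply, MvPolynomial.comp_aeval]
    intro h0
    apply MV.lead_ne_zero hβ
    apply (algebraicIndependent_iff.mp hZ₂)
    rw [← h0]
    congr 2
    funext j
    simp [hζ₂]
  -- a coordinate which is not in `q`
  obtain ⟨k₀, hk₀⟩ : ∃ k₀ : Fin n, (X k₀ : MvPolynomial (Fin n) ℂ) ∉ q := by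
    by_contra hcon
    push Not at hcon
    have h1 : ∀ i, ξ₂ i = 0 := by
      intro i
      have := (hξ₂ (X i)).1 (hcon i)
      rwa [aeval_X] at this
    have h2 : ζ₂ ⟨0, hd⟩ = 0 := by
      rw [hζ₂]
      simp [h1]
    exact hZ₂.ne_zero _ h2
  -- the point
  set pt : MvPolynomial (Fin n) ℂ := G₁ * G₂ * (∏ i, D i) * βq * X k₀ with hpt
  have hptq : pt ∉ q := by
    have hmul : ∀ {a b : MvPolynomial (Fin n) ℂ}, a ∉ q → b ∉ q → a * b ∉ q :=
      fun ha hb h => (hqp.mem_or_mem h).elim ha hb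
    refine hmul (hmul (hmul (hmul hG₁ hG₂) ?_) hβqn) hk₀
    rw [Ideal.IsPrime.prod_mem_iff (hp := hqp)]
    rintro ⟨i, _, hi⟩
    exact hD i ((hξ₂ _).1 hi)
  have hne : Nonempty ι := by
    by_contra hcon
    rw [not_nonempty_iff] at hcon
    apply hk₀
    refine mem_of_forall_zero q _ fun z hz => ?_
    rw [hm z hz (fun j => (hcon.false j).elim), eval_X]
    rfl
  set v : ι → Ew n →L[ℂ] ℂ := fun j => ∑ k, m j k • (EuclideanSpace.proj k : Ew n →L[ℂ] ℂ) with hv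
  have hva : ∀ j (b : Ew n), v j b = ∑ k, m j k * b k := by
    intro j b
    rw [hv]
    simp only [sum_apply, smul_apply, smul_eq_mul]
    rfl
  obtain ⟨z₁, hz₁q, hz₁p, hz₁a⟩ := exists_point q (by
      intro z hz a ha f hf
      have h1 := scale_component p q hq1 G₁ hG₁ hq2 (fun i => z i) hz a ha f hf
      have h2 : (fun i => ((a : ℂ) • z : Ew n) i) = fun i => (a : ℂ) * z i := by
        funext i
        simp
      rw [h2]
      exact h1) v (by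
      intro b hbq hb
      have h1 := hm (fun i => b i) hbq (fun j l => by
        have h2 := hb j l
        rwa [hva, hva] at h2)
      ext i
      exact congrFun h1 i) pt hptq
  set z₀ : Fin n → ℂ := fun i => z₁ i with hz₀
  have hz₀q : ∀ f ∈ q, eval z₀ f = 0 := hz₁q
  have hz₀c : z₀ ∈ cone p := hq1 z₀ hz₀q
  rw [hpt] at hz₁p
  simp only [map_mul, map_prod, mul_ne_zero_iff, Finset.prod_ne_zero_iff, Finset.mem_univ,
    true_imp_iff, eval_X] at hz₁p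
  obtain ⟨⟨⟨⟨hG₁z, hG₂z⟩, hDz⟩, hβz⟩, hkz⟩ := hz₁p
  have hβz' : eval (prj Z z₀) (lead β) ≠ 0 := by
    rw [← hβqe]
    exact hβz
  have hz₀0 : z₀ ≠ 0 := fun h => hkz (congrFun h k₀)
  -- the chart
  have hlin : LinearIndependent ℂ Z := linearIndependent_rows ξ₂ Z hZ₂
  have hdn : d ≤ n := by
    have := hlin.fintype_card_le_finrank
    simpa using this
  have hdk : d + (n - d) = n := Nat.add_sub_cancel' hdn
  obtain ⟨σ, hσ⟩ := exists_sigma hdk Z hlin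
  have hFq : ∀ i, F i ∈ q := fun i => (hξ₂ _).2 (hF i)
  obtain ⟨H, ρ₁, r₀, ρ, hρ, hρρ₁, hr₀, hHd, hHw, hZH, hr₀Z, huniq, hHshell⟩ :=
    exists_chart2 hdk (cone p) z₀ hz₀c (fun l => G₁ * F (σ l)) (by
      intro l w' hw'
      rw [map_mul]
      by_cases h : eval w' G₁ = 0
      · rw [h, zero_mul]
      · rw [hq2 w' hw' h _ (hFq _), mul_zero]) Z (by
      intro b hb hbZ
      refine hσ b hbZ fun l => ?_
      have h1 := hb l
      have h2 : ∑ i, b i * eval z₀ (pderiv i (G₁ * F (σ l))) =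
          eval z₀ G₁ * ∑ i, b i * eval z₀ (pderiv i (F (σ l))) := by
        rw [Finset.mul_sum]
        refine Finset.sum_congr rfl fun i _ => ?_
        rw [pderiv_mul, map_add, map_mul, map_mul, hz₀q _ (hFq _)]
        ring
      rw [h2, hFD _ _ _ hbZ] at h1
      rcases mul_eq_zero.1 h1 with h3 | h3
      · exact absurd h3 hG₁z
      · rcases mul_eq_zero.1 h3 with h4 | h4
        · exact h4
        · exact absurd h4 (hDz _))
  have hclose := GC.closeness p z₀ Z H hHd.continuousOn hr₀Z huniq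
  obtain ⟨ρ', r, X', hρ', hρ'ρ, hr0, hr, hXd, hXp, hXH⟩ :=
    hfam z₀ hz₀c hβz' H ρ r₀ hρ hr₀ hHshell hclose
  -- a smaller ball
  have hHdρ : DifferentiableOn ℂ H (ball (prj Z z₀) ρ₁) := hHd.differentiableOn (by simp)
  have hHc : ContinuousAt H (prj Z z₀) :=
    hHd.continuousOn.continuousAt (isOpen_ball.mem_nhds (mem_ball_self (hρ.trans_le hρρ₁)))
  have hev : ∀ᶠ z in 𝓝 (prj Z z₀), eval (H z) G₁ ≠ 0 ∧ eval (H z) G₂ ≠ 0 ∧
      ‖z₀‖ / 2 < ‖H z‖ := by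
    have hHc' : Tendsto H (𝓝 (prj Z z₀)) (𝓝 z₀) := by
      have := hHc.tendsto
      rwa [hHw] at this
    refine ((((MvPolynomial.continuous_eval G₁).tendsto z₀).comp hHc').eventually_ne hG₁z).and
      (((((MvPolynomial.continuous_eval G₂).tendsto z₀).comp hHc').eventually_ne hG₂z).and ?_)
    exact hHc'.norm.eventually_const_lt (half_lt_self (norm_pos_iff.2 hz₀0))
  obtain ⟨ρa, hρa, hρaB⟩ := Metric.mem_nhds_iff.mp hev
  set ρ₂ : ℝ := min ρ' ρa with hρ₂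
  have hρ₂0 : 0 < ρ₂ := lt_min hρ' hρa
  have hb1 : ball (prj Z z₀) ρ₂ ⊆ ball (prj Z z₀) ρ' := ball_subset_ball (min_le_left _ _)
  have hb2 : ball (prj Z z₀) ρ₂ ⊆ ball (prj Z z₀) ρa := ball_subset_ball (min_le_right _ _)
  have hb3 : ball (prj Z z₀) ρ₂ ⊆ ball (prj Z z₀) ρ :=
    hb1.trans (ball_subset_ball hρ'ρ)
  have hb4 : ball (prj Z z₀) ρ₂ ⊆ ball (prj Z z₀) ρ₁ :=
    hb3.trans (ball_subset_ball hρρ₁)
  have hHq : ∀ z ∈ ball (prj Z z₀) ρ₂, ∀ f ∈ q, eval (H z) f = 0 := by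
    intro z hz
    refine hq2 (H z) ?_ (hρaB (hb2 hz)).1
    refine ⟨r, fun ν i => (r ν : ℂ) * X' ν z i, hr, fun ν => (hXp ν z (hb1 hz)).1, ?_⟩
    have h1 : (fun ν => (r ν)⁻¹ • fun i => (r ν : ℂ) * X' ν z i) = fun ν => X' ν z := by
      funext ν i
      have : (r ν : ℂ) ≠ 0 := by exact_mod_cast (hr0 ν).ne'
      simp only [Pi.smul_apply, Complex.real_smul, Complex.ofReal_inv]
      field_simp
    rw [h1, tendsto_iff_norm_sub_tendsto_zero, Metric.tendsto_atTop]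
    intro ε hε
    obtain ⟨N, hN⟩ := eventually_atTop.1 (hXH (ε / 2) (half_pos hε))
    refine ⟨N, fun ν hν => ?_⟩
    rw [Real.dist_eq, sub_zero, abs_of_nonneg (norm_nonneg _)]
    exact (hN ν hν z (hb1 hz)).trans_lt (half_lt_self hε)
  have hcore := coreData_of_family q Z m κ e dg hdg P hhom hdeg (prj Z z₀) hρ₂0 H
    (hHdρ.mono hb4) (B := ‖z₀‖ + r₀ / 2) (by
      intro z hz
      have h1 := hHshell z (hb3 hz)
      have h2 : H z = (H z - z₀) + z₀ := by abel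
      rw [h2]
      refine (norm_add_le _ _).trans ?_
      linarith) (fun z hz => hZH z (hb4 hz)) hHq
    (fun z hz => hnd (H z) (hHq z hz) (hρaB (hb2 hz)).2.1) r hr0 hr X'
    (fun ν => (hXd ν).mono hb1) (fun ε hε => (hXH ε hε).mono fun ν h z hz => h z (hb1 hz))
  -- the active differences
  set t₀ : Ew d := WithLp.toLp 2 (prj Z z₀) with ht₀
  have ht₀' : WithLp.ofLp t₀ = prj Z z₀ := rfl
  have hmem0 : prj Z z₀ ∈ ball (prj Z z₀) ρ₂ := mem_ball_self hρ₂0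
  have hdiff0 : DifferentiableAt ℂ H (WithLp.ofLp t₀) :=
    hHdρ.differentiableAt (isOpen_ball.mem_nhds (hb4 hmem0))
  have hact : ∀ b : Ew d, (∀ j l,
      (∀ i, (∑ k, m i k * H (WithLp.ofLp t₀) k).re ≤ (∑ k, m j k * H (WithLp.ofLp t₀) k).re) →
      (∀ i, (∑ k, m i k * H (WithLp.ofLp t₀) k).re ≤ (∑ k, m l k * H (WithLp.ofLp t₀) k).re) →
      fderiv ℂ (fun t : Ew d => ∑ k, m j k * H (WithLp.ofLp t) k) t₀ b =
      fderiv ℂ (fun t : Ew d => ∑ k, m l k * H (WithLp.ofLp t) k) t₀ b) → b = 0 := by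
    intro b hb
    simp only [fderiv_lin H _ t₀ hdiff0] at hb
    rw [ht₀', hHw] at hb
    set β' : Fin n → ℂ := fderiv ℂ H (prj Z z₀) (WithLp.ofLp b) with hβ'
    have h1 : (WithLp.toLp 2 β' : Ew n) = 0 := by
      refine hz₁a _ ?_ ?_
      · intro f hf
        have h2 := chart_tangent q H (hHdρ.mono hb4) hHq hmem0 (WithLp.ofLp b) hf
        rw [hHw] at h2
        exact h2
      · intro j l hj hl
        rw [hva, hva]
        simp only [hva] at hj hl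
        exact hb j l hj hl
    have h2 : fderiv ℂ H (prj Z z₀) (WithLp.ofLp b) = 0 := by
      have := congrArg WithLp.ofLp h1
      exact this
    have h3 := chart_injective Z H (hHdρ.mono hb4) (fun z hz => hZH z (hb4 hz)) hmem0
      (WithLp.ofLp b) h2
    have h4 : b = WithLp.toLp 2 (WithLp.ofLp b) := rfl
    rw [h4, h3]
    rfl
  have hzero := hcore.exists_zero hact
  -- large points
  have hlarge : ∀ᶠ ν in atTop, ∀ z ∈ ball (prj Z z₀) ρ₂, M < ‖fun i => (r ν : ℂ) * X' ν z i‖ := by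
    have hz₀n : 0 < ‖z₀‖ := norm_pos_iff.2 hz₀0
    filter_upwards [hXH (‖z₀‖ / 4) (by positivity), hr.eventually_gt_atTop (4 * M / ‖z₀‖)]
      with ν h1 h2 z hz
    have h3 := h1 z (hb1 hz)
    have h4 := (hρaB (hb2 hz)).2.2
    have h5 : ‖z₀‖ / 4 < ‖X' ν z‖ := by
      have h6 : ‖H z‖ ≤ ‖X' ν z - H z‖ + ‖X' ν z‖ := by
        have h7 : H z = -(X' ν z - H z) + X' ν z := by abel
        calc ‖H z‖ = ‖-(X' ν z - H z) + X' ν z‖ := by rw [← h7]
          _ ≤ _ := by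
            refine (norm_add_le _ _).trans ?_
            rw [norm_neg]
      linarith
    have h6 : (fun i => (r ν : ℂ) * X' ν z i) = (r ν : ℂ) • X' ν z := rfl
    rw [h6, norm_smul, Complex.norm_real, Real.norm_eq_abs, abs_of_pos (hr0 ν)]
    rw [div_lt_iff₀ hz₀n] at h2
    have h7 := hr0 ν
    nlinarith
  obtain ⟨ν, ⟨t, ht, hz⟩, hM⟩ := (hzero.and hlarge).exists
  have htb : WithLp.ofLp t ∈ ball (prj Z z₀) ρ₂ := by
    rw [mem_ball, dist_eq_norm] at ht ⊢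
    refine lt_of_le_of_lt ?_ ht
    rw [pi_norm_le_iff_of_nonneg (norm_nonneg _)]
    intro i
    exact PiLp.norm_apply_le (t - t₀) i
  have hXt := hXp ν (WithLp.ofLp t) (hb1 htb)
  refine ⟨fun i => (r ν : ℂ) * X' ν (WithLp.ofLp t) i, hM _ htb, hXt.1, hXt.2.1, fun i => ?_⟩
  have h1 := hz i
  unfold yv at h1
  rw [scaleEval_exp (P i) (e i) κ m (hr0 ν)] at h1
  rcases mul_eq_zero.1 h1 with h2 | h2
  · exact absurd h2 (zpow_ne_zero _ (by exact_mod_cast (hr0 ν).ne'))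
  · exact h2

end Pool.Agent.Lib.MP_209724_lc.GS
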